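import Pool.Agent.H21.Stair.Basic

/-!
# The Airy function by a contour integral

`F n a x = ∫ (i z) ^ n exp (i (z ^ 3 / 3 + x z)) dz` over the line `Im z = a > 0`.
-/

namespace Pool.Agent.H21.Stair

namespace AiryAux

open MeasureTheory Set Filter Topology

open Complex (I)

/-- the point of the line -/
noncomputable def zz (a s : ℝ) : ℂ := s + a * I

/-- the integrand -/
noncomputable def fA (n : ℕ) (a : ℝ) (x : ℂ) (s : ℝ) : ℂ :=
  (I * zz a s) ^ n * Complex.exp (I * ((zz a s) ^ 3 / 3 + x * zz a s))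

/-- the integral -/
noncomputable def F (n : ℕ) (a : ℝ) (x : ℂ) : ℂ := ∫ s, fA n a x s

theorem norm_exp_zz (a s : ℝ) (x : ℂ) :
    ‖Complex.exp (I * ((zz a s) ^ 3 / 3 + x * zz a s))‖ =
      Real.exp (-a * s ^ 2 + a ^ 3 / 3 - (x.re * a + x.im * s)) := by
  rw [Complex.norm_exp]
  congr 1
  have h3 : (zz a s) ^ 3 = (zz a s) * (zz a s) * (zz a s) := by ring
  have h4 : (zz a s) ^ 3 / 3 = ((1 / 3 : ℝ) : ℂ) * ((zz a s) * (zz a s) * (zz a s)) := by
    rw [h3]; push_cast; ring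
  rw [h4]
  simp only [zz, Complex.mul_re, Complex.mul_im, Complex.add_re, Complex.add_im, Complex.I_re,
    Complex.I_im, Complex.ofReal_re, Complex.ofReal_im]
  ring

theorem norm_zz_le (a s : ℝ) (ha : 0 ≤ a) : ‖zz a s‖ ≤ |s| + a := by
  unfold zz
  refine (norm_add_le _ _).trans ?_
  simp [abs_of_nonneg ha]

theorem norm_fA (n : ℕ) (a s : ℝ) (x : ℂ) : ‖fA n a x s‖ =
    ‖zz a s‖ ^ n * Real.exp (-a * s ^ 2 + a ^ 3 / 3 - (x.re * a + x.im * s)) := by
  rw [fA, norm_mul, norm_pow, norm_mul, Complex.norm_I, one_mul, norm_exp_zz]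

theorem fA_bound (n : ℕ) {a1 a2 K : ℝ} (h1 : 0 < a1) (hK : 0 ≤ K) :
    ∃ C : ℝ, ∀ a : ℝ, a1 ≤ a → a ≤ a2 → ∀ x : ℂ, ‖x‖ ≤ K → ∀ s : ℝ,
      ‖fA n a x s‖ ≤ C * Real.exp (-(a1 / 2) * s ^ 2) := by
  refine ⟨(n.factorial : ℝ) * Real.exp (a2 ^ 3 / 3 + (K + 1) * a2 + (K + 1) ^ 2 / (2 * a1)), ?_⟩
  intro a ha1 ha2 x hx s
  have ha : 0 < a := h1.trans_le ha1
  rw [norm_fA]
  have hz : ‖zz a s‖ ^ n ≤ (n.factorial : ℝ) * Real.exp (|s| + a2) := by
    have h3 : ‖zz a s‖ ≤ |s| + a2 := (norm_zz_le a s ha.le).trans (by linarith)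
    have h4 : (|s| + a2) ^ n / (n.factorial : ℝ) ≤ Real.exp (|s| + a2) :=
      Real.pow_div_factorial_le_exp _ (by linarith [norm_nonneg (zz a s)]) n
    have h5 : (0 : ℝ) < n.factorial := by exact_mod_cast n.factorial_pos
    rw [div_le_iff₀ h5] at h4
    calc ‖zz a s‖ ^ n ≤ (|s| + a2) ^ n := pow_le_pow_left₀ (norm_nonneg _) h3 n
      _ ≤ _ := by linarith
  refine (mul_le_mul_of_nonneg_right hz (Real.exp_pos _).le).trans ?_
  rw [mul_assoc, mul_assoc, ← Real.exp_add, ← Real.exp_add]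
  apply mul_le_mul_of_nonneg_left _ (Nat.cast_nonneg _)
  apply Real.exp_le_exp.2
  have hxr : |x.re| ≤ K := (Complex.abs_re_le_norm x).trans hx
  have hxi : |x.im| ≤ K := (Complex.abs_im_le_norm x).trans hx
  have e1 : -(x.re * a) ≤ K * a2 := by
    calc -(x.re * a) ≤ |x.re| * a := by
          have := neg_abs_le x.re
          nlinarith
      _ ≤ K * a2 := mul_le_mul hxr ha2 ha.le hK
  have e2 : -(x.im * s) ≤ K * |s| := by
    calc -(x.im * s) ≤ |x.im * s| := neg_le_abs _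
      _ = |x.im| * |s| := abs_mul _ _
      _ ≤ K * |s| := mul_le_mul_of_nonneg_right hxi (abs_nonneg _)
  have e3 : a ^ 3 ≤ a2 ^ 3 := pow_le_pow_left₀ ha.le ha2 3
  have e4 : -a * s ^ 2 ≤ -a1 * s ^ 2 := by nlinarith [sq_nonneg s]
  have e5 : (K + 1) * |s| ≤ a1 / 2 * s ^ 2 + (K + 1) ^ 2 / (2 * a1) := by
    have h6 : a1 / 2 * s ^ 2 + (K + 1) ^ 2 / (2 * a1) - (K + 1) * |s| =
        (a1 * |s| - (K + 1)) ^ 2 / (2 * a1) := by
      field_simp
      rw [← sq_abs s]
      ring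
    have h7 : 0 ≤ (a1 * |s| - (K + 1)) ^ 2 / (2 * a1) := by positivity
    linarith
  linarith

theorem continuous_fA (n : ℕ) (a : ℝ) (x : ℂ) : Continuous (fA n a x) := by
  unfold fA zz
  fun_prop

theorem integrable_fA (n : ℕ) {a : ℝ} (ha : 0 < a) (x : ℂ) : Integrable (fA n a x) := by
  obtain ⟨C, hC⟩ := fA_bound n (a2 := a) ha (norm_nonneg x)
  refine Integrable.mono' ((integrable_exp_neg_mul_sq (half_pos ha)).const_mul C)
    (continuous_fA n a x).aestronglyMeasurable (Eventually.of_forall fun s => ?_)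
  exact hC a le_rfl le_rfl x le_rfl s

theorem hasDerivAt_fA_x (n : ℕ) (a : ℝ) (x : ℂ) (s : ℝ) :
    HasDerivAt (fun x => fA n a x s) (fA (n + 1) a x s) x := by
  unfold fA
  have h1 : HasDerivAt (fun x : ℂ => I * ((zz a s) ^ 3 / 3 + x * zz a s)) (I * zz a s) x := by
    have := (((hasDerivAt_id x).mul_const (zz a s)).const_add ((zz a s) ^ 3 / 3)).const_mul I
    simpa using this
  have h2 := (h1.cexp).const_mul ((I * zz a s) ^ n)
  refine h2.congr_deriv ?_
  ring

theorem hasDerivAt_F (n : ℕ) {a : ℝ} (ha : 0 < a) (x : ℂ) :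
    HasDerivAt (F n a) (F (n + 1) a x) x := by
  obtain ⟨C, hC⟩ := fA_bound (n + 1) (a2 := a) ha (K := ‖x‖ + 1) (by positivity)
  refine (hasDerivAt_integral_of_dominated_loc_of_deriv_le
    (F := fun x s => fA n a x s) (F' := fun x s => fA (n + 1) a x s)
    (bound := fun s => C * Real.exp (-(a / 2) * s ^ 2)) (s := Metric.ball x 1)
    (Metric.ball_mem_nhds x one_pos) ?_ (integrable_fA n ha x)
    (continuous_fA (n + 1) a x).aestronglyMeasurable ?_
    ((integrable_exp_neg_mul_sq (half_pos ha)).const_mul C) ?_).2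
  · exact Eventually.of_forall fun y => (continuous_fA n a y).aestronglyMeasurable
  · refine Eventually.of_forall fun s y hy => ?_
    refine hC a le_rfl le_rfl y ?_ s
    have : ‖y - x‖ < 1 := by simpa [dist_eq_norm] using hy
    calc ‖y‖ = ‖x + (y - x)‖ := by rw [add_sub_cancel]
      _ ≤ ‖x‖ + ‖y - x‖ := norm_add_le _ _
      _ ≤ ‖x‖ + 1 := by linarith
  · exact Eventually.of_forall fun s y _ => hasDerivAt_fA_x n a y s

theorem F_two {a : ℝ} (ha : 0 < a) (x : ℂ) : F 2 a x = x * F 0 a x := by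
  have h1 : ∀ s : ℝ, HasDerivAt (fA 0 a x) (-I * (fA 2 a x s - x * fA 0 a x s)) s := by
    intro s
    have hz : HasDerivAt (fun s : ℝ => zz a s) 1 s := by
      have := (Complex.ofRealCLM.hasDerivAt (x := s)).add_const (a * I)
      simpa [zz] using this
    have h2 : HasDerivAt (fun s : ℝ => I * ((zz a s) ^ 3 / 3 + x * zz a s))
        (I * ((3 * (zz a s) ^ 2 * 1) / 3 + x * 1)) s := by
      have := (((hz.pow 3).div_const 3).add (hz.const_mul x)).const_mul I
      simpa using this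
    have h3 := h2.cexp
    have h4 : fA 0 a x = fun s : ℝ => Complex.exp (I * ((zz a s) ^ 3 / 3 + x * zz a s)) := by
      funext s; simp [fA]
    rw [h4]
    refine h3.congr_deriv ?_
    simp only [fA, mul_pow]
    linear_combination (zz a s ^ 2 * I) *
      Complex.exp (I * ((zz a s) ^ 3 / 3 + x * zz a s)) * Complex.I_sq
  have h5 : Integrable (fun s => -I * (fA 2 a x s - x * fA 0 a x s)) :=
    ((integrable_fA 2 ha x).sub ((integrable_fA 0 ha x).const_mul x)).const_mul (-I)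
  have h6 := integral_eq_zero_of_hasDerivAt_of_integrable h1 h5 (integrable_fA 0 ha x)
  rw [integral_const_mul, integral_sub (integrable_fA 2 ha x) ((integrable_fA 0 ha x).const_mul x),
    integral_const_mul] at h6
  have h7 : -I ≠ 0 := neg_ne_zero.2 Complex.I_ne_zero
  have h8 := (mul_eq_zero.1 h6).resolve_left h7
  rw [sub_eq_zero] at h8
  exact h8

theorem hasDerivAt_F_a {a : ℝ} (ha : 0 < a) (x : ℂ) : HasDerivAt (fun a => F 0 a x) 0 a := by
  obtain ⟨C0, hC0⟩ := fA_bound 0 (a1 := a / 2) (a2 := 2 * a) (half_pos ha) (norm_nonneg x)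
  obtain ⟨C2, hC2⟩ := fA_bound 2 (a1 := a / 2) (a2 := 2 * a) (half_pos ha) (norm_nonneg x)
  have h4 : fA 0 a x = fun s : ℝ => Complex.exp (I * ((zz a s) ^ 3 / 3 + x * zz a s)) := by
    funext s; simp [fA]
  have key := (hasDerivAt_integral_of_dominated_loc_of_deriv_le (μ := volume)
    (F := fun a s => fA 0 a x s) (F' := fun a s => fA 2 a x s - x * fA 0 a x s)
    (bound := fun s => (C2 + ‖x‖ * C0) * Real.exp (-(a / 2 / 2) * s ^ 2))
    (s := Ioo (a / 2) (2 * a)) (x₀ := a)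
    (Ioo_mem_nhds (by linarith) (by linarith)) ?_ (integrable_fA 0 ha x)
    ((continuous_fA 2 a x).sub ((continuous_fA 0 a x).const_smul x)).aestronglyMeasurable ?_
    ((integrable_exp_neg_mul_sq (by positivity)).const_mul _) ?_).2
  · have h6 : ∫ s, (fA 2 a x s - x * fA 0 a x s) = 0 := by
      rw [integral_sub (integrable_fA 2 ha x) ((integrable_fA 0 ha x).const_mul x),
        integral_const_mul]
      have := F_two ha x
      simp only [F] at this
      rw [this, sub_self]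
    rw [h6] at key
    exact key
  · exact Eventually.of_forall fun y => (continuous_fA 0 y x).aestronglyMeasurable
  · refine Eventually.of_forall fun s b hb => ?_
    refine (norm_sub_le _ _).trans ?_
    rw [norm_mul, add_mul, mul_assoc]
    exact add_le_add (hC2 b hb.1.le hb.2.le x le_rfl s)
      (mul_le_mul_of_nonneg_left (hC0 b hb.1.le hb.2.le x le_rfl s) (norm_nonneg x))
  · refine Eventually.of_forall fun s b _ => ?_
    have hz : HasDerivAt (fun b : ℝ => zz b s) I b := by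
      have := ((Complex.ofRealCLM.hasDerivAt (x := b)).mul_const I).const_add (s : ℂ)
      simpa [zz] using this
    have h2 : HasDerivAt (fun b : ℝ => I * ((zz b s) ^ 3 / 3 + x * zz b s))
        (I * ((3 * (zz b s) ^ 2 * I) / 3 + x * I)) b := by
      have := (((hz.pow 3).div_const 3).add (hz.const_mul x)).const_mul I
      simpa using this
    have h3 := h2.cexp
    have h5 : (fun b => fA 0 b x s) = fun b : ℝ =>
        Complex.exp (I * ((zz b s) ^ 3 / 3 + x * zz b s)) := by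
      funext b; simp [fA]
    rw [h5]
    refine h3.congr_deriv ?_
    simp only [fA, pow_zero, one_mul, mul_pow]
    linear_combination x *
      Complex.exp (I * ((zz b s) ^ 3 / 3 + x * zz b s)) * Complex.I_sq

theorem F_indep0 {a b : ℝ} (ha : 0 < a) (hab : a ≤ b) (x : ℂ) : F 0 b x = F 0 a x := by
  refine constant_of_has_deriv_right_zero (f := fun a => F 0 a x) (a := a) (b := b) ?_ ?_ b
    ⟨hab, le_rfl⟩
  · intro y hy
    exact (hasDerivAt_F_a (ha.trans_le hy.1) x).continuousAt.continuousWithinAt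
  · intro y hy
    exact (hasDerivAt_F_a (ha.trans_le hy.1) x).hasDerivWithinAt

theorem F_indep {a b : ℝ} (ha : 0 < a) (hb : 0 < b) : F 0 a = F 0 b := by
  funext x
  rcases le_total a b with h | h
  · exact (F_indep0 ha h x).symm
  · exact F_indep0 hb h x

theorem F_indep1 {a b : ℝ} (ha : 0 < a) (hb : 0 < b) : F 1 a = F 1 b := by
  funext x
  have h1 := hasDerivAt_F 0 ha x
  have h2 := hasDerivAt_F 0 hb x
  rw [F_indep ha hb] at h1
  exact h1.unique h2

/-- the Airy function (times `2 pi`) -/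
noncomputable def A (x : ℂ) : ℂ := F 0 1 x
/-- its derivative -/
noncomputable def B (x : ℂ) : ℂ := F 1 1 x

theorem hasDerivAt_A (z : ℂ) : HasDerivAt A (B z) z := hasDerivAt_F 0 one_pos z

theorem hasDerivAt_B (z : ℂ) : HasDerivAt B (z * A z) z := by
  have := hasDerivAt_F 1 one_pos z
  rw [show F (1 + 1) 1 z = z * A z from F_two one_pos z] at this
  exact this

/-- the norm of the integrand on the steepest descent line -/
theorem norm_fA_shift (n : ℕ) (c : ℂ) (r : ℝ) : ‖fA n c.re (c ^ 2) (r - c.im)‖ =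
    ‖zz c.re (r - c.im)‖ ^ n *
      (Real.exp (-(2 / 3) * (c ^ 3).re) * Real.exp (-c.re * r ^ 2)) := by
  rw [norm_fA, ← Real.exp_add]
  congr 2
  have h3 : c ^ 3 = c * c * c := by ring
  rw [h3, sq c]
  simp only [Complex.mul_re, Complex.mul_im]
  ring

theorem A_eq (c : ℂ) (hc : 0 < c.re) : A (c ^ 2) = ∫ r : ℝ, fA 0 c.re (c ^ 2) (r - c.im) := by
  rw [integral_sub_right_eq_self (fun r => fA 0 c.re (c ^ 2) r) c.im]
  show F 0 1 (c ^ 2) = F 0 c.re (c ^ 2)
  rw [F_indep one_pos hc]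

theorem B_eq (c : ℂ) (hc : 0 < c.re) : B (c ^ 2) = ∫ r : ℝ, fA 1 c.re (c ^ 2) (r - c.im) := by
  rw [integral_sub_right_eq_self (fun r => fA 1 c.re (c ^ 2) r) c.im]
  show F 1 1 (c ^ 2) = F 1 c.re (c ^ 2)
  rw [F_indep1 one_pos hc]

theorem A_bound (c : ℂ) (hc : 0 < c.re) : ‖A (c ^ 2)‖ ≤
    Real.sqrt (Real.pi / c.re) * Real.exp (-(2 / 3) * (c ^ 3).re) := by
  rw [A_eq c hc]
  refine (norm_integral_le_integral_norm _).trans (le_of_eq ?_)
  simp only [norm_fA_shift, pow_zero, one_mul]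
  rw [integral_const_mul, integral_gaussian, mul_comm]

theorem integrable_abs_mul {b : ℝ} (hb : 0 < b) :
    Integrable (fun r : ℝ => |r| * Real.exp (-b * r ^ 2)) := by
  have h1 := integrable_mul_exp_neg_mul_sq hb
  have h2 := h1.norm
  refine h2.congr (Eventually.of_forall fun r => ?_)
  simp only [norm_mul, Real.norm_eq_abs, Real.abs_exp]

theorem integral_abs_mul {b : ℝ} (hb : 0 < b) :
    ∫ r : ℝ, |r| * Real.exp (-b * r ^ 2) = 1 / b := by
  have h1 : ∫ r : ℝ, |r| * Real.exp (-b * r ^ 2) = ∫ r : ℝ, |r| * Real.exp (-b * |r| ^ 2) := by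
    simp only [sq_abs]
  rw [h1, integral_comp_abs (f := fun r => r * Real.exp (-b * r ^ 2))]
  have h2 := integral_rpow_mul_exp_neg_mul_rpow (p := 2) (q := 1) (b := b) (by norm_num)
    (by norm_num) hb
  have h3 : ∫ x in Ioi (0 : ℝ), x * Real.exp (-b * x ^ 2) =
      ∫ x in Ioi (0 : ℝ), x ^ (1 : ℝ) * Real.exp (-b * x ^ (2 : ℝ)) := by
    refine setIntegral_congr_fun measurableSet_Ioi fun x _ => ?_
    simp only [Real.rpow_one, Real.rpow_ofNat]
  rw [h3, h2]
  have h4 : ((1 : ℝ) + 1) / 2 = 1 := by norm_num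
  have h5 : -((1 : ℝ) + 1) / 2 = -1 := by norm_num
  rw [h4, h5, Real.Gamma_one, Real.rpow_neg_one]
  field_simp

theorem integral_abs_cube :
    ∫ r : ℝ, |r| ^ 3 * Real.exp (-1 * r ^ 2) = 1 := by
  have h1 : ∫ r : ℝ, |r| ^ 3 * Real.exp (-1 * r ^ 2) =
      ∫ r : ℝ, |r| ^ 3 * Real.exp (-1 * |r| ^ 2) := by
    simp only [sq_abs]
  rw [h1, integral_comp_abs (f := fun r => r ^ 3 * Real.exp (-1 * r ^ 2))]
  have h2 := integral_rpow_mul_exp_neg_mul_rpow (p := 2) (q := 3) (b := 1) (by norm_num)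
    (by norm_num) one_pos
  have h3 : ∫ x in Ioi (0 : ℝ), x ^ 3 * Real.exp (-1 * x ^ 2) =
      ∫ x in Ioi (0 : ℝ), x ^ (3 : ℝ) * Real.exp (-1 * x ^ (2 : ℝ)) := by
    refine setIntegral_congr_fun measurableSet_Ioi fun x _ => ?_
    simp only [Real.rpow_ofNat]
  rw [h3, h2]
  have h4 : ((3 : ℝ) + 1) / 2 = 2 := by norm_num
  rw [h4, Real.one_rpow, Real.Gamma_two]
  norm_num

theorem B_bound (c : ℂ) (hc : 0 < c.re) : ‖B (c ^ 2)‖ ≤
    (1 / c.re + ‖c‖ * Real.sqrt (Real.pi / c.re)) * Real.exp (-(2 / 3) * (c ^ 3).re) := by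
  rw [B_eq c hc]
  have hz : ∀ r : ℝ, ‖zz c.re (r - c.im)‖ ≤ |r| + ‖c‖ := by
    intro r
    have : zz c.re (r - c.im) = (r : ℂ) + I * c := by
      apply Complex.ext <;> simp [zz] <;> ring
    rw [this]
    refine (norm_add_le _ _).trans ?_
    simp
  have hint : Integrable (fun r : ℝ => Real.exp (-(2 / 3) * (c ^ 3).re) *
      (|r| * Real.exp (-c.re * r ^ 2) + ‖c‖ * Real.exp (-c.re * r ^ 2))) :=
    ((integrable_abs_mul hc).add ((integrable_exp_neg_mul_sq hc).const_mul _)).const_mul _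
  calc ‖∫ r : ℝ, fA 1 c.re (c ^ 2) (r - c.im)‖
      ≤ ∫ r : ℝ, Real.exp (-(2 / 3) * (c ^ 3).re) *
        (|r| * Real.exp (-c.re * r ^ 2) + ‖c‖ * Real.exp (-c.re * r ^ 2)) := by
        refine norm_integral_le_of_norm_le hint (Eventually.of_forall fun r => ?_)
        rw [norm_fA_shift, pow_one]
        calc ‖zz c.re (r - c.im)‖ *
            (Real.exp (-(2 / 3) * (c ^ 3).re) * Real.exp (-c.re * r ^ 2))
            ≤ (|r| + ‖c‖) *
            (Real.exp (-(2 / 3) * (c ^ 3).re) * Real.exp (-c.re * r ^ 2)) :=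
              mul_le_mul_of_nonneg_right (hz r) (by positivity)
          _ = _ := by ring
    _ = _ := by
        rw [integral_const_mul, integral_add (integrable_abs_mul hc)
          ((integrable_exp_neg_mul_sq hc).const_mul _), integral_abs_mul hc, integral_const_mul,
          integral_gaussian]
        ring

/-- entire solutions of the Airy equation with zero data vanish -/
theorem airy_unique {S T : ℂ → ℂ} (hS : ∀ z, HasDerivAt S (T z) z)
    (hT : ∀ z, HasDerivAt T (z * S z) z) (hS0 : S 0 = 0) (hT0 : T 0 = 0) (z : ℂ) :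
    S z = 0 ∧ T z = 0 := by
  have hline : ∀ t : ℝ, HasDerivAt (fun t : ℝ => (t : ℂ) * z) z t := by
    intro t
    simpa using (Complex.ofRealCLM.hasDerivAt (x := t)).mul_const z
  have hf : ∀ t : ℝ, HasDerivAt (fun t : ℝ => (S (t * z), T (t * z)))
      (T (t * z) * z, (t * z * S (t * z)) * z) t := by
    intro t
    exact ((hS _).comp t (hline t)).prodMk ((hT _).comp t (hline t))
  have key := eq_zero_of_abs_deriv_le_mul_abs_self_of_eq_zero_right
    (f := fun t : ℝ => (S (t * z), T (t * z)))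
    (f' := fun t : ℝ => (T (t * z) * z, (t * z * S (t * z)) * z))
    (K := ‖z‖ + ‖z‖ ^ 2) (a := 0) (b := 1)
    (fun t _ => (hf t).continuousAt.continuousWithinAt)
    (fun t _ => (hf t).hasDerivWithinAt) (by simp [hS0, hT0]) ?_ 1 ⟨zero_le_one, le_rfl⟩
  · simp only [Complex.ofReal_one, one_mul, Prod.mk_eq_zero] at key
    exact key
  · intro t ht
    have ht1 : |t| ≤ 1 := by rw [abs_of_nonneg ht.1]; exact ht.2.le
    simp only [Prod.norm_mk]
    have h1 : ‖S (t * z)‖ ≤ max ‖S (t * z)‖ ‖T (t * z)‖ := le_max_left _ _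
    have h2 : ‖T (t * z)‖ ≤ max ‖S (t * z)‖ ‖T (t * z)‖ := le_max_right _ _
    set m := max ‖S (t * z)‖ ‖T (t * z)‖
    have hm : 0 ≤ m := (norm_nonneg _).trans h1
    apply max_le
    · rw [norm_mul]
      nlinarith [norm_nonneg z, norm_nonneg (T (t * z)), mul_nonneg hm (sq_nonneg ‖z‖),
        mul_le_mul_of_nonneg_right h2 (norm_nonneg z)]
    · rw [norm_mul, norm_mul, norm_mul, Complex.norm_real, Real.norm_eq_abs]
      calc |t| * ‖z‖ * ‖S (t * z)‖ * ‖z‖ ≤ 1 * ‖z‖ * m * ‖z‖ := by gcongr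
        _ ≤ (‖z‖ + ‖z‖ ^ 2) * m := by nlinarith [mul_nonneg (norm_nonneg z) hm]

theorem fA_conj (n : ℕ) (a : ℝ) (x s : ℝ) :
    fA n a x (-s) = (starRingEnd ℂ) (fA n a x s) := by
  unfold fA
  rw [map_mul, map_pow, ← Complex.exp_conj]
  have h1 : zz a (-s) = -(starRingEnd ℂ) (zz a s) := by
    unfold zz
    simp
    ring
  rw [h1]
  simp only [map_mul, map_add, map_div₀, map_pow, Complex.conj_I, Complex.conj_ofReal]
  have h2 : (starRingEnd ℂ) (3 : ℂ) = 3 := by
    rw [← Complex.ofReal_ofNat, Complex.conj_ofReal]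
  rw [h2]
  congr 1
  · ring
  · congr 1
    ring

theorem F_real (n : ℕ) (a x : ℝ) : (starRingEnd ℂ) (F n a x) = F n a x := by
  unfold F
  rw [← integral_conj]
  rw [← integral_neg_eq_self (fun s => fA n a x s)]
  simp only [fA_conj]

theorem A_real (x : ℝ) : A x = ((A x).re : ℂ) := by
  have := F_real 0 1 x
  exact (Complex.conj_eq_iff_real.1 this).elim fun r hr => by
    show F 0 1 x = ((F 0 1 x).re : ℂ)
    rw [hr]; simp

theorem B_real (x : ℝ) : B x = ((B x).re : ℂ) := by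
  have := F_real 1 1 x
  exact (Complex.conj_eq_iff_real.1 this).elim fun r hr => by
    show F 1 1 x = ((F 1 1 x).re : ℂ)
    rw [hr]; simp

theorem hasDerivAt_Are (x : ℝ) : HasDerivAt (fun x : ℝ => (A x).re) (B x).re x :=
  (hasDerivAt_A x).real_of_complex

theorem hasDerivAt_Bre (x : ℝ) : HasDerivAt (fun x : ℝ => (B x).re) (x * (A x).re) x := by
  have := (hasDerivAt_B x).real_of_complex
  simpa using this

theorem A_one_ne_zero : A 1 ≠ 0 := by
  intro h0
  have h1 := A_eq 1 (by simp)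
  rw [one_pow, h0] at h1
  simp only [Complex.one_re, Complex.one_im, sub_zero] at h1
  have h2 : ∀ r : ℝ, fA 0 1 1 r =
      Complex.exp (-(2 / 3)) * (Complex.exp (-1 * (r : ℂ) ^ 2) * Complex.exp (I * r ^ 3 / 3)) := by
    intro r
    simp only [fA, pow_zero, one_mul]
    rw [← Complex.exp_add, ← Complex.exp_add]
    congr 1
    unfold zz
    push_cast
    linear_combination ((r : ℂ) ^ 2 + r * I + 1 / 3 * (I ^ 2 - 1) + 1) * Complex.I_sq
  have h3 : ∫ r : ℝ, (Complex.exp (-1 * (r : ℂ) ^ 2) * Complex.exp (I * r ^ 3 / 3)) = 0 := by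
    simp only [h2] at h1
    rw [integral_const_mul] at h1
    exact (mul_eq_zero.1 h1.symm).resolve_left (Complex.exp_ne_zero _)
  have h4 : ∫ r : ℝ, Complex.exp (-1 * (r : ℂ) ^ 2) = ((Real.sqrt Real.pi : ℝ) : ℂ) := by
    have := integral_gaussian 1
    rw [div_one] at this
    rw [← this]
    refine Eq.trans ?_ (integral_ofReal (f := fun x : ℝ => Real.exp (-1 * x ^ 2)))
    congr 1
    funext r
    have e0 : ((Real.exp (-1 * r ^ 2) : ℝ) : ℂ) = Complex.exp (-1 * (r : ℂ) ^ 2) := by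
      rw [Complex.ofReal_exp]
      congr 1
      push_cast
      ring
    exact e0.symm
  have hi1 : Integrable (fun r : ℝ => Complex.exp (-1 * (r : ℂ) ^ 2)) := by
    have := integrable_cexp_neg_mul_sq (b := 1) (by simp)
    exact this
  have hi2 : Integrable (fun r : ℝ => Complex.exp (-1 * (r : ℂ) ^ 2) *
      Complex.exp (I * r ^ 3 / 3)) := by
    refine hi1.mono (by fun_prop) (Eventually.of_forall fun r => ?_)
    rw [norm_mul]
    have : ‖Complex.exp (I * r ^ 3 / 3)‖ = 1 := by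
      have h : I * (r : ℂ) ^ 3 / 3 = ((r ^ 3 / 3 : ℝ) : ℂ) * I := by push_cast; ring
      rw [h, Complex.norm_exp_ofReal_mul_I]
    rw [this, mul_one]
  have h5 : ‖∫ r : ℝ, (Complex.exp (-1 * (r : ℂ) ^ 2) -
      Complex.exp (-1 * (r : ℂ) ^ 2) * Complex.exp (I * r ^ 3 / 3))‖ ≤ 1 / 3 * 1 := by
    have hc0 : (1 / 3 : ℝ) * 1 = ∫ r : ℝ, 1 / 3 * (|r| ^ 3 * Real.exp (-1 * r ^ 2)) := by
      rw [integral_const_mul, integral_abs_cube]
    rw [hc0]
    refine norm_integral_le_of_norm_le ?_ (Eventually.of_forall fun r => ?_)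
    · have hc : Integrable (fun r : ℝ => |r| ^ 3 * Real.exp (-1 * r ^ 2)) := by
        by_contra hn
        have := integral_undef hn
        rw [integral_abs_cube] at this
        exact one_ne_zero this
      exact hc.const_mul _
    · have e1 : Complex.exp (-1 * (r : ℂ) ^ 2) -
          Complex.exp (-1 * (r : ℂ) ^ 2) * Complex.exp (I * r ^ 3 / 3) =
          -(Complex.exp (-1 * (r : ℂ) ^ 2) * (Complex.exp (I * ((r ^ 3 / 3 : ℝ) : ℂ)) - 1)) := by
        push_cast
        rw [show I * ((r : ℂ) ^ 3 / 3) = I * (r : ℂ) ^ 3 / 3 by ring]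
        ring
      rw [e1, norm_neg, norm_mul]
      have e2 : ‖Complex.exp (-1 * (r : ℂ) ^ 2)‖ = Real.exp (-1 * r ^ 2) := by
        have : (-1 * (r : ℂ) ^ 2) = ((-1 * r ^ 2 : ℝ) : ℂ) := by push_cast; ring
        rw [this, ← Complex.ofReal_exp, Complex.norm_real, Real.norm_eq_abs, Real.abs_exp]
      have e3 : ‖Complex.exp (I * ((r ^ 3 / 3 : ℝ) : ℂ)) - 1‖ ≤ |r| ^ 3 / 3 := by
        refine (Real.norm_exp_I_mul_ofReal_sub_one_le (x := r ^ 3 / 3)).trans ?_
        rw [Real.norm_eq_abs, abs_div, abs_pow]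
        norm_num
      rw [e2]
      calc Real.exp (-1 * r ^ 2) * ‖Complex.exp (I * ((r ^ 3 / 3 : ℝ) : ℂ)) - 1‖
          ≤ Real.exp (-1 * r ^ 2) * (|r| ^ 3 / 3) :=
            mul_le_mul_of_nonneg_left e3 (Real.exp_pos _).le
        _ = 1 / 3 * (|r| ^ 3 * Real.exp (-1 * r ^ 2)) := by ring
  rw [integral_sub hi1 hi2, h3, h4, sub_zero, Complex.norm_real, Real.norm_eq_abs,
    abs_of_nonneg (Real.sqrt_nonneg _)] at h5
  have h6 : (1 : ℝ) ≤ Real.sqrt Real.pi := by
    rw [Real.one_le_sqrt]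
    linarith [Real.pi_gt_three]
  linarith

theorem AB_ne_zero : (A 0).re * (B 0).re ≠ 0 := by
  intro h0
  set g : ℝ → ℝ := fun x => (A x).re * (B x).re with hg
  have hd : ∀ x : ℝ, HasDerivAt g ((B x).re * (B x).re + (A x).re * (x * (A x).re)) x := fun x =>
    (hasDerivAt_Are x).mul (hasDerivAt_Bre x)
  have hmono : MonotoneOn g (Ici 0) := by
    refine monotoneOn_of_deriv_nonneg (convex_Ici 0)
      (fun x _ => (hd x).continuousAt.continuousWithinAt)
      (fun x _ => (hd x).differentiableAt.differentiableWithinAt) ?_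
    intro x hx
    rw [interior_Ici] at hx
    rw [(hd x).deriv]
    have : 0 < x := hx
    nlinarith [mul_self_nonneg (B x).re, mul_nonneg this.le (mul_self_nonneg (A x).re)]
  have hle : ∀ c : ℝ, 1 ≤ c → g (c ^ 2) ≤ 10 / c := by
    intro c hc
    have hc0 : 0 < c := by linarith
    have h1 := A_bound c (by simpa using hc0)
    have h2 := B_bound c (by simpa using hc0)
    rw [Complex.ofReal_re] at h1 h2
    rw [Complex.norm_real, Real.norm_eq_abs, abs_of_pos hc0] at h2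
    have h3 : ((c : ℂ) ^ 3).re = c ^ 3 := by
      rw [← Complex.ofReal_pow, Complex.ofReal_re]
    rw [h3] at h1 h2
    have h4 : g (c ^ 2) ≤ ‖A ((c : ℂ) ^ 2)‖ * ‖B ((c : ℂ) ^ 2)‖ := by
      rw [hg]
      simp only
      rw [Complex.ofReal_pow]
      calc (A ((c : ℂ) ^ 2)).re * (B ((c : ℂ) ^ 2)).re
          ≤ |(A ((c : ℂ) ^ 2)).re * (B ((c : ℂ) ^ 2)).re| := le_abs_self _
        _ = |(A ((c : ℂ) ^ 2)).re| * |(B ((c : ℂ) ^ 2)).re| := abs_mul _ _
        _ ≤ _ := mul_le_mul (Complex.abs_re_le_norm _) (Complex.abs_re_le_norm _)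
            (abs_nonneg _) (norm_nonneg _)
    have h5 : Real.sqrt (Real.pi / c) ≤ 2 := by
      rw [Real.sqrt_le_left (by norm_num)]
      rw [div_le_iff₀ hc0]
      nlinarith [Real.pi_lt_four]
    have h6 : 1 / c ≤ 1 := by rw [div_le_one hc0]; exact hc
    have h7 : Real.exp (-(2 / 3) * c ^ 3) * Real.exp (-(2 / 3) * c ^ 3) ≤ 1 / c ^ 2 := by
      rw [← Real.exp_add]
      have h8 : -(2 / 3) * c ^ 3 + -(2 / 3) * c ^ 3 ≤ -(c ^ 3) := by nlinarith [pow_pos hc0 3]
      have h9 : c ^ 2 ≤ Real.exp (c ^ 3) := by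
        have := Real.add_one_le_exp (c ^ 3)
        nlinarith [pow_pos hc0 2]
      calc Real.exp (-(2 / 3) * c ^ 3 + -(2 / 3) * c ^ 3) ≤ Real.exp (-(c ^ 3)) :=
            Real.exp_le_exp.2 h8
        _ = 1 / Real.exp (c ^ 3) := by rw [Real.exp_neg, one_div]
        _ ≤ 1 / c ^ 2 := one_div_le_one_div_of_le (by positivity) h9
    have h8 : ‖A ((c : ℂ) ^ 2)‖ ≤ 2 * Real.exp (-(2 / 3) * c ^ 3) :=
      h1.trans (mul_le_mul_of_nonneg_right h5 (Real.exp_pos _).le)
    have h9 : ‖B ((c : ℂ) ^ 2)‖ ≤ (1 + c * 2) * Real.exp (-(2 / 3) * c ^ 3) := by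
      refine h2.trans (mul_le_mul_of_nonneg_right ?_ (Real.exp_pos _).le)
      have := mul_le_mul_of_nonneg_left h5 hc0.le
      linarith
    calc g (c ^ 2) ≤ ‖A ((c : ℂ) ^ 2)‖ * ‖B ((c : ℂ) ^ 2)‖ := h4
      _ ≤ (2 * Real.exp (-(2 / 3) * c ^ 3)) * ((1 + c * 2) * Real.exp (-(2 / 3) * c ^ 3)) :=
          mul_le_mul h8 h9 (norm_nonneg _) (by positivity)
      _ = (2 * (1 + c * 2)) * (Real.exp (-(2 / 3) * c ^ 3) * Real.exp (-(2 / 3) * c ^ 3)) := by
          ring
      _ ≤ (2 * (1 + c * 2)) * (1 / c ^ 2) := mul_le_mul_of_nonneg_left h7 (by positivity)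
      _ ≤ 10 / c := by
          rw [mul_one_div, div_le_div_iff₀ (by positivity) hc0]
          nlinarith
  have hnonpos : ∀ x : ℝ, 0 ≤ x → g x ≤ 0 := by
    intro x hx
    by_contra hpos
    push Not at hpos
    obtain ⟨c, hc1, hc2, hc3⟩ : ∃ c : ℝ, 1 ≤ c ∧ x ≤ c ^ 2 ∧ 10 / c < g x := by
      refine ⟨max (max 1 x) (11 / g x), ?_, ?_, ?_⟩
      · exact (le_max_left _ _).trans (le_max_left _ _)
      · have h1 : 1 ≤ max (max 1 x) (11 / g x) := (le_max_left _ _).trans (le_max_left _ _)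
        have h2 : x ≤ max (max 1 x) (11 / g x) := (le_max_right _ _).trans (le_max_left _ _)
        nlinarith
      · have h1 : 1 ≤ max (max 1 x) (11 / g x) := (le_max_left _ _).trans (le_max_left _ _)
        have h2 : 11 / g x ≤ max (max 1 x) (11 / g x) := le_max_right _ _
        rw [div_lt_iff₀ (by linarith)]
        rw [div_le_iff₀ hpos] at h2
        linarith [mul_comm (g x) (max (max 1 x) (11 / g x))]
    have h1 := hmono (mem_Ici.2 hx) (mem_Ici.2 (by positivity : (0 : ℝ) ≤ c ^ 2)) hc2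
    linarith [hle c hc1]
  have hzero : ∀ x : ℝ, 0 ≤ x → g x = 0 := by
    intro x hx
    refine le_antisymm (hnonpos x hx) ?_
    have h1 := hmono (mem_Ici.2 le_rfl) (mem_Ici.2 hx) hx
    have h2 : g 0 = 0 := by
      rw [hg]
      simpa using h0
    linarith
  have h1 : HasDerivAt g 0 1 := by
    have : g =ᶠ[𝓝 1] fun _ => 0 := by
      filter_upwards [Ioi_mem_nhds (zero_lt_one' ℝ)] with x hx
      exact hzero x (le_of_lt hx)
    exact (hasDerivAt_const (1 : ℝ) (0 : ℝ)).congr_of_eventuallyEq this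
  have h2 := (hd 1).unique h1
  have h3 : (A (1 : ℝ)).re = 0 := by
    nlinarith [mul_self_nonneg (B (1 : ℝ)).re, mul_self_nonneg (A (1 : ℝ)).re]
  apply A_one_ne_zero
  have := A_real 1
  rw [h3, Complex.ofReal_zero, Complex.ofReal_one] at this
  exact this

theorem A_zero_ne : A 0 ≠ 0 := by
  intro h
  apply AB_ne_zero
  rw [h]
  simp

theorem B_zero_ne : B 0 ≠ 0 := by
  intro h
  apply AB_ne_zero
  rw [h]
  simp

theorem om_pow4 : om ^ 4 = om := by
  have := om_cube
  calc om ^ 4 = om ^ 3 * om := by ring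
    _ = om := by rw [this, one_mul]

theorem rot (z : ℂ) : A z + om * A (om * z) + om ^ 2 * A (om ^ 2 * z) = 0 ∧
    B z + om ^ 2 * B (om * z) + om * B (om ^ 2 * z) = 0 := by
  have hl : ∀ k z : ℂ, HasDerivAt (fun z => k * z) k z := fun k z => by
    simpa using (hasDerivAt_id z).const_mul k
  have hA : ∀ k : ℂ, ∀ z, HasDerivAt (fun z => A (k * z)) (B (k * z) * k) z :=
    fun k z => (hasDerivAt_A (k * z)).comp z (hl k z)
  have hB : ∀ k : ℂ, ∀ z, HasDerivAt (fun z => B (k * z)) ((k * z) * A (k * z) * k) z :=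
    fun k z => (hasDerivAt_B (k * z)).comp z (hl k z)
  refine airy_unique (S := fun z => A z + om * A (om * z) + om ^ 2 * A (om ^ 2 * z))
    (T := fun z => B z + om ^ 2 * B (om * z) + om * B (om ^ 2 * z)) ?_ ?_ ?_ ?_ z
  · intro z
    refine (((hasDerivAt_A z).add ((hA om z).const_mul om)).add
      ((hA (om ^ 2) z).const_mul (om ^ 2))).congr_deriv ?_
    have := om_cube
    linear_combination (B (om ^ 2 * z) * om) * this
  · intro z
    refine (((hasDerivAt_B z).add ((hB om z).const_mul (om ^ 2))).add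
      ((hB (om ^ 2) z).const_mul om)).congr_deriv ?_
    have := om_cube
    linear_combination (z * om * A (om * z) + z * om ^ 2 * A (om ^ 2 * z)) * this
  · simp only [mul_zero]
    linear_combination A 0 * om_sum
  · simp only [mul_zero]
    linear_combination B 0 * om_sum

theorem wronskian (z : ℂ) : om ^ 2 * (A (om * z) * B (om ^ 2 * z)) -
    om * (A (om ^ 2 * z) * B (om * z)) = (om ^ 2 - om) * (A 0 * B 0) := by
  have hl : ∀ k z : ℂ, HasDerivAt (fun z => k * z) k z := fun k z => by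
    simpa using (hasDerivAt_id z).const_mul k
  have hA : ∀ k : ℂ, ∀ z, HasDerivAt (fun z => A (k * z)) (B (k * z) * k) z :=
    fun k z => (hasDerivAt_A (k * z)).comp z (hl k z)
  have hB : ∀ k : ℂ, ∀ z, HasDerivAt (fun z => B (k * z)) ((k * z) * A (k * z) * k) z :=
    fun k z => (hasDerivAt_B (k * z)).comp z (hl k z)
  have hd : ∀ z, HasDerivAt (fun z => om ^ 2 * (A (om * z) * B (om ^ 2 * z)) -
      om * (A (om ^ 2 * z) * B (om * z))) 0 z := by
    intro z
    refine ((((hA om z).mul (hB (om ^ 2) z)).const_mul (om ^ 2)).sub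
      (((hA (om ^ 2) z).mul (hB om z)).const_mul om)).congr_deriv ?_
    have := om_cube
    linear_combination (z * om ^ 3 * A (om * z) * A (om ^ 2 * z)) * this
  have := is_const_of_deriv_eq_zero (fun z => (hd z).differentiableAt)
    (fun z => (hd z).deriv) z 0
  simp only [mul_zero] at this
  rw [this]
  ring

end AiryAux

theorem exists_airy : ∃ A B : ℂ → ℂ,
    (∀ z, HasDerivAt A (B z) z) ∧ (∀ z, HasDerivAt B (z * A z) z) ∧ A 0 ≠ 0 ∧ B 0 ≠ 0 ∧
    (∀ z, A z + om * A (om * z) + om ^ 2 * A (om ^ 2 * z) = 0) ∧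
    (∀ z, B z + om ^ 2 * B (om * z) + om * B (om ^ 2 * z) = 0) ∧
    (∀ z, om ^ 2 * (A (om * z) * B (om ^ 2 * z)) - om * (A (om ^ 2 * z) * B (om * z))
      = (om ^ 2 - om) * (A 0 * B 0)) ∧
    (∀ c : ℂ, 0 < c.re → ‖A (c ^ 2)‖ ≤
      Real.sqrt (Real.pi / c.re) * Real.exp (-(2 / 3) * (c ^ 3).re)) ∧
    (∀ c : ℂ, 0 < c.re → ‖B (c ^ 2)‖ ≤
      (1 / c.re + ‖c‖ * Real.sqrt (Real.pi / c.re)) * Real.exp (-(2 / 3) * (c ^ 3).re)) :=
  ⟨AiryAux.A, AiryAux.B, AiryAux.hasDerivAt_A, AiryAux.hasDerivAt_B, AiryAux.A_zero_ne,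
    AiryAux.B_zero_ne, fun z => (AiryAux.rot z).1, fun z => (AiryAux.rot z).2,
    AiryAux.wronskian, AiryAux.A_bound, AiryAux.B_bound⟩

end Pool.Agent.H21.Stair
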