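import Mathlib

/-!
# Notation for the analysis of the staircase model
-/

namespace Pool.Agent.H21.Stair

/-- the primitive third root of unity `exp (2 pi i / 3)` -/
noncomputable def om : ℂ := ⟨-1 / 2, Real.sqrt 3 / 2⟩

theorem sqrt3_sq : Real.sqrt 3 * Real.sqrt 3 = 3 := Real.mul_self_sqrt (by norm_num)

theorem om_sq : om ^ 2 = ⟨-1 / 2, -(Real.sqrt 3 / 2)⟩ := by
  apply Complex.ext
  · simp only [om, sq, Complex.mul_re]; nlinarith [sqrt3_sq]
  · simp only [om, sq, Complex.mul_im]; ring

theorem om_sum : 1 + om + om ^ 2 = 0 := by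
  rw [om_sq]
  apply Complex.ext
  · simp [om]; norm_num
  · simp [om]

theorem om_cube : om ^ 3 = 1 := by
  have h : om ^ 3 - 1 = (om - 1) * (1 + om + om ^ 2) := by ring
  rw [om_sum, mul_zero, sub_eq_zero] at h
  exact h

theorem om_ne_zero : om ≠ 0 := by
  intro h
  have := om_cube
  rw [h] at this
  norm_num at this

theorem norm_om : ‖om‖ = 1 := by
  have h : ‖om‖ ^ 3 = 1 := by rw [← norm_pow, om_cube, norm_one]
  exact (pow_eq_one_iff_of_nonneg (norm_nonneg _) (by norm_num)).1 h

/-- the closed sector `|arg v| ≤ pi / 3` (with the origin) -/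
def KK : Set ℂ := {v | |v.im| ≤ Real.sqrt 3 * v.re}

/-- the closed sector `|arg (-u)| ≤ pi / 3` (with the origin) -/
def SS : Set ℂ := {u | |u.im| ≤ -(Real.sqrt 3 * u.re)}

/-- the pole belonging to a horizontal step -/
noncomputable def dH (β : ℝ) : ℂ := Complex.exp (-(β * Complex.I))
/-- the pole belonging to a vertical step -/
noncomputable def dV (β : ℝ) : ℂ := Complex.exp (β * Complex.I)

open Polynomial in
/-- the common denominator -/
noncomputable def den (β : ℝ) (a b : ℕ) : ℂ[X] := (X - C (dH β)) ^ a * (X - C (dV β)) ^ b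

open Polynomial in
/-- `Q / den` satisfies the functional equation and is at most `1` in the sector `SS` -/
structure Good (β : ℝ) (a b : ℕ) (Q : ℂ[X]) : Prop where
  deg : Q.natDegree ≤ a + b
  lead : Q.coeff (a + b) = 1
  zero : Q.eval 0 = (den β a b).eval 0
  fe : ∀ u, Q.eval u * Q.eval (om * u) * (den β a b).eval (om ^ 2 * u)
      + Q.eval (om * u) * Q.eval (om ^ 2 * u) * (den β a b).eval u
      + Q.eval u * Q.eval (om ^ 2 * u) * (den β a b).eval (om * u)
      = 3 * ((den β a b).eval u * (den β a b).eval (om * u) * (den β a b).eval (om ^ 2 * u))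
  bd : ∀ u ∈ SS, ‖Q.eval u‖ ≤ ‖(den β a b).eval u‖

/-- cube of the square root of the pole, horizontal -/
noncomputable def sH (β : ℝ) : ℂ := Complex.exp (-(3 / 2 * β * Complex.I))
/-- cube of the square root of the pole, vertical -/
noncomputable def sV (β : ℝ) : ℂ := Complex.exp (3 / 2 * β * Complex.I)

end Pool.Agent.H21.Stair
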