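import Mathlib
import Pool.Agent.H21.Stair.Basic

/-!
# A normal family lemma

A sequence of functions that are analytic on growing balls and locally uniformly bounded has a
subsequence that converges pointwise, together with the derivative at the origin, to an entire
function.
-/

namespace Pool.Agent.H21.Stair
open Filter Topology

/-- A power series with superexponentially small coefficients is entire. -/
theorem entire_of_coeff {c : ℕ → ℂ} (hc : ∀ R : ℝ, 0 < R → ∃ M : ℝ, ∀ j, ‖c j‖ ≤ M / R ^ j) :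
    ∀ z : ℂ, HasDerivAt (fun z => ∑' j, c j * z ^ j) (∑' j, c j * (j * z ^ (j - 1))) z := by
  intro z
  obtain ⟨M, hM⟩ := hc (2 * (‖z‖ + 1)) (by positivity)
  set R := ‖z‖ + 1 with hR
  have hR1 : 1 ≤ R := by have := norm_nonneg z; linarith
  have hM0 : 0 ≤ M := by
    have := hM 0
    simp only [pow_zero, div_one] at this
    exact le_trans (norm_nonneg _) this
  refine hasDerivAt_tsum_of_isPreconnected (u := fun j : ℕ => M * ((j : ℝ) ^ 1 * (1 / 2 : ℝ) ^ j))
    (t := Metric.ball (0 : ℂ) R) (y₀ := 0)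
    (g := fun j z => c j * z ^ j) (g' := fun j z => c j * (j * z ^ (j - 1)))
    ?_ Metric.isOpen_ball (convex_ball _ _).isPreconnected ?_ ?_ ?_ ?_ ?_
  · apply Summable.mul_left
    apply summable_pow_mul_geometric_of_norm_lt_one
    rw [Real.norm_eq_abs, abs_of_pos] <;> norm_num
  · intro n y _
    exact (hasDerivAt_pow n y).const_mul (c n)
  · intro n y hy
    rw [mem_ball_zero_iff] at hy
    rw [norm_mul, norm_mul, norm_pow, Complex.norm_natCast]
    have h1 : ‖y‖ ^ (n - 1) ≤ R ^ n := by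
      calc ‖y‖ ^ (n - 1) ≤ R ^ (n - 1) := pow_le_pow_left₀ (norm_nonneg _) hy.le _
        _ ≤ R ^ n := pow_le_pow_right₀ hR1 (Nat.sub_le _ _)
    have h2 : ‖c n‖ * R ^ n ≤ M * (1 / 2 : ℝ) ^ n := by
      have hRn : 0 < R ^ n := by positivity
      calc ‖c n‖ * R ^ n ≤ M / (2 * R) ^ n * R ^ n := by
            exact mul_le_mul_of_nonneg_right (hM n) hRn.le
        _ = M * (1 / 2 : ℝ) ^ n := by
            rw [mul_pow, one_div, inv_pow]; field_simp
    calc ‖c n‖ * (n * ‖y‖ ^ (n - 1)) ≤ ‖c n‖ * (n * R ^ n) := by gcongr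
      _ = n * (‖c n‖ * R ^ n) := by ring
      _ ≤ n * (M * (1 / 2 : ℝ) ^ n) := by gcongr
      _ = M * ((n : ℝ) ^ 1 * (1 / 2 : ℝ) ^ n) := by ring
  · exact Metric.mem_ball_self (by linarith)
  · refine summable_of_ne_finset_zero (s := {0}) ?_
    intro b hb
    rw [Finset.mem_singleton] at hb
    simp [hb]
  · rw [mem_ball_zero_iff]; linarith

theorem normal_family {f : ℕ → ℂ → ℂ} {ρ : ℕ → ℝ} (hρ : Tendsto ρ atTop atTop)
    (hf : ∀ k, DifferentiableOn ℂ (f k) (Metric.ball 0 (ρ k)))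
    (hb : ∀ R : ℝ, ∃ M : ℝ, ∀ᶠ k in atTop, ∀ z, ‖z‖ ≤ R → ‖f k z‖ ≤ M) :
    ∃ (φ : ℕ → ℕ) (h : ℂ → ℂ), StrictMono φ ∧ Differentiable ℂ h ∧
      (∀ z, Tendsto (fun k => f (φ k) z) atTop (𝓝 (h z))) ∧
      Tendsto (fun k => deriv (f (φ k)) 0) atTop (𝓝 (deriv h 0)) := by
  -- Taylor coefficients
  set c : ℕ → ℕ → ℂ := fun k j => (j.factorial : ℂ)⁻¹ * iteratedDeriv j (f k) 0 with hcdef
  have hcb : ∀ R : ℝ, 0 < R → ∃ M : ℝ, ∀ᶠ k in atTop, ∀ j, ‖c k j‖ ≤ M / R ^ j := by
    intro R hR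
    obtain ⟨M, hM⟩ := hb R
    refine ⟨M, ?_⟩
    filter_upwards [hM, hρ.eventually_gt_atTop R] with k hk hk2 j
    have h1 : DiffContOnCl ℂ (f k) (Metric.ball 0 R) := by
      apply DifferentiableOn.diffContOnCl
      rw [closure_ball _ hR.ne']
      exact (hf k).mono (Metric.closedBall_subset_ball hk2)
    have h2 := Complex.norm_iteratedDeriv_le_of_forall_mem_sphere_norm_le j hR h1
      (fun z hz => hk z (by rw [mem_sphere_zero_iff_norm] at hz; exact hz.le))
    simp only [hcdef]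
    rw [norm_mul, norm_inv, Complex.norm_natCast]
    have h3 : (0 : ℝ) < j.factorial := by exact_mod_cast Nat.factorial_pos j
    calc (j.factorial : ℝ)⁻¹ * ‖iteratedDeriv j (f k) 0‖
        ≤ (j.factorial : ℝ)⁻¹ * (j.factorial * M / R ^ j) := by gcongr
      _ = M / R ^ j := by field_simp
  -- compactness
  obtain ⟨M₁, hM₁⟩ := hcb 1 one_pos
  have hK : IsCompact (Set.pi Set.univ (fun _ : ℕ => Metric.closedBall (0 : ℂ) M₁)) :=
    isCompact_univ_pi (fun _ => isCompact_closedBall _ _)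
  obtain ⟨a, -, φ, hφ, hlim⟩ := hK.tendsto_subseq' (x := c) (by
    apply Eventually.frequently
    filter_upwards [hM₁] with k hk
    intro j _
    have := hk j
    rw [one_pow, div_one] at this
    simpa using this)
  have hlim' : ∀ j, Tendsto (fun k => c (φ k) j) atTop (𝓝 (a j)) := by
    intro j
    exact (tendsto_pi_nhds.1 hlim) j
  have hab : ∀ R : ℝ, 0 < R → ∃ M : ℝ, ∀ j, ‖a j‖ ≤ M / R ^ j := by
    intro R hR
    obtain ⟨M, hM⟩ := hcb R hR
    refine ⟨M, fun j => ?_⟩
    refine le_of_tendsto (hlim' j).norm ?_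
    filter_upwards [hφ.tendsto_atTop.eventually hM] with k hk using hk j
  have hder := entire_of_coeff hab
  refine ⟨φ, fun z => ∑' j, a j * z ^ j, hφ, fun z => (hder z).differentiableAt, ?_, ?_⟩
  · intro z
    have hz : 0 < ‖z‖ + 1 := by positivity
    obtain ⟨M, hM⟩ := hcb (‖z‖ + 1) hz
    have hsum : Summable (fun j : ℕ => M * (‖z‖ / (‖z‖ + 1)) ^ j) := by
      apply Summable.mul_left
      apply summable_geometric_of_lt_one (by positivity)
      rw [div_lt_one hz]; linarith
    have key : Tendsto (fun k => ∑' j, c (φ k) j * z ^ j) atTop (𝓝 (∑' j, a j * z ^ j)) := by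
      refine tendsto_tsum_of_dominated_convergence hsum ?_ ?_
      · intro j
        exact (hlim' j).mul_const _
      · filter_upwards [hφ.tendsto_atTop.eventually hM] with k hk j
        rw [norm_mul, norm_pow, div_pow]
        calc ‖c (φ k) j‖ * ‖z‖ ^ j ≤ M / (‖z‖ + 1) ^ j * ‖z‖ ^ j := by
              gcongr; exact hk j
          _ = M * (‖z‖ ^ j / (‖z‖ + 1) ^ j) := by ring
    refine key.congr' ?_
    filter_upwards [hφ.tendsto_atTop.eventually (hρ.eventually_gt_atTop (‖z‖ + 1))] with k hk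
    have h1 : z ∈ Metric.ball (0 : ℂ) (ρ (φ k)) := by
      rw [mem_ball_zero_iff]; linarith
    have h2 := Complex.taylorSeries_eq_on_ball' h1 (hf (φ k))
    rw [← h2]
    simp only [hcdef, sub_zero]
  · have h1 : deriv (fun z => ∑' j, a j * z ^ j) 0 = a 1 := by
      rw [(hder 0).deriv, tsum_eq_single 1]
      · simp
      · intro j hj
        rcases Nat.eq_zero_or_pos j with h0 | h0
        · simp [h0]
        · have : j - 1 ≠ 0 := by omega
          simp [this]
    rw [h1]
    refine (hlim' 1).congr (fun k => ?_)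
    simp [hcdef, iteratedDeriv_one]

end Pool.Agent.H21.Stair
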