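import Pool.Agent.H21.Stair.Basic
import Pool.Agent.H21.Stair.Airy

/-!
# Uniqueness of the scaling limit: comparison with the Airy function and Liouville
-/

namespace Pool.Agent.H21.Stair

open Complex Filter Topology

/-- the properties of the Airy function and its derivative which are used below -/
def AiryPackage : Prop := ∃ A B : ℂ → ℂ,
    (∀ z, HasDerivAt A (B z) z) ∧ (∀ z, HasDerivAt B (z * A z) z) ∧ A 0 ≠ 0 ∧ B 0 ≠ 0 ∧
    (∀ z, A z + om * A (om * z) + om ^ 2 * A (om ^ 2 * z) = 0) ∧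
    (∀ z, B z + om ^ 2 * B (om * z) + om * B (om ^ 2 * z) = 0) ∧
    (∀ z, om ^ 2 * (A (om * z) * B (om ^ 2 * z)) - om * (A (om ^ 2 * z) * B (om * z))
      = (om ^ 2 - om) * (A 0 * B 0)) ∧
    (∀ c : ℂ, 0 < c.re → ‖A (c ^ 2)‖ ≤
      Real.sqrt (Real.pi / c.re) * Real.exp (-(2 / 3) * (c ^ 3).re)) ∧
    (∀ c : ℂ, 0 < c.re → ‖B (c ^ 2)‖ ≤
      (1 / c.re + ‖c‖ * Real.sqrt (Real.pi / c.re)) * Real.exp (-(2 / 3) * (c ^ 3).re))

namespace Uni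

lemma trig_sector {α : ℝ} (h : |α| ≤ Real.pi / 3) :
    |Real.sin α| ≤ Real.sqrt 3 * Real.cos α := by
  have hc : 1 / 2 ≤ Real.cos α := by
    rw [← Real.cos_abs, ← Real.cos_pi_div_three]
    exact Real.cos_le_cos_of_nonneg_of_le_pi (abs_nonneg _) (by linarith [Real.pi_pos]) h
  rw [Real.abs_sin_eq_sqrt_one_sub_cos_sq]
  apply Real.sqrt_le_iff.2
  constructor
  · positivity
  · rw [mul_pow, Real.sq_sqrt (by norm_num)]
    nlinarith

lemma polar_re (ρ α : ℝ) : ((ρ : ℂ) * exp (α * I)).re = ρ * Real.cos α := by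
  rw [re_ofReal_mul, exp_ofReal_mul_I_re]

lemma polar_im (ρ α : ℝ) : ((ρ : ℂ) * exp (α * I)).im = ρ * Real.sin α := by
  rw [im_ofReal_mul, exp_ofReal_mul_I_im]

lemma mem_KK {ρ α : ℝ} (hρ : 0 ≤ ρ) (h : |α| ≤ Real.pi / 3) :
    (ρ : ℂ) * exp (α * I) ∈ KK := by
  rw [KK, Set.mem_ofPred_eq, polar_re, polar_im, abs_mul, abs_of_nonneg hρ]
  have := mul_le_mul_of_nonneg_left (trig_sector h) hρ
  linarith

lemma mem_SS {ρ α : ℝ} (hρ : 0 ≤ ρ) (h : |α| ≤ Real.pi / 3) :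
    -((ρ : ℂ) * exp (α * I)) ∈ SS := by
  rw [SS, Set.mem_ofPred_eq, neg_re, neg_im, polar_re, polar_im, abs_neg, abs_mul,
    abs_of_nonneg hρ]
  have := mul_le_mul_of_nonneg_left (trig_sector h) hρ
  linarith

lemma om_eq : om = exp ((2 * Real.pi / 3 : ℝ) * I) := by
  have hc : Real.cos (2 * Real.pi / 3) = -1 / 2 := by
    rw [show 2 * Real.pi / 3 = Real.pi - Real.pi / 3 by ring, Real.cos_pi_sub,
      Real.cos_pi_div_three]; ring
  have hs : Real.sin (2 * Real.pi / 3) = Real.sqrt 3 / 2 := by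
    rw [show 2 * Real.pi / 3 = Real.pi - Real.pi / 3 by ring, Real.sin_pi_sub,
      Real.sin_pi_div_three]
  apply Complex.ext
  · rw [exp_ofReal_mul_I_re, hc]; rfl
  · rw [exp_ofReal_mul_I_im, hs]; rfl

lemma neg_one_eq : (-1 : ℂ) = exp ((Real.pi : ℝ) * I) := by
  rw [exp_pi_mul_I]

lemma two_pi_eq : (1 : ℂ) = exp ((2 * Real.pi : ℝ) * I) := by
  push_cast
  rw [exp_two_pi_mul_I]

lemma decomp (τ : ℂ) : ∃ (j : ℕ) (φ : ℝ), |φ| ≤ Real.pi / 3 ∧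
    τ = om ^ j * -((‖τ‖ : ℂ) * exp (φ * I)) := by
  have hp := norm_mul_exp_arg_mul_I τ
  have h1 := neg_pi_lt_arg τ
  have h2 := arg_le_pi τ
  have hpi := Real.pi_pos
  set ψ := arg τ with hψ
  have key : ∀ (j : ℕ) (φ : ℝ) (m : ℤ), (2 * Real.pi / 3) * j + Real.pi + φ = ψ + m * (2 * Real.pi) →
      τ = om ^ j * -((‖τ‖ : ℂ) * exp (φ * I)) := by
    intro j φ m h
    have e1 : om ^ j * -((‖τ‖ : ℂ) * exp (φ * I)) =
        (‖τ‖ : ℂ) * (om ^ j * (-1) * exp (φ * I)) := by ring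
    rw [e1, om_eq, neg_one_eq, ← exp_nat_mul, ← exp_add, ← exp_add]
    have e2 : (j : ℂ) * (((2 * Real.pi / 3 : ℝ) : ℂ) * I) + (Real.pi : ℝ) * I + φ * I =
        ((2 * Real.pi / 3 * j + Real.pi + φ : ℝ) : ℂ) * I := by push_cast; ring
    rw [e2, h]
    have e3 : ((ψ + m * (2 * Real.pi) : ℝ) : ℂ) * I = (ψ : ℂ) * I + m * (2 * Real.pi * I) := by
      push_cast; ring
    rw [e3, exp_add, exp_int_mul_two_pi_mul_I, mul_one]
    exact hp.symm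
  rcases le_or_gt (2 * Real.pi / 3) ψ with h | h
  · refine ⟨0, ψ - Real.pi, ?_, key 0 _ 0 (by push_cast; ring)⟩
    rw [abs_le]; constructor <;> linarith
  · rcases le_or_gt 0 ψ with h' | h'
    · refine ⟨2, ψ - Real.pi / 3, ?_, key 2 _ 1 (by push_cast; ring)⟩
      rw [abs_le]; constructor <;> linarith
    · rcases le_or_gt (-(2 * Real.pi / 3)) ψ with h'' | h''
      · refine ⟨1, ψ + Real.pi / 3, ?_, key 1 _ 1 (by push_cast; ring)⟩
        rw [abs_le]; constructor <;> linarith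
      · refine ⟨0, ψ + Real.pi, ?_, key 0 _ 1 (by push_cast; ring)⟩
        rw [abs_le]; constructor <;> linarith

/-- the constant `cos (5 pi / 12)` -/
noncomputable def del : ℝ := Real.cos (5 * Real.pi / 12)

lemma del_pos : 0 < del := by
  apply Real.cos_pos_of_mem_Ioo
  constructor <;> linarith [Real.pi_pos]

lemma re_lower (μ : ℂ) (hμ : |μ.arg| ≤ Real.pi / 12) (s : ℝ) (hs : 0 ≤ s) (x : ℝ)
    (hx : |x| ≤ Real.pi / 3) : del * ‖μ‖ * s ≤ (μ * ((s : ℂ) * exp (x * I))).re := by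
  have h1 : μ * ((s : ℂ) * exp (x * I)) = ((‖μ‖ * s : ℝ) : ℂ) * exp ((μ.arg + x : ℝ) * I) := by
    conv_lhs => rw [← norm_mul_exp_arg_mul_I μ]
    push_cast
    rw [add_mul, exp_add]; ring
  rw [h1, polar_re]
  have h2 : del ≤ Real.cos (μ.arg + x) := by
    rw [del, ← Real.cos_abs (μ.arg + x)]
    apply Real.cos_le_cos_of_nonneg_of_le_pi (abs_nonneg _) (by linarith [Real.pi_pos])
    have := abs_add_le μ.arg x
    linarith
  have h3 : 0 ≤ ‖μ‖ * s := by positivity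
  nlinarith

lemma quad_bound {F1 F2 h0 x1 x2 y1 y2 : ℂ} {C E X Y : ℝ} (hC : 0 ≤ C) (hE : 0 < E) (hX : 0 ≤ X)
    (hF1 : ‖F1‖ ≤ C / E ^ 2) (hF2 : ‖F2‖ ≤ C * E ^ 2) (hh : ‖h0‖ ≤ 1)
    (hx1 : ‖x1‖ ≤ X / E) (hx2 : ‖x2‖ ≤ X * E) (hy1 : ‖y1‖ ≤ Y / E) (hy2 : ‖y2‖ ≤ Y * E) :
    ‖F1 * x2 * y2 + h0 * (x1 * y2 + x2 * y1) + F2 * x1 * y1‖ ≤ (2 * C + 2) * (X * Y) := by
  have a1 : ‖F1 * x2 * y2‖ ≤ C * (X * Y) := by
    rw [norm_mul, norm_mul]
    calc ‖F1‖ * ‖x2‖ * ‖y2‖ ≤ (C / E ^ 2) * (X * E) * (Y * E) := by gcongr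
      _ = C * (X * Y) := by field_simp
  have a2 : ‖F2 * x1 * y1‖ ≤ C * (X * Y) := by
    rw [norm_mul, norm_mul]
    calc ‖F2‖ * ‖x1‖ * ‖y1‖ ≤ (C * E ^ 2) * (X / E) * (Y / E) := by gcongr
      _ = C * (X * Y) := by field_simp
  have a3 : ‖x1 * y2‖ ≤ X * Y := by
    rw [norm_mul]
    calc ‖x1‖ * ‖y2‖ ≤ (X / E) * (Y * E) := by gcongr
      _ = X * Y := by field_simp
  have a4 : ‖x2 * y1‖ ≤ X * Y := by
    rw [norm_mul]
    calc ‖x2‖ * ‖y1‖ ≤ (X * E) * (Y / E) := by gcongr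
      _ = X * Y := by field_simp
  have a5 : ‖h0 * (x1 * y2 + x2 * y1)‖ ≤ 2 * (X * Y) := by
    rw [norm_mul]
    have := norm_add_le (x1 * y2) (x2 * y1)
    calc ‖h0‖ * ‖x1 * y2 + x2 * y1‖ ≤ 1 * (X * Y + X * Y) := by
          apply mul_le_mul hh (by linarith) (norm_nonneg _) zero_le_one
      _ = 2 * (X * Y) := by ring
  calc ‖F1 * x2 * y2 + h0 * (x1 * y2 + x2 * y1) + F2 * x1 * y1‖
      ≤ ‖F1 * x2 * y2‖ + ‖h0 * (x1 * y2 + x2 * y1)‖ + ‖F2 * x1 * y1‖ := norm_add₃_le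
    _ ≤ _ := by linarith

section sector

variable {A B h : ℂ → ℂ} {κ μ : ℂ} {C : ℝ}

lemma geom (ρ φ : ℝ) (hρ : 0 ≤ ρ) :
    ((Real.sqrt ρ : ℂ) * exp ((φ / 2 + Real.pi / 6 : ℝ) * I)) ^ 2
      = om ^ 2 * -((ρ : ℂ) * exp (φ * I)) ∧
    ((Real.sqrt ρ : ℂ) * exp ((φ / 2 - Real.pi / 6 : ℝ) * I)) ^ 2
      = om * -((ρ : ℂ) * exp (φ * I)) ∧
    ((Real.sqrt ρ : ℂ) * exp ((φ / 2 - Real.pi / 6 : ℝ) * I)) ^ 3
      = -((Real.sqrt ρ : ℂ) * exp ((φ / 2 + Real.pi / 6 : ℝ) * I)) ^ 3 := by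
  have hs : (Real.sqrt ρ : ℂ) ^ 2 = (ρ : ℂ) := by
    rw [← ofReal_pow, Real.sq_sqrt hρ]
  refine ⟨?_, ?_, ?_⟩
  · rw [mul_pow, hs, ← exp_nat_mul]
    have e1 : om ^ 2 * -((ρ : ℂ) * exp (φ * I)) = (ρ : ℂ) * (om ^ 2 * (-1) * exp (φ * I)) := by
      ring
    rw [e1, om_eq, neg_one_eq, ← exp_nat_mul, ← exp_add, ← exp_add]
    congr 1
    have e2 : (2 : ℕ) * (((2 * Real.pi / 3 : ℝ) : ℂ) * I) + (Real.pi : ℝ) * I + φ * I =
        (2 : ℕ) * (((φ / 2 + Real.pi / 6 : ℝ) : ℂ) * I) + (2 * Real.pi : ℝ) * I := by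
      push_cast; ring
    rw [e2, exp_add, ← two_pi_eq, mul_one]
  · rw [mul_pow, hs, ← exp_nat_mul]
    have e1 : om * -((ρ : ℂ) * exp (φ * I)) = (ρ : ℂ) * (om * (-1) * exp (φ * I)) := by
      ring
    rw [e1, om_eq, neg_one_eq, ← exp_add, ← exp_add]
    congr 1
    have e2 : ((2 * Real.pi / 3 : ℝ) : ℂ) * I + (Real.pi : ℝ) * I + φ * I =
        (2 : ℕ) * (((φ / 2 - Real.pi / 6 : ℝ) : ℂ) * I) + (2 * Real.pi : ℝ) * I := by
      push_cast; ring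
    rw [e2, exp_add, ← two_pi_eq, mul_one]
  · have e1 : -((Real.sqrt ρ : ℂ) * exp ((φ / 2 + Real.pi / 6 : ℝ) * I)) ^ 3 =
        (Real.sqrt ρ : ℂ) ^ 3 * ((-1) * exp ((φ / 2 + Real.pi / 6 : ℝ) * I) ^ 3) := by ring
    rw [e1, mul_pow, neg_one_eq, ← exp_nat_mul, ← exp_nat_mul, ← exp_add]
    congr 1
    have e2 : ((Real.pi : ℝ) : ℂ) * I + (3 : ℕ) * (((φ / 2 + Real.pi / 6 : ℝ) : ℂ) * I) =
        (3 : ℕ) * (((φ / 2 - Real.pi / 6 : ℝ) : ℂ) * I) + (2 * Real.pi : ℝ) * I := by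
      push_cast; ring
    rw [e2, exp_add, ← two_pi_eq, mul_one]

lemma sector_bound
    (hbA : ∀ c : ℂ, 0 < c.re → ‖A (c ^ 2)‖ ≤
      Real.sqrt (Real.pi / c.re) * Real.exp (-(2 / 3) * (c ^ 3).re))
    (hbB : ∀ c : ℂ, 0 < c.re → ‖B (c ^ 2)‖ ≤
      (1 / c.re + ‖c‖ * Real.sqrt (Real.pi / c.re)) * Real.exp (-(2 / 3) * (c ^ 3).re))
    (hSS : ∀ u ∈ SS, ‖h u‖ ≤ 1)
    (hF : ∀ v ∈ KK, ‖h (om * v ^ 2) + h (om ^ 2 * v ^ 2)‖ ≤ C * Real.exp ((κ * v ^ 3).re))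
    (hμ : μ ≠ 0) (harg : |μ.arg| ≤ Real.pi / 12) (hκμ : μ ^ 3 = -(3 / 4) * κ)
    (ρ φ : ℝ) (hρ : 0 < ρ) (hφ : |φ| ≤ Real.pi / 3) (τ : ℂ)
    (hτ : τ = -((ρ : ℂ) * exp (φ * I))) :
    ∃ E : ℝ, 0 < E ∧ ‖h τ‖ ≤ 1 ∧ ‖h τ + h (om ^ 2 * τ)‖ ≤ C / E ^ 2 ∧
      ‖h τ + h (om * τ)‖ ≤ C * E ^ 2 ∧
      ‖A (μ ^ 2 * (om * τ))‖ ≤ Real.sqrt (Real.pi / (del * ‖μ‖ * Real.sqrt ρ)) / E ∧
      ‖A (μ ^ 2 * (om ^ 2 * τ))‖ ≤ Real.sqrt (Real.pi / (del * ‖μ‖ * Real.sqrt ρ)) * E ∧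
      ‖B (μ ^ 2 * (om * τ))‖ ≤ (1 / (del * ‖μ‖ * Real.sqrt ρ) + ‖μ‖ * Real.sqrt ρ *
        Real.sqrt (Real.pi / (del * ‖μ‖ * Real.sqrt ρ))) / E ∧
      ‖B (μ ^ 2 * (om ^ 2 * τ))‖ ≤ (1 / (del * ‖μ‖ * Real.sqrt ρ) + ‖μ‖ * Real.sqrt ρ *
        Real.sqrt (Real.pi / (del * ‖μ‖ * Real.sqrt ρ))) * E := by
  obtain ⟨g1, g2, g3⟩ := geom ρ φ hρ.le
  rw [← hτ] at g1 g2
  set s : ℝ := Real.sqrt ρ with hs
  have hs0 : 0 < s := Real.sqrt_pos.2 hρ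
  set v : ℂ := (s : ℂ) * exp ((φ / 2 + Real.pi / 6 : ℝ) * I) with hv
  set v' : ℂ := (s : ℂ) * exp ((φ / 2 - Real.pi / 6 : ℝ) * I) with hv'
  obtain ⟨hφ1, hφ2⟩ := abs_le.1 hφ
  have hx : |φ / 2 + Real.pi / 6| ≤ Real.pi / 3 := by
    rw [abs_le]; constructor <;> linarith [Real.pi_pos]
  have hx' : |φ / 2 - Real.pi / 6| ≤ Real.pi / 3 := by
    rw [abs_le]; constructor <;> linarith [Real.pi_pos]
  have hvK : v ∈ KK := mem_KK hs0.le hx
  have hvK' : v' ∈ KK := mem_KK hs0.le hx'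
  have hτS : τ ∈ SS := by rw [hτ]; exact mem_SS hρ.le hφ
  have hre : del * ‖μ‖ * s ≤ (μ * v).re := re_lower μ harg s hs0.le _ hx
  have hre' : del * ‖μ‖ * s ≤ (μ * v').re := re_lower μ harg s hs0.le _ hx'
  have hm : 0 < del * ‖μ‖ * s := by
    have := del_pos
    have := norm_pos_iff.2 hμ
    positivity
  have hnv : ‖μ * v‖ = ‖μ‖ * s := by
    rw [norm_mul, hv, norm_mul, norm_exp_ofReal_mul_I, mul_one, norm_real,
      Real.norm_of_nonneg hs0.le]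
  have hnv' : ‖μ * v'‖ = ‖μ‖ * s := by
    rw [norm_mul, hv', norm_mul, norm_exp_ofReal_mul_I, mul_one, norm_real,
      Real.norm_of_nonneg hs0.le]
  have h3 : om ^ 3 = 1 := om_cube
  have f1 : om * v ^ 2 = τ := by rw [g1]; linear_combination τ * h3
  have f2 : om ^ 2 * v ^ 2 = om * τ := by rw [g1]; linear_combination (om * τ) * h3
  have f3 : om * v' ^ 2 = om ^ 2 * τ := by rw [g2]; ring
  have f4 : om ^ 2 * v' ^ 2 = τ := by rw [g2]; linear_combination τ * h3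
  have c3 : (μ * v) ^ 3 = -(3 / 4) * (κ * v ^ 3) := by rw [mul_pow, hκμ]; ring
  have c3' : (μ * v') ^ 3 = 3 / 4 * (κ * v ^ 3) := by rw [mul_pow, hκμ, g3]; ring
  set R : ℝ := (κ * v ^ 3).re with hR
  have r3 : -(2 / 3) * ((μ * v) ^ 3).re = R / 2 := by
    rw [c3, show (-(3 / 4) * (κ * v ^ 3) : ℂ) = ((-(3 / 4) : ℝ) : ℂ) * (κ * v ^ 3) by
      push_cast; ring, re_ofReal_mul]; ring
  have r3' : -(2 / 3) * ((μ * v') ^ 3).re = -(R / 2) := by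
    rw [c3', show (3 / 4 * (κ * v ^ 3) : ℂ) = (((3 / 4) : ℝ) : ℂ) * (κ * v ^ 3) by
      push_cast; ring, re_ofReal_mul]; ring
  have hE2 : Real.exp R = Real.exp (R / 2) ^ 2 := by
    rw [← Real.exp_nat_mul]; congr 1; push_cast; ring
  have hA1 : μ ^ 2 * (om * τ) = (μ * v') ^ 2 := by rw [mul_pow, g2]
  have hA2 : μ ^ 2 * (om ^ 2 * τ) = (μ * v) ^ 2 := by rw [mul_pow, g1]
  have hsq : Real.sqrt (Real.pi / (μ * v).re) ≤ Real.sqrt (Real.pi / (del * ‖μ‖ * s)) :=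
    Real.sqrt_le_sqrt (div_le_div_of_nonneg_left Real.pi_pos.le hm hre)
  have hsq' : Real.sqrt (Real.pi / (μ * v').re) ≤ Real.sqrt (Real.pi / (del * ‖μ‖ * s)) :=
    Real.sqrt_le_sqrt (div_le_div_of_nonneg_left Real.pi_pos.le hm hre')
  have hone : 1 / (μ * v).re ≤ 1 / (del * ‖μ‖ * s) := one_div_le_one_div_of_le hm hre
  have hone' : 1 / (μ * v').re ≤ 1 / (del * ‖μ‖ * s) := one_div_le_one_div_of_le hm hre'
  refine ⟨Real.exp (R / 2), Real.exp_pos _, hSS τ hτS, ?_, ?_, ?_, ?_, ?_, ?_⟩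
  · have := hF v' hvK'
    rw [f3, f4, g3] at this
    rw [add_comm]
    calc ‖h (om ^ 2 * τ) + h τ‖ ≤ C * Real.exp ((κ * -v ^ 3).re) := this
      _ = C / Real.exp (R / 2) ^ 2 := by
          rw [← hE2, mul_neg, neg_re, Real.exp_neg, div_eq_mul_inv]
  · have := hF v hvK
    rw [f1, f2] at this
    rw [← hE2]; exact this
  · rw [hA1]
    have := hbA (μ * v') (lt_of_lt_of_le hm hre')
    rw [r3', Real.exp_neg, ← div_eq_mul_inv] at this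
    exact this.trans (div_le_div_of_nonneg_right hsq' (Real.exp_pos _).le)
  · rw [hA2]
    have := hbA (μ * v) (lt_of_lt_of_le hm hre)
    rw [r3] at this
    exact this.trans (mul_le_mul_of_nonneg_right hsq (Real.exp_pos _).le)
  · rw [hA1]
    have := hbB (μ * v') (lt_of_lt_of_le hm hre')
    rw [r3', Real.exp_neg, ← div_eq_mul_inv, hnv'] at this
    refine this.trans (div_le_div_of_nonneg_right ?_ (Real.exp_pos _).le)
    exact add_le_add hone' (mul_le_mul_of_nonneg_left hsq' (by positivity))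
  · rw [hA2]
    have := hbB (μ * v) (lt_of_lt_of_le hm hre)
    rw [r3, hnv] at this
    refine this.trans (mul_le_mul_of_nonneg_right ?_ (Real.exp_pos _).le)
    exact add_le_add hone (mul_le_mul_of_nonneg_left hsq (by positivity))

end sector

/-- weighted sum over the three rotations -/
noncomputable def NW (c1 c2 : ℂ) (h G : ℂ → ℂ) (τ : ℂ) : ℂ :=
  h τ * G τ + c1 * (h (om * τ) * G (om * τ)) + c2 * (h (om ^ 2 * τ) * G (om ^ 2 * τ))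

lemma om_mul_om (τ : ℂ) : om * (om * τ) = om ^ 2 * τ := by ring

lemma om_sq_mul_om (τ : ℂ) : om ^ 2 * (om * τ) = τ := by
  linear_combination τ * om_cube

lemma NW_rot {c1 c2 : ℂ} (h1 : c2 * c1 = 1) (h2 : c2 * c2 = c1) (h G : ℂ → ℂ) (τ : ℂ) :
    NW c1 c2 h G (om * τ) = c2 * NW c1 c2 h G τ := by
  rw [NW, NW, om_mul_om, om_sq_mul_om, ← h2]
  rw [← h2] at h1
  linear_combination (-(h (om * τ) * G (om * τ))) * h1

lemma NW_norm_rot {c1 c2 : ℂ} (h1 : c2 * c1 = 1) (h2 : c2 * c2 = c1) (hc : ‖c2‖ = 1)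
    (h G : ℂ → ℂ) (τ : ℂ) (j : ℕ) :
    ‖NW c1 c2 h G (om ^ j * τ)‖ = ‖NW c1 c2 h G τ‖ := by
  induction j with
  | zero => simp
  | succ j ih =>
    rw [show om ^ (j + 1) * τ = om * (om ^ j * τ) by ring, NW_rot h1 h2, norm_mul, hc, one_mul, ih]

lemma NW_diff {c1 c2 : ℂ} {h G : ℂ → ℂ} (hh : Differentiable ℂ h) (hG : Differentiable ℂ G) :
    Differentiable ℂ (NW c1 c2 h G) := by
  unfold NW
  fun_prop

/-- Liouville with growth `O (|z| ^ (1 / 2))` -/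
lemma liou_const (N : ℂ → ℂ) (hN : Differentiable ℂ N) (K : ℝ)
    (hb : ∀ τ, 1 ≤ ‖τ‖ → ‖N τ‖ ≤ K * Real.sqrt ‖τ‖) (τ : ℂ) : N τ = N 0 := by
  have hK : 0 ≤ K := by
    have := hb 1 (by simp)
    simp only [norm_one, Real.sqrt_one, mul_one] at this
    exact (norm_nonneg _).trans this
  apply is_const_of_deriv_eq_zero hN
  intro c
  by_contra hne
  have hd : 0 < ‖deriv N c‖ := norm_pos_iff.2 hne
  set d := ‖deriv N c‖ with hdd
  have key : ∀ R : ℝ, ‖c‖ + 1 ≤ R → d ^ 2 * R ≤ 2 * K ^ 2 := by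
    intro R hR
    have hR0 : 0 < R := by linarith [norm_nonneg c]
    have h1 : d ≤ K * Real.sqrt (2 * R) / R := by
      apply Complex.norm_deriv_le_of_forall_mem_sphere_norm_le hR0
      · exact hN.diffContOnCl
      · intro z hz
        rw [mem_sphere_iff_norm] at hz
        have h2 : ‖z‖ ≤ 2 * R := by
          have := norm_add_le (z - c) c
          rw [sub_add_cancel, hz] at this
          linarith
        have h3 : 1 ≤ ‖z‖ := by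
          have := norm_sub_le z c
          rw [hz] at this
          linarith
        exact (hb z h3).trans (mul_le_mul_of_nonneg_left (Real.sqrt_le_sqrt h2) hK)
    rw [le_div_iff₀ hR0] at h1
    have h2 : (d * R) ^ 2 ≤ (K * Real.sqrt (2 * R)) ^ 2 := pow_le_pow_left₀ (by positivity) h1 2
    rw [mul_pow, mul_pow, Real.sq_sqrt (by positivity)] at h2
    have h3 : (d ^ 2 * R) * R ≤ (2 * K ^ 2) * R := by nlinarith
    exact le_of_mul_le_mul_right h3 hR0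
  have h1 := key (‖c‖ + 1 + (2 * K ^ 2 + 1) / d ^ 2) (by
    have : 0 ≤ (2 * K ^ 2 + 1) / d ^ 2 := by positivity
    linarith)
  rw [mul_add, mul_div_cancel₀ _ (by positivity : d ^ 2 ≠ 0)] at h1
  have h2 : 0 ≤ d ^ 2 * (‖c‖ + 1) := by positivity
  linarith

section bounds

variable {m M ρ : ℝ}

lemma XX_bound (hm : 0 < m) (hρ : 1 ≤ ρ) :
    Real.sqrt (Real.pi / (m * Real.sqrt ρ)) * Real.sqrt (Real.pi / (m * Real.sqrt ρ)) ≤
      Real.pi / m * Real.sqrt ρ := by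
  have hs : 1 ≤ Real.sqrt ρ := Real.one_le_sqrt.2 hρ
  have hpi := Real.pi_pos
  rw [Real.mul_self_sqrt (by positivity)]
  have h1 : Real.pi / (m * Real.sqrt ρ) ≤ Real.pi / m := by
    apply div_le_div_of_nonneg_left hpi.le hm
    nlinarith
  have h2 : 0 < Real.pi / m := by positivity
  nlinarith

lemma XY_bound (hm : 0 < m) (hM : 0 ≤ M) (hρ : 1 ≤ ρ) :
    Real.sqrt (Real.pi / (m * Real.sqrt ρ)) *
      (1 / (m * Real.sqrt ρ) + M * Real.sqrt ρ * Real.sqrt (Real.pi / (m * Real.sqrt ρ))) ≤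
      (Real.sqrt (Real.pi / m) * (1 / m) + M * (Real.pi / m)) * Real.sqrt ρ := by
  have hs : 1 ≤ Real.sqrt ρ := Real.one_le_sqrt.2 hρ
  have hpi := Real.pi_pos
  have hX : Real.sqrt (Real.pi / (m * Real.sqrt ρ)) ≤ Real.sqrt (Real.pi / m) := by
    apply Real.sqrt_le_sqrt
    apply div_le_div_of_nonneg_left hpi.le hm
    nlinarith
  have hXX := Real.mul_self_sqrt (show 0 ≤ Real.pi / (m * Real.sqrt ρ) by positivity)
  have h1 : 1 / (m * Real.sqrt ρ) ≤ 1 / m := by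
    apply one_div_le_one_div_of_le hm
    nlinarith
  have e : Real.sqrt (Real.pi / (m * Real.sqrt ρ)) *
      (1 / (m * Real.sqrt ρ) + M * Real.sqrt ρ * Real.sqrt (Real.pi / (m * Real.sqrt ρ))) =
      Real.sqrt (Real.pi / (m * Real.sqrt ρ)) * (1 / (m * Real.sqrt ρ)) + M * Real.sqrt ρ *
      (Real.sqrt (Real.pi / (m * Real.sqrt ρ)) * Real.sqrt (Real.pi / (m * Real.sqrt ρ))) := by
    ring
  rw [e, hXX]
  have h2 : Real.sqrt (Real.pi / (m * Real.sqrt ρ)) * (1 / (m * Real.sqrt ρ)) ≤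
      Real.sqrt (Real.pi / m) * (1 / m) := mul_le_mul hX h1 (by positivity) (by positivity)
  have h3 : M * Real.sqrt ρ * (Real.pi / (m * Real.sqrt ρ)) = M * (Real.pi / m) := by
    field_simp
  rw [h3]
  have h4 : 0 ≤ Real.sqrt (Real.pi / m) * (1 / m) + M * (Real.pi / m) := by positivity
  nlinarith

lemma YY_bound (hm : 0 < m) (hρ : 1 ≤ ρ) :
    (1 / (m * Real.sqrt ρ) + M * Real.sqrt ρ * Real.sqrt (Real.pi / (m * Real.sqrt ρ))) *
      (1 / (m * Real.sqrt ρ) + M * Real.sqrt ρ * Real.sqrt (Real.pi / (m * Real.sqrt ρ))) ≤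
      (2 * (1 / m) ^ 2 + 2 * M ^ 2 * (Real.pi / m)) * Real.sqrt ρ := by
  have hs : 1 ≤ Real.sqrt ρ := Real.one_le_sqrt.2 hρ
  have hpi := Real.pi_pos
  have hXX := Real.mul_self_sqrt (show 0 ≤ Real.pi / (m * Real.sqrt ρ) by positivity)
  set X := Real.sqrt (Real.pi / (m * Real.sqrt ρ)) with hX
  set s := Real.sqrt ρ with hs'
  have h1 : 1 / (m * s) ≤ 1 / m := by
    apply one_div_le_one_div_of_le hm
    nlinarith
  have h0 : 0 ≤ 1 / (m * s) := by positivity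
  have h2 : (1 / (m * s) + M * s * X) * (1 / (m * s) + M * s * X) ≤
      2 * (1 / (m * s)) ^ 2 + 2 * (M * s * X) ^ 2 := by
    nlinarith [sq_nonneg (1 / (m * s) - M * s * X)]
  have h3 : (M * s * X) ^ 2 = M ^ 2 * (Real.pi / m) * s := by
    have : (M * s * X) ^ 2 = M ^ 2 * s ^ 2 * (X * X) := by ring
    rw [this, hXX]; field_simp
  have h4 : (1 / (m * s)) ^ 2 ≤ (1 / m) ^ 2 := pow_le_pow_left₀ h0 h1 2
  have h5 : 0 ≤ (1 / m) ^ 2 := by positivity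
  rw [h3] at h2
  nlinarith

end bounds

end Uni

open Uni in
theorem limit_unique_of (airy : AiryPackage) : ∃ c0 : ℂ, ∀ (h : ℂ → ℂ) (κ μ : ℂ) (C : ℝ), Differentiable ℂ h → h 0 = 1 →
    (∀ u, h u * h (om * u) + h (om * u) * h (om ^ 2 * u) + h u * h (om ^ 2 * u) = 3) →
    (∀ u ∈ SS, ‖h u‖ ≤ 1) →
    (∀ v ∈ KK, ‖h (om * v ^ 2) + h (om ^ 2 * v ^ 2)‖ ≤ C * Real.exp ((κ * v ^ 3).re)) →
    μ ≠ 0 → |μ.arg| ≤ Real.pi / 12 → μ ^ 3 = -(3 / 4) * κ →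
    deriv h 0 = c0 * μ ^ 2 := by
  obtain ⟨A, B, hA, hB, hA0, hB0, hsA, hsB, hW, hbA, hbB⟩ := airy
  refine ⟨-2 * B 0 / A 0, ?_⟩
  intro h κ μ C hd h0 _ hSS hF hμ harg hκμ
  have hC : 0 ≤ C := by
    have := hF 0 (by simp [KK])
    simp only [ne_eq, OfNat.ofNat_ne_zero, not_false_eq_true, zero_pow, mul_zero, zero_re,
      Real.exp_zero, mul_one] at this
    exact (norm_nonneg _).trans this
  have hom3 := om_cube
  have hAd : Differentiable ℂ A := fun z => (hA z).differentiableAt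
  have hBd : Differentiable ℂ B := fun z => (hB z).differentiableAt
  have hm : 0 < del * ‖μ‖ := mul_pos del_pos (norm_pos_iff.2 hμ)
  have hnorm2 : ‖om ^ 2‖ = 1 := by rw [norm_pow, norm_om, one_pow]
  -- relations at `μ ^ 2 * τ`
  have rA : ∀ τ, A (μ ^ 2 * τ) = -(om * A (μ ^ 2 * (om * τ))) - om ^ 2 * A (μ ^ 2 * (om ^ 2 * τ)) := by
    intro τ
    have := hsA (μ ^ 2 * τ)
    rw [mul_left_comm om, mul_left_comm (om ^ 2) (μ ^ 2)] at this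
    linear_combination this
  have rB : ∀ τ, B (μ ^ 2 * τ) = -(om ^ 2 * B (μ ^ 2 * (om * τ))) - om * B (μ ^ 2 * (om ^ 2 * τ)) := by
    intro τ
    have := hsB (μ ^ 2 * τ)
    rw [mul_left_comm om, mul_left_comm (om ^ 2) (μ ^ 2)] at this
    linear_combination this
  have rW : ∀ τ, om ^ 2 * (A (μ ^ 2 * (om * τ)) * B (μ ^ 2 * (om ^ 2 * τ)))
      - om * (A (μ ^ 2 * (om ^ 2 * τ)) * B (μ ^ 2 * (om * τ))) = (om ^ 2 - om) * (A 0 * B 0) := by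
    intro τ
    have := hW (μ ^ 2 * τ)
    rw [mul_left_comm om, mul_left_comm (om ^ 2) (μ ^ 2)] at this
    exact this
  -- the three entire functions
  set N22 := NW (om ^ 2) om h (fun τ => A (μ ^ 2 * τ) ^ 2) with hN22
  set N12 := NW 1 1 h (fun τ => A (μ ^ 2 * τ) * B (μ ^ 2 * τ)) with hN12
  set N11 := NW om (om ^ 2) h (fun τ => B (μ ^ 2 * τ) ^ 2) with hN11
  have d22 : Differentiable ℂ N22 := NW_diff hd (by fun_prop)
  have d12 : Differentiable ℂ N12 := NW_diff hd (by fun_prop)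
  have d11 : Differentiable ℂ N11 := NW_diff hd (by fun_prop)
  -- bounds in the sector
  have b22 : ∀ τ, 1 ≤ ‖τ‖ → ‖N22 τ‖ ≤ ((2 * C + 2) * (Real.pi / (del * ‖μ‖))) * Real.sqrt ‖τ‖ := by
    intro τ hτ
    obtain ⟨j, φ, hφ, hdec⟩ := decomp τ
    set τ0 := -((‖τ‖ : ℂ) * exp (φ * I)) with hτ0
    obtain ⟨E, hE, e1, e2, e3, e4, e5, e6, e7⟩ := sector_bound hbA hbB hSS hF hμ harg hκμ ‖τ‖ φ
      (by linarith) hφ τ0 hτ0
    have hn : ‖N22 τ‖ = ‖N22 τ0‖ := by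
      rw [hdec]
      exact NW_norm_rot (by linear_combination hom3) (by ring) norm_om h _ τ0 j
    rw [hn]
    have hq := quad_bound (x1 := om * A (μ ^ 2 * (om * τ0)))
      (x2 := om ^ 2 * A (μ ^ 2 * (om ^ 2 * τ0))) (y1 := om * A (μ ^ 2 * (om * τ0)))
      (y2 := om ^ 2 * A (μ ^ 2 * (om ^ 2 * τ0))) hC hE (Real.sqrt_nonneg _) e2 e3 e1
      (by rw [norm_mul, norm_om, one_mul]; exact e4) (by rw [norm_mul, hnorm2, one_mul]; exact e5)
      (by rw [norm_mul, norm_om, one_mul]; exact e4) (by rw [norm_mul, hnorm2, one_mul]; exact e5)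
    have hid : N22 τ0 = (h τ0 + h (om ^ 2 * τ0)) * (om ^ 2 * A (μ ^ 2 * (om ^ 2 * τ0))) *
        (om ^ 2 * A (μ ^ 2 * (om ^ 2 * τ0))) +
        h τ0 * (om * A (μ ^ 2 * (om * τ0)) * (om ^ 2 * A (μ ^ 2 * (om ^ 2 * τ0))) +
          om ^ 2 * A (μ ^ 2 * (om ^ 2 * τ0)) * (om * A (μ ^ 2 * (om * τ0)))) +
        (h τ0 + h (om * τ0)) * (om * A (μ ^ 2 * (om * τ0))) * (om * A (μ ^ 2 * (om * τ0))) := by
      rw [hN22, NW]
      rw [rA τ0]
      linear_combination (-(h (om ^ 2 * τ0) * om * A (μ ^ 2 * (om ^ 2 * τ0)) ^ 2)) * hom3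
    rw [hid]
    refine hq.trans ?_
    rw [mul_assoc (2 * C + 2) _ (Real.sqrt ‖τ‖)]
    apply mul_le_mul_of_nonneg_left _ (by linarith)
    exact XX_bound hm hτ
  have b12 : ∀ τ, 1 ≤ ‖τ‖ → ‖N12 τ‖ ≤ ((2 * C + 2) * (Real.sqrt (Real.pi / (del * ‖μ‖)) *
      (1 / (del * ‖μ‖)) + ‖μ‖ * (Real.pi / (del * ‖μ‖)))) * Real.sqrt ‖τ‖ := by
    intro τ hτ
    obtain ⟨j, φ, hφ, hdec⟩ := decomp τ
    set τ0 := -((‖τ‖ : ℂ) * exp (φ * I)) with hτ0
    obtain ⟨E, hE, e1, e2, e3, e4, e5, e6, e7⟩ := sector_bound hbA hbB hSS hF hμ harg hκμ ‖τ‖ φ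
      (by linarith) hφ τ0 hτ0
    have hn : ‖N12 τ‖ = ‖N12 τ0‖ := by
      rw [hdec]
      exact NW_norm_rot (by ring) (by ring) norm_one h _ τ0 j
    rw [hn]
    have hq := quad_bound (x1 := om * A (μ ^ 2 * (om * τ0)))
      (x2 := om ^ 2 * A (μ ^ 2 * (om ^ 2 * τ0))) (y1 := om ^ 2 * B (μ ^ 2 * (om * τ0)))
      (y2 := om * B (μ ^ 2 * (om ^ 2 * τ0))) hC hE (Real.sqrt_nonneg _) e2 e3 e1
      (by rw [norm_mul, norm_om, one_mul]; exact e4) (by rw [norm_mul, hnorm2, one_mul]; exact e5)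
      (by rw [norm_mul, hnorm2, one_mul]; exact e6) (by rw [norm_mul, norm_om, one_mul]; exact e7)
    have hid : N12 τ0 = (h τ0 + h (om ^ 2 * τ0)) * (om ^ 2 * A (μ ^ 2 * (om ^ 2 * τ0))) *
        (om * B (μ ^ 2 * (om ^ 2 * τ0))) +
        h τ0 * (om * A (μ ^ 2 * (om * τ0)) * (om * B (μ ^ 2 * (om ^ 2 * τ0))) +
          om ^ 2 * A (μ ^ 2 * (om ^ 2 * τ0)) * (om ^ 2 * B (μ ^ 2 * (om * τ0)))) +
        (h τ0 + h (om * τ0)) * (om * A (μ ^ 2 * (om * τ0))) * (om ^ 2 * B (μ ^ 2 * (om * τ0))) := by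
      rw [hN12, NW]
      rw [rA τ0, rB τ0]
      linear_combination (-(h (om ^ 2 * τ0) * A (μ ^ 2 * (om ^ 2 * τ0)) * B (μ ^ 2 * (om ^ 2 * τ0)))
        - (h (om * τ0) * A (μ ^ 2 * (om * τ0)) * B (μ ^ 2 * (om * τ0)))) * hom3
    rw [hid]
    refine hq.trans ?_
    rw [mul_assoc (2 * C + 2) (_ + _) (Real.sqrt ‖τ‖)]
    apply mul_le_mul_of_nonneg_left _ (by linarith)
    exact XY_bound hm (norm_nonneg μ) hτ
  have b11 : ∀ τ, 1 ≤ ‖τ‖ → ‖N11 τ‖ ≤ ((2 * C + 2) * (2 * (1 / (del * ‖μ‖)) ^ 2 +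
      2 * ‖μ‖ ^ 2 * (Real.pi / (del * ‖μ‖)))) * Real.sqrt ‖τ‖ := by
    intro τ hτ
    obtain ⟨j, φ, hφ, hdec⟩ := decomp τ
    set τ0 := -((‖τ‖ : ℂ) * exp (φ * I)) with hτ0
    obtain ⟨E, hE, e1, e2, e3, e4, e5, e6, e7⟩ := sector_bound hbA hbB hSS hF hμ harg hκμ ‖τ‖ φ
      (by linarith) hφ τ0 hτ0
    have hn : ‖N11 τ‖ = ‖N11 τ0‖ := by
      rw [hdec]
      exact NW_norm_rot (by linear_combination hom3) (by linear_combination om * hom3)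
        hnorm2 h _ τ0 j
    rw [hn]
    have hY0 : 0 ≤ 1 / (del * ‖μ‖ * Real.sqrt ‖τ‖) + ‖μ‖ * Real.sqrt ‖τ‖ *
        Real.sqrt (Real.pi / (del * ‖μ‖ * Real.sqrt ‖τ‖)) := by positivity
    have hq := quad_bound (x1 := om ^ 2 * B (μ ^ 2 * (om * τ0)))
      (x2 := om * B (μ ^ 2 * (om ^ 2 * τ0))) (y1 := om ^ 2 * B (μ ^ 2 * (om * τ0)))
      (y2 := om * B (μ ^ 2 * (om ^ 2 * τ0))) hC hE hY0 e2 e3 e1
      (by rw [norm_mul, hnorm2, one_mul]; exact e6) (by rw [norm_mul, norm_om, one_mul]; exact e7)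
      (by rw [norm_mul, hnorm2, one_mul]; exact e6) (by rw [norm_mul, norm_om, one_mul]; exact e7)
    have hid : N11 τ0 = (h τ0 + h (om ^ 2 * τ0)) * (om * B (μ ^ 2 * (om ^ 2 * τ0))) *
        (om * B (μ ^ 2 * (om ^ 2 * τ0))) +
        h τ0 * (om ^ 2 * B (μ ^ 2 * (om * τ0)) * (om * B (μ ^ 2 * (om ^ 2 * τ0))) +
          om * B (μ ^ 2 * (om ^ 2 * τ0)) * (om ^ 2 * B (μ ^ 2 * (om * τ0)))) +
        (h τ0 + h (om * τ0)) * (om ^ 2 * B (μ ^ 2 * (om * τ0))) *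
          (om ^ 2 * B (μ ^ 2 * (om * τ0))) := by
      rw [hN11, NW]
      rw [rB τ0]
      linear_combination (-(h (om * τ0) * om * B (μ ^ 2 * (om * τ0)) ^ 2)) * hom3
    rw [hid]
    refine hq.trans ?_
    rw [mul_assoc (2 * C + 2) (_ + _) (Real.sqrt ‖τ‖)]
    apply mul_le_mul_of_nonneg_left _ (by linarith)
    exact YY_bound hm hτ
  have homne : om ≠ 1 := by
    intro h'
    have := om_sum
    rw [h'] at this
    norm_num at this
  have homne2 : om ^ 2 ≠ 1 := by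
    intro h'
    apply homne
    have : om ^ 3 = om := by rw [pow_succ, h', one_mul]
    rw [← this, hom3]
  have z22 : ∀ τ, N22 τ = 0 := by
    intro τ
    have h1 := liou_const N22 d22 _ b22
    have h2 : N22 (om * 0) = om * N22 0 :=
      NW_rot (by linear_combination hom3) (by ring) h _ 0
    rw [mul_zero] at h2
    rw [h1 τ]
    have h3 : (om - 1) * N22 0 = 0 := by linear_combination -h2
    rcases mul_eq_zero.1 h3 with h4 | h4
    · exact absurd (sub_eq_zero.1 h4) homne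
    · exact h4
  have z11 : ∀ τ, N11 τ = 0 := by
    intro τ
    have h1 := liou_const N11 d11 _ b11
    have h2 : N11 (om * 0) = om ^ 2 * N11 0 :=
      NW_rot (by linear_combination hom3) (by linear_combination om * hom3) h _ 0
    rw [mul_zero] at h2
    rw [h1 τ]
    have h3 : (om ^ 2 - 1) * N11 0 = 0 := by linear_combination -h2
    rcases mul_eq_zero.1 h3 with h4 | h4
    · exact absurd (sub_eq_zero.1 h4) homne2
    · exact h4
  have z12 : ∀ τ, N12 τ = 3 * (A 0 * B 0) := by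
    intro τ
    rw [liou_const N12 d12 _ b12 τ, hN12, NW]
    simp only [mul_zero, h0]
    ring
  -- the formula for `h`
  have hAB : A 0 * B 0 ≠ 0 := mul_ne_zero hA0 hB0
  have hform : ∀ τ, h τ = -(1 / (A 0 * B 0)) *
      (om ^ 2 * (A (μ ^ 2 * (om * τ)) * B (μ ^ 2 * (om ^ 2 * τ))) +
        om * (A (μ ^ 2 * (om ^ 2 * τ)) * B (μ ^ 2 * (om * τ)))) := by
    intro τ
    have t22 := z22 τ
    have t11 := z11 τ
    have t12 := z12 τ
    have tW := rW τ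
    rw [hN22, NW] at t22
    rw [hN11, NW] at t11
    rw [hN12, NW] at t12
    rw [rA τ] at t22 t12
    rw [rB τ] at t11 t12
    set a1 := A (μ ^ 2 * (om * τ))
    set a2 := A (μ ^ 2 * (om ^ 2 * τ))
    set b1 := B (μ ^ 2 * (om * τ))
    set b2 := B (μ ^ 2 * (om ^ 2 * τ))
    set h0' := h τ
    set h1' := h (om * τ)
    set h2' := h (om ^ 2 * τ)
    set AB := A 0 * B 0 with hABdef
    obtain ⟨p1, hp1⟩ : ∃ p1, p1 = om * a1 := ⟨_, rfl⟩
    obtain ⟨p2, hp2⟩ : ∃ p2, p2 = om ^ 2 * a2 := ⟨_, rfl⟩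
    obtain ⟨q1, hq1⟩ : ∃ q1, q1 = om ^ 2 * b1 := ⟨_, rfl⟩
    obtain ⟨q2, hq2⟩ : ∃ q2, q2 = om * b2 := ⟨_, rfl⟩
    have T22 : h0' * (p1 + p2) ^ 2 + h1' * p1 ^ 2 + h2' * p2 ^ 2 = 0 := by
      rw [hp1, hp2]
      linear_combination t22 + (h2' * om * a2 ^ 2) * hom3
    have T11 : h0' * (q1 + q2) ^ 2 + h1' * q1 ^ 2 + h2' * q2 ^ 2 = 0 := by
      rw [hq1, hq2]
      linear_combination t11 + (h1' * om * b1 ^ 2) * hom3
    have T12 : h0' * ((p1 + p2) * (q1 + q2)) + h1' * (p1 * q1) + h2' * (p2 * q2) = 3 * AB := by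
      rw [hp1, hp2, hq1, hq2]
      linear_combination t12 + (h1' * a1 * b1 + h2' * a2 * b2) * hom3
    have TW : p1 * q2 - p2 * q1 = (om ^ 2 - om) * AB := by
      rw [hp1, hp2, hq1, hq2]
      linear_combination tW - (om * a2 * b1) * hom3
    have TS : om ^ 2 * (a1 * b2) + om * (a2 * b1) = p1 * q2 + p2 * q1 := by
      rw [hp1, hp2, hq1, hq2]
      linear_combination -(om * a2 * b1) * hom3
    have key : (p1 * q2 - p2 * q1) ^ 2 * h0' = 3 * AB * (p1 * q2 + p2 * q1) := by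
      linear_combination (-(p1 * p2)) * T11 + (p1 * q2 + p2 * q1) * T12 - (q1 * q2) * T22
    have hsq : (om ^ 2 - om) ^ 2 = -3 := by
      linear_combination (om - 2) * hom3 + om_sum
    rw [TW, mul_pow, hsq] at key
    rw [TS]
    have key2 : (3 * AB) * (AB * h0' + (p1 * q2 + p2 * q1)) = 0 := by linear_combination -key
    rcases mul_eq_zero.1 key2 with hh | hh
    · exact absurd hh (mul_ne_zero (by norm_num) hAB)
    · field_simp
      linear_combination hh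
  -- the derivative
  have hlin : ∀ c : ℂ, HasDerivAt (fun τ : ℂ => μ ^ 2 * (c * τ)) (μ ^ 2 * c) 0 := by
    intro c
    have h1 := ((hasDerivAt_id (0 : ℂ)).const_mul c).const_mul (μ ^ 2)
    simpa using h1
  have hAc : ∀ c : ℂ, HasDerivAt (fun τ : ℂ => A (μ ^ 2 * (c * τ))) (B 0 * (μ ^ 2 * c)) 0 := by
    intro c
    have h1 : HasDerivAt A (B 0) (μ ^ 2 * (c * 0)) := by
      rw [mul_zero, mul_zero]; exact hA 0
    exact h1.comp 0 (hlin c)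
  have hBc : ∀ c : ℂ, HasDerivAt (fun τ : ℂ => B (μ ^ 2 * (c * τ))) 0 0 := by
    intro c
    have h1 : HasDerivAt B (0 * A 0) (μ ^ 2 * (c * 0)) := by
      rw [mul_zero, mul_zero]; exact hB 0
    have h2 := h1.comp 0 (hlin c)
    rw [zero_mul, zero_mul] at h2
    exact h2
  have hder : HasDerivAt h (-(1 / (A 0 * B 0)) *
      (om ^ 2 * (B 0 * (μ ^ 2 * om) * B 0 + A 0 * 0) +
        om * (B 0 * (μ ^ 2 * om ^ 2) * B 0 + A 0 * 0))) 0 := by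
    have e : h = fun τ => -(1 / (A 0 * B 0)) *
      (om ^ 2 * (A (μ ^ 2 * (om * τ)) * B (μ ^ 2 * (om ^ 2 * τ))) +
        om * (A (μ ^ 2 * (om ^ 2 * τ)) * B (μ ^ 2 * (om * τ)))) := funext hform
    rw [e]
    have h1 := (hAc om).mul (hBc (om ^ 2))
    have h2 := (hAc (om ^ 2)).mul (hBc om)
    have h3 := ((h1.const_mul (om ^ 2)).add (h2.const_mul om)).const_mul (-(1 / (A 0 * B 0)))
    simp only [mul_zero] at h3 ⊢
    exact h3
  rw [hder.deriv]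
  field_simp
  linear_combination (-(2 * B 0 ^ 2 * μ ^ 2)) * hom3

theorem limit_unique : ∃ c0 : ℂ, ∀ (h : ℂ → ℂ) (κ μ : ℂ) (C : ℝ), Differentiable ℂ h → h 0 = 1 →
    (∀ u, h u * h (om * u) + h (om * u) * h (om ^ 2 * u) + h u * h (om ^ 2 * u) = 3) →
    (∀ u ∈ SS, ‖h u‖ ≤ 1) →
    (∀ v ∈ KK, ‖h (om * v ^ 2) + h (om ^ 2 * v ^ 2)‖ ≤ C * Real.exp ((κ * v ^ 3).re)) →
    μ ≠ 0 → |μ.arg| ≤ Real.pi / 12 → μ ^ 3 = -(3 / 4) * κ →
    deriv h 0 = c0 * μ ^ 2 :=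
  limit_unique_of exists_airy

end Pool.Agent.H21.Stair
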