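import Pool.Agent.H21.Stair.Homotopy
import Pool.Agent.H21.Stair.Normal
import Pool.Agent.H21.Stair.Unique
import Pool.Agent.H21.Stair.Airy

/-!
# Final analysis of the staircase model
-/

namespace Pool.Agent.H21.Stair
open Filter Topology Polynomial

namespace Ana

lemma one_le_aux {x : ℝ} (hx : |x| ≤ 1 / 2) : 1 ≤ (1 + x) * Real.exp (-x + 2 * x ^ 2) := by
  obtain ⟨h1, h2⟩ := abs_le.1 hx
  have hp : 0 < 1 + x := by linarith
  have e1 : (1 + x)⁻¹ ≤ Real.exp (-x / (1 + x)) := by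
    have := Real.add_one_le_exp (-x / (1 + x))
    have e : -x / (1 + x) + 1 = (1 + x)⁻¹ := by field_simp; ring
    rwa [e] at this
  have e2 : -x / (1 + x) ≤ -x + 2 * x ^ 2 := by
    rw [div_le_iff₀ hp]
    nlinarith [sq_nonneg x, mul_nonneg (sq_nonneg x) (by linarith : 0 ≤ 1 + 2 * x)]
  have e3 := Real.exp_le_exp.2 e2
  calc (1 : ℝ) = (1 + x) * (1 + x)⁻¹ := by field_simp
    _ ≤ (1 + x) * Real.exp (-x + 2 * x ^ 2) :=
        mul_le_mul_of_nonneg_left (e1.trans e3) hp.le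

lemma ratio_real {x n : ℝ} (hn : 0 ≤ n) (hx : x ^ 2 ≤ n) (hn2 : n ≤ 1 / 16) :
    1 + n - 2 * x ≤ (1 + n + 2 * x) * Real.exp (2 * (-2 * x + 6 * n)) := by
  have hx4 : |x| ≤ 1 / 4 := by
    apply abs_le_of_sq_le_sq _ (by norm_num)
    nlinarith
  obtain ⟨hx1, hx2⟩ := abs_le.1 hx4
  have hn1 : 0 < 1 + n := by linarith
  set z : ℝ := 2 * x / (1 + n) with hz
  have hzx : z * (1 + n) = 2 * x := by rw [hz]; field_simp
  have hzabs : |z| ≤ 1 / 2 := by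
    rw [hz, abs_div, abs_of_pos hn1, div_le_iff₀ hn1, abs_mul, abs_of_pos (by norm_num : (0:ℝ) < 2)]
    nlinarith [abs_nonneg x]
  have h1 := one_le_aux hzabs
  have h2 : 1 - z ≤ Real.exp (-z) := by
    have := Real.add_one_le_exp (-z); linarith
  have hz1 : 0 < 1 + z := by
    have := (abs_le.1 hzabs).1; linarith
  have h3 : 1 - z ≤ (1 + z) * Real.exp (-2 * z + 2 * z ^ 2) := by
    calc 1 - z ≤ Real.exp (-z) * 1 := by linarith
      _ ≤ Real.exp (-z) * ((1 + z) * Real.exp (-z + 2 * z ^ 2)) :=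
          mul_le_mul_of_nonneg_left h1 (Real.exp_pos _).le
      _ = (1 + z) * (Real.exp (-z) * Real.exp (-z + 2 * z ^ 2)) := by ring
      _ = (1 + z) * Real.exp (-2 * z + 2 * z ^ 2) := by
          rw [← Real.exp_add]; congr 2; ring
  have h4 : -2 * z + 2 * z ^ 2 ≤ 2 * (-2 * x + 6 * n) := by
    have e1 : z = 2 * x - 2 * x * n / (1 + n) := by rw [hz]; field_simp; ring
    have e2 : z ^ 2 ≤ 4 * n := by
      have : z ^ 2 = 4 * x ^ 2 / (1 + n) ^ 2 := by rw [hz]; field_simp; ring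
      rw [this, div_le_iff₀ (by positivity)]
      have k1 : 0 ≤ n * (2 * n + n ^ 2) := by positivity
      nlinarith
    have e3 : 2 * x * n / (1 + n) ≤ n := by
      rw [div_le_iff₀ hn1]; nlinarith
    have : -2 * z = -4 * x + 2 * (2 * x * n / (1 + n)) := by rw [e1]; ring
    rw [this]; nlinarith
  have h5 : 1 - z ≤ (1 + z) * Real.exp (2 * (-2 * x + 6 * n)) :=
    h3.trans (mul_le_mul_of_nonneg_left (Real.exp_le_exp.2 h4) hz1.le)
  calc 1 + n - 2 * x = (1 + n) * (1 - z) := by linear_combination hzx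
    _ ≤ (1 + n) * ((1 + z) * Real.exp (2 * (-2 * x + 6 * n))) :=
        mul_le_mul_of_nonneg_left h5 hn1.le
    _ = (1 + n + 2 * x) * Real.exp (2 * (-2 * x + 6 * n)) := by
        linear_combination Real.exp (2 * (-2 * x + 6 * n)) * hzx

lemma ratio_bound {s y : ℂ} (hy : ‖y‖ = 1) (hs : ‖s‖ ≤ 1 / 4) :
    ‖s - y‖ ≤ ‖s + y‖ * Real.exp (-2 * (s / y).re + 6 * ‖s‖ ^ 2) := by
  have hy0 : y ≠ 0 := by
    intro h; rw [h, norm_zero] at hy; norm_num at hy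
  set q : ℂ := s / y with hq
  have hsq : s = q * y := by rw [hq]; field_simp
  have hqs : ‖q‖ = ‖s‖ := by rw [hsq, norm_mul, hy, mul_one]
  have e1 : ‖s - y‖ = ‖q - 1‖ := by
    rw [show s - y = (q - 1) * y by rw [hsq]; ring, norm_mul, hy, mul_one]
  have e2 : ‖s + y‖ = ‖q + 1‖ := by
    rw [show s + y = (q + 1) * y by rw [hsq]; ring, norm_mul, hy, mul_one]
  rw [e1, e2]
  have hn : ‖s‖ ^ 2 = q.re ^ 2 + q.im ^ 2 := by
    rw [← hqs, Complex.sq_norm, Complex.normSq_apply]; ring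
  have f1 : ‖q - 1‖ ^ 2 = 1 + ‖s‖ ^ 2 - 2 * q.re := by
    rw [hn, Complex.sq_norm, Complex.normSq_apply]
    simp only [Complex.sub_re, Complex.sub_im, Complex.one_re, Complex.one_im]; ring
  have f2 : ‖q + 1‖ ^ 2 = 1 + ‖s‖ ^ 2 + 2 * q.re := by
    rw [hn, Complex.sq_norm, Complex.normSq_apply]
    simp only [Complex.add_re, Complex.add_im, Complex.one_re, Complex.one_im]; ring
  have h := ratio_real (x := q.re) (n := ‖s‖ ^ 2) (by positivity)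
    (by rw [hn]; nlinarith [sq_nonneg q.im]) (by nlinarith [norm_nonneg s])
  rw [← f1, ← f2] at h
  have g : (‖q + 1‖ * Real.exp (-2 * q.re + 6 * ‖s‖ ^ 2)) ^ 2
      = ‖q + 1‖ ^ 2 * Real.exp (2 * (-2 * q.re + 6 * ‖s‖ ^ 2)) := by
    rw [mul_pow, ← Real.exp_nat_mul]; push_cast; rfl
  rw [← g] at h
  exact (pow_le_pow_iff_left₀ (norm_nonneg _) (by positivity) two_ne_zero).1 h

lemma norm_dH (β : ℝ) : ‖dH β‖ = 1 := by
  unfold dH
  rw [show (-((β : ℂ) * Complex.I)) = ((-β : ℝ) : ℂ) * Complex.I by push_cast; ring,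
    Complex.norm_exp_ofReal_mul_I]

lemma norm_dV (β : ℝ) : ‖dV β‖ = 1 := by
  unfold dV
  rw [Complex.norm_exp_ofReal_mul_I]

lemma norm_sH (β : ℝ) : ‖sH β‖ = 1 := by
  unfold sH
  rw [show (-(3 / 2 * (β : ℂ) * Complex.I)) = ((-(3 / 2 * β) : ℝ) : ℂ) * Complex.I by
    push_cast; ring, Complex.norm_exp_ofReal_mul_I]

lemma norm_sV (β : ℝ) : ‖sV β‖ = 1 := by
  unfold sV
  rw [show (3 / 2 * (β : ℂ) * Complex.I) = ((3 / 2 * β : ℝ) : ℂ) * Complex.I by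
    push_cast; ring, Complex.norm_exp_ofReal_mul_I]

lemma den_ne {β : ℝ} {a b : ℕ} {u : ℂ} (hu : ‖u‖ < 1) : (den β a b).eval u ≠ 0 := by
  rw [HomotopyAux.den_eval]
  apply mul_ne_zero
  · apply pow_ne_zero
    intro h
    rw [sub_eq_zero.1 h, norm_dH] at hu
    exact lt_irrefl _ hu
  · apply pow_ne_zero
    intro h
    rw [sub_eq_zero.1 h, norm_dV] at hu
    exact lt_irrefl _ hu

/-- the rational function -/
noncomputable def HH (a b : ℕ) (Q : ℂ[X]) (u : ℂ) : ℂ := Q.eval u / (den (Real.pi / 6) a b).eval u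

lemma HH_diffAt {a b : ℕ} {Q : ℂ[X]} {u : ℂ} (hu : ‖u‖ < 1) : DifferentiableAt ℂ (HH a b Q) u :=
  Q.differentiableAt.div (den (Real.pi / 6) a b).differentiableAt (den_ne hu)

lemma F_bound {a b : ℕ} {Q : ℂ[X]} (hQ : Good (Real.pi / 6) a b Q)
    (ha : a = 0 ∨ Q.eval (dH (Real.pi / 6)) ≠ 0) (hb : b = 0 ∨ Q.eval (dV (Real.pi / 6)) ≠ 0)
    {v : ℂ} (hv : v ∈ KK) (hv3 : ‖v ^ 3‖ ≤ 1 / 4) :
    ‖HH a b Q (om * v ^ 2) + HH a b Q (om ^ 2 * v ^ 2)‖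
      ≤ 2 * Real.sqrt 2 * Real.exp (a * (-2 * (v ^ 3 / sH (Real.pi / 6)).re + 6 * ‖v ^ 3‖ ^ 2)
        + b * (-2 * (v ^ 3 / sV (Real.pi / 6)).re + 6 * ‖v ^ 3‖ ^ 2)) := by
  have hts := (two_sided (by positivity : (0:ℝ) < Real.pi / 6) le_rfl hQ ha hb v hv).2
  set β : ℝ := Real.pi / 6 with hβ
  have hv1 : ‖v‖ < 1 := by
    by_contra hcon
    push Not at hcon
    have := one_le_pow₀ hcon (n := 3)
    rw [norm_pow] at hv3
    linarith
  have hv2 : ‖v ^ 2‖ < 1 := by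
    rw [norm_pow]; exact pow_lt_one₀ (norm_nonneg _) hv1 (by norm_num)
  have hu1 : ‖om * v ^ 2‖ < 1 := by rw [norm_mul, norm_om, one_mul]; exact hv2
  have hu2 : ‖om ^ 2 * v ^ 2‖ < 1 := by
    rw [norm_mul, norm_pow om, norm_om, one_pow, one_mul]; exact hv2
  have hd1 := den_ne (β := β) (a := a) (b := b) hu1
  have hd2 := den_ne (β := β) (a := a) (b := b) hu2
  have hsum : HH a b Q (om * v ^ 2) + HH a b Q (om ^ 2 * v ^ 2)
      = (Q.eval (om * v ^ 2) * (den β a b).eval (om ^ 2 * v ^ 2)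
            + Q.eval (om ^ 2 * v ^ 2) * (den β a b).eval (om * v ^ 2))
        / ((den β a b).eval (om * v ^ 2) * (den β a b).eval (om ^ 2 * v ^ 2)) := by
    unfold HH
    rw [← hβ]
    field_simp
  rw [hsum, norm_div]
  have hD : 0 < ‖(den β a b).eval (om * v ^ 2) * (den β a b).eval (om ^ 2 * v ^ 2)‖ :=
    norm_pos_iff.2 (mul_ne_zero hd1 hd2)
  rw [div_le_iff₀ hD]
  have hpos : ∀ y : ℂ, ‖y‖ = 1 → 0 < ‖v ^ 3 + y‖ := by
    intro y hy
    apply norm_pos_iff.2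
    intro h
    have : v ^ 3 = -y := eq_neg_of_add_eq_zero_left h
    rw [this, norm_neg, hy] at hv3
    norm_num at hv3
  have hP : 0 < ‖v ^ 3 + sH β‖ ^ a * ‖v ^ 3 + sV β‖ ^ b :=
    mul_pos (pow_pos (hpos _ (norm_sH β)) a) (pow_pos (hpos _ (norm_sV β)) b)
  have r1 := pow_le_pow_left₀ (norm_nonneg _) (ratio_bound (norm_sH β) hv3) a
  have r2 := pow_le_pow_left₀ (norm_nonneg _) (ratio_bound (norm_sV β) hv3) b
  rw [mul_pow, ← Real.exp_nat_mul] at r1 r2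
  have r3 := mul_le_mul r1 r2 (by positivity) (by positivity)
  refine le_of_mul_le_mul_right (hts.trans ?_) hP
  set e1 := Real.exp (a * (-2 * (v ^ 3 / sH β).re + 6 * ‖v ^ 3‖ ^ 2)) with he1
  set e2 := Real.exp (b * (-2 * (v ^ 3 / sV β).re + 6 * ‖v ^ 3‖ ^ 2)) with he2
  rw [Real.exp_add, ← he1, ← he2]
  set D := ‖(den β a b).eval (om * v ^ 2) * (den β a b).eval (om ^ 2 * v ^ 2)‖ with hDdef
  have h2 : 0 ≤ 2 * Real.sqrt 2 * D := by positivity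
  calc 2 * Real.sqrt 2 * (‖v ^ 3 - sH β‖ ^ a * ‖v ^ 3 - sV β‖ ^ b * D)
      = 2 * Real.sqrt 2 * D * (‖v ^ 3 - sH β‖ ^ a * ‖v ^ 3 - sV β‖ ^ b) := by ring
    _ ≤ 2 * Real.sqrt 2 * D * (‖v ^ 3 + sH β‖ ^ a * e1 * (‖v ^ 3 + sV β‖ ^ b * e2)) :=
        mul_le_mul_of_nonneg_left r3 h2
    _ = 2 * Real.sqrt 2 * (e1 * e2) * D * (‖v ^ 3 + sH β‖ ^ a * ‖v ^ 3 + sV β‖ ^ b) := by ring

/-- crude local bound -/
lemma F_bound' {a b : ℕ} {Q : ℂ[X]} (hQ : Good (Real.pi / 6) a b Q)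
    (ha : a = 0 ∨ Q.eval (dH (Real.pi / 6)) ≠ 0) (hb : b = 0 ∨ Q.eval (dV (Real.pi / 6)) ≠ 0)
    {v : ℂ} (hv : v ∈ KK) (hv3 : ‖v ^ 3‖ ≤ 1 / 4) :
    ‖HH a b Q (om * v ^ 2) + HH a b Q (om ^ 2 * v ^ 2)‖
      ≤ 2 * Real.sqrt 2 * Real.exp (4 * ((a : ℝ) + b) * ‖v ^ 3‖) := by
  refine (F_bound hQ ha hb hv hv3).trans ?_
  apply mul_le_mul_of_nonneg_left _ (by positivity)
  apply Real.exp_le_exp.2
  have key : ∀ y : ℂ, ‖y‖ = 1 → -2 * (v ^ 3 / y).re + 6 * ‖v ^ 3‖ ^ 2 ≤ 4 * ‖v ^ 3‖ := by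
    intro y hy
    have h1 := Complex.abs_re_le_norm (v ^ 3 / y)
    rw [norm_div, hy, div_one] at h1
    have h2 := (abs_le.1 h1).1
    nlinarith [norm_nonneg (v ^ 3)]
  have k1 := mul_le_mul_of_nonneg_left (key _ (norm_sH (Real.pi / 6))) (Nat.cast_nonneg (α := ℝ) a)
  have k2 := mul_le_mul_of_nonneg_left (key _ (norm_sV (Real.pi / 6))) (Nat.cast_nonneg (α := ℝ) b)
  linarith

lemma SS_smul {z : ℂ} (hz : z ∈ SS) {r : ℝ} (hr : 0 ≤ r) : z * r ∈ SS := by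
  have h : |z.im| ≤ -(Real.sqrt 3 * z.re) := hz
  show |(z * r).im| ≤ -(Real.sqrt 3 * (z * r).re)
  rw [Complex.im_mul_ofReal, Complex.re_mul_ofReal, abs_mul, abs_of_nonneg hr]
  have := mul_le_mul_of_nonneg_right h hr
  linarith

lemma KK_smul {z : ℂ} (hz : z ∈ KK) {r : ℝ} (hr : 0 ≤ r) : z * r ∈ KK := by
  have h : |z.im| ≤ Real.sqrt 3 * z.re := hz
  show |(z * r).im| ≤ Real.sqrt 3 * (z * r).re
  rw [Complex.im_mul_ofReal, Complex.re_mul_ofReal, abs_mul, abs_of_nonneg hr]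
  have := mul_le_mul_of_nonneg_right h hr
  linarith

/-- every value is controlled by values in `SS` and by the sums over `KK` -/
lemma control (z : ℂ) : ∃ p ∈ SS, ‖p‖ = ‖z‖ ∧ (z = p ∨ ∃ v ∈ KK, ‖v‖ ^ 2 = ‖z‖ ∧
    ((z = om * p ∧ om * v ^ 2 = p ∧ om ^ 2 * v ^ 2 = z) ∨
      (z = om ^ 2 * p ∧ om * v ^ 2 = z ∧ om ^ 2 * v ^ 2 = p))) := by
  obtain ⟨j, φ, hφ, hz⟩ := Uni.decomp z
  obtain ⟨hφ1, hφ2⟩ := abs_le.1 hφ
  have hx : |φ / 2 + Real.pi / 6| ≤ Real.pi / 3 := by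
    rw [abs_le]; constructor <;> linarith [Real.pi_pos]
  have hx' : |φ / 2 - Real.pi / 6| ≤ Real.pi / 3 := by
    rw [abs_le]; constructor <;> linarith [Real.pi_pos]
  set ρ : ℝ := ‖z‖ with hρ
  have hρ0 : 0 ≤ ρ := norm_nonneg _
  obtain ⟨g1, g2, -⟩ := Uni.geom ρ φ hρ0
  set p : ℂ := -((ρ : ℂ) * Complex.exp (φ * Complex.I)) with hp
  have hpS : p ∈ SS := Uni.mem_SS hρ0 hφ
  have hpn : ‖p‖ = ρ := by
    rw [hp, norm_neg, norm_mul, Complex.norm_exp_ofReal_mul_I, mul_one, Complex.norm_real,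
      Real.norm_of_nonneg hρ0]
  have h3 : om ^ 3 = 1 := om_cube
  have hvn : ∀ x : ℝ, ‖(Real.sqrt ρ : ℂ) * Complex.exp (x * Complex.I)‖ ^ 2 = ρ := by
    intro x
    rw [norm_mul, Complex.norm_exp_ofReal_mul_I, mul_one, Complex.norm_real,
      Real.norm_of_nonneg (Real.sqrt_nonneg _), Real.sq_sqrt hρ0]
  refine ⟨p, hpS, hpn, ?_⟩
  have hj : om ^ j = om ^ (j % 3) := by
    conv_lhs => rw [← Nat.div_add_mod j 3, pow_add, pow_mul, h3, one_pow, one_mul]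
  have hj3 : j % 3 < 3 := Nat.mod_lt _ (by norm_num)
  rw [hj] at hz
  generalize j % 3 = i at hz hj3
  rcases (by omega : i = 0 ∨ i = 1 ∨ i = 2) with rfl | rfl | rfl
  · left; rw [hz]; simp
  · right
    refine ⟨_, Uni.mem_KK (Real.sqrt_nonneg ρ) hx, hvn _, Or.inl ⟨by rw [hz, pow_one], ?_, ?_⟩⟩
    · rw [g1]; linear_combination p * h3
    · rw [g1, hz]; linear_combination (om * p) * h3
  · right
    refine ⟨_, Uni.mem_KK (Real.sqrt_nonneg ρ) hx', hvn _, Or.inr ⟨hz, ?_, ?_⟩⟩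
    · rw [g2, hz]; ring
    · rw [g2]; linear_combination p * h3

lemma HH_le_one {a b : ℕ} {Q : ℂ[X]} (hQ : Good (Real.pi / 6) a b Q) {u : ℂ} (hu : u ∈ SS) :
    ‖HH a b Q u‖ ≤ 1 := by
  unfold HH
  rw [norm_div]
  exact div_le_one_of_le₀ (hQ.bd u hu) (norm_nonneg _)

lemma HH_bound {a b : ℕ} {Q : ℂ[X]} (hQ : Good (Real.pi / 6) a b Q)
    (ha : a = 0 ∨ Q.eval (dH (Real.pi / 6)) ≠ 0) (hb : b = 0 ∨ Q.eval (dV (Real.pi / 6)) ≠ 0)
    {u : ℂ} {T : ℝ} (hT : ((a : ℝ) + b) ^ 2 * ‖u‖ ^ 3 ≤ T ^ 2) (hT0 : 0 ≤ T)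
    (hu : ‖u‖ ^ 3 ≤ 1 / 16) :
    ‖HH a b Q u‖ ≤ 1 + 2 * Real.sqrt 2 * Real.exp (4 * T) := by
  obtain ⟨p, hpS, hpn, hcase⟩ := control u
  have hp1 := HH_le_one hQ hpS
  have hE : 0 ≤ 2 * Real.sqrt 2 * Real.exp (4 * T) := by positivity
  rcases hcase with rfl | ⟨v, hvK, hvn, hcase⟩
  · linarith
  · have hv6 : ‖v ^ 3‖ ^ 2 = ‖u‖ ^ 3 := by
      rw [← hvn, norm_pow]; ring
    have hv3 : ‖v ^ 3‖ ≤ 1 / 4 := by
      have : ‖v ^ 3‖ ^ 2 ≤ (1 / 4) ^ 2 := by rw [hv6]; norm_num; linarith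
      exact (pow_le_pow_iff_left₀ (norm_nonneg _) (by norm_num) two_ne_zero).1 this
    have hF := F_bound' hQ ha hb hvK hv3
    have hle : ((a : ℝ) + b) * ‖v ^ 3‖ ≤ T := by
      have : (((a : ℝ) + b) * ‖v ^ 3‖) ^ 2 ≤ T ^ 2 := by rw [mul_pow, hv6]; exact hT
      exact (pow_le_pow_iff_left₀ (by positivity) hT0 two_ne_zero).1 this
    have hF2 : ‖HH a b Q (om * v ^ 2) + HH a b Q (om ^ 2 * v ^ 2)‖
        ≤ 2 * Real.sqrt 2 * Real.exp (4 * T) := by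
      refine hF.trans (mul_le_mul_of_nonneg_left (Real.exp_le_exp.2 (by linarith)) (by positivity))
    rcases hcase with ⟨-, e1, e2⟩ | ⟨-, e1, e2⟩
    · rw [e1, e2] at hF2
      calc ‖HH a b Q u‖ = ‖(HH a b Q p + HH a b Q u) - HH a b Q p‖ := by congr 1; ring
        _ ≤ ‖HH a b Q p + HH a b Q u‖ + ‖HH a b Q p‖ := norm_sub_le _ _
        _ ≤ _ := by linarith
    · rw [e1, e2] at hF2
      calc ‖HH a b Q u‖ = ‖(HH a b Q u + HH a b Q p) - HH a b Q p‖ := by congr 1; ring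
        _ ≤ ‖HH a b Q u + HH a b Q p‖ + ‖HH a b Q p‖ := norm_sub_le _ _
        _ ≤ _ := by linarith

lemma HH_fe {a b : ℕ} {Q : ℂ[X]} (hQ : Good (Real.pi / 6) a b Q) {u : ℂ} (hu : ‖u‖ < 1) :
    HH a b Q u * HH a b Q (om * u) + HH a b Q (om * u) * HH a b Q (om ^ 2 * u)
      + HH a b Q u * HH a b Q (om ^ 2 * u) = 3 := by
  have h := hQ.fe u
  have hu1 : ‖om * u‖ < 1 := by rw [norm_mul, norm_om, one_mul]; exact hu
  have hu2 : ‖om ^ 2 * u‖ < 1 := by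
    rw [norm_mul, norm_pow om, norm_om, one_pow, one_mul]; exact hu
  have hd0 := den_ne (β := Real.pi / 6) (a := a) (b := b) hu
  have hd1 := den_ne (β := Real.pi / 6) (a := a) (b := b) hu1
  have hd2 := den_ne (β := Real.pi / 6) (a := a) (b := b) hu2
  unfold HH
  field_simp
  linear_combination h

lemma HH_zero {a b : ℕ} {Q : ℂ[X]} (hQ : Good (Real.pi / 6) a b Q) : HH a b Q 0 = 1 := by
  unfold HH
  rw [hQ.zero]
  exact div_self (den_ne (by simp))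

/-- the limiting direction -/
noncomputable def zt (α : ℝ) : ℂ := (α : ℂ) - ((1 - α : ℝ) : ℂ) * Complex.I

lemma zt_re (α : ℝ) : (zt α).re = α := by simp [zt]

lemma zt_im (α : ℝ) : (zt α).im = -(1 - α) := by simp [zt]

lemma zt_ne (α : ℝ) : zt α ≠ 0 := by
  intro h
  have h1 := zt_re α
  have h2 := zt_im α
  rw [h] at h1 h2
  simp only [Complex.zero_re, Complex.zero_im] at h1 h2
  rw [← h1] at h2
  norm_num at h2

lemma zt_arg {α : ℝ} (h0 : 0 ≤ α) (h1 : α ≤ 1) :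
    -(Real.pi / 2) ≤ (zt α).arg ∧ (zt α).arg ≤ 0 := by
  have h := Complex.abs_arg_le_pi_div_two_iff.2 (by rw [zt_re]; exact h0 : 0 ≤ (zt α).re)
  refine ⟨(abs_le.1 h).1, ?_⟩
  by_contra hcon
  push Not at hcon
  have h2 := Complex.arg_nonneg_iff.1 hcon.le
  rw [zt_im] at h2
  have h3 : α = 1 := by linarith
  have h4 : zt α = 1 := by rw [h3]; simp [zt]
  rw [h4, Complex.arg_one] at hcon
  exact lt_irrefl _ hcon

/-- the exponent -/
noncomputable def kap (α : ℝ) : ℂ :=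
  -2 * ((α : ℂ) / sH (Real.pi / 6) + ((1 - α : ℝ) : ℂ) / sV (Real.pi / 6))

lemma kap_eq (α : ℝ) : kap α = -2 * (Complex.exp ((Real.pi / 4 : ℝ) * Complex.I) * zt α) := by
  have e1 : (α : ℂ) / sH (Real.pi / 6) = α * Complex.exp ((Real.pi / 4 : ℝ) * Complex.I) := by
    unfold sH
    rw [div_eq_mul_inv, ← Complex.exp_neg]
    congr 2; push_cast; ring
  have e2 : ((1 - α : ℝ) : ℂ) / sV (Real.pi / 6)
      = ((1 - α : ℝ) : ℂ) * (Complex.exp ((Real.pi / 4 : ℝ) * Complex.I) * (-Complex.I)) := by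
    unfold sV
    rw [div_eq_mul_inv, ← Complex.exp_neg, ← Complex.exp_neg_pi_div_two_mul_I, ← Complex.exp_add]
    congr 2; push_cast; ring
  unfold kap
  rw [e1, e2, zt]
  ring

lemma exists_mu {α : ℝ} (h0 : 0 ≤ α) (h1 : α ≤ 1) : ∃ μ : ℂ, μ ≠ 0 ∧ |μ.arg| ≤ Real.pi / 12 ∧
    μ ^ 3 = -(3 / 4) * kap α ∧
    μ ^ 2 = (((3 / 2 : ℝ) ^ (2 / 3 : ℝ) : ℝ) : ℂ) *
      (Complex.exp (Real.pi / 6 * Complex.I) * zt α ^ (2 / 3 : ℂ)) := by
  obtain ⟨hθ1, hθ2⟩ := zt_arg h0 h1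
  have hz := Complex.norm_mul_exp_arg_mul_I (zt α)
  have hn : 0 < ‖zt α‖ := norm_pos_iff.2 (zt_ne α)
  have hlog : zt α ^ (2 / 3 : ℂ) = ((‖zt α‖ ^ (2 / 3 : ℝ) : ℝ) : ℂ) *
      Complex.exp ((2 / 3 * (zt α).arg : ℝ) * Complex.I) := by
    rw [Complex.cpow_def_of_ne_zero (zt_ne α), Complex.log, add_mul, Complex.exp_add]
    congr 1
    · rw [Real.rpow_def_of_pos hn, Complex.ofReal_exp]; push_cast; rfl
    · congr 1; push_cast; ring
  set θ : ℝ := (zt α).arg with hθ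
  set r : ℝ := (3 / 2 * ‖zt α‖) ^ (1 / 3 : ℝ) with hr
  have hr0 : 0 < r := Real.rpow_pos_of_pos (by positivity) _
  have hr3 : r ^ 3 = 3 / 2 * ‖zt α‖ := by
    rw [hr, ← Real.rpow_natCast, ← Real.rpow_mul (by positivity)]
    norm_num
  have hr2 : r ^ 2 = (3 / 2 : ℝ) ^ (2 / 3 : ℝ) * ‖zt α‖ ^ (2 / 3 : ℝ) := by
    rw [hr, ← Real.rpow_natCast, ← Real.rpow_mul (by positivity),
      ← Real.mul_rpow (by positivity) (by positivity)]
    norm_num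
  refine ⟨(r : ℂ) * Complex.exp ((Real.pi / 12 + θ / 3 : ℝ) * Complex.I), ?_, ?_, ?_, ?_⟩
  · exact mul_ne_zero (by exact_mod_cast hr0.ne') (Complex.exp_ne_zero _)
  · have hpi := Real.pi_pos
    rw [Complex.arg_real_mul _ hr0, Complex.exp_mul_I, Complex.arg_cos_add_sin_mul_I]
    · rw [abs_le]; constructor <;> linarith
    · constructor <;> linarith
  · rw [mul_pow, ← Complex.exp_nat_mul, kap_eq]
    have e1 : ((r : ℂ)) ^ 3 = 3 / 2 * (‖zt α‖ : ℂ) := by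
      rw [← Complex.ofReal_pow, hr3]; push_cast; ring
    have e2 : Complex.exp ((3 : ℕ) * (((Real.pi / 12 + θ / 3 : ℝ) : ℂ) * Complex.I))
        = Complex.exp ((Real.pi / 4 : ℝ) * Complex.I) * Complex.exp (θ * Complex.I) := by
      rw [← Complex.exp_add]; congr 1; push_cast; ring
    rw [e1, e2]
    linear_combination (3 / 2 * Complex.exp ((Real.pi / 4 : ℝ) * Complex.I)) * hz
  · rw [mul_pow, ← Complex.exp_nat_mul, hlog]
    have e1 : ((r : ℂ)) ^ 2 = (((3 / 2 : ℝ) ^ (2 / 3 : ℝ) : ℝ) : ℂ) *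
        ((‖zt α‖ ^ (2 / 3 : ℝ) : ℝ) : ℂ) := by
      rw [← Complex.ofReal_pow, hr2, Complex.ofReal_mul]
    have e2 : Complex.exp ((2 : ℕ) * (((Real.pi / 12 + θ / 3 : ℝ) : ℂ) * Complex.I))
        = Complex.exp (Real.pi / 6 * Complex.I) * Complex.exp ((2 / 3 * θ : ℝ) * Complex.I) := by
      rw [← Complex.exp_add]; congr 1; push_cast; ring
    rw [e1, e2]
    ring

lemma cpow_scale {N : ℝ} (hN : 0 < N) {z : ℂ} (hz : z ≠ 0) :
    ((N : ℂ) * z) ^ (2 / 3 : ℂ) = ((N ^ (2 / 3 : ℝ) : ℝ) : ℂ) * z ^ (2 / 3 : ℂ) := by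
  have hN' : (N : ℂ) ≠ 0 := by exact_mod_cast hN.ne'
  rw [Complex.cpow_def_of_ne_zero (mul_ne_zero hN' hz), Complex.cpow_def_of_ne_zero hz,
    Complex.log_ofReal_mul hN hz, add_mul, Complex.exp_add]
  congr 1
  rw [Real.rpow_def_of_pos hN, Complex.ofReal_exp]; push_cast; rfl

lemma tendsto_cpow {α : ℝ} (h0 : 0 ≤ α) (h1 : α ≤ 1) {x : ℕ → ℝ} (hx : Tendsto x atTop (𝓝 α)) :
    Tendsto (fun k => zt (x k) ^ (2 / 3 : ℂ)) atTop (𝓝 (zt α ^ (2 / 3 : ℂ))) := by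
  have hc : Continuous zt := by
    unfold zt; fun_prop
  have h := (hc.tendsto α).comp hx
  have hs : zt α ∈ Complex.slitPlane := by
    rw [Complex.mem_slitPlane_iff]
    rw [zt_re, zt_im]
    rcases eq_or_lt_of_le h0 with h | h
    · right; rw [← h]; norm_num
    · left; exact h
  exact (continuousAt_cpow_const hs).tendsto.comp h

end Ana

open Ana in
theorem analysis_main_of (airy : AiryPackage) : ∃ c1 : ℂ, ∀ ε : ℝ, 0 < ε → ∃ N0 : ℕ,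
    ∀ (a b : ℕ) (Q : ℂ[X]), N0 ≤ a + b →
    Good (Real.pi / 6) a b Q → (a = 0 ∨ Q.eval (dH (Real.pi / 6)) ≠ 0) →
    (b = 0 ∨ Q.eval (dV (Real.pi / 6)) ≠ 0) →
    ‖deriv (fun u => Q.eval u / (den (Real.pi / 6) a b).eval u) 0
      - c1 * (Complex.exp (Real.pi / 6 * Complex.I) * ((a : ℂ) - b * Complex.I) ^ (2 / 3 : ℂ))‖
      ≤ ε * ((a : ℝ) + b) ^ (2 / 3 : ℝ) := by
  obtain ⟨c0, hc0⟩ := limit_unique_of airy
  refine ⟨c0 * (((3 / 2 : ℝ) ^ (2 / 3 : ℝ) : ℝ) : ℂ), ?_⟩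
  intro ε hε
  by_contra hcon
  push Not at hcon
  choose a b Q hN hG ha hb hbig using fun k : ℕ => hcon (k + 1)
  set N : ℕ → ℝ := fun k => (a k : ℝ) + b k with hNdef
  have hN1 : ∀ k : ℕ, (k : ℝ) + 1 ≤ N k := fun k => by
    have := hN k
    simp only [hNdef]
    exact_mod_cast this
  have hN0 : ∀ k, 0 < N k := fun k => by
    have := hN1 k
    have : (0 : ℝ) ≤ k := Nat.cast_nonneg k
    linarith [hN1 k]
  have hNt : Tendsto N atTop atTop := by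
    refine tendsto_atTop_mono (fun k => ?_) tendsto_natCast_atTop_atTop
    linarith [hN1 k]
  set x : ℕ → ℝ := fun k => (a k : ℝ) / N k with hx
  have hx01 : ∀ k, x k ∈ Set.Icc (0 : ℝ) 1 := fun k => by
    simp only [hx]
    constructor
    · have := hN0 k; positivity
    · rw [div_le_one (hN0 k)]
      have : (0 : ℝ) ≤ b k := Nat.cast_nonneg _
      simp only [hNdef]; linarith
  obtain ⟨α, hα, ψ, hψ, hψlim⟩ := isCompact_Icc.tendsto_subseq hx01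
  -- scale
  set δ : ℕ → ℝ := fun k => (N k) ^ (-(1 / 3) : ℝ) with hδ
  have hδ0 : ∀ k, 0 < δ k := fun k => Real.rpow_pos_of_pos (hN0 k) _
  have hδ3 : ∀ k, N k * δ k ^ 3 = 1 := fun k => by
    simp only [hδ]
    rw [← Real.rpow_natCast, ← Real.rpow_mul (hN0 k).le]
    norm_num
    rw [Real.rpow_neg_one]
    exact mul_inv_cancel₀ (hN0 k).ne'
  have hδ2 : ∀ k, δ k ^ 2 * N k ^ (2 / 3 : ℝ) = 1 := fun k => by
    simp only [hδ]
    rw [← Real.rpow_natCast, ← Real.rpow_mul (hN0 k).le, ← Real.rpow_add (hN0 k)]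
    norm_num
  set f : ℕ → ℂ → ℂ := fun k τ => HH (a k) (b k) (Q k) (((δ k ^ 2 : ℝ) : ℂ) * τ) with hf
  have hnorm : ∀ k (τ : ℂ), ‖((δ k ^ 2 : ℝ) : ℂ) * τ‖ = δ k ^ 2 * ‖τ‖ := fun k τ => by
    rw [norm_mul, Complex.norm_real, Real.norm_of_nonneg (by positivity)]
  have hρ : Tendsto (fun k => N k ^ (2 / 3 : ℝ)) atTop atTop :=
    (tendsto_rpow_atTop (by norm_num)).comp hNt
  have hdiff : ∀ k, DifferentiableOn ℂ (f k) (Metric.ball 0 (N k ^ (2 / 3 : ℝ))) := by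
    intro k τ hτ
    rw [mem_ball_zero_iff] at hτ
    have h1 : ‖((δ k ^ 2 : ℝ) : ℂ) * τ‖ < 1 := by
      rw [hnorm]
      have hp : 0 < δ k ^ 2 := by have := hδ0 k; positivity
      calc δ k ^ 2 * ‖τ‖ < δ k ^ 2 * N k ^ (2 / 3 : ℝ) := mul_lt_mul_of_pos_left hτ hp
        _ = 1 := hδ2 k
    have h2 : DifferentiableAt ℂ (f k) τ := by
      simp only [hf]
      exact DifferentiableAt.comp τ (HH_diffAt h1) (differentiableAt_id.const_mul _)
    exact h2.differentiableWithinAt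
  have hbound : ∀ R : ℝ, ∃ M : ℝ, ∀ᶠ k in atTop, ∀ z, ‖z‖ ≤ R → ‖f k z‖ ≤ M := by
    intro R
    refine ⟨1 + 2 * Real.sqrt 2 * Real.exp (4 * (|R| + 1) ^ 2), ?_⟩
    filter_upwards [hNt.eventually_ge_atTop (4 * (|R| + 1) ^ 2)] with k hk z hz
    have hR1 : 1 ≤ |R| + 1 := by linarith [abs_nonneg R]
    have hzR : ‖z‖ ≤ |R| + 1 := by linarith [le_abs_self R]
    have hz3 : ‖z‖ ^ 3 ≤ ((|R| + 1) ^ 2) ^ 2 := by
      calc ‖z‖ ^ 3 ≤ (|R| + 1) ^ 3 := pow_le_pow_left₀ (norm_nonneg _) hzR 3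
        _ ≤ (|R| + 1) ^ 4 := pow_le_pow_right₀ hR1 (by norm_num)
        _ = ((|R| + 1) ^ 2) ^ 2 := by ring
    have e1 : (N k) ^ 2 * ‖((δ k ^ 2 : ℝ) : ℂ) * z‖ ^ 3 = ‖z‖ ^ 3 := by
      rw [hnorm]
      calc (N k) ^ 2 * (δ k ^ 2 * ‖z‖) ^ 3 = (N k * δ k ^ 3) ^ 2 * ‖z‖ ^ 3 := by ring
        _ = ‖z‖ ^ 3 := by rw [hδ3]; ring
    apply HH_bound (hG k) (ha k) (hb k)
    · show (N k) ^ 2 * ‖((δ k ^ 2 : ℝ) : ℂ) * z‖ ^ 3 ≤ _
      rw [e1]; exact hz3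
    · positivity
    · have h1 : (N k) ^ 2 * ‖((δ k ^ 2 : ℝ) : ℂ) * z‖ ^ 3 ≤ (N k) ^ 2 * (1 / 16) := by
        rw [e1]
        have : (4 * (|R| + 1) ^ 2) ^ 2 ≤ (N k) ^ 2 :=
          pow_le_pow_left₀ (by positivity) hk 2
        nlinarith
      have h2 : 0 < (N k) ^ 2 := by have := hN0 k; positivity
      exact le_of_mul_le_mul_left h1 h2
  obtain ⟨φ, h, hφ, hdh, hpt, hder⟩ := normal_family (f := fun k => f (ψ k))
    (ρ := fun k => N (ψ k) ^ (2 / 3 : ℝ)) (hρ.comp hψ.tendsto_atTop) (fun k => hdiff (ψ k))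
    (by
      intro R
      obtain ⟨M, hM⟩ := hbound R
      exact ⟨M, hψ.tendsto_atTop.eventually hM⟩)
  set χ : ℕ → ℕ := fun k => ψ (φ k) with hχ
  have hχt : Tendsto χ atTop atTop := hψ.tendsto_atTop.comp hφ.tendsto_atTop
  have hxlim : Tendsto (fun k => x (χ k)) atTop (𝓝 α) := hψlim.comp hφ.tendsto_atTop
  have hNχ : Tendsto (fun k => N (χ k)) atTop atTop := hNt.comp hχt
  have hpt' : ∀ z, Tendsto (fun k => f (χ k) z) atTop (𝓝 (h z)) := hpt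
  have hder' : Tendsto (fun k => deriv (f (χ k)) 0) atTop (𝓝 (deriv h 0)) := hder
  -- properties of the limit
  have hh0 : h 0 = 1 := by
    refine tendsto_nhds_unique (hpt' 0) ?_
    refine tendsto_const_nhds.congr (fun k => ?_)
    simp only [hf, mul_zero]
    exact (HH_zero (hG _)).symm
  have hρχ : Tendsto (fun k => N (χ k) ^ (2 / 3 : ℝ)) atTop atTop := hρ.comp hχt
  have hfe : ∀ u, h u * h (om * u) + h (om * u) * h (om ^ 2 * u) + h u * h (om ^ 2 * u) = 3 := by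
    intro u
    have h1 := (((hpt' u).mul (hpt' (om * u))).add ((hpt' (om * u)).mul (hpt' (om ^ 2 * u)))).add
      ((hpt' u).mul (hpt' (om ^ 2 * u)))
    refine tendsto_nhds_unique h1 ?_
    refine tendsto_const_nhds.congr' ?_
    filter_upwards [hρχ.eventually_gt_atTop ‖u‖] with k hk
    have hu : ‖((δ (χ k) ^ 2 : ℝ) : ℂ) * u‖ < 1 := by
      rw [hnorm]
      have hp : 0 < δ (χ k) ^ 2 := by have := hδ0 (χ k); positivity
      calc δ (χ k) ^ 2 * ‖u‖ < δ (χ k) ^ 2 * N (χ k) ^ (2 / 3 : ℝ) := mul_lt_mul_of_pos_left hk hp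
        _ = 1 := hδ2 _
    have h2 := HH_fe (hG (χ k)) hu
    simp only [hf]
    rw [mul_left_comm _ om u, mul_left_comm _ (om ^ 2) u]
    exact h2.symm
  have hSS : ∀ u ∈ SS, ‖h u‖ ≤ 1 := by
    intro u hu
    refine le_of_tendsto (hpt' u).norm (Eventually.of_forall fun k => ?_)
    simp only [hf]
    apply HH_le_one (hG _)
    rw [mul_comm]
    exact SS_smul hu (by positivity)
  have hKK : ∀ v ∈ KK, ‖h (om * v ^ 2) + h (om ^ 2 * v ^ 2)‖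
      ≤ 2 * Real.sqrt 2 * Real.exp ((kap α * v ^ 3).re) := by
    intro v hv
    have hL := ((hpt' (om * v ^ 2)).add (hpt' (om ^ 2 * v ^ 2))).norm
    set SH := (v ^ 3 / sH (Real.pi / 6)).re with hSH
    set SV := (v ^ 3 / sV (Real.pi / 6)).re with hSV
    have hkap : (kap α * v ^ 3).re = α * (-2 * SH) + (1 - α) * (-2 * SV) := by
      have e : kap α * v ^ 3 = ((-2 * α : ℝ) : ℂ) * (v ^ 3 / sH (Real.pi / 6))
          + ((-2 * (1 - α) : ℝ) : ℂ) * (v ^ 3 / sV (Real.pi / 6)) := by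
        unfold kap; push_cast; ring
      rw [e, Complex.add_re, Complex.re_ofReal_mul, Complex.re_ofReal_mul, ← hSH, ← hSV]; ring
    have hR : Tendsto (fun k => 2 * Real.sqrt 2 * Real.exp (x (χ k) * (-2 * SH)
        + (1 - x (χ k)) * (-2 * SV) + 6 * ‖v ^ 3‖ ^ 2 / N (χ k))) atTop
        (𝓝 (2 * Real.sqrt 2 * Real.exp ((kap α * v ^ 3).re))) := by
      apply Tendsto.const_mul
      apply (Real.continuous_exp.tendsto _).comp
      rw [hkap]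
      have t1 := hxlim.mul_const (-2 * SH)
      have t2 := (tendsto_const_nhds (x := (1 : ℝ))).sub hxlim |>.mul_const (-2 * SV)
      have t3 : Tendsto (fun k => 6 * ‖v ^ 3‖ ^ 2 / N (χ k)) atTop (𝓝 0) :=
        tendsto_const_nhds.div_atTop hNχ
      have := (t1.add t2).add t3
      rw [add_zero] at this
      exact this
    refine le_of_tendsto_of_tendsto hL hR ?_
    filter_upwards [hNχ.eventually_ge_atTop (4 * ‖v ^ 3‖)] with k hk
    set j := χ k with hj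
    have hvj : v * (δ j : ℂ) ∈ KK := KK_smul hv (hδ0 j).le
    have hnj : ‖(v * (δ j : ℂ)) ^ 3‖ = ‖v ^ 3‖ / N j := by
      rw [mul_pow, norm_mul, norm_pow (δ j : ℂ), Complex.norm_real,
        Real.norm_of_nonneg (hδ0 j).le, eq_div_iff (hN0 j).ne', mul_assoc, mul_comm (δ j ^ 3),
        hδ3, mul_one]
    have hv3 : ‖(v * (δ j : ℂ)) ^ 3‖ ≤ 1 / 4 := by
      rw [hnj, div_le_iff₀ (hN0 j)]; linarith
    have hF := F_bound (hG j) (ha j) (hb j) hvj hv3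
    have e1 : om * (v * (δ j : ℂ)) ^ 2 = ((δ j ^ 2 : ℝ) : ℂ) * (om * v ^ 2) := by push_cast; ring
    have e2 : om ^ 2 * (v * (δ j : ℂ)) ^ 2 = ((δ j ^ 2 : ℝ) : ℂ) * (om ^ 2 * v ^ 2) := by
      push_cast; ring
    rw [e1, e2] at hF
    refine hF.trans_eq ?_
    congr 2
    have g : ∀ y : ℂ, ((v * (δ j : ℂ)) ^ 3 / y).re = (v ^ 3 / y).re / N j := by
      intro y
      have e : (v * (δ j : ℂ)) ^ 3 / y = ((δ j ^ 3 : ℝ) : ℂ) * (v ^ 3 / y) := by push_cast; ring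
      rw [e, Complex.re_ofReal_mul, eq_div_iff (hN0 j).ne']
      linear_combination (v ^ 3 / y).re * hδ3 j
    rw [g, g, hnj, ← hSH, ← hSV]
    have hNj := (hN0 j).ne'
    have hab : (b j : ℝ) = N j - a j := by simp only [hNdef]; ring
    have hxj : x j = (a j : ℝ) / N j := rfl
    rw [hab, hxj]
    field_simp
    ring
  obtain ⟨μ, hμ0, hμarg, hμ3, hμ2⟩ := exists_mu hα.1 hα.2
  have hfinal := hc0 h (kap α) μ (2 * Real.sqrt 2) hdh hh0 hfe hSS hKK hμ0 hμarg hμ3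
  -- contradiction
  have hlimit : Tendsto (fun k => ‖deriv (f (χ k)) 0 - c0 * (((3 / 2 : ℝ) ^ (2 / 3 : ℝ) : ℝ) : ℂ) *
      (Complex.exp (Real.pi / 6 * Complex.I) * zt (x (χ k)) ^ (2 / 3 : ℂ))‖) atTop
      (𝓝 ‖deriv h 0 - c0 * (((3 / 2 : ℝ) ^ (2 / 3 : ℝ) : ℝ) : ℂ) *
      (Complex.exp (Real.pi / 6 * Complex.I) * zt α ^ (2 / 3 : ℂ))‖) := by
    apply Tendsto.norm
    apply hder'.sub
    apply Tendsto.const_mul
    apply Tendsto.const_mul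
    exact tendsto_cpow hα.1 hα.2 hxlim
  have hzero : deriv h 0 - c0 * (((3 / 2 : ℝ) ^ (2 / 3 : ℝ) : ℝ) : ℂ) *
      (Complex.exp (Real.pi / 6 * Complex.I) * zt α ^ (2 / 3 : ℂ)) = 0 := by
    rw [hfinal, hμ2]; ring
  rw [hzero, norm_zero] at hlimit
  have hge : ε ≤ 0 := by
    refine ge_of_tendsto hlimit (Eventually.of_forall fun k => ?_)
    set j := χ k with hj
    have hbj := hbig j
    have hNj := hN0 j
    have hd : deriv (f j) 0 = ((δ j ^ 2 : ℝ) : ℂ) * deriv (HH (a j) (b j) (Q j)) 0 := by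
      have := deriv_comp_mul_left (((δ j ^ 2 : ℝ) : ℂ)) (HH (a j) (b j) (Q j)) 0
      rw [mul_zero, smul_eq_mul] at this
      exact this
    have hz : (a j : ℂ) - (b j : ℂ) * Complex.I = (N j : ℂ) * zt (x j) := by
      have hNj' : (N j : ℂ) ≠ 0 := by exact_mod_cast hNj.ne'
      have e1 : (N j : ℂ) * ((x j : ℝ) : ℂ) = (a j : ℂ) := by
        have : N j * x j = a j := by simp only [hx]; field_simp
        exact_mod_cast this
      have e2 : (N j : ℂ) = (a j : ℂ) + b j := by simp only [hNdef]; push_cast; rfl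
      unfold zt
      push_cast
      rw [mul_sub, e1, ← mul_assoc, mul_sub, e1, mul_one, e2]
      ring
    have hsc : ((a j : ℂ) - (b j : ℂ) * Complex.I) ^ (2 / 3 : ℂ)
        = ((N j ^ (2 / 3 : ℝ) : ℝ) : ℂ) * zt (x j) ^ (2 / 3 : ℂ) := by
      rw [hz]; exact cpow_scale hNj (zt_ne _)
    have hδc : ((δ j ^ 2 : ℝ) : ℂ) * ((N j ^ (2 / 3 : ℝ) : ℝ) : ℂ) = 1 := by
      rw [← Complex.ofReal_mul, hδ2]; simp
    have hfact : deriv (f j) 0 - c0 * (((3 / 2 : ℝ) ^ (2 / 3 : ℝ) : ℝ) : ℂ) *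
        (Complex.exp (Real.pi / 6 * Complex.I) * zt (x j) ^ (2 / 3 : ℂ))
        = ((δ j ^ 2 : ℝ) : ℂ) * (deriv (HH (a j) (b j) (Q j)) 0
          - c0 * (((3 / 2 : ℝ) ^ (2 / 3 : ℝ) : ℝ) : ℂ) *
            (Complex.exp (Real.pi / 6 * Complex.I) *
              ((a j : ℂ) - (b j : ℂ) * Complex.I) ^ (2 / 3 : ℂ))) := by
      rw [hd, hsc]
      linear_combination (c0 * (((3 / 2 : ℝ) ^ (2 / 3 : ℝ) : ℝ) : ℂ) *
        (Complex.exp (Real.pi / 6 * Complex.I) * zt (x j) ^ (2 / 3 : ℂ))) * hδc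
    rw [hfact, hnorm]
    have hb2 : ε * N j ^ (2 / 3 : ℝ) < ‖deriv (HH (a j) (b j) (Q j)) 0
          - c0 * (((3 / 2 : ℝ) ^ (2 / 3 : ℝ) : ℝ) : ℂ) *
            (Complex.exp (Real.pi / 6 * Complex.I) *
              ((a j : ℂ) - (b j : ℂ) * Complex.I) ^ (2 / 3 : ℂ))‖ := hbj
    have hp : 0 < δ j ^ 2 := by have := hδ0 j; positivity
    calc ε = δ j ^ 2 * (ε * N j ^ (2 / 3 : ℝ)) := by
          linear_combination (-ε) * hδ2 j
      _ ≤ _ := mul_le_mul_of_nonneg_left hb2.le hp.le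
  linarith

theorem analysis_main : ∃ c1 : ℂ, ∀ ε : ℝ, 0 < ε → ∃ N0 : ℕ, ∀ (a b : ℕ) (Q : ℂ[X]), N0 ≤ a + b →
    Good (Real.pi / 6) a b Q → (a = 0 ∨ Q.eval (dH (Real.pi / 6)) ≠ 0) →
    (b = 0 ∨ Q.eval (dV (Real.pi / 6)) ≠ 0) →
    ‖deriv (fun u => Q.eval u / (den (Real.pi / 6) a b).eval u) 0
      - c1 * (Complex.exp (Real.pi / 6 * Complex.I) * ((a : ℂ) - b * Complex.I) ^ (2 / 3 : ℂ))‖
      ≤ ε * ((a : ℝ) + b) ^ (2 / 3 : ℝ) :=
  analysis_main_of exists_airy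

end Pool.Agent.H21.Stair
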