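import Mathlib
import Pool.Agent.H21.Stair.Basic
import Pool.Agent.H21.Perc.IMarkov

/-!
# The stationary law of the staircase model and its dependence on the angle
-/

open Filter Topology

namespace Pool.Agent.H21.Stair

open Pool.Agent.H65.Perc Pool.Agent.H65.Perc.St Pool.Agent.H21.Perc

/-- `tan (β / 2)` -/
noncomputable def tb (β : ℝ) : ℝ := Real.sin β / (1 + Real.cos β)

theorem cos_bound {β : ℝ} (h : β ∈ Set.Icc 0 (Real.pi / 6)) : Real.sqrt 3 / 2 ≤ Real.cos β := by
  rw [← Real.cos_pi_div_six]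
  exact Real.cos_le_cos_of_nonneg_of_le_pi h.1 (by linarith [Real.pi_pos]) h.2

theorem sin_bound {β : ℝ} (h : β ∈ Set.Icc 0 (Real.pi / 6)) :
    0 ≤ Real.sin β ∧ Real.sin β ≤ 1 / 2 := by
  constructor
  · exact Real.sin_nonneg_of_nonneg_of_le_pi h.1 (by linarith [h.2, Real.pi_pos])
  · rw [← Real.sin_pi_div_six]
    exact Real.sin_le_sin_of_le_of_le_pi_div_two (by linarith [h.1, Real.pi_pos])
      (by linarith [Real.pi_pos]) h.2

theorem sqrt3_bounds : 1.7 < Real.sqrt 3 ∧ Real.sqrt 3 < 1.74 := by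
  constructor
  · rw [Real.lt_sqrt (by norm_num)]; norm_num
  · rw [Real.sqrt_lt' (by norm_num)]; norm_num

theorem tb_bounds {β : ℝ} (h : β ∈ Set.Icc 0 (Real.pi / 6)) : 0 ≤ tb β ∧ tb β ≤ 0.28 := by
  have h1 := cos_bound h
  have h2 := sin_bound h
  have h3 := sqrt3_bounds
  unfold tb
  constructor
  · exact div_nonneg h2.1 (by linarith)
  · rw [div_le_iff₀ (by linarith)]
    linarith

theorem continuousOn_tb : ContinuousOn tb (Set.Icc 0 (Real.pi / 6)) := by
  unfold tb
  refine ContinuousOn.div Real.continuous_sin.continuousOn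
    (continuousOn_const.add Real.continuous_cos.continuousOn) (fun β hβ => ?_)
  have h1 := cos_bound hβ
  have h3 := sqrt3_bounds
  linarith

/-- tangent of half the argument of the pole of the strand `k` -/
noncomputable def tk (h : ℤ → Bool) (β : ℝ) (k : ℤ) : ℝ := if h k then -tb β else tb β

theorem tk_bounds {h : ℤ → Bool} {β : ℝ} (hβ : β ∈ Set.Icc 0 (Real.pi / 6)) (k : ℤ) :
    |tk h β k| ≤ 0.28 := by
  have := tb_bounds hβ
  unfold tk
  split_ifs <;> rw [abs_le] <;> constructor <;> linarith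

/-- the weights at the base point `u = -1` -/
noncomputable def wB (h : ℤ → Bool) (β : ℝ) (k : ℤ) : ℝ := (1 + Real.sqrt 3 * tk h β k) / 2

theorem wB_bounds {h : ℤ → Bool} {β : ℝ} (hβ : β ∈ Set.Icc 0 (Real.pi / 6)) (k : ℤ) :
    1 / 4 ≤ wB h β k ∧ wB h β k ≤ 1 - 1 / 4 := by
  have h1 := tk_bounds (h := h) hβ k
  have h3 := sqrt3_bounds
  rw [abs_le] at h1
  unfold wB
  constructor <;> nlinarith

theorem wB_per {L : ℕ} {h : ℤ → Bool} (hp : ∀ k, h (k + L) = h k) (β : ℝ) : Per L (wB h β) := by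
  intro k
  simp only [wB, tk, hp]

theorem continuousOn_wB (h : ℤ → Bool) (k : ℤ) :
    ContinuousOn (fun β => wB h β k) (Set.Icc 0 (Real.pi / 6)) := by
  unfold wB tk
  refine ContinuousOn.div_const (continuousOn_const.add (continuousOn_const.mul ?_)) _
  split_ifs
  · exact continuousOn_tb.neg
  · exact continuousOn_tb

section Psi

variable (n : ℕ) [NeZero n] {h : ℤ → Bool} (hp : ∀ k, h (k + ((2 * n : ℕ) : ℤ)) = h k)

include hp

theorem doeblin_wB {β : ℝ} (hβ : β ∈ Set.Icc 0 (Real.pi / 6)) :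
    Doeblin (iSX (L := 2 * n) (wB h β)) (xpi n) ((1 / 4) ^ (2 * n)) :=
  idoeblin n (wB_per hp β) (by norm_num) (fun k => wB_bounds hβ k)

/-- quantitative convergence -/
theorem rate {X : Type*} [Fintype X] {S : (X → ℝ) →ₗ[ℝ] (X → ℝ)} {x0 : X} {c : ℝ}
    (hS : Doeblin S x0 c) {Ψ : (X → ℝ) →ₗ[ℝ] ℝ}
    (hΨ : ∀ f : X → ℝ, ∀ x, Tendsto (fun M : ℕ => (S ^ M) f x) atTop (𝓝 (Ψ f)))
    {f : X → ℝ} (hf : ∀ x, 0 ≤ f x ∧ f x ≤ 1) (M : ℕ) (x : X) :
    |(S ^ M) f x - Ψ f| ≤ (1 - c) ^ M := by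
  obtain ⟨h1, h2, h3⟩ := bds_spec hS (fun x => (hf x).1) (fun x => (hf x).2) M
  -- all later iterates stay between the bounds
  have key : ∀ m : ℕ, ∀ y, (bds S x0 c f 0 1 M).1 ≤ (S ^ (M + m)) f y ∧
      (S ^ (M + m)) f y ≤ (bds S x0 c f 0 1 M).2 := by
    intro m
    induction m with
    | zero => exact fun y => ⟨h1 y, h2 y⟩
    | succ m ih =>
      intro y
      have hpow : (S ^ (M + (m + 1))) f = S ((S ^ (M + m)) f) := by
        rw [← add_assoc, pow_succ']; rfl
      rw [hpow]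
      have l := hS.lower (fun y => (ih y).1) y
      have u := hS.upper (fun y => (ih y).2) y
      have hc := hS.cpos
      have i0 := ih x0
      constructor
      · nlinarith
      · nlinarith
  have hlim := (tendsto_add_atTop_iff_nat M).2 (hΨ f x)
  have hl : (bds S x0 c f 0 1 M).1 ≤ Ψ f := by
    refine ge_of_tendsto' hlim (fun m => ?_)
    rw [add_comm]; exact (key m x).1
  have hu : Ψ f ≤ (bds S x0 c f 0 1 M).2 := by
    refine le_of_tendsto' hlim (fun m => ?_)
    rw [add_comm]; exact (key m x).2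
  have hx1 := h1 x
  have hx2 := h2 x
  rw [sub_zero, mul_one] at h3
  rw [abs_le]
  constructor <;> linarith

theorem continuousOn_iterate (M : ℕ) (f : PX (2 * n) → ℝ) (x : PX (2 * n)) :
    ContinuousOn (fun β => (iSX (wB h β) ^ M) f x) (Set.Icc 0 (Real.pi / 6)) := by
  induction M generalizing x with
  | zero =>
    simp only [pow_zero, Module.End.one_apply]
    exact continuousOn_const
  | succ M ih =>
    have e : ∀ β, (iSX (L := 2 * n) (wB h β) ^ (M + 1)) f x
        = ∑ row : Fin (2 * n) → Bool, (∏ i, pr (wB h β i.val) (row i)) *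
          (iSX (wB h β) ^ M) f ⟨rowMap 0 row x.1, planar_rowMap x.2 row⟩ := by
      intro β
      rw [pow_succ', Module.End.mul_apply, iSX_apply]
    simp only [e]
    refine continuousOn_finsetSum _ (fun row _ => ContinuousOn.mul ?_ (ih _))
    refine continuousOn_finsetProd _ (fun i _ => ?_)
    unfold pr
    split_ifs
    · exact continuousOn_wB h _
    · exact continuousOn_const.sub (continuousOn_wB h _)

/-- the stationary law of the model with angle `β` -/
theorem exists_law_family : ∃ P : ℝ → PX (2 * n) → ℝ,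
    (∀ β ∈ Set.Icc 0 (Real.pi / 6), (∀ x, 0 ≤ P β x) ∧ ∑ x, P β x = 1 ∧ 0 < P β (xpi n) ∧
      ∀ (f : PX (2 * n) → ℝ) (x : PX (2 * n)),
        Tendsto (fun M : ℕ => (iSX (wB h β) ^ M) f x) atTop (𝓝 (∑ y, P β y * f y))) ∧
    ∀ x, ContinuousOn (fun β => P β x) (Set.Icc 0 (Real.pi / 6)) := by
  classical
  have hex : ∀ β : ℝ, ∃ p : PX (2 * n) → ℝ, β ∈ Set.Icc 0 (Real.pi / 6) →
      ((∀ x, 0 ≤ p x) ∧ ∑ x, p x = 1 ∧ 0 < p (xpi n) ∧
      ∀ (f : PX (2 * n) → ℝ) (x : PX (2 * n)),
        Tendsto (fun M : ℕ => (iSX (wB h β) ^ M) f x) atTop (𝓝 (∑ y, p y * f y))) := by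
    intro β
    by_cases hβ : β ∈ Set.Icc 0 (Real.pi / 6)
    · obtain ⟨Ψ, hlim, hpos, hone, hinv, hmin⟩ := exists_stationary (doeblin_wB n hp hβ)
      refine ⟨fun x => Ψ (Pi.single x 1), fun _ => ?_⟩
      have hexp : ∀ f : PX (2 * n) → ℝ, Ψ f = ∑ y, Ψ (Pi.single y 1) * f y := by
        intro f
        have : f = ∑ y, f y • (Pi.single y (1 : ℝ) : PX (2 * n) → ℝ) := by
          funext x
          simp [Finset.sum_apply, Pi.single_apply]
        conv_lhs => rw [this]
        rw [map_sum]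
        refine Finset.sum_congr rfl (fun y _ => ?_)
        rw [map_smul, smul_eq_mul, mul_comm]
      have hs0 : ∀ y : PX (2 * n), ∀ x, 0 ≤ (Pi.single y (1 : ℝ) : PX (2 * n) → ℝ) x := by
        intro y x
        rw [Pi.single_apply]; split_ifs <;> norm_num
      refine ⟨fun x => hpos _ (hs0 x), ?_, ?_, fun f x => ?_⟩
      · have := hexp (fun _ => 1)
        rw [hone] at this
        simpa using this.symm
      · have := hmin _ (hs0 (xpi n))
        refine lt_of_lt_of_le ?_ this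
        rw [Pi.single_eq_same]
        positivity
      · rw [← hexp]; exact hlim f x
    · exact ⟨0, fun h => absurd h hβ⟩
  choose P hP using hex
  refine ⟨P, hP, fun x => ?_⟩
  -- uniform limit of continuous functions
  have hexp2 : ∀ β ∈ Set.Icc 0 (Real.pi / 6), ∑ y, P β y * (Pi.single x (1 : ℝ) : PX (2 * n) → ℝ) y
      = P β x := by
    intro β _
    simp [Pi.single_apply]
  have hu : TendstoUniformlyOn (fun (M : ℕ) β => (iSX (wB h β) ^ M)
      (Pi.single x (1 : ℝ) : PX (2 * n) → ℝ) (xpi n)) (fun β => P β x) atTop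
      (Set.Icc 0 (Real.pi / 6)) := by
    rw [Metric.tendstoUniformlyOn_iff]
    intro ε hε
    have hc0 : (0 : ℝ) < (1 / 4) ^ (2 * n) := by positivity
    have hc1 : ((1 : ℝ) / 4) ^ (2 * n) ≤ 1 := pow_le_one₀ (by norm_num) (by norm_num)
    have hz := tendsto_pow_atTop_nhds_zero_of_lt_one (r := 1 - (1 / 4 : ℝ) ^ (2 * n))
      (by linarith) (by linarith)
    filter_upwards [hz.eventually (gt_mem_nhds hε)] with M hM β hβ
    obtain ⟨h0, h1, h2, h3⟩ := hP β hβ
    let Ψ : (PX (2 * n) → ℝ) →ₗ[ℝ] ℝ :=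
      { toFun := fun f => ∑ y, P β y * f y
        map_add' := fun f g => by simp [mul_add, Finset.sum_add_distrib]
        map_smul' := fun r f => by
          simp only [Pi.smul_apply, smul_eq_mul, RingHom.id_apply, Finset.mul_sum]
          exact Finset.sum_congr rfl (fun y _ => by ring) }
    have hr := rate (Ψ := Ψ) n hp (doeblin_wB n hp hβ) (fun f x => h3 f x)
      (f := (Pi.single x (1 : ℝ) : PX (2 * n) → ℝ)) (fun y => by
        rw [Pi.single_apply]; split_ifs <;> norm_num) M (xpi n)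
    have e : Ψ (Pi.single x (1 : ℝ) : PX (2 * n) → ℝ) = P β x := hexp2 β hβ
    rw [e] at hr
    rw [dist_comm, Real.dist_eq]
    exact lt_of_le_of_lt hr hM
  exact hu.continuousOn (Frequently.of_forall fun M => continuousOn_iterate n hp M _ _)

end Psi

end Pool.Agent.H21.Stair
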