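import Mathlib
import Pool.Agent.H21.Stair.Basic

/-!
# The weights are at most one in the sector `SS`
-/

namespace Pool.Agent.H21.Stair

open Complex

/-- squared distance to a point of the unit circle -/
theorem normSq_sub_unit (u d : ℂ) (hd : d.re ^ 2 + d.im ^ 2 = 1) :
    ‖u - d‖ ^ 2 = (u.re ^ 2 + u.im ^ 2 + 1) - 2 * (u.re * d.re + u.im * d.im) := by
  rw [← Complex.normSq_eq_norm_sq, Complex.normSq_apply, Complex.sub_re, Complex.sub_im]
  linear_combination hd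

theorem dH_re (β : ℝ) : (dH β).re = Real.cos β := by
  unfold dH
  rw [show -((β : ℂ) * I) = ((-β : ℝ) : ℂ) * I by push_cast; ring, Complex.exp_ofReal_mul_I_re,
    Real.cos_neg]

theorem dH_im (β : ℝ) : (dH β).im = -Real.sin β := by
  unfold dH
  rw [show -((β : ℂ) * I) = ((-β : ℝ) : ℂ) * I by push_cast; ring, Complex.exp_ofReal_mul_I_im,
    Real.sin_neg]

theorem dV_re (β : ℝ) : (dV β).re = Real.cos β := by
  unfold dV; rw [Complex.exp_ofReal_mul_I_re]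

theorem dV_im (β : ℝ) : (dV β).im = Real.sin β := by
  unfold dV; rw [Complex.exp_ofReal_mul_I_im]

theorem om_re : om.re = -1 / 2 := rfl
theorem om_im : om.im = Real.sqrt 3 / 2 := rfl
theorem om2_re : (om ^ 2).re = -1 / 2 := by rw [om_sq]
theorem om2_im : (om ^ 2).im = -(Real.sqrt 3 / 2) := by rw [om_sq]

/-- the same direction on both sides -/
theorem gap_same {u d : ℂ} (hd : d.re ^ 2 + d.im ^ 2 = 1) (hu : u.re * d.re + u.im * d.im ≤ 0) :
    ‖u - om ^ 2 * d‖ * ‖u - om * d‖ ≤ ‖u - d‖ * ‖u - d‖ := by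
  have s3 := sqrt3_sq
  have h1 := normSq_sub_unit u (om ^ 2 * d) (by
    rw [Complex.mul_re, Complex.mul_im, om2_re, om2_im]
    linear_combination (d.re ^ 2 + d.im ^ 2) / 4 * s3 + hd)
  have h2 := normSq_sub_unit u (om * d) (by
    rw [Complex.mul_re, Complex.mul_im, om_re, om_im]
    linear_combination (d.re ^ 2 + d.im ^ 2) / 4 * s3 + hd)
  have h3 := normSq_sub_unit u d hd
  rw [Complex.mul_re, Complex.mul_im, om2_re, om2_im] at h1
  rw [Complex.mul_re, Complex.mul_im, om_re, om_im] at h2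
  rw [← abs_of_nonneg (by positivity : 0 ≤ ‖u - om ^ 2 * d‖ * ‖u - om * d‖),
    ← abs_of_nonneg (by positivity : 0 ≤ ‖u - d‖ * ‖u - d‖), ← sq_le_sq, mul_pow, mul_pow, h1, h2, h3]
  set x := u.re; set y := u.im; set p := d.re; set q := d.im
  set r := x * p + y * q with hr
  have key : (x ^ 2 + y ^ 2) = r ^ 2 + (x * q - y * p) ^ 2 := by
    rw [hr]; linear_combination (-(x ^ 2 + y ^ 2)) * hd
  have e : (x ^ 2 + y ^ 2 + 1 - 2 * r) * (x ^ 2 + y ^ 2 + 1 - 2 * r)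
      - (x ^ 2 + y ^ 2 + 1 - 2 * (x * (-1 / 2 * p - -(Real.sqrt 3 / 2) * q)
          + y * (-1 / 2 * q + -(Real.sqrt 3 / 2) * p)))
        * (x ^ 2 + y ^ 2 + 1 - 2 * (x * (-1 / 2 * p - Real.sqrt 3 / 2 * q)
          + y * (-1 / 2 * q + Real.sqrt 3 / 2 * p)))
      = 3 * (x ^ 2 + y ^ 2) - 6 * (x ^ 2 + y ^ 2 + 1) * r := by
    have t : (Real.sqrt 3) ^ 2 = 3 := by rw [sq]; exact s3
    have e1 : x * (-1 / 2 * p - -(Real.sqrt 3 / 2) * q) + y * (-1 / 2 * q + -(Real.sqrt 3 / 2) * p)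
        = -r / 2 + Real.sqrt 3 / 2 * (x * q - y * p) := by rw [hr]; ring
    have e2 : x * (-1 / 2 * p - Real.sqrt 3 / 2 * q) + y * (-1 / 2 * q + Real.sqrt 3 / 2 * p)
        = -r / 2 - Real.sqrt 3 / 2 * (x * q - y * p) := by rw [hr]; ring
    rw [e1, e2, key]
    linear_combination (x * q - y * p) ^ 2 * t
  nlinarith [mul_nonneg (by positivity : 0 ≤ x ^ 2 + y ^ 2 + 1) (neg_nonneg.2 hu), sq_nonneg x,
    sq_nonneg y]

/-- different directions: `d = (c, s)`, `d' = (c, -s)` -/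
theorem gap_diff {u d d' : ℂ} {c s : ℝ} (hcs : c ^ 2 + s ^ 2 = 1) (h1 : d = ⟨c, s⟩)
    (h2 : d' = ⟨c, -s⟩) (hu : u.re ≤ 0) (hc : 0 ≤ c / 2 + Real.sqrt 3 / 2 * s)
    (hc' : 0 ≤ c * (3 / 2) - Real.sqrt 3 / 2 * s) :
    ‖u - om ^ 2 * d‖ * ‖u - om * d'‖ ≤ ‖u - d‖ * ‖u - d'‖ := by
  have s3 := sqrt3_sq
  have t : (Real.sqrt 3) ^ 2 = 3 := by rw [sq]; exact s3
  subst h1 h2
  have n1 := normSq_sub_unit u (om ^ 2 * ⟨c, s⟩) (by
    rw [Complex.mul_re, Complex.mul_im, om2_re, om2_im]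
    linear_combination (c ^ 2 + s ^ 2) / 4 * s3 + hcs)
  have n2 := normSq_sub_unit u (om * ⟨c, -s⟩) (by
    rw [Complex.mul_re, Complex.mul_im, om_re, om_im]
    simp only
    linear_combination (c ^ 2 + s ^ 2) / 4 * s3 + hcs)
  have n3 := normSq_sub_unit u ⟨c, s⟩ hcs
  have n4 := normSq_sub_unit u ⟨c, -s⟩ (by simp only; linear_combination hcs)
  rw [Complex.mul_re, Complex.mul_im, om2_re, om2_im] at n1
  rw [Complex.mul_re, Complex.mul_im, om_re, om_im] at n2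
  simp only at n1 n2 n3 n4
  rw [← abs_of_nonneg (by positivity : 0 ≤ ‖u - om ^ 2 * ⟨c, s⟩‖ * ‖u - om * ⟨c, -s⟩‖),
    ← abs_of_nonneg (by positivity : 0 ≤ ‖u - ⟨c, s⟩‖ * ‖u - ⟨c, -s⟩‖), ← sq_le_sq, mul_pow,
    mul_pow, n1, n2, n3, n4]
  set x := u.re; set y := u.im
  -- cos and sin of `2 pi / 3 - δ`
  set C : ℝ := -1 / 2 * c + Real.sqrt 3 / 2 * s with hC
  set D : ℝ := -1 / 2 * s - Real.sqrt 3 / 2 * c with hD
  have hCD : C ^ 2 + D ^ 2 = 1 := by
    rw [hC, hD]; linear_combination (c ^ 2 + s ^ 2) / 4 * t + hcs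
  have hdiff : c - C = c * (3 / 2) - Real.sqrt 3 / 2 * s := by rw [hC]; ring
  have hsum : c + C = c / 2 + Real.sqrt 3 / 2 * s := by rw [hC]; ring
  have e : (x ^ 2 + y ^ 2 + 1 - 2 * (x * c + y * s)) * (x ^ 2 + y ^ 2 + 1 - 2 * (x * c + y * -s))
      - (x ^ 2 + y ^ 2 + 1 - 2 * (x * (-1 / 2 * c - -(Real.sqrt 3 / 2) * s)
          + y * (-1 / 2 * s + -(Real.sqrt 3 / 2) * c)))
        * (x ^ 2 + y ^ 2 + 1 - 2 * (x * (-1 / 2 * c - Real.sqrt 3 / 2 * -s)
          + y * (-1 / 2 * -s + Real.sqrt 3 / 2 * c)))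
      = 4 * (c - C) * ((c + C) * (x ^ 2 + y ^ 2) - (x ^ 2 + y ^ 2 + 1) * x) := by
    have e1 : x * (-1 / 2 * c - -(Real.sqrt 3 / 2) * s) + y * (-1 / 2 * s + -(Real.sqrt 3 / 2) * c)
        = x * C + y * D := by rw [hC, hD]; ring
    have e2 : x * (-1 / 2 * c - Real.sqrt 3 / 2 * -s) + y * (-1 / 2 * -s + Real.sqrt 3 / 2 * c)
        = x * C - y * D := by rw [hC, hD]; ring
    rw [e1, e2]
    linear_combination 4 * y ^ 2 * hCD - 4 * y ^ 2 * hcs
  have h5 : 0 ≤ (c + C) * (x ^ 2 + y ^ 2) - (x ^ 2 + y ^ 2 + 1) * x := by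
    have a1 : 0 ≤ (c + C) * (x ^ 2 + y ^ 2) := mul_nonneg (by rw [hsum]; exact hc) (by positivity)
    have a2 : 0 ≤ (x ^ 2 + y ^ 2 + 1) * -x := mul_nonneg (by positivity) (by linarith)
    linarith
  have h6 : 0 ≤ 4 * (c - C) * ((c + C) * (x ^ 2 + y ^ 2) - (x ^ 2 + y ^ 2 + 1) * x) :=
    mul_nonneg (mul_nonneg (by norm_num) (by rw [hdiff]; exact hc')) h5
  linarith

/-- the pole of the strand `k` -/
noncomputable def dk (h : ℤ → Bool) (β : ℝ) (k : ℤ) : ℂ := if h k then dH β else dV β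

theorem angle_facts {β : ℝ} (h0 : 0 ≤ β) (h1 : β ≤ Real.pi / 6) :
    0 ≤ Real.sin β ∧ Real.sin β ≤ 1 / 2 ∧ Real.sqrt 3 / 2 ≤ Real.cos β := by
  refine ⟨Real.sin_nonneg_of_nonneg_of_le_pi h0 (by linarith [Real.pi_pos]), ?_, ?_⟩
  · rw [← Real.sin_pi_div_six]
    exact Real.sin_le_sin_of_le_of_le_pi_div_two (by linarith [Real.pi_pos])
      (by linarith [Real.pi_pos]) h1
  · rw [← Real.cos_pi_div_six]
    exact Real.cos_le_cos_of_nonneg_of_le_pi h0 (by linarith [Real.pi_pos]) h1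

/-- **the weight of an exposed interval is at most one in the sector** -/
theorem gap_le {β : ℝ} (h0 : 0 ≤ β) (h1 : β ≤ Real.pi / 6) {u : ℂ} (hu : u ∈ SS) (b b' : Bool) :
    ‖u - om ^ 2 * (if b then dH β else dV β)‖ * ‖u - om * (if b' then dH β else dV β)‖
      ≤ ‖u - (if b then dH β else dV β)‖ * ‖u - (if b' then dH β else dV β)‖ := by
  obtain ⟨hs0, hs1, hc⟩ := angle_facts h0 h1
  have t3 : 0 < Real.sqrt 3 := Real.sqrt_pos.2 (by norm_num)
  have s3 := sqrt3_sq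
  have hu' : |u.im| ≤ -(Real.sqrt 3 * u.re) := hu
  have hx : u.re ≤ 0 := by
    have := abs_nonneg u.im
    by_contra hcon
    push Not at hcon
    have : 0 < Real.sqrt 3 * u.re := mul_pos t3 hcon
    linarith
  have habs := abs_le.1 hu'
  have hsq := Real.sin_sq_add_cos_sq β
  -- the scalar products with the poles
  have key : ∀ s : ℝ, |s| ≤ 1 / 2 → u.re * Real.cos β + u.im * s ≤ 0 := by
    intro s hs
    have h2 : u.im * s ≤ |u.im| * |s| := by rw [← abs_mul]; exact le_abs_self _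
    have h3 : |u.im| * |s| ≤ -(Real.sqrt 3 * u.re) * (1 / 2) :=
      mul_le_mul hu' hs (abs_nonneg _) (by linarith [abs_nonneg u.im])
    have h4 : u.re * Real.cos β ≤ u.re * (Real.sqrt 3 / 2) := mul_le_mul_of_nonpos_left hc hx
    linarith
  have hH : u.re * (dH β).re + u.im * (dH β).im ≤ 0 := by
    rw [dH_re, dH_im]
    exact key _ (by rw [abs_neg, abs_of_nonneg hs0]; exact hs1)
  have hV : u.re * (dV β).re + u.im * (dV β).im ≤ 0 := by
    rw [dV_re, dV_im]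
    exact key _ (by rw [abs_of_nonneg hs0]; exact hs1)
  have eH : dH β = ⟨Real.cos β, -Real.sin β⟩ := Complex.ext (dH_re β) (dH_im β)
  have eV : dV β = ⟨Real.cos β, Real.sin β⟩ := Complex.ext (dV_re β) (dV_im β)
  cases b <;> cases b'
  · simp only [Bool.false_eq_true, if_false]
    exact gap_same (by rw [dV_re, dV_im]; linarith) hV
  · simp only [Bool.false_eq_true, if_false, if_true]
    refine gap_diff (c := Real.cos β) (s := Real.sin β) (by linarith) eV eH hx ?_ ?_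
    · nlinarith
    · nlinarith
  · simp only [Bool.false_eq_true, if_false, if_true]
    refine gap_diff (c := Real.cos β) (s := -Real.sin β) (by nlinarith) eH (by rw [eV]; simp) hx
      ?_ ?_
    · nlinarith
    · nlinarith
  · simp only [if_true]
    exact gap_same (by rw [dH_re, dH_im]; nlinarith) hH

end Pool.Agent.H21.Stair
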