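import Mathlib
import Pool.Agent.H21.Stair.Gap
import Pool.Agent.H21.Stair.Base

/-!
# The polynomial of the staircase model
-/

open Filter Topology Polynomial

namespace Pool.Agent.H21.Stair

open Pool.Agent.H65.Perc Pool.Agent.H65.Perc.St Pool.Agent.H21.Perc

/-- a product over a period can be shifted -/
theorem fprod_shift {M : Type*} [CommMonoid M] {L : ℕ} (F : ℤ → M) (hF : ∀ k, F (k + L) = F k) :
    ∏ k ∈ Finset.range L, F ((k : ℤ) + 1) = ∏ k ∈ Finset.range L, F k := by
  rcases Nat.eq_zero_or_pos L with h0 | hL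
  · subst h0; simp
  obtain ⟨L', rfl⟩ : ∃ L', L = L' + 1 := ⟨L - 1, by omega⟩
  have h2 : F ((L' : ℤ) + 1) = F ((0 : ℕ) : ℤ) := by
    have := hF 0
    rw [Nat.cast_zero, ← this]
    congr 1
    push_cast; ring
  rw [Finset.prod_range_succ, Finset.prod_range_succ' (fun k : ℕ => F (k : ℤ)), h2]
  congr 1

theorem fsum_shift {M : Type*} [AddCommMonoid M] {L : ℕ} (F : ℤ → M) (hF : ∀ k, F (k + L) = F k) :
    ∑ k ∈ Finset.range L, F ((k : ℤ) + 1) = ∑ k ∈ Finset.range L, F k := by
  rcases Nat.eq_zero_or_pos L with h0 | hL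
  · subst h0; simp
  obtain ⟨L', rfl⟩ : ∃ L', L = L' + 1 := ⟨L - 1, by omega⟩
  have h2 : F ((L' : ℤ) + 1) = F ((0 : ℕ) : ℤ) := by
    have := hF 0
    rw [Nat.cast_zero, ← this]
    congr 1
    push_cast; ring
  rw [Finset.sum_range_succ, Finset.sum_range_succ' (fun k : ℕ => F (k : ℤ)), h2]
  congr 1

theorem exposed_per {L : ℕ} (s : St (Lab L)) (c : ℤ) : Exposed s (c + L) ↔ Exposed s c := by
  have := exposed_add_period s c 1
  simpa using this

open Classical in
/-- the phase of the strand `k` -/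
noncomputable def eps {L : ℕ} (s : St (Lab L)) (k : ℤ) : ℂ :=
  if Exposed s (k + 1) then om ^ 2 else if Exposed s k then om else 1

theorem eps_per {L : ℕ} (s : St (Lab L)) (k : ℤ) : eps s (k + L) = eps s k := by
  classical
  unfold eps
  have e : k + L + 1 = (k + 1) + L := by ring
  simp only [e, exposed_per]

theorem dk_per {L : ℕ} {h : ℤ → Bool} (hp : ∀ k, h (k + L) = h k) (β : ℝ) (k : ℤ) :
    dk h β (k + L) = dk h β k := by
  simp only [dk, hp]

theorem om_ne : om ≠ 0 := om_ne_zero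

theorem om2_om : om ^ 2 * om = 1 := by rw [← pow_succ, om_cube]

section

variable {n : ℕ} [NeZero n]

theorem not_both {s : St (Lab (2 * n))} (hs : Planar s) (k : ℤ) :
    ¬ (Exposed s k ∧ Exposed s (k + 1)) := by
  rintro ⟨h1, h2⟩
  have := exposed_parity n hs h2 h1
  rw [show k + 1 - k = 1 by ring] at this
  exact absurd this (by decide)

theorem prod_eps {s : St (Lab (2 * n))} (hs : Planar s) :
    ∏ k ∈ Finset.range (2 * n), eps s k = 1 := by
  classical
  have h1 : ∀ k : ℤ, eps s k = (if Exposed s (k + 1) then om ^ 2 else 1) *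
      (if Exposed s k then om else 1) := by
    intro k
    unfold eps
    have := not_both hs k
    by_cases h1 : Exposed s (k + 1)
    · have h2 : ¬ Exposed s k := fun h => this ⟨h, h1⟩
      simp [h1, h2]
    · simp [h1]
  simp only [h1]
  rw [Finset.prod_mul_distrib]
  have h2 := fprod_shift (L := 2 * n) (fun k : ℤ => if Exposed s k then om ^ 2 else 1)
    (fun k => by simp only [exposed_per])
  rw [h2, ← Finset.prod_mul_distrib]
  refine Finset.prod_eq_one (fun k _ => ?_)
  split_ifs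
  · exact om2_om
  · ring

/-- the polynomial of a planar state -/
noncomputable def qx (h : ℤ → Bool) (β : ℝ) (s : St (Lab (2 * n))) : ℂ[X] :=
  ∏ k ∈ Finset.range (2 * n), (X - C (eps s k * dk h β k))

theorem qx_monic (h : ℤ → Bool) (β : ℝ) (s : St (Lab (2 * n))) :
    (qx h β s).Monic ∧ (qx h β s).natDegree = 2 * n := by
  unfold qx
  constructor
  · exact monic_prod_of_monic _ _ (fun k _ => monic_X_sub_C _)
  · rw [natDegree_prod_of_monic _ _ (fun k _ => monic_X_sub_C _)]
    simp only [natDegree_X_sub_C]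
    simp

/-- the product of all the poles -/
noncomputable def dd (n : ℕ) (h : ℤ → Bool) (β : ℝ) : ℂ[X] :=
  ∏ k ∈ Finset.range (2 * n), (X - C (dk h β k))

theorem dd_eq_den {h : ℤ → Bool} (β : ℝ) {a b : ℕ}
    (ha : ((Finset.range (2 * n)).filter (fun k : ℕ => h k = true)).card = a)
    (hab : a + b = 2 * n) : dd n h β = den β a b := by
  classical
  unfold dd den
  have h1 := Finset.prod_filter_mul_prod_filter_not (Finset.range (2 * n))
    (fun k : ℕ => h k = true) (fun k : ℕ => (X - C (dk h β k) : ℂ[X]))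
  rw [← h1]
  have hb : ((Finset.range (2 * n)).filter (fun k : ℕ => ¬ h k = true)).card = b := by
    have := Finset.card_filter_add_card_filter_not (s := Finset.range (2 * n))
      (fun k : ℕ => h k = true)
    rw [Finset.card_range] at this
    omega
  congr 1
  · rw [← ha, ← Finset.prod_const]
    refine Finset.prod_congr rfl (fun k hk => ?_)
    rw [Finset.mem_filter] at hk
    simp [dk, hk.2]
  · rw [← hb, ← Finset.prod_const]
    refine Finset.prod_congr rfl (fun k hk => ?_)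
    rw [Finset.mem_filter] at hk
    simp [dk, hk.2]

theorem qx_zero (h : ℤ → Bool) (β : ℝ) {s : St (Lab (2 * n))} (hs : Planar s) :
    (qx h β s).eval 0 = (dd n h β).eval 0 := by
  unfold qx dd
  simp only [eval_prod, eval_sub, eval_X, eval_C, zero_sub]
  have : ∀ k : ℕ, -(eps s (k : ℤ) * dk h β k) = eps s k * -(dk h β k) := fun k => by ring
  simp only [this]
  rw [Finset.prod_mul_distrib, prod_eps hs, one_mul]

/-- real weights and complex parameter -/
theorem expW_eval {h : ℤ → Bool} (hp : ∀ k, h (k + ((2 * n : ℕ) : ℤ)) = h k) (β : ℝ)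
    {w : ℤ → ℝ} (hw : Per (2 * n) w) {u : ℂ}
    (hwu : ∀ k, (w k : ℂ) * (u - dk h β k) = -(om ^ 2) * (u - om ^ 2 * dk h β k))
    {s : St (Lab (2 * n))} (hs : Planar s) :
    ((expW w s : ℝ) : ℂ) * (dd n h β).eval u = (qx h β s).eval u := by
  classical
  have hw1 : ∀ k, (1 - (w k : ℂ)) * (u - dk h β k) = -om * (u - om * dk h β k) := by
    intro k
    have h1 := hwu k
    have h2 := om_sum
    have h3 := om_cube
    linear_combination -h1 + (u - dk h β k) * h2 + (-(dk h β k) * om) * h3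
  have e1 : ((expW w s : ℝ) : ℂ) = ∏ k ∈ Finset.range (2 * n),
      ((if Exposed s ((k : ℤ) + 1) then (w k : ℂ) else 1) *
        (if Exposed s k then (1 - (w k : ℂ)) else 1)) := by
    rw [expW_eq_prod, Finset.prod_mul_distrib]
    have h2 := fprod_shift (L := 2 * n) (fun k : ℤ => if Exposed s k then ((w (k - 1) : ℝ) : ℂ) else 1)
      (fun k => by
        simp only [exposed_per]
        rw [show k + ((2 * n : ℕ) : ℤ) - 1 = (k - 1) + ((2 * n : ℕ) : ℤ) by ring, hw])
    simp only [add_sub_cancel_right] at h2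
    rw [h2, ← Finset.prod_mul_distrib]
    push_cast
    refine Finset.prod_congr rfl (fun k _ => ?_)
    split_ifs <;> push_cast <;> ring
  have e2 : ∏ k ∈ Finset.range (2 * n),
      ((if Exposed s ((k : ℤ) + 1) then -(om ^ 2) else 1) * (if Exposed s k then -om else 1)) = 1 := by
    rw [Finset.prod_mul_distrib]
    have h2 := fprod_shift (L := 2 * n) (fun k : ℤ => if Exposed s k then -(om ^ 2) else 1)
      (fun k => by simp only [exposed_per])
    rw [h2, ← Finset.prod_mul_distrib]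
    refine Finset.prod_eq_one (fun k _ => ?_)
    split_ifs
    · rw [neg_mul_neg]; exact om2_om
    · ring
  unfold dd qx
  rw [e1]
  simp only [eval_prod, eval_sub, eval_X, eval_C]
  rw [← Finset.prod_mul_distrib]
  have e3 : ∀ k ∈ Finset.range (2 * n),
      ((if Exposed s ((k : ℤ) + 1) then (w k : ℂ) else 1) *
        (if Exposed s k then (1 - (w k : ℂ)) else 1)) * (u - dk h β k)
      = ((if Exposed s ((k : ℤ) + 1) then -(om ^ 2) else 1) * (if Exposed s k then -om else 1)) *
        (u - eps s k * dk h β k) := by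
    intro k _
    unfold eps
    have hnb := not_both hs k
    by_cases h1 : Exposed s ((k : ℤ) + 1)
    · have h2 : ¬ Exposed s k := fun h => hnb ⟨h, h1⟩
      simp only [h1, h2, if_true, if_false, mul_one]
      exact hwu k
    · by_cases h2 : Exposed s k
      · simp only [h1, h2, if_true, if_false, one_mul]
        exact hw1 k
      · simp only [h1, h2, if_false, one_mul]
  rw [Finset.prod_congr rfl e3, Finset.prod_mul_distrib, e2, one_mul]

theorem dk_unit (h : ℤ → Bool) (β : ℝ) (k : ℤ) : ‖dk h β k‖ = 1 := by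
  unfold dk dH dV
  split_ifs
  · rw [show -((β : ℂ) * Complex.I) = ((-β : ℝ) : ℂ) * Complex.I by push_cast; ring,
      Complex.norm_exp_ofReal_mul_I]
  · rw [Complex.norm_exp_ofReal_mul_I]

theorem dk_ne_zero (h : ℤ → Bool) (β : ℝ) (k : ℤ) : dk h β k ≠ 0 := by
  intro h0
  have := dk_unit h β k
  rw [h0, norm_zero] at this
  norm_num at this

theorem SS_ne {h : ℤ → Bool} {β : ℝ} (h0 : 0 ≤ β) (h1 : β ≤ Real.pi / 6) {u : ℂ} (hu : u ∈ SS)
    (k : ℤ) : u - dk h β k ≠ 0 := by
  obtain ⟨hs0, hs1, hc⟩ := angle_facts h0 h1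
  have t3 : 0 < Real.sqrt 3 := Real.sqrt_pos.2 (by norm_num)
  have hu' : |u.im| ≤ -(Real.sqrt 3 * u.re) := hu
  have hx : u.re ≤ 0 := by
    have := abs_nonneg u.im
    by_contra hcon
    push Not at hcon
    have : 0 < Real.sqrt 3 * u.re := mul_pos t3 hcon
    linarith
  intro hcon
  have hre := congrArg Complex.re hcon
  rw [Complex.sub_re, Complex.zero_re] at hre
  have : (dk h β k).re = Real.cos β := by
    unfold dk
    split_ifs
    · exact dH_re β
    · exact dV_re β
  rw [this] at hre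
  linarith

theorem qx_le {h : ℤ → Bool} (hp : ∀ k, h (k + ((2 * n : ℕ) : ℤ)) = h k) {β : ℝ} (h0 : 0 ≤ β)
    (h1 : β ≤ Real.pi / 6) {u : ℂ} (hu : u ∈ SS) {s : St (Lab (2 * n))} (hs : Planar s) :
    ‖(qx h β s).eval u‖ ≤ ‖(dd n h β).eval u‖ := by
  classical
  have hne := SS_ne (h := h) h0 h1 hu
  have hpos : ∀ k, 0 < ‖u - dk h β k‖ := fun k => norm_pos_iff.2 (hne k)
  set A : ℤ → ℝ := fun k => if Exposed s k then
    ‖u - om ^ 2 * dk h β (k - 1)‖ / ‖u - dk h β (k - 1)‖ else 1 with hA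
  set B : ℤ → ℝ := fun k => if Exposed s k then ‖u - om * dk h β k‖ / ‖u - dk h β k‖ else 1 with hB
  have e1 : ∀ k : ℤ, ‖u - eps s k * dk h β k‖ = A (k + 1) * B k * ‖u - dk h β k‖ := by
    intro k
    have hk := (hpos k).ne'
    rw [hA, hB]
    unfold eps
    simp only [add_sub_cancel_right]
    have hnb := not_both hs k
    by_cases h1 : Exposed s ((k : ℤ) + 1)
    · have h2 : ¬ Exposed s k := fun h => hnb ⟨h, h1⟩
      simp only [h1, h2, if_true, if_false, mul_one]
      field_simp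
    · by_cases h2 : Exposed s k
      · simp only [h1, h2, if_true, if_false, one_mul]
        field_simp
      · simp only [h1, h2, if_false, one_mul]
  unfold qx dd
  simp only [eval_prod, eval_sub, eval_X, eval_C, norm_prod]
  simp only [e1]
  rw [Finset.prod_mul_distrib, Finset.prod_mul_distrib]
  have h2 := fprod_shift (L := 2 * n) A (fun k => by
    rw [hA]
    simp only [exposed_per]
    rw [show k + ((2 * n : ℕ) : ℤ) - 1 = (k - 1) + ((2 * n : ℕ) : ℤ) by ring, dk_per hp])
  rw [h2, ← Finset.prod_mul_distrib]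
  have h3 : ∏ k ∈ Finset.range (2 * n), A k * B k ≤ 1 := by
    refine Finset.prod_le_one (fun k _ => ?_) (fun k _ => ?_)
    · rw [hA, hB]
      simp only
      split_ifs <;> positivity
    · rw [hA, hB]
      simp only
      split_ifs
      · rw [div_mul_div_comm, div_le_one (mul_pos (hpos _) (hpos _))]
        exact gap_le h0 h1 hu (h (k - 1)) (h k)
      · norm_num
  have h4 : 0 ≤ ∏ k ∈ Finset.range (2 * n), ‖u - dk h β k‖ :=
    Finset.prod_nonneg (fun _ _ => norm_nonneg _)
  nlinarith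

/-- the polynomial of the model -/
noncomputable def QQ (h : ℤ → Bool) (β : ℝ) (P : PX (2 * n) → ℝ) : ℂ[X] :=
  ∑ x, C ((P x : ℝ) : ℂ) * qx h β x.1

theorem QQ_deg (h : ℤ → Bool) (β : ℝ) (P : PX (2 * n) → ℝ) : (QQ h β P).natDegree ≤ 2 * n := by
  unfold QQ
  refine natDegree_sum_le_of_forall_le _ _ (fun x _ => ?_)
  exact (natDegree_C_mul_le _ _).trans (qx_monic h β x.1).2.le

theorem QQ_lead (h : ℤ → Bool) (β : ℝ) {P : PX (2 * n) → ℝ} (hP : ∑ x, P x = 1) :
    (QQ h β P).coeff (2 * n) = 1 := by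
  unfold QQ
  rw [finset_sum_coeff]
  have : ∀ x : PX (2 * n), (C ((P x : ℝ) : ℂ) * qx h β x.1).coeff (2 * n) = ((P x : ℝ) : ℂ) := by
    intro x
    rw [coeff_C_mul]
    have h1 := (qx_monic h β x.1).1
    have h2 := (qx_monic h β x.1).2
    have : (qx h β x.1).coeff (2 * n) = 1 := by
      have h3 := h1.coeff_natDegree
      rwa [h2] at h3
    rw [this, mul_one]
  simp only [this]
  exact_mod_cast hP

theorem QQ_eval (h : ℤ → Bool) (β : ℝ) (P : PX (2 * n) → ℝ) (u : ℂ) :
    (QQ h β P).eval u = ∑ x, ((P x : ℝ) : ℂ) * (qx h β x.1).eval u := by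
  unfold QQ
  simp [eval_finset_sum]

theorem QQ_zero (h : ℤ → Bool) (β : ℝ) {P : PX (2 * n) → ℝ} (hP : ∑ x, P x = 1) :
    (QQ h β P).eval 0 = (dd n h β).eval 0 := by
  rw [QQ_eval]
  have : ∀ x : PX (2 * n), ((P x : ℝ) : ℂ) * (qx h β x.1).eval 0
      = ((P x : ℝ) : ℂ) * (dd n h β).eval 0 := fun x => by rw [qx_zero h β x.2]
  simp only [this, ← Finset.sum_mul]
  have h2 : (∑ x, ((P x : ℝ) : ℂ)) = 1 := by exact_mod_cast hP
  rw [h2, one_mul]

theorem QQ_le {h : ℤ → Bool} (hp : ∀ k, h (k + ((2 * n : ℕ) : ℤ)) = h k) {β : ℝ} (h0 : 0 ≤ β)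
    (h1 : β ≤ Real.pi / 6) {u : ℂ} (hu : u ∈ SS) {P : PX (2 * n) → ℝ} (hP0 : ∀ x, 0 ≤ P x)
    (hP : ∑ x, P x = 1) : ‖(QQ h β P).eval u‖ ≤ ‖(dd n h β).eval u‖ := by
  rw [QQ_eval]
  calc ‖∑ x, ((P x : ℝ) : ℂ) * (qx h β x.1).eval u‖
      ≤ ∑ x, ‖((P x : ℝ) : ℂ) * (qx h β x.1).eval u‖ := norm_sum_le _ _
    _ ≤ ∑ x, P x * ‖(dd n h β).eval u‖ := by
        refine Finset.sum_le_sum (fun x _ => ?_)
        rw [norm_mul, Complex.norm_real, Real.norm_eq_abs, abs_of_nonneg (hP0 x)]
        exact mul_le_mul_of_nonneg_left (qx_le hp h0 h1 hu x.2) (hP0 x)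
    _ = ‖(dd n h β).eval u‖ := by rw [← Finset.sum_mul, hP, one_mul]

end

end Pool.Agent.H21.Stair
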