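import Mathlib
import Pool.Agent.H21.Stair.Poly

/-!
# The functional equation of the staircase model
-/

open Filter Topology Polynomial

namespace Pool.Agent.H21.Stair

open Pool.Agent.H65.Perc Pool.Agent.H65.Perc.St Pool.Agent.H21.Perc

/-- the point `-exp (i psi)` of the unit circle, `T = tan (psi / 2)` -/
noncomputable def uT (T : ℝ) : ℂ := -((1 + T * Complex.I) / (1 - T * Complex.I))

theorem one_sub_ne (T : ℝ) : (1 : ℂ) - T * Complex.I ≠ 0 := by
  intro h
  have := congrArg Complex.re h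
  simp at this

theorem one_add_ne (T : ℝ) : (1 : ℂ) + T * Complex.I ≠ 0 := by
  intro h
  have := congrArg Complex.re h
  simp at this

theorem uT_inj {T S : ℝ} (h : uT T = uT S) : T = S := by
  unfold uT at h
  rw [neg_inj, div_eq_div_iff (one_sub_ne T) (one_sub_ne S)] at h
  have h2 := congrArg Complex.im h
  simp at h2
  linarith

theorem dk_eq {h : ℤ → Bool} {β : ℝ} (hβ : β ∈ Set.Icc 0 (Real.pi / 6)) (k : ℤ) :
    dk h β k = (1 + (tk h β k : ℂ) * Complex.I) / (1 - (tk h β k : ℂ) * Complex.I) := by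
  have hc := cos_bound hβ
  have h3 := sqrt3_bounds
  have hc1 : (0 : ℝ) < 1 + Real.cos β := by linarith
  have hsq := Real.sin_sq_add_cos_sq β
  have htb : tb β * (1 + Real.cos β) = Real.sin β := by
    unfold tb; field_simp
  have htb2 : tb β * Real.sin β = 1 - Real.cos β := by
    unfold tb
    rw [div_mul_eq_mul_div, div_eq_iff hc1.ne']
    nlinarith
  rw [eq_div_iff (one_sub_ne _)]
  unfold dk tk
  split_ifs
  · apply Complex.ext
    · simp only [Complex.mul_re, Complex.sub_re, Complex.one_re, Complex.ofReal_re, Complex.I_re,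
        Complex.ofReal_im, Complex.I_im, Complex.sub_im, Complex.one_im, Complex.mul_im,
        Complex.add_re, dH_re, dH_im]
      linarith
    · simp only [Complex.mul_re, Complex.sub_re, Complex.one_re, Complex.ofReal_re, Complex.I_re,
        Complex.ofReal_im, Complex.I_im, Complex.sub_im, Complex.one_im, Complex.mul_im,
        Complex.add_im, dH_re, dH_im]
      linarith
  · apply Complex.ext
    · simp only [Complex.mul_re, Complex.sub_re, Complex.one_re, Complex.ofReal_re, Complex.I_re,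
        Complex.ofReal_im, Complex.I_im, Complex.sub_im, Complex.one_im, Complex.mul_im,
        Complex.add_re, dV_re, dV_im]
      linarith
    · simp only [Complex.mul_re, Complex.sub_re, Complex.one_re, Complex.ofReal_re, Complex.I_re,
        Complex.ofReal_im, Complex.I_im, Complex.sub_im, Complex.one_im, Complex.mul_im,
        Complex.add_im, dV_re, dV_im]
      linarith

/-- the weights at the parameter `uT T` -/
noncomputable def wT (h : ℤ → Bool) (β T : ℝ) (k : ℤ) : ℝ :=
  (1 - Real.sqrt 3 * ((T - tk h β k) / (1 + T * tk h β k))) / 2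

theorem wT_per {L : ℕ} {h : ℤ → Bool} (hp : ∀ k, h (k + L) = h k) (β T : ℝ) :
    Per L (wT h β T) := by
  intro k
  simp only [wT, tk, hp]

theorem den_pos {h : ℤ → Bool} {β T : ℝ} (hβ : β ∈ Set.Icc 0 (Real.pi / 6)) (hT : |T| ≤ 1 / 10)
    (k : ℤ) : 0.9 < 1 + T * tk h β k := by
  have h1 := tk_bounds (h := h) hβ k
  have h2 : |T * tk h β k| ≤ 1 / 10 * 0.28 := by
    rw [abs_mul]
    exact mul_le_mul hT h1 (abs_nonneg _) (by norm_num)
  have := (abs_le.1 h2).1
  norm_num at this ⊢
  linarith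

theorem wT_bounds {h : ℤ → Bool} {β T : ℝ} (hβ : β ∈ Set.Icc 0 (Real.pi / 6))
    (hT : |T| ≤ 1 / 10) (k : ℤ) : 0 < wT h β T k ∧ wT h β T k < 1 := by
  have h1 := tk_bounds (h := h) hβ k
  have h2 := den_pos (h := h) hβ hT k
  have h3 := sqrt3_bounds
  have hd : (0 : ℝ) < 1 + T * tk h β k := by linarith
  have h4 : |(T - tk h β k) / (1 + T * tk h β k)| ≤ 0.5 := by
    rw [abs_div, abs_of_pos hd, div_le_iff₀ hd]
    calc |T - tk h β k| ≤ |T| + |tk h β k| := abs_sub _ _
      _ ≤ 1 / 10 + 0.28 := add_le_add hT h1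
      _ ≤ 0.5 * 0.9 := by norm_num
      _ ≤ 0.5 * (1 + T * tk h β k) := by nlinarith
  set q := (T - tk h β k) / (1 + T * tk h β k) with hq
  have h5 := abs_le.1 h4
  unfold wT
  rw [← hq]
  constructor <;> nlinarith

/-- the weights as a function of the point of the circle -/
theorem wT_rel {h : ℤ → Bool} {β T : ℝ} (hβ : β ∈ Set.Icc 0 (Real.pi / 6)) (hT : |T| ≤ 1 / 10)
    (k : ℤ) : (wT h β T k : ℂ) * (uT T - dk h β k) = -(om ^ 2) * (uT T - om ^ 2 * dk h β k) := by
  have hd := den_pos (h := h) hβ hT k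
  rw [dk_eq hβ k]
  unfold uT wT
  set D := tk h β k
  have hd' : (1 : ℂ) + T * D ≠ 0 := by
    have : (1 + T * D : ℝ) ≠ 0 := by linarith
    exact_mod_cast this
  have n1 := one_sub_ne T
  have n2 := one_sub_ne D
  have hI : Complex.I ^ 2 = -1 := Complex.I_sq
  have hom : om = (-1 + Real.sqrt 3 * Complex.I) / 2 := by
    apply Complex.ext
    · simp [om]
    · simp [om]
  have h3 : (Real.sqrt 3 : ℂ) ^ 2 = 3 := by
    rw [← Complex.ofReal_pow, sq, sqrt3_sq]; norm_num
  have hom2 : om ^ 2 = (-1 - Real.sqrt 3 * Complex.I) / 2 := by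
    rw [hom]
    linear_combination (1 / 4 * Complex.I ^ 2) * h3 + 3 / 4 * hI
  rw [hom2]
  push_cast
  rw [div_mul_eq_mul_div]
  field_simp
  linear_combination (4 * T * D * (1 + T * D - Real.sqrt 3 * (T - D))
    - (1 + T * D) * (4 * T * D - 4 * Real.sqrt 3 * (T - D)
      + 3 * ((1 - T * Complex.I) * (1 + D * Complex.I)))) * hI
    - ((1 + T * D) * Complex.I ^ 2 * ((1 - T * Complex.I) * (1 + D * Complex.I))) * h3

theorem wB_eq_wT (h : ℤ → Bool) (β : ℝ) (k : ℤ) : wB h β k = wT h β 0 k := by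
  unfold wB wT
  simp

section Comm

variable {h : ℤ → Bool} {β T : ℝ} (hβ : β ∈ Set.Icc 0 (Real.pi / 6)) (hT0 : 0 < T)
  (hT1 : T ≤ 1 / 10)

include hβ hT0 hT1

theorem wfacts (k : ℤ) :
    wB h β k - wT h β T k
      = Real.sqrt 3 * T * (1 + tk h β k ^ 2) / (2 * (1 + T * tk h β k)) ∧
    1 - wB h β k * (1 - wT h β T k)
      = (1 + tk h β k ^ 2) * Real.sqrt 3 * (Real.sqrt 3 - T) / (4 * (1 + T * tk h β k)) ∧
    1 - wT h β T k * (1 - wB h β k)
      = (1 + tk h β k ^ 2) * Real.sqrt 3 * (Real.sqrt 3 + T) / (4 * (1 + T * tk h β k)) := by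
  have s3 := sqrt3_sq
  have hd := den_pos (h := h) hβ (T := T) (by rw [abs_of_pos hT0]; exact hT1) k
  unfold wB wT
  set D := tk h β k
  have hd' : 1 + T * D ≠ 0 := by linarith
  have hq : (1 + T * D) * ((T - D) / (1 + T * D)) = T - D := by field_simp
  set q := (T - D) / (1 + T * D)
  have hd2 : 2 * (1 + T * D) ≠ 0 := by linarith
  have hd4 : 4 * (1 + T * D) ≠ 0 := by linarith
  refine ⟨?_, ?_, ?_⟩
  · rw [eq_div_iff hd2]
    linear_combination Real.sqrt 3 * hq
  · rw [eq_div_iff hd4]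
    linear_combination (-(1 + Real.sqrt 3 * D) * Real.sqrt 3) * hq - (1 + D * T) * s3
  · rw [eq_div_iff hd4]
    linear_combination ((1 - Real.sqrt 3 * D) * Real.sqrt 3) * hq - (1 + D * T) * s3

theorem comm0 : CommCond (wB h β) (wT h β T) := by
  have h3 := sqrt3_bounds
  have hA : Real.sqrt 3 + T ≠ 0 := by linarith
  refine ⟨-2 * T / (Real.sqrt 3 + T), ?_, fun k => ?_⟩
  · have : 1 + -2 * T / (Real.sqrt 3 + T) = (Real.sqrt 3 - T) / (Real.sqrt 3 + T) := by
      field_simp; ring
    rw [this]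
    exact div_ne_zero (by linarith) hA
  · have hd := den_pos (h := h) hβ (T := T) (by rw [abs_of_pos hT0]; exact hT1) k
    obtain ⟨f1, f2, f3⟩ := wfacts (h := h) hβ hT0 hT1 k
    have hd' : 1 + T * tk h β k ≠ 0 := by linarith
    rw [f3]
    have : wT h β T k * (1 - wB h β k) - wB h β k * (1 - wT h β T k)
      = -(Real.sqrt 3 * T * (1 + tk h β k ^ 2) / (2 * (1 + T * tk h β k))) := by
      rw [← f1]; ring
    rw [this]
    field_simp
    ring

theorem comm1 : CommCond (wB h β) (fun k => 1 / (1 - wT h β T k)) := by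
  have h3 := sqrt3_bounds
  refine ⟨(Real.sqrt 3 - T) / (2 * T), ?_, fun k => ?_⟩
  · have : 1 + (Real.sqrt 3 - T) / (2 * T) = (Real.sqrt 3 + T) / (2 * T) := by
      field_simp; ring
    rw [this]
    exact div_ne_zero (by linarith) (by linarith)
  · have hT : |T| ≤ 1 / 10 := by rw [abs_of_pos hT0]; exact hT1
    have hd := den_pos (h := h) hβ hT k
    obtain ⟨f1, f2, f3⟩ := wfacts (h := h) hβ hT0 hT1 k
    have hw := wT_bounds (h := h) hβ hT k
    have hd' : 1 + T * tk h β k ≠ 0 := by linarith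
    have hw1 : 1 - wT h β T k ≠ 0 := by linarith
    have hTne := hT0.ne'
    have e1 : 1 - 1 / (1 - wT h β T k) * (1 - wB h β k)
        = (wB h β k - wT h β T k) / (1 - wT h β T k) := by field_simp; ring
    have e2 : 1 / (1 - wT h β T k) * (1 - wB h β k) - wB h β k * (1 - 1 / (1 - wT h β T k))
        = (1 - wB h β k * (1 - wT h β T k)) / (1 - wT h β T k) := by field_simp; ring
    rw [e1, e2, f1, f2]
    field_simp
    ring

theorem comm2 : CommCond (wB h β) (fun k => 1 - 1 / wT h β T k) := by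
  have h3 := sqrt3_bounds
  have hA : Real.sqrt 3 - T ≠ 0 := by linarith
  refine ⟨-(Real.sqrt 3 + T) / (Real.sqrt 3 - T), ?_, fun k => ?_⟩
  · have : 1 + -(Real.sqrt 3 + T) / (Real.sqrt 3 - T) = (-2 * T) / (Real.sqrt 3 - T) := by
      field_simp; ring
    rw [this]
    exact div_ne_zero (by linarith) hA
  · have hT : |T| ≤ 1 / 10 := by rw [abs_of_pos hT0]; exact hT1
    have hd := den_pos (h := h) hβ hT k
    obtain ⟨f1, f2, f3⟩ := wfacts (h := h) hβ hT0 hT1 k
    have hw := wT_bounds (h := h) hβ hT k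
    have hd' : 1 + T * tk h β k ≠ 0 := by linarith
    have hw1 : wT h β T k ≠ 0 := by linarith
    have e1 : 1 - (1 - 1 / wT h β T k) * (1 - wB h β k)
        = (1 - wB h β k * (1 - wT h β T k)) / wT h β T k := by field_simp; ring
    have e2 : (1 - 1 / wT h β T k) * (1 - wB h β k) - wB h β k * (1 - (1 - 1 / wT h β T k))
        = -(1 - wT h β T k * (1 - wB h β k)) / wT h β T k := by field_simp; ring
    rw [e1, e2, f2, f3]
    field_simp

end Comm

section Main

variable {n : ℕ} [NeZero n] {h : ℤ → Bool} (hp : ∀ k, h (k + ((2 * n : ℕ) : ℤ)) = h k)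

include hp

theorem fe_point {β T : ℝ} (hβ : β ∈ Set.Icc 0 (Real.pi / 6)) (hT0 : 0 < T) (hT1 : T ≤ 1 / 10)
    {P : PX (2 * n) → ℝ}
    (hlim : ∀ (f : PX (2 * n) → ℝ) (x : PX (2 * n)),
        Tendsto (fun M : ℕ => (iSX (wB h β) ^ M) f x) atTop (𝓝 (∑ y, P y * f y))) :
    (QQ h β P).eval (uT T) * (QQ h β P).eval (om * uT T) * (dd n h β).eval (om ^ 2 * uT T)
      + (QQ h β P).eval (om * uT T) * (QQ h β P).eval (om ^ 2 * uT T) * (dd n h β).eval (uT T)
      + (QQ h β P).eval (uT T) * (QQ h β P).eval (om ^ 2 * uT T) * (dd n h β).eval (om * uT T)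
      = 3 * ((dd n h β).eval (uT T) * (dd n h β).eval (om * uT T)
        * (dd n h β).eval (om ^ 2 * uT T)) := by
  have hT : |T| ≤ 1 / 10 := by rw [abs_of_pos hT0]; exact hT1
  let Ψ : (PX (2 * n) → ℝ) →ₗ[ℝ] ℝ :=
    { toFun := fun f => ∑ y, P y * f y
      map_add' := fun f g => by simp [mul_add, Finset.sum_add_distrib]
      map_smul' := fun r f => by
        simp only [Pi.smul_apply, smul_eq_mul, RingHom.id_apply, Finset.mul_sum]
        exact Finset.sum_congr rfl (fun y _ => by ring) }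
  set w0 := wT h β T with hw0
  set w1 : ℤ → ℝ := fun k => 1 / (1 - w0 k) with hw1
  set w2 : ℤ → ℝ := fun k => 1 - 1 / w0 k with hw2
  have p0 : Per (2 * n) w0 := wT_per hp β T
  have p1 : Per (2 * n) w1 := fun k => by simp only [hw1, p0 k]
  have p2 : Per (2 * n) w2 := fun k => by simp only [hw2, p0 k]
  have hb := fun k => wT_bounds (h := h) hβ hT k
  have hf := ifunctional (L := 2 * n) (wB_per hp β) (doeblin_wB n hp hβ) Ψ
    (fun f x => hlim f x) p0 p1 p2 (comm0 hβ hT0 hT1) (comm1 hβ hT0 hT1) (comm2 hβ hT0 hT1)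
    (fun k => by
      have := (hb k).2
      have h1 : 1 - w0 k ≠ 0 := by linarith
      simp only [hw1]; field_simp)
    (fun k => by
      have := hb k
      have h1 : 1 - w0 k ≠ 0 := by linarith
      have h2 : w0 k ≠ 0 := by linarith
      simp only [hw1, hw2]; field_simp; ring)
    (fun k => by
      have := hb k
      have h2 : w0 k ≠ 0 := by linarith
      simp only [hw2]; field_simp; ring)
  have h3 := om_cube
  -- evaluation of the three functionals
  have ev : ∀ (w : ℤ → ℝ) (u : ℂ), Per (2 * n) w →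
      (∀ k, (w k : ℂ) * (u - dk h β k) = -(om ^ 2) * (u - om ^ 2 * dk h β k)) →
      ((Ψ (fun x => expW w x.1) : ℝ) : ℂ) * (dd n h β).eval u = (QQ h β P).eval u := by
    intro w u hw hrel
    rw [QQ_eval]
    have : Ψ (fun x => expW w x.1) = ∑ y, P y * expW w y.1 := rfl
    rw [this]
    push_cast
    rw [Finset.sum_mul]
    refine Finset.sum_congr rfl (fun y _ => ?_)
    rw [mul_assoc, expW_eval hp β hw hrel y.2]
  have r0 := wT_rel (h := h) hβ hT
  have e0 := ev w0 (uT T) p0 r0
  have e1 := ev w1 (om ^ 2 * uT T) p1 (fun k => by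
    have hc : (1 : ℂ) - (w0 k : ℂ) ≠ 0 := by
      have := (hb k).2
      have h1 : (1 - w0 k : ℝ) ≠ 0 := by linarith
      exact_mod_cast h1
    simp only [hw1]
    push_cast
    have hr := r0 k
    have hs := om_sum
    -- the relation for `1 - w0`
    have hr1 : (1 - (w0 k : ℂ)) * (uT T - dk h β k) = -om * (uT T - om * dk h β k) := by
      linear_combination -hr + (uT T - dk h β k) * hs + (-(dk h β k) * om) * h3
    rw [div_mul_eq_mul_div, one_mul, div_eq_iff hc]
    linear_combination om ^ 4 * hr1 + (-(om ^ 2) * uT T + dk h β k * (om ^ 3 + 1)) * h3)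
  have e2 := ev w2 (om * uT T) p2 (fun k => by
    have hc : (w0 k : ℂ) ≠ 0 := by
      have := (hb k).1
      have h1 : (w0 k : ℝ) ≠ 0 := by linarith
      exact_mod_cast h1
    simp only [hw2]
    push_cast
    have hr := r0 k
    have hs := om_sum
    have e : (1 : ℂ) - 1 / (w0 k : ℂ) = ((w0 k : ℂ) - 1) / (w0 k : ℂ) := by field_simp
    rw [e, div_mul_eq_mul_div, div_eq_iff hc]
    linear_combination (-(om ^ 2)) * hr
      + ((w0 k : ℂ) * (uT T * om - dk h β k * (1 - om + om ^ 2))) * hs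
      + (om * uT T - dk h β k * (om ^ 3 + 1)) * h3)
  have hfc : ((Ψ (fun x => expW w0 x.1) : ℝ) : ℂ) * ((Ψ (fun x => expW w1 x.1) : ℝ) : ℂ)
      + ((Ψ (fun x => expW w1 x.1) : ℝ) : ℂ) * ((Ψ (fun x => expW w2 x.1) : ℝ) : ℂ)
      + ((Ψ (fun x => expW w0 x.1) : ℝ) : ℂ) * ((Ψ (fun x => expW w2 x.1) : ℝ) : ℂ) = 3 := by
    exact_mod_cast hf
  rw [← e0, ← e1, ← e2]
  linear_combination ((dd n h β).eval (uT T) * (dd n h β).eval (om * uT T)
        * (dd n h β).eval (om ^ 2 * uT T)) * hfc

/-- **the functional equation of the polynomial** -/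
theorem fe_poly {β : ℝ} (hβ : β ∈ Set.Icc 0 (Real.pi / 6)) {P : PX (2 * n) → ℝ}
    (hlim : ∀ (f : PX (2 * n) → ℝ) (x : PX (2 * n)),
        Tendsto (fun M : ℕ => (iSX (wB h β) ^ M) f x) atTop (𝓝 (∑ y, P y * f y))) (u : ℂ) :
    (QQ h β P).eval u * (QQ h β P).eval (om * u) * (dd n h β).eval (om ^ 2 * u)
      + (QQ h β P).eval (om * u) * (QQ h β P).eval (om ^ 2 * u) * (dd n h β).eval u
      + (QQ h β P).eval u * (QQ h β P).eval (om ^ 2 * u) * (dd n h β).eval (om * u)
      = 3 * ((dd n h β).eval u * (dd n h β).eval (om * u) * (dd n h β).eval (om ^ 2 * u)) := by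
  set Q := QQ h β P
  set D := dd n h β
  set Q1 := Q.comp (C om * X) with hQ1
  set Q2 := Q.comp (C (om ^ 2) * X) with hQ2
  set D1 := D.comp (C om * X) with hD1
  set D2 := D.comp (C (om ^ 2) * X) with hD2
  have ev1 : ∀ (R : ℂ[X]) (c v : ℂ), (R.comp (C c * X)).eval v = R.eval (c * v) := by
    intro R c v
    rw [eval_comp, eval_mul, eval_C, eval_X]
  have hinj : Function.Injective uT := fun _ _ h => uT_inj h
  have hinf : (uT '' Set.Ioc 0 (1 / 10)).Infinite :=
    (Set.Ioc_infinite (by norm_num)).image hinj.injOn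
  have key : Q * Q1 * D2 + Q1 * Q2 * D + Q * Q2 * D1 = C 3 * (D * D1 * D2) := by
    refine eq_of_infinite_eval_eq _ _ (hinf.mono ?_)
    rintro _ ⟨T, hT, rfl⟩
    show eval (uT T) _ = eval (uT T) _
    simp only [eval_add, eval_mul, eval_C, hQ1, hQ2, hD1, hD2, ev1]
    exact fe_point hp hβ hT.1 hT.2 hlim
  have := congrArg (eval u) key
  simpa only [eval_add, eval_mul, eval_C, hQ1, hQ2, hD1, hD2, ev1] using this

/-- **the polynomial of the model is good** -/
theorem good_QQ {β : ℝ} (hβ : β ∈ Set.Icc 0 (Real.pi / 6)) {P : PX (2 * n) → ℝ}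
    (hP0 : ∀ x, 0 ≤ P x) (hP : ∑ x, P x = 1)
    (hlim : ∀ (f : PX (2 * n) → ℝ) (x : PX (2 * n)),
        Tendsto (fun M : ℕ => (iSX (wB h β) ^ M) f x) atTop (𝓝 (∑ y, P y * f y)))
    {a b : ℕ} (ha : ((Finset.range (2 * n)).filter (fun k : ℕ => h k = true)).card = a)
    (hab : a + b = 2 * n) : Good β a b (QQ h β P) where
  deg := by rw [hab]; exact QQ_deg h β P
  lead := by rw [hab]; exact QQ_lead h β hP
  zero := by rw [← dd_eq_den β ha hab]; exact QQ_zero h β hP
  fe := fun u => by rw [← dd_eq_den β ha hab]; exact fe_poly hp hβ hlim u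
  bd := fun u hu => by rw [← dd_eq_den β ha hab]; exact QQ_le hp hβ.1 hβ.2 hu hP0 hP

end Main

section Cont

/-- the coefficients of a product of linear factors depend continuously on the roots -/
theorem continuousOn_coeff_prod {ι : Type*} (s : Finset ι) (c : ι → ℝ → ℂ) {S : Set ℝ}
    (hc : ∀ i ∈ s, ContinuousOn (c i) S) (k : ℕ) :
    ContinuousOn (fun β => (∏ i ∈ s, (X - C (c i β)) : ℂ[X]).coeff k) S := by
  classical
  induction s using Finset.induction_on generalizing k with
  | empty => simp only [Finset.prod_empty]; exact continuousOn_const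
  | insert i s hi ih =>
    simp only [Finset.prod_insert hi]
    have ih' := ih (fun j hj => hc j (Finset.mem_insert_of_mem hj))
    have hci := hc i (Finset.mem_insert_self _ _)
    have e : ∀ β, ((X - C (c i β)) * ∏ i ∈ s, (X - C (c i β)) : ℂ[X]).coeff k
        = (if k = 0 then 0 else (∏ i ∈ s, (X - C (c i β)) : ℂ[X]).coeff (k - 1))
          - c i β * (∏ i ∈ s, (X - C (c i β)) : ℂ[X]).coeff k := by
      intro β
      rw [sub_mul, coeff_sub, coeff_C_mul]
      congr 1
      rcases k with _ | k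
      · simp
      · simp [coeff_X_mul]
    simp only [e]
    refine ContinuousOn.sub ?_ (hci.mul (ih' k))
    rcases k with _ | k
    · simp only [if_true]; exact continuousOn_const
    · simp only [Nat.add_eq_zero_iff, one_ne_zero, and_false, if_false, Nat.add_sub_cancel]
      exact ih' k

theorem continuous_dk (h : ℤ → Bool) (k : ℤ) : Continuous (fun β => dk h β k) := by
  unfold dk dH dV
  split_ifs <;> fun_prop

variable {n : ℕ} [NeZero n]

theorem continuousOn_coeff_QQ (h : ℤ → Bool) {P : ℝ → PX (2 * n) → ℝ} {S : Set ℝ}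
    (hP : ∀ x, ContinuousOn (fun β => P β x) S) (k : ℕ) :
    ContinuousOn (fun β => (QQ h β (P β)).coeff k) S := by
  unfold QQ qx
  simp only [finset_sum_coeff, coeff_C_mul]
  refine continuousOn_finsetSum _ (fun x _ => ContinuousOn.mul ?_ ?_)
  · exact Complex.continuous_ofReal.comp_continuousOn (hP x)
  · refine continuousOn_coeff_prod _ _ (fun i _ => ?_) k
    exact (continuous_const.mul (continuous_dk h i)).continuousOn

open Classical in
/-- the value at `1` for the angle `0` -/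
noncomputable def RR (s : St (Lab (2 * n))) : ℝ :=
  (∏ k ∈ Finset.range (2 * n), (if Exposed s (k : ℤ) then (3 : ℝ) else 1)) *
    ∏ k ∈ Finset.range (2 * n),
      (if Exposed s (k : ℤ) ∨ Exposed s ((k : ℤ) + 1) then (1 : ℝ) else 0)

theorem dk_zero (h : ℤ → Bool) (k : ℤ) : dk h 0 k = 1 := by
  unfold dk dH dV
  simp

theorem qx_one (h : ℤ → Bool) {s : St (Lab (2 * n))} (hs : Planar s) :
    (qx h 0 s).eval 1 = (RR s : ℂ) := by
  classical
  have hom3 : (1 - om ^ 2) * (1 - om) = 3 := by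
    linear_combination (-1 : ℂ) * om_sum + om_cube
  set A : ℤ → ℂ := fun c => if Exposed s c then 1 - om ^ 2 else 1 with hA
  set B : ℤ → ℂ := fun c => if Exposed s c then 1 - om else 1 with hB
  have e1 : ∀ k : ℕ, (1 : ℂ) - eps s k * dk h 0 k = A ((k : ℤ) + 1) * (B k *
      (if Exposed s (k : ℤ) ∨ Exposed s ((k : ℤ) + 1) then (1 : ℂ) else 0)) := by
    intro k
    rw [dk_zero, hA, hB]
    unfold eps
    have hnb := not_both hs k
    by_cases h1 : Exposed s ((k : ℤ) + 1)
    · have h2 : ¬ Exposed s k := fun h => hnb ⟨h, h1⟩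
      simp [h1, h2]
    · by_cases h2 : Exposed s k
      · simp [h1, h2]
      · simp [h1, h2]
  unfold qx RR
  simp only [eval_prod, eval_sub, eval_X, eval_C]
  simp only [e1]
  rw [Finset.prod_mul_distrib, Finset.prod_mul_distrib]
  have h2 := fprod_shift (L := 2 * n) A (fun k => by rw [hA]; simp only [exposed_per])
  rw [h2, ← mul_assoc, ← Finset.prod_mul_distrib]
  push_cast
  congr 1
  · refine Finset.prod_congr rfl (fun k _ => ?_)
    rw [hA, hB]
    simp only
    split_ifs
    · rw [hom3]; norm_num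
    · simp
  · refine Finset.prod_congr rfl (fun k _ => ?_)
    split_ifs <;> simp

theorem RR_nonneg (s : St (Lab (2 * n))) : 0 ≤ RR s := by
  classical
  unfold RR
  refine mul_nonneg (Finset.prod_nonneg fun _ _ => ?_) (Finset.prod_nonneg fun _ _ => ?_) <;>
  · split_ifs <;> norm_num

theorem exposed_pi0 {c : ℕ} (hc : c ≤ 2 * n) (he : c % 2 = 0) : Exposed (pi0 n) (c : ℤ) := by
  rw [Exq.exposed_iff (fun _ => rfl) hc]
  intro i i' hi
  simp only [pi0, Sum.inl.injEq, Fin.ext_iff] at hi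
  split_ifs at hi <;> omega

theorem RR_pi0 : 0 < RR (pi0 n) := by
  classical
  unfold RR
  refine mul_pos (Finset.prod_pos fun _ _ => ?_) (Finset.prod_pos fun k hk => ?_)
  · split_ifs <;> norm_num
  · rw [Finset.mem_range] at hk
    rw [if_pos]
    · norm_num
    · rcases Nat.mod_two_eq_zero_or_one k with h | h
      · left; exact exposed_pi0 hk.le h
      · right
        have := exposed_pi0 (n := n) (c := k + 1) (by omega) (by omega)
        exact_mod_cast this

theorem QQ_one_ne (h : ℤ → Bool) {P : PX (2 * n) → ℝ} (hP0 : ∀ x, 0 ≤ P x)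
    (hpi : 0 < P (xpi n)) : (QQ h 0 P).eval 1 ≠ 0 := by
  rw [QQ_eval]
  have hr : ∀ x : PX (2 * n), (qx h 0 x.1).eval 1 = (RR x.1 : ℂ) := fun x => qx_one h x.2
  simp only [hr]
  have h2 : 0 < ∑ x, P x * RR x.1 :=
    Finset.sum_pos' (fun x _ => mul_nonneg (hP0 x) (RR_nonneg x.1)) ⟨xpi n, Finset.mem_univ _,
      mul_pos hpi RR_pi0⟩
  intro h3
  have : ((∑ x, P x * RR x.1 : ℝ) : ℂ) = 0 := by push_cast; exact h3
  rw [Complex.ofReal_eq_zero] at this
  linarith

end Cont

end Pool.Agent.H21.Stair
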