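import Mathlib
import Pool.Agent.H21.Stair.FE

/-!
# The derivative at the origin
-/

open Filter Topology Polynomial

namespace Pool.Agent.H21.Stair

open Pool.Agent.H65.Perc Pool.Agent.H65.Perc.St Pool.Agent.H21.Perc

/-- the derivative at `0` of a product of linear factors -/
theorem deriv_prod_zero {ι : Type*} (s : Finset ι) (c : ι → ℂ) (hc : ∀ i, c i ≠ 0) :
    (derivative (∏ i ∈ s, (X - C (c i)) : ℂ[X])).eval 0
      = -((∏ i ∈ s, (X - C (c i)) : ℂ[X]).eval 0) * ∑ i ∈ s, (c i)⁻¹ := by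
  classical
  induction s using Finset.induction_on with
  | empty => simp
  | insert i s hi ih =>
    rw [Finset.prod_insert hi, Finset.sum_insert hi, derivative_mul, eval_add, eval_mul, eval_mul,
      eval_mul, ih]
    simp only [derivative_sub, derivative_X, derivative_C, sub_zero, eval_one, eval_sub, eval_X,
      eval_C, zero_sub, one_mul]
    have := hc i
    field_simp

theorem om_inv : om⁻¹ = om ^ 2 := by
  have h : om * om ^ 2 = 1 := by rw [← om_cube]; ring
  exact inv_eq_of_mul_eq_one_right h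

theorem om2_inv : (om ^ 2)⁻¹ = om := by
  have h : om ^ 2 * om = 1 := by rw [← om_cube]; ring
  exact inv_eq_of_mul_eq_one_right h

theorem eps_ne {L : ℕ} (s : St (Lab L)) (k : ℤ) : eps s k ≠ 0 := by
  classical
  unfold eps
  split_ifs
  · exact pow_ne_zero _ om_ne_zero
  · exact om_ne_zero
  · exact one_ne_zero

section

variable {n : ℕ} [NeZero n]

open Classical in
/-- the contribution of an exposed interval to the derivative -/
noncomputable def cc (h : ℤ → Bool) (β : ℝ) (c : ℤ) : ℂ :=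
  (1 - om) * (dk h β (c - 1))⁻¹ + (1 - om ^ 2) * (dk h β c)⁻¹

theorem sum_eps {h : ℤ → Bool} (hp : ∀ k, h (k + ((2 * n : ℕ) : ℤ)) = h k) (β : ℝ)
    {s : St (Lab (2 * n))} (hs : Planar s) :
    ∑ k ∈ Finset.range (2 * n), (dk h β k)⁻¹
      - ∑ k ∈ Finset.range (2 * n), (eps s k * dk h β k)⁻¹
      = ∑ k ∈ Finset.range (2 * n),
        (open Classical in if Exposed s (k : ℤ) then (1 : ℂ) else 0) * cc h β k := by
  classical
  set A : ℤ → ℂ := fun c => (if Exposed s c then (1 : ℂ) else 0) * ((1 - om) * (dk h β (c - 1))⁻¹)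
    with hA
  set B : ℤ → ℂ := fun c => (if Exposed s c then (1 : ℂ) else 0) * ((1 - om ^ 2) * (dk h β c)⁻¹)
    with hB
  have e1 : ∀ k : ℕ, (dk h β k)⁻¹ - (eps s k * dk h β k)⁻¹ = A ((k : ℤ) + 1) + B k := by
    intro k
    rw [hA, hB, mul_inv]
    simp only [add_sub_cancel_right]
    unfold eps
    have hnb := not_both hs k
    by_cases h1 : Exposed s ((k : ℤ) + 1)
    · have h2 : ¬ Exposed s k := fun h => hnb ⟨h, h1⟩
      simp only [h1, h2, if_true, if_false, om2_inv]
      ring
    · by_cases h2 : Exposed s k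
      · simp only [h1, h2, if_true, if_false, om_inv]
        ring
      · simp only [h1, h2, if_false, inv_one]
        ring
  rw [← Finset.sum_sub_distrib]
  simp only [e1]
  rw [Finset.sum_add_distrib]
  have h2 := fsum_shift (L := 2 * n) A (fun k => by
    rw [hA]
    simp only [exposed_per]
    rw [show k + ((2 * n : ℕ) : ℤ) - 1 = (k - 1) + ((2 * n : ℕ) : ℤ) by ring, dk_per hp])
  rw [h2, ← Finset.sum_add_distrib]
  refine Finset.sum_congr rfl (fun k _ => ?_)
  rw [hA, hB]
  simp only [cc]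
  ring

theorem dd_zero_ne (h : ℤ → Bool) (β : ℝ) : (dd n h β).eval 0 ≠ 0 := by
  unfold dd
  simp only [eval_prod, eval_sub, eval_X, eval_C, zero_sub]
  exact Finset.prod_ne_zero_iff.2 (fun k _ => neg_ne_zero.2 (dk_ne_zero h β k))

theorem deriv_QQ {h : ℤ → Bool} (hp : ∀ k, h (k + ((2 * n : ℕ) : ℤ)) = h k) (β : ℝ)
    {P : PX (2 * n) → ℝ} (hP : ∑ x, P x = 1) :
    deriv (fun u => (QQ h β P).eval u / (dd n h β).eval u) 0
      = ∑ k ∈ Finset.range (2 * n),
        ((∑ x, P x * (open Classical in if Exposed x.1 (k : ℤ) then (1 : ℝ) else 0) : ℝ) : ℂ)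
          * cc h β k := by
  classical
  have h0 := dd_zero_ne (n := n) h β
  have hQ := (QQ h β P).hasDerivAt 0
  have hd := (dd n h β).hasDerivAt 0
  have := hQ.fun_div hd h0
  rw [this.deriv, QQ_zero h β hP]
  have e1 : (derivative (dd n h β)).eval 0
      = -((dd n h β).eval 0) * ∑ k ∈ Finset.range (2 * n), (dk h β k)⁻¹ := by
    unfold dd
    exact deriv_prod_zero (Finset.range (2 * n)) (fun k : ℕ => dk h β k) (fun k => dk_ne_zero h β k)
  have e2 : (derivative (QQ h β P)).eval 0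
      = -((dd n h β).eval 0) * ∑ x, (P x : ℂ) * ∑ k ∈ Finset.range (2 * n),
        (eps x.1 k * dk h β k)⁻¹ := by
    unfold QQ
    rw [derivative_sum, eval_finset_sum, Finset.mul_sum]
    refine Finset.sum_congr rfl (fun x _ => ?_)
    rw [derivative_C_mul, eval_mul, eval_C]
    have := deriv_prod_zero (Finset.range (2 * n)) (fun k : ℕ => eps x.1 k * dk h β k)
      (fun k => mul_ne_zero (eps_ne _ _) (dk_ne_zero h β k))
    rw [show derivative (qx h β x.1) = derivative (∏ k ∈ Finset.range (2 * n),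
      (X - C (eps x.1 k * dk h β k)) : ℂ[X]) from rfl, this]
    rw [show eval 0 (∏ k ∈ Finset.range (2 * n), (X - C (eps x.1 k * dk h β k)) : ℂ[X])
      = (qx h β x.1).eval 0 from rfl, qx_zero h β x.2]
    ring
  rw [e1, e2]
  have e3 : (-((dd n h β).eval 0) * ∑ x, (P x : ℂ) * ∑ k ∈ Finset.range (2 * n),
        (eps x.1 k * dk h β k)⁻¹) * (dd n h β).eval 0 - (dd n h β).eval 0 *
        (-((dd n h β).eval 0) * ∑ k ∈ Finset.range (2 * n), (dk h β k)⁻¹)
      = (dd n h β).eval 0 ^ 2 * (∑ x, (P x : ℂ) * (∑ k ∈ Finset.range (2 * n), (dk h β k)⁻¹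
        - ∑ k ∈ Finset.range (2 * n), (eps x.1 k * dk h β k)⁻¹)) := by
    have h2 : (∑ x, ((P x : ℝ) : ℂ)) = 1 := by exact_mod_cast hP
    simp only [mul_sub, Finset.sum_sub_distrib]
    rw [← Finset.sum_mul, h2]
    ring
  rw [e3, mul_div_cancel_left₀ _ (pow_ne_zero 2 h0)]
  simp only [sum_eps hp β (Subtype.prop _)]
  simp only [Finset.mul_sum]
  rw [Finset.sum_comm]
  refine Finset.sum_congr rfl (fun k _ => ?_)
  push_cast
  rw [Finset.sum_mul]
  refine Finset.sum_congr rfl (fun x _ => ?_)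
  split_ifs <;> push_cast <;> ring

end

end Pool.Agent.H21.Stair
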