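import Mathlib
import Pool.Agent.H21.Stair.Basic

/-!
# Exact pole orders by homotopy in the parameter
-/

namespace Pool.Agent.H21.Stair.HomotopyAux

open Polynomial Filter Topology

/-- The lower bound of `two_sided` along a ray through the critical point excludes a zero of `Q`
at the pole. -/
theorem order_contra {a b : ℕ} (ha : 1 ≤ a) {Q : ℂ[X]} {p q sp sq w w' v₁ : ℂ}
    (hw : w * v₁ ^ 2 = p) (hw0 : w ≠ 0) (hv0 : v₁ ≠ 0) (hv3 : v₁ ^ 3 = -sp)
    (hpq : p ≠ q) (h1 : v₁ ^ 3 ≠ sp) (h2 : v₁ ^ 3 ≠ sq) (h3 : w' * v₁ ^ 2 ≠ p)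
    (h4 : w' * v₁ ^ 2 ≠ q) (hQ : Q.eval p = 0)
    (hle : ∀ t : ℝ, 0 < t → ∀ v : ℂ, v = t * v₁ →
      ‖v ^ 3 - sp‖ ^ a * ‖v ^ 3 - sq‖ ^ b *
          ‖((w' * v ^ 2 - p) ^ a * (w' * v ^ 2 - q) ^ b) *
            ((w * v ^ 2 - p) ^ a * (w * v ^ 2 - q) ^ b)‖
        ≤ ‖Q.eval (w' * v ^ 2) * ((w * v ^ 2 - p) ^ a * (w * v ^ 2 - q) ^ b)
            + Q.eval (w * v ^ 2) * ((w' * v ^ 2 - p) ^ a * (w' * v ^ 2 - q) ^ b)‖
          * (‖v ^ 3 + sp‖ ^ a * ‖v ^ 3 + sq‖ ^ b)) : False := by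
  obtain ⟨Q1, hQ1⟩ : (X - C p) ∣ Q := by
    rw [dvd_iff_isRoot]; exact hQ
  obtain ⟨m, rfl⟩ : ∃ m, a = m + 1 := ⟨a - 1, by omega⟩
  -- the factorisations
  set L1 : ℂ → ℂ := fun v => (v ^ 3 - sp) ^ (m + 1) * (v ^ 3 - sq) ^ b *
    (((w' * v ^ 2 - p) ^ (m + 1) * (w' * v ^ 2 - q) ^ b) *
      ((w * (v + v₁)) ^ (m + 1) * (w * v ^ 2 - q) ^ b)) with hL1
  set R1 : ℂ → ℂ := fun v => (Q.eval (w' * v ^ 2) *
      ((v - v₁) ^ m * (w * (v + v₁)) ^ (m + 1) * (w * v ^ 2 - q) ^ b)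
      + (w * (v + v₁)) * Q1.eval (w * v ^ 2) *
        ((w' * v ^ 2 - p) ^ (m + 1) * (w' * v ^ 2 - q) ^ b))
      * ((v ^ 2 + v * v₁ + v₁ ^ 2) ^ (m + 1) * (v ^ 3 + sq) ^ b) with hR1
  have e1 : ∀ v : ℂ, w * v ^ 2 - p = (v - v₁) * (w * (v + v₁)) := by
    intro v; rw [← hw]; ring
  have e2 : ∀ v : ℂ, v ^ 3 + sp = (v - v₁) * (v ^ 2 + v * v₁ + v₁ ^ 2) := by
    intro v
    have : sp = - v₁ ^ 3 := by rw [hv3]; ring
    rw [this]; ring
  have e3 : ∀ v : ℂ, Q.eval (w * v ^ 2) = (v - v₁) * (w * (v + v₁)) * Q1.eval (w * v ^ 2) := by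
    intro v
    rw [hQ1, eval_mul, eval_sub, eval_X, eval_C, e1]
  have key : ∀ t : ℝ, 0 < t → t ≠ 1 → ‖L1 (t * v₁)‖ ≤ ‖(t : ℂ) * v₁ - v₁‖ * ‖R1 (t * v₁)‖ := by
    intro t ht ht1
    set v : ℂ := t * v₁ with hv
    have hvne : v - v₁ ≠ 0 := by
      intro h
      have : ((t : ℂ) - 1) * v₁ = 0 := by rw [← h, hv]; ring
      rcases mul_eq_zero.1 this with h' | h'
      · apply ht1
        have : (t : ℂ) = 1 := sub_eq_zero.1 h'
        exact_mod_cast this
      · exact hv0 h'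
    have hpos : 0 < ‖v - v₁‖ ^ (m + 1) := by positivity
    have h := hle t ht v hv
    have hl : ‖v ^ 3 - sp‖ ^ (m + 1) * ‖v ^ 3 - sq‖ ^ b *
          ‖((w' * v ^ 2 - p) ^ (m + 1) * (w' * v ^ 2 - q) ^ b) *
            ((w * v ^ 2 - p) ^ (m + 1) * (w * v ^ 2 - q) ^ b)‖
          = ‖v - v₁‖ ^ (m + 1) * ‖L1 v‖ := by
      rw [← norm_pow, ← norm_pow, ← norm_pow, ← norm_mul, ← norm_mul, ← norm_mul]
      congr 1
      rw [e1 v, hL1]
      simp only [mul_pow]
      ring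
    have hr : ‖Q.eval (w' * v ^ 2) * ((w * v ^ 2 - p) ^ (m + 1) * (w * v ^ 2 - q) ^ b)
            + Q.eval (w * v ^ 2) * ((w' * v ^ 2 - p) ^ (m + 1) * (w' * v ^ 2 - q) ^ b)‖
          * (‖v ^ 3 + sp‖ ^ (m + 1) * ‖v ^ 3 + sq‖ ^ b)
          = ‖v - v₁‖ ^ (m + 1) * (‖v - v₁‖ * ‖R1 v‖) := by
      rw [← norm_pow, ← norm_pow, ← norm_pow, ← norm_mul, ← norm_mul, ← norm_mul, ← norm_mul]
      congr 1
      rw [e1 v, e2 v, e3 v, hR1]
      simp only [mul_pow]
      ring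
    rw [hl, hr] at h
    exact le_of_mul_le_mul_left h hpos
  -- pass to the limit
  have hL1c : Continuous L1 := by
    rw [hL1]; fun_prop
  have hR1c : Continuous R1 := by
    rw [hR1]; fun_prop
  have hc : Continuous (fun t : ℝ => (t : ℂ) * v₁) := by fun_prop
  have t1 : Tendsto (fun t : ℝ => ‖L1 (t * v₁)‖) (𝓝[≠] 1) (𝓝 ‖L1 v₁‖) := by
    have : Tendsto (fun t : ℝ => ‖L1 (t * v₁)‖) (𝓝 1) (𝓝 ‖L1 (((1 : ℝ) : ℂ) * v₁)‖) :=
      ((hL1c.comp hc).norm).tendsto 1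
    rw [Complex.ofReal_one, one_mul] at this
    exact this.mono_left nhdsWithin_le_nhds
  have t2 : Tendsto (fun t : ℝ => ‖(t : ℂ) * v₁ - v₁‖ * ‖R1 (t * v₁)‖) (𝓝[≠] 1) (𝓝 0) := by
    have : Tendsto (fun t : ℝ => ‖(t : ℂ) * v₁ - v₁‖ * ‖R1 (t * v₁)‖) (𝓝 1)
        (𝓝 (‖((1 : ℝ) : ℂ) * v₁ - v₁‖ * ‖R1 (((1 : ℝ) : ℂ) * v₁)‖)) :=
      (((hc.sub continuous_const).norm).mul ((hR1c.comp hc).norm)).tendsto 1
    rw [Complex.ofReal_one, one_mul, sub_self, norm_zero, zero_mul] at this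
    exact this.mono_left nhdsWithin_le_nhds
  have h5 : ‖L1 v₁‖ ≤ 0 := by
    refine le_of_tendsto_of_tendsto t1 t2 ?_
    filter_upwards [self_mem_nhdsWithin, nhdsWithin_le_nhds (lt_mem_nhds (zero_lt_one))]
      with t ht ht0
    exact key t ht0 ht
  have h6 : L1 v₁ = 0 := by simpa using h5
  revert h6
  rw [hL1]
  have h7 : w * v₁ ^ 2 - q ≠ 0 := by rw [hw]; exact sub_ne_zero.2 hpq
  have h8 : w * (v₁ + v₁) ≠ 0 := by
    rw [← two_mul]
    exact mul_ne_zero hw0 (mul_ne_zero two_ne_zero hv0)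
  have h9 := sub_ne_zero.2 h1
  have h10 := sub_ne_zero.2 h2
  have h11 := sub_ne_zero.2 h3
  have h12 := sub_ne_zero.2 h4
  simp only [ne_eq, pow_ne_zero, h7, h8, h9, h10, h11, h12, not_false_eq_true,
    mul_eq_zero, or_self, IsEmpty.forall_iff]

theorem den_eval (β : ℝ) (a b : ℕ) (x : ℂ) :
    (den β a b).eval x = (x - dH β) ^ a * (x - dV β) ^ b := by
  simp [den]

theorem om_eq_exp : om = Complex.exp (2 * Real.pi / 3 * Complex.I) := by
  have h1 : (2 * Real.pi / 3 * Complex.I : ℂ) = ((2 * Real.pi / 3 : ℝ) : ℂ) * Complex.I := by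
    push_cast; ring
  rw [h1, Complex.exp_mul_I, ← Complex.ofReal_cos, ← Complex.ofReal_sin]
  have h2 : (2 * Real.pi / 3 : ℝ) = Real.pi - Real.pi / 3 := by ring
  rw [h2, Real.cos_pi_sub, Real.sin_pi_sub, Real.cos_pi_div_three, Real.sin_pi_div_three]
  apply Complex.ext
  · simp [om]; norm_num
  · simp [om]

/-- the exponentials with an angle that is no multiple of `2 pi` are not `1` -/
theorem exp_ne_one {x : ℝ} (h1 : 0 < x) (h2 : x < 2 * Real.pi) :
    Complex.exp (x * Complex.I) ≠ 1 := by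
  intro h
  rw [Complex.exp_eq_one_iff] at h
  obtain ⟨n, hn⟩ := h
  have h3 : (x : ℂ) = n * (2 * Real.pi) := by
    have : (x : ℂ) * Complex.I = (n * (2 * Real.pi)) * Complex.I := by rw [hn]; ring
    exact mul_right_cancel₀ Complex.I_ne_zero this
  have h4 : x = n * (2 * Real.pi) := by exact_mod_cast h3
  have hpi := Real.pi_pos
  have h5 : (0 : ℝ) < n := by
    by_contra hcon
    push Not at hcon
    nlinarith
  have h6 : (n : ℝ) < 1 := by
    by_contra hcon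
    push Not at hcon
    nlinarith
  have h7 : 0 < n := by exact_mod_cast h5
  have h8 : n < 1 := by exact_mod_cast h6
  omega

theorem exp_ne_exp {x y : ℝ} (h1 : y < x) (h2 : x - y < 2 * Real.pi) :
    Complex.exp (x * Complex.I) ≠ Complex.exp (y * Complex.I) := by
  intro h
  apply exp_ne_one (x := x - y) (by linarith) h2
  push_cast
  rw [sub_mul, Complex.exp_sub, h, div_self (Complex.exp_ne_zero _)]

theorem om_sq_eq_exp : om ^ 2 = Complex.exp (((4 * Real.pi / 3 : ℝ) : ℂ) * Complex.I) := by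
  rw [om_eq_exp, ← Complex.exp_nat_mul]
  congr 1; push_cast; ring

theorem om_eq_exp' : om = Complex.exp (((2 * Real.pi / 3 : ℝ) : ℂ) * Complex.I) := by
  rw [om_eq_exp]
  congr 1; push_cast; ring

theorem dH_eq_exp (β : ℝ) : dH β = Complex.exp (((-β : ℝ) : ℂ) * Complex.I) := by
  rw [dH]; congr 1; push_cast; ring

theorem dV_eq_exp (β : ℝ) : dV β = Complex.exp (((β : ℝ) : ℂ) * Complex.I) := by
  rw [dV]

theorem sH_eq_exp (β : ℝ) : sH β = Complex.exp (((-(3 / 2 * β) : ℝ) : ℂ) * Complex.I) := by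
  rw [sH]; congr 1; push_cast; ring

theorem sV_eq_exp (β : ℝ) : sV β = Complex.exp (((3 / 2 * β : ℝ) : ℂ) * Complex.I) := by
  rw [sV]; congr 1; push_cast; ring

theorem exp_mul_exp (x y : ℝ) : Complex.exp ((x : ℂ) * Complex.I) * Complex.exp ((y : ℂ) * Complex.I)
    = Complex.exp (((x + y : ℝ) : ℂ) * Complex.I) := by
  rw [← Complex.exp_add]; congr 1; push_cast; ring

theorem exp_pow_real (x : ℝ) (n : ℕ) : Complex.exp ((x : ℂ) * Complex.I) ^ n
    = Complex.exp (((n * x : ℝ) : ℂ) * Complex.I) := by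
  rw [← Complex.exp_nat_mul]; congr 1; push_cast; ring

theorem neg_exp (x : ℝ) : -Complex.exp ((x : ℂ) * Complex.I)
    = Complex.exp (((x + Real.pi : ℝ) : ℂ) * Complex.I) := by
  rw [← exp_mul_exp, Complex.exp_pi_mul_I]; ring

theorem exp_eq_exp_sub (x : ℝ) : Complex.exp ((x : ℂ) * Complex.I)
    = Complex.exp (((x - 2 * Real.pi : ℝ) : ℂ) * Complex.I) := by
  push_cast
  rw [sub_mul, Complex.exp_sub, Complex.exp_two_pi_mul_I, div_one]

theorem KK_exp {t θ : ℝ} (ht : 0 < t) (hθ : |θ| ≤ Real.pi / 3) :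
    (t : ℂ) * Complex.exp ((θ : ℂ) * Complex.I) ∈ KK := by
  have hpi := Real.pi_pos
  rw [abs_le] at hθ
  have h1 : 0 ≤ Real.sin (Real.pi / 3 - θ) :=
    Real.sin_nonneg_of_nonneg_of_le_pi (by linarith [hθ.2]) (by linarith [hθ.1])
  have h2 : 0 ≤ Real.sin (Real.pi / 3 + θ) :=
    Real.sin_nonneg_of_nonneg_of_le_pi (by linarith [hθ.1]) (by linarith [hθ.2])
  rw [Real.sin_sub, Real.sin_pi_div_three, Real.cos_pi_div_three] at h1
  rw [Real.sin_add, Real.sin_pi_div_three, Real.cos_pi_div_three] at h2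
  have hre : ((t : ℂ) * Complex.exp ((θ : ℂ) * Complex.I)).re = t * Real.cos θ := by
    rw [Complex.re_ofReal_mul, Complex.exp_ofReal_mul_I_re]
  have him : ((t : ℂ) * Complex.exp ((θ : ℂ) * Complex.I)).im = t * Real.sin θ := by
    rw [Complex.im_ofReal_mul, Complex.exp_ofReal_mul_I_im]
  show |((t : ℂ) * Complex.exp ((θ : ℂ) * Complex.I)).im| ≤
    Real.sqrt 3 * ((t : ℂ) * Complex.exp ((θ : ℂ) * Complex.I)).re
  rw [hre, him, abs_le]
  constructor
  · nlinarith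
  · nlinarith

/-- the lower bound of `two_sided` excludes a zero at the horizontal pole -/
theorem no_zero_H {β : ℝ} (hβ0 : 0 < β) (hβ : β ≤ Real.pi / 6) {a b : ℕ} (ha : 1 ≤ a) {Q : ℂ[X]}
    (hQ : Q.eval (dH β) = 0)
    (hle : ∀ v ∈ KK, ‖v ^ 3 - sH β‖ ^ a * ‖v ^ 3 - sV β‖ ^ b *
          ‖(den β a b).eval (om * v ^ 2) * (den β a b).eval (om ^ 2 * v ^ 2)‖
        ≤ ‖Q.eval (om * v ^ 2) * (den β a b).eval (om ^ 2 * v ^ 2)
            + Q.eval (om ^ 2 * v ^ 2) * (den β a b).eval (om * v ^ 2)‖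
          * (‖v ^ 3 + sH β‖ ^ a * ‖v ^ 3 + sV β‖ ^ b)) : False := by
  have hpi := Real.pi_pos
  have hom := om_sq_eq_exp
  have hom1 := om_eq_exp'
  refine order_contra ha (b := b) (p := dH β) (q := dV β) (sp := sH β) (sq := sV β) (w := om ^ 2)
    (w' := om) (v₁ := Complex.exp (((Real.pi / 3 - β / 2 : ℝ) : ℂ) * Complex.I))
    ?_ (pow_ne_zero _ om_ne_zero) (Complex.exp_ne_zero _) ?_ ?_ ?_ ?_ ?_ ?_ hQ ?_
  · rw [hom, exp_pow_real, exp_mul_exp, dH_eq_exp, exp_eq_exp_sub]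
    congr 3; push_cast; ring
  · rw [exp_pow_real, sH_eq_exp, neg_exp]
    congr 3; push_cast; ring
  · rw [dH_eq_exp, dV_eq_exp]
    exact (exp_ne_exp (by linarith) (by linarith)).symm
  · rw [exp_pow_real, sH_eq_exp]
    refine exp_ne_exp ?_ ?_ <;> push_cast <;> linarith
  · rw [exp_pow_real, sV_eq_exp]
    refine exp_ne_exp ?_ ?_ <;> push_cast <;> linarith
  · rw [hom1, exp_pow_real, exp_mul_exp, dH_eq_exp]
    refine exp_ne_exp ?_ ?_ <;> push_cast <;> linarith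
  · rw [hom1, exp_pow_real, exp_mul_exp, dV_eq_exp]
    refine exp_ne_exp ?_ ?_ <;> push_cast <;> linarith
  · intro t ht v hv
    have hv' : v ∈ KK := by
      rw [hv]
      apply KK_exp ht
      rw [abs_le]; constructor <;> linarith
    have := hle v hv'
    simpa only [den_eval] using this

/-- the lower bound of `two_sided` excludes a zero at the vertical pole -/
theorem no_zero_V {β : ℝ} (hβ0 : 0 < β) (hβ : β ≤ Real.pi / 6) {a b : ℕ} (hb : 1 ≤ b) {Q : ℂ[X]}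
    (hQ : Q.eval (dV β) = 0)
    (hle : ∀ v ∈ KK, ‖v ^ 3 - sH β‖ ^ a * ‖v ^ 3 - sV β‖ ^ b *
          ‖(den β a b).eval (om * v ^ 2) * (den β a b).eval (om ^ 2 * v ^ 2)‖
        ≤ ‖Q.eval (om * v ^ 2) * (den β a b).eval (om ^ 2 * v ^ 2)
            + Q.eval (om ^ 2 * v ^ 2) * (den β a b).eval (om * v ^ 2)‖
          * (‖v ^ 3 + sH β‖ ^ a * ‖v ^ 3 + sV β‖ ^ b)) : False := by
  have hpi := Real.pi_pos
  have hom := om_sq_eq_exp
  have hom1 := om_eq_exp'
  refine order_contra hb (b := a) (p := dV β) (q := dH β) (sp := sV β) (sq := sH β) (w := om)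
    (w' := om ^ 2) (v₁ := Complex.exp (((-(Real.pi / 3 - β / 2) : ℝ) : ℂ) * Complex.I))
    ?_ om_ne_zero (Complex.exp_ne_zero _) ?_ ?_ ?_ ?_ ?_ ?_ hQ ?_
  · rw [hom1, exp_pow_real, exp_mul_exp, dV_eq_exp]
    congr 3; push_cast; ring
  · rw [exp_pow_real, sV_eq_exp, neg_exp, exp_eq_exp_sub (3 / 2 * β + Real.pi)]
    congr 3; push_cast; ring
  · rw [dH_eq_exp, dV_eq_exp]
    exact (exp_ne_exp (by linarith) (by linarith))
  · rw [exp_pow_real, sV_eq_exp]
    refine (exp_ne_exp ?_ ?_).symm <;> push_cast <;> linarith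
  · rw [exp_pow_real, sH_eq_exp]
    refine (exp_ne_exp ?_ ?_).symm <;> push_cast <;> linarith
  · rw [hom, exp_pow_real, exp_mul_exp, dV_eq_exp]
    refine exp_ne_exp ?_ ?_ <;> push_cast <;> linarith
  · rw [hom, exp_pow_real, exp_mul_exp, dH_eq_exp]
    refine exp_ne_exp ?_ ?_ <;> push_cast <;> linarith
  · intro t ht v hv
    have hv' : v ∈ KK := by
      rw [hv]
      apply KK_exp ht
      rw [abs_le]; constructor <;> linarith
    have := hle v hv'
    simp only [den_eval] at this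
    calc ‖v ^ 3 - sV β‖ ^ b * ‖v ^ 3 - sH β‖ ^ a *
          ‖((om ^ 2 * v ^ 2 - dV β) ^ b * (om ^ 2 * v ^ 2 - dH β) ^ a) *
            ((om * v ^ 2 - dV β) ^ b * (om * v ^ 2 - dH β) ^ a)‖
        = ‖v ^ 3 - sH β‖ ^ a * ‖v ^ 3 - sV β‖ ^ b *
          ‖((om * v ^ 2 - dH β) ^ a * (om * v ^ 2 - dV β) ^ b) *
            ((om ^ 2 * v ^ 2 - dH β) ^ a * (om ^ 2 * v ^ 2 - dV β) ^ b)‖ := by
          rw [mul_comm (‖v ^ 3 - sV β‖ ^ b)]
          congr 2; ring
      _ ≤ _ := this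
      _ = _ := by
          rw [mul_comm (‖v ^ 3 + sH β‖ ^ a)]
          congr 2; ring

/-- The homotopy argument, with the lower bound of `two_sided` as a hypothesis. -/
theorem homotopy_of_lower {a b : ℕ}
    (lower : ∀ {β : ℝ}, 0 < β → β ≤ Real.pi / 6 → ∀ {Q : ℂ[X]}, Good β a b Q →
      (a = 0 ∨ Q.eval (dH β) ≠ 0) → (b = 0 ∨ Q.eval (dV β) ≠ 0) → ∀ v ∈ KK,
      ‖v ^ 3 - sH β‖ ^ a * ‖v ^ 3 - sV β‖ ^ b *
          ‖(den β a b).eval (om * v ^ 2) * (den β a b).eval (om ^ 2 * v ^ 2)‖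
        ≤ ‖Q.eval (om * v ^ 2) * (den β a b).eval (om ^ 2 * v ^ 2)
            + Q.eval (om ^ 2 * v ^ 2) * (den β a b).eval (om * v ^ 2)‖
          * (‖v ^ 3 + sH β‖ ^ a * ‖v ^ 3 + sV β‖ ^ b))
    {Q : ℝ → ℂ[X]} {β₁ : ℝ} (hβ₁ : 0 < β₁) (hβ₁' : β₁ ≤ Real.pi / 6)
    (hcont : ∀ k, ContinuousOn (fun β => (Q β).coeff k) (Set.Icc 0 β₁))
    (hQ : ∀ β ∈ Set.Ioc 0 β₁, Good β a b (Q β)) (hdeg0 : (Q 0).natDegree ≤ a + b)
    (h0 : (Q 0).eval 1 ≠ 0) :
    (a = 0 ∨ (Q β₁).eval (dH β₁) ≠ 0) ∧ (b = 0 ∨ (Q β₁).eval (dV β₁) ≠ 0) := by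
  have hdeg : ∀ β ∈ Set.Icc 0 β₁, (Q β).natDegree ≤ a + b := by
    intro β hβ
    rcases eq_or_lt_of_le hβ.1 with h | h
    · rw [← h]; exact hdeg0
    · exact (hQ β ⟨h, hβ.2⟩).deg
  have hev : ∀ g : ℝ → ℂ, Continuous g →
      ContinuousOn (fun β => (Q β).eval (g β)) (Set.Icc 0 β₁) := by
    intro g hg
    have h1 : ContinuousOn (fun β => ∑ k ∈ Finset.range (a + b + 1), (Q β).coeff k * g β ^ k)
        (Set.Icc 0 β₁) := by
      refine continuousOn_finsetSum _ (fun k _ => ?_)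
      exact (hcont k).mul (hg.pow k).continuousOn
    refine h1.congr (fun β hβ => ?_)
    exact eval_eq_sum_range' (lt_of_le_of_lt (hdeg β hβ) (Nat.lt_succ_self _)) _
  have cdH : Continuous dH := by unfold dH; fun_prop
  have cdV : Continuous dV := by unfold dV; fun_prop
  have csH : Continuous sH := by unfold sH; fun_prop
  have csV : Continuous sV := by unfold sV; fun_prop
  have hden : ∀ x : ℂ, Continuous (fun β => (den β a b).eval x) := by
    intro x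
    simp only [den_eval]
    exact ((continuous_const.sub cdH).pow a).mul ((continuous_const.sub cdV).pow b)
  set P : ℝ → Prop := fun β => (a = 0 ∨ (Q β).eval (dH β) ≠ 0) ∧ (b = 0 ∨ (Q β).eval (dV β) ≠ 0)
    with hP
  have hP0 : P 0 := by
    have e1 : dH 0 = 1 := by simp [dH]
    have e2 : dV 0 = 1 := by simp [dV]
    refine ⟨Or.inr ?_, Or.inr ?_⟩
    · rw [e1]; exact h0
    · rw [e2]; exact h0
  have hsub : Set.Icc (0 : ℝ) β₁ ⊆ {β | P β} := by
    refine IsClosed.Icc_subset_of_forall_exists_gt ?_ hP0 ?_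
    · -- closedness
      refine isClosed_of_closure_subset ?_
      intro β hβ
      obtain ⟨u, hu, hlim⟩ := mem_closure_iff_seq_limit.1 hβ
      have hmem : β ∈ Set.Icc (0 : ℝ) β₁ :=
        isClosed_Icc.mem_of_tendsto hlim (Eventually.of_forall (fun k => (hu k).2))
      refine ⟨?_, hmem⟩
      rcases eq_or_lt_of_le hmem.1 with h | h
      · rw [← h]; exact hP0
      · have hlim' : Tendsto u atTop (𝓝[Set.Icc 0 β₁] β) :=
          tendsto_nhdsWithin_iff.2 ⟨hlim, Eventually.of_forall (fun k => (hu k).2)⟩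
        have hineq : ∀ v ∈ KK, ‖v ^ 3 - sH β‖ ^ a * ‖v ^ 3 - sV β‖ ^ b *
          ‖(den β a b).eval (om * v ^ 2) * (den β a b).eval (om ^ 2 * v ^ 2)‖
        ≤ ‖(Q β).eval (om * v ^ 2) * (den β a b).eval (om ^ 2 * v ^ 2)
            + (Q β).eval (om ^ 2 * v ^ 2) * (den β a b).eval (om * v ^ 2)‖
          * (‖v ^ 3 + sH β‖ ^ a * ‖v ^ 3 + sV β‖ ^ b) := by
          intro v hv
          have c1 : ContinuousOn (fun β => ‖v ^ 3 - sH β‖ ^ a * ‖v ^ 3 - sV β‖ ^ b *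
              ‖(den β a b).eval (om * v ^ 2) * (den β a b).eval (om ^ 2 * v ^ 2)‖)
              (Set.Icc 0 β₁) := by
            apply Continuous.continuousOn
            exact ((((continuous_const.sub csH).norm).pow a).mul
              (((continuous_const.sub csV).norm).pow b)).mul ((hden _).mul (hden _)).norm
          have c2 : ContinuousOn (fun β => ‖(Q β).eval (om * v ^ 2) *
                (den β a b).eval (om ^ 2 * v ^ 2)
              + (Q β).eval (om ^ 2 * v ^ 2) * (den β a b).eval (om * v ^ 2)‖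
              * (‖v ^ 3 + sH β‖ ^ a * ‖v ^ 3 + sV β‖ ^ b)) (Set.Icc 0 β₁) := by
            refine ContinuousOn.mul (ContinuousOn.norm (ContinuousOn.add ?_ ?_)) ?_
            · exact (hev (fun _ => om * v ^ 2) continuous_const).mul (hden _).continuousOn
            · exact (hev (fun _ => om ^ 2 * v ^ 2) continuous_const).mul (hden _).continuousOn
            · apply Continuous.continuousOn
              exact (((continuous_const.add csH).norm).pow a).mul
                (((continuous_const.add csV).norm).pow b)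
          refine le_of_tendsto_of_tendsto ((c1 β hmem).tendsto.comp hlim')
            ((c2 β hmem).tendsto.comp hlim') ?_
          filter_upwards [hlim.eventually (lt_mem_nhds h)] with k hk
          have hk1 : u k ∈ Set.Ioc 0 β₁ := ⟨hk, (hu k).2.2⟩
          have hk2 : P (u k) := (hu k).1
          exact lower hk (hk1.2.trans hβ₁') (hQ _ hk1) hk2.1 hk2.2 v hv
        have hβ' : β ≤ Real.pi / 6 := hmem.2.trans hβ₁'
        constructor
        · by_contra hcon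
          push Not at hcon
          exact no_zero_H h hβ' (Nat.one_le_iff_ne_zero.2 hcon.1) hcon.2 hineq
        · by_contra hcon
          push Not at hcon
          exact no_zero_V h hβ' (Nat.one_le_iff_ne_zero.2 hcon.1) hcon.2 hineq
    · -- openness to the right
      intro x hx y hy
      have hx1 : x ∈ Set.Icc (0 : ℝ) β₁ := ⟨hx.2.1, hx.2.2.le⟩
      have hxP : P x := hx.1
      have hle1 : 𝓝[>] x ≤ 𝓝[Set.Icc 0 β₁] x := by
        refine nhdsWithin_le_of_mem ?_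
        filter_upwards [Ioo_mem_nhdsGT hx.2.2] with z hz
        exact ⟨hx.2.1.trans hz.1.le, hz.2.le⟩
      have h1 : ∀ᶠ z in 𝓝[>] x, P z := by
        have e1 : ∀ᶠ z in 𝓝[>] x, (a = 0 ∨ (Q z).eval (dH z) ≠ 0) := by
          rcases hxP.1 with h | h
          · exact Eventually.of_forall (fun _ => Or.inl h)
          · have := ((hev dH cdH) x hx1).tendsto.mono_left hle1
            filter_upwards [this.eventually_ne h] with z hz using Or.inr hz
        have e2 : ∀ᶠ z in 𝓝[>] x, (b = 0 ∨ (Q z).eval (dV z) ≠ 0) := by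
          rcases hxP.2 with h | h
          · exact Eventually.of_forall (fun _ => Or.inl h)
          · have := ((hev dV cdV) x hx1).tendsto.mono_left hle1
            filter_upwards [this.eventually_ne h] with z hz using Or.inr hz
        filter_upwards [e1, e2] with z h1 h2 using ⟨h1, h2⟩
      have h2 : ∀ᶠ z in 𝓝[>] x, z ∈ Set.Ioc x y := Ioc_mem_nhdsGT hy
      obtain ⟨z, hz⟩ := (h1.and h2).exists
      exact ⟨z, hz⟩
  exact hsub (Set.right_mem_Icc.2 hβ₁.le)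

end Pool.Agent.H21.Stair.HomotopyAux
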