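import Pool.Agent.H21.Stair.PL

open Filter Topology Complex Polynomial

namespace Pool.Agent.H21.Stair

/-! ### The sectors -/

theorem re_nonneg_of_KK {v : ℂ} (hv : v ∈ KK) : 0 ≤ v.re := by
  have h : |v.im| ≤ Real.sqrt 3 * v.re := hv
  have hs3 : 0 < Real.sqrt 3 := Real.sqrt_pos.2 (by norm_num)
  exact nonneg_of_mul_nonneg_right ((abs_nonneg _).trans h) hs3

theorem KK_lower {v : ℂ} (hv : v ∈ KK) (him : v.im ≤ 0) : om ^ 2 * v ^ 2 ∈ SS := by
  have h : |v.im| ≤ Real.sqrt 3 * v.re := hv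
  have hre := re_nonneg_of_KK hv
  rw [abs_of_nonpos him] at h
  have hs := sqrt3_sq
  have hs3 : 0 < Real.sqrt 3 := Real.sqrt_pos.2 (by norm_num)
  have e1 : (om ^ 2 * v ^ 2).re = -(1 / 2) * (v.re ^ 2 - v.im ^ 2) + Real.sqrt 3 * v.re * v.im := by
    rw [om_sq, sq]; simp only [Complex.mul_re, Complex.mul_im]; ring
  have e2 : (om ^ 2 * v ^ 2).im = -(v.re * v.im) - Real.sqrt 3 / 2 * (v.re ^ 2 - v.im ^ 2) := by
    rw [om_sq, sq]; simp only [Complex.mul_re, Complex.mul_im]; ring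
  unfold SS
  rw [Set.mem_ofPred_eq, e1, e2, abs_le]
  have k1 : 0 ≤ (Real.sqrt 3 * v.re + v.im) * (v.re - Real.sqrt 3 * v.im) :=
    mul_nonneg (by linarith) (by nlinarith)
  have k2 : v.re * v.im ≤ 0 := mul_nonpos_of_nonneg_of_nonpos hre him
  constructor
  · nlinarith
  · nlinarith

theorem KK_upper {v : ℂ} (hv : v ∈ KK) (him : 0 ≤ v.im) : om * v ^ 2 ∈ SS := by
  have h : |v.im| ≤ Real.sqrt 3 * v.re := hv
  have hre := re_nonneg_of_KK hv
  rw [abs_of_nonneg him] at h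
  have hs := sqrt3_sq
  have hs3 : 0 < Real.sqrt 3 := Real.sqrt_pos.2 (by norm_num)
  have e1 : (om * v ^ 2).re = -(1 / 2) * (v.re ^ 2 - v.im ^ 2) - Real.sqrt 3 * v.re * v.im := by
    unfold om; rw [sq]; simp only [Complex.mul_re, Complex.mul_im]; ring
  have e2 : (om * v ^ 2).im = -(v.re * v.im) + Real.sqrt 3 / 2 * (v.re ^ 2 - v.im ^ 2) := by
    unfold om; rw [sq]; simp only [Complex.mul_re, Complex.mul_im]; ring
  unfold SS
  rw [Set.mem_ofPred_eq, e1, e2, abs_le]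
  have k1 : 0 ≤ (Real.sqrt 3 * v.re - v.im) * (v.re + Real.sqrt 3 * v.im) :=
    mul_nonneg (by linarith) (by nlinarith)
  have k2 : 0 ≤ v.re * v.im := mul_nonneg hre him
  constructor
  · nlinarith
  · nlinarith

theorem KK_turn {v : ℂ} (hv : v ∈ KK) (him : v.im ≤ 0) : -(om ^ 2) * v ∈ KK := by
  have h : |v.im| ≤ Real.sqrt 3 * v.re := hv
  have hre := re_nonneg_of_KK hv
  rw [abs_of_nonpos him] at h
  have hs := sqrt3_sq
  have hs3 : 0 < Real.sqrt 3 := Real.sqrt_pos.2 (by norm_num)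
  have e1 : (-(om ^ 2) * v).re = 1 / 2 * v.re - Real.sqrt 3 / 2 * v.im := by
    rw [om_sq]; simp only [Complex.mul_re, Complex.neg_re, Complex.neg_im]; ring
  have e2 : (-(om ^ 2) * v).im = 1 / 2 * v.im + Real.sqrt 3 / 2 * v.re := by
    rw [om_sq]; simp only [Complex.mul_im, Complex.neg_re, Complex.neg_im]; ring
  unfold KK
  rw [Set.mem_ofPred_eq, e1, e2, abs_le]
  constructor
  · nlinarith
  · nlinarith

/-- `y` is close to the positive real axis -/
def Near (y : ℂ) : Prop := Real.sqrt 3 * |y.im| < y.re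

theorem Near.re_pos {y : ℂ} (hy : Near y) : 0 < y.re := by
  have hs3 : 0 ≤ Real.sqrt 3 := Real.sqrt_nonneg _
  exact (mul_nonneg hs3 (abs_nonneg _)).trans_lt hy

theorem Near.add_ne {y v : ℂ} (hy : Near y) (hv : v ∈ KK) : v + y ≠ 0 := by
  intro h
  have h1 := congrArg Complex.re h
  simp only [Complex.add_re, Complex.zero_re] at h1
  have := hy.re_pos
  have := re_nonneg_of_KK hv
  linarith

theorem Near.quad_ne {y v : ℂ} (hy : Near y) (hv : v ∈ KK) : v ^ 2 + v * y + y ^ 2 ≠ 0 := by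
  have hre := re_nonneg_of_KK hv
  have hf : v ^ 2 + v * y + y ^ 2 = (v - om * y) * (v - om ^ 2 * y) := by
    have h1 := om_sum
    have h2 := om_cube
    linear_combination (v * y) * h1 - y ^ 2 * h2
  rw [hf]
  have h3 := hy
  unfold Near at h3
  have hs := sqrt3_sq
  have k1 := mul_le_mul_of_nonneg_left (le_abs_self y.im) (Real.sqrt_nonneg 3)
  have k2 := mul_le_mul_of_nonneg_left (neg_abs_le y.im) (Real.sqrt_nonneg 3)
  apply mul_ne_zero
  · intro h
    have h1 := congrArg Complex.re h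
    have e : (om * y).re = -(1 / 2) * y.re - Real.sqrt 3 / 2 * y.im := by
      unfold om; simp only [Complex.mul_re]; ring
    rw [Complex.sub_re, e, Complex.zero_re] at h1
    nlinarith
  · intro h
    have h1 := congrArg Complex.re h
    have e : (om ^ 2 * y).re = -(1 / 2) * y.re + Real.sqrt 3 / 2 * y.im := by
      rw [om_sq]; simp only [Complex.mul_re]; ring
    rw [Complex.sub_re, e, Complex.zero_re] at h1
    nlinarith

theorem near_exp {θ : ℝ} (h : |θ| ≤ Real.pi / 12) : Near (Complex.exp (θ * I)) := by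
  unfold Near
  rw [Complex.exp_ofReal_mul_I_re, Complex.exp_ofReal_mul_I_im]
  have hpi : Real.pi < 3.15 := Real.pi_lt_d2
  have h1 : |Real.sin θ| ≤ |θ| := Real.abs_sin_le_abs
  have h2 : 1 - θ ^ 2 / 2 ≤ Real.cos θ := Real.one_sub_sq_div_two_le_cos
  have h3 : |θ| ≤ 0.27 := by linarith
  have h4 : θ ^ 2 ≤ 0.27 ^ 2 := by rw [← sq_abs]; gcongr
  have h5 : Real.sqrt 3 ≤ 2 := by
    rw [Real.sqrt_le_left (by norm_num)]; norm_num
  have h6 : Real.sqrt 3 * |Real.sin θ| ≤ 2 * 0.27 :=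
    mul_le_mul h5 (h1.trans h3) (abs_nonneg _) (by norm_num)
  nlinarith

/-! ### Limits at infinity -/

theorem tendsto_eval_div {p : ℂ[X]} {n : ℕ} (hp : p.natDegree ≤ n) :
    Tendsto (fun z : ℂ => p.eval z / z ^ n) (Bornology.cobounded ℂ) (𝓝 (p.coeff n)) := by
  have h1 : ∀ i ∈ Finset.range (n + 1), Tendsto (fun z : ℂ => p.coeff i * (z⁻¹) ^ (n - i))
      (Bornology.cobounded ℂ) (𝓝 (p.coeff i * 0 ^ (n - i))) := by
    intro i _
    exact (tendsto_inv₀_cobounded.pow (n - i)).const_mul _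
  have h2 := tendsto_finsetSum (Finset.range (n + 1)) h1
  have h3 : ∑ i ∈ Finset.range (n + 1), p.coeff i * (0 : ℂ) ^ (n - i) = p.coeff n := by
    rw [Finset.sum_range_succ, Finset.sum_eq_zero]
    · simp
    · intro i hi
      have : n - i ≠ 0 := by have := Finset.mem_range.mp hi; omega
      rw [zero_pow this, mul_zero]
  rw [h3] at h2
  refine h2.congr' ?_
  have h4 : ∀ᶠ z : ℂ in Bornology.cobounded ℂ, z ≠ 0 := by
    have := (hasBasis_cobounded_norm (E := ℂ)).mem_of_mem (i := 1) trivial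
    filter_upwards [this] with z hz
    intro h0
    rw [h0] at hz
    simp only [norm_zero] at hz
    linarith
  filter_upwards [h4] with z hz
  rw [Polynomial.eval_eq_sum_range' (Nat.lt_succ_of_le hp), Finset.sum_div]
  apply Finset.sum_congr rfl
  intro i hi
  have hi' : i ≤ n := by have := Finset.mem_range.mp hi; omega
  rw [inv_pow, mul_div_assoc]
  congr 1
  rw [eq_div_iff (pow_ne_zero _ hz), inv_mul_eq_div, div_eq_iff (pow_ne_zero _ hz), ← pow_add]
  congr 1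
  omega

theorem eventually_ne_zero_cobounded : ∀ᶠ z : ℂ in Bornology.cobounded ℂ, z ≠ 0 := by
  have := (hasBasis_cobounded_norm (E := ℂ)).mem_of_mem (i := 1) trivial
  filter_upwards [this] with z hz
  intro h0
  rw [h0] at hz
  simp only [norm_zero] at hz
  linarith

theorem tendsto_sq_cobounded :
    Tendsto (fun z : ℂ => z ^ 2) (Bornology.cobounded ℂ) (Bornology.cobounded ℂ) := by
  rw [← tendsto_norm_atTop_iff_cobounded]
  have h1 : Tendsto (fun z : ℂ => ‖z‖) (Bornology.cobounded ℂ) atTop := tendsto_norm_cobounded_atTop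
  have h2 : Tendsto (fun x : ℝ => x ^ 2) atTop atTop := tendsto_pow_atTop (by norm_num)
  refine (h2.comp h1).congr ?_
  intro z
  simp [norm_pow]

theorem tendsto_lin (y : ℂ) :
    Tendsto (fun v : ℂ => (v + y) / v) (Bornology.cobounded ℂ) (𝓝 1) := by
  have h1 : Tendsto (fun v : ℂ => 1 + y * v⁻¹) (Bornology.cobounded ℂ) (𝓝 (1 + y * 0)) :=
    (tendsto_inv₀_cobounded.const_mul y).const_add 1
  rw [mul_zero, add_zero] at h1
  refine h1.congr' ?_
  filter_upwards [eventually_ne_zero_cobounded] with v hv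
  field_simp

theorem tendsto_quad (y : ℂ) :
    Tendsto (fun v : ℂ => (v ^ 2 + v * y + y ^ 2) / v ^ 2) (Bornology.cobounded ℂ) (𝓝 1) := by
  have h1 : Tendsto (fun v : ℂ => 1 + y * v⁻¹ + y ^ 2 * (v⁻¹) ^ 2) (Bornology.cobounded ℂ)
      (𝓝 (1 + y * 0 + y ^ 2 * 0 ^ 2)) :=
    ((tendsto_inv₀_cobounded.const_mul y).const_add 1).add
      ((tendsto_inv₀_cobounded.pow 2).const_mul (y ^ 2))
  have e : (1 : ℂ) + y * 0 + y ^ 2 * 0 ^ 2 = 1 := by ring
  rw [e] at h1
  refine h1.congr' ?_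
  filter_upwards [eventually_ne_zero_cobounded] with v hv
  field_simp

/-! ### The algebra -/

/-- `Q(ωσ) D(ω²σ) + Q(ω²σ) D(ωσ)` -/
noncomputable def NN (Q D : ℂ[X]) : ℂ[X] :=
  Q.comp (C om * X) * D.comp (C (om ^ 2) * X) + Q.comp (C (om ^ 2) * X) * D.comp (C om * X)

theorem NN_eval (Q D : ℂ[X]) (u : ℂ) :
    (NN Q D).eval u = Q.eval (om * u) * D.eval (om ^ 2 * u) + Q.eval (om ^ 2 * u) * D.eval (om * u) := by
  simp [NN]

theorem om1 (u : ℂ) : om * (om * u) = om ^ 2 * u := by ring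
theorem om2 (u : ℂ) : om ^ 2 * (om * u) = u := by
  have := om_cube
  linear_combination u * this

/-- existence and properties of the quotient `R = N / D` -/
theorem exists_R {β : ℝ} {a b : ℕ} {Q : ℂ[X]}
    (hQ : Good β a b Q) (ha : a = 0 ∨ Q.eval (dH β) ≠ 0) (hb : b = 0 ∨ Q.eval (dV β) ≠ 0)
    (hd1 : (X - C (dH β)).eval (om ^ 2 * dH β) ≠ 0 ∧ (X - C (dV β)).eval (om ^ 2 * dH β) ≠ 0)
    (hd2 : (X - C (dH β)).eval (om ^ 2 * dV β) ≠ 0 ∧ (X - C (dV β)).eval (om ^ 2 * dV β) ≠ 0) :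
    ∃ R : ℂ[X], R.natDegree ≤ a + b ∧ R.coeff (a + b) = 2 ∧
      (∀ u, Q.eval (om * u) * (den β a b).eval (om ^ 2 * u)
        + Q.eval (om ^ 2 * u) * (den β a b).eval (om * u) = (den β a b).eval u * R.eval u) ∧
      ∀ u, R.eval u * R.eval (om * u)
        = 3 * (den β a b).eval (om ^ 2 * u) ^ 2 + Q.eval (om ^ 2 * u) ^ 2 := by
  set D := den β a b with hD
  set N := NN Q D with hN
  have hDmonic : D.Monic := by
    rw [hD]; unfold den
    exact ((monic_X_sub_C _).pow a).mul ((monic_X_sub_C _).pow b)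
  have hDdeg : D.natDegree = a + b := by
    rw [hD]; unfold den
    rw [((monic_X_sub_C _).pow a).natDegree_mul ((monic_X_sub_C _).pow b),
      (monic_X_sub_C _).natDegree_pow, (monic_X_sub_C _).natDegree_pow, natDegree_X_sub_C,
      natDegree_X_sub_C, mul_one, mul_one]
  -- the relation
  have hrel : N * N.comp (C om * X) = (D * D.comp (C om * X)) *
      (3 * D.comp (C (om ^ 2) * X) ^ 2 + Q.comp (C (om ^ 2) * X) ^ 2) := by
    apply Polynomial.funext
    intro u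
    have e1 := hQ.fe u
    rw [← hD] at e1
    simp only [eval_mul, eval_comp, eval_C, eval_X, eval_add, eval_pow, hN, NN_eval, om1, om2,
      eval_ofNat]
    linear_combination (D.eval (om ^ 2 * u)) * e1
  -- coprimality
  have hcop : IsCoprime D (N.comp (C om * X)) := by
    have key : ∀ r : ℂ, (N.comp (C om * X)).eval r ≠ 0 → IsCoprime (X - C r) (N.comp (C om * X)) := by
      intro r hr
      rw [(irreducible_X_sub_C r).coprime_iff_not_dvd, dvd_iff_isRoot]
      exact hr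
    have hev : ∀ r : ℂ, (N.comp (C om * X)).eval r
        = Q.eval (om ^ 2 * r) * D.eval r + Q.eval r * D.eval (om ^ 2 * r) := by
      intro r
      simp only [eval_comp, eval_mul, eval_C, eval_X, hN, NN_eval, om1, om2]
    have hDev : ∀ r : ℂ, D.eval r = (X - C (dH β)).eval r ^ a * (X - C (dV β)).eval r ^ b := by
      intro r; rw [hD]; unfold den; rw [eval_mul, eval_pow, eval_pow]
    have c1 : IsCoprime ((X - C (dH β)) ^ a) (N.comp (C om * X)) := by
      rcases ha with h | h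
      · rw [h, pow_zero]; exact isCoprime_one_left
      · rcases Nat.eq_zero_or_pos a with h0 | h0
        · rw [h0, pow_zero]; exact isCoprime_one_left
        · apply IsCoprime.pow_left
          apply key
          rw [hev]
          have : D.eval (dH β) = 0 := by
            rw [hDev]; simp [h0.ne']
          rw [this, mul_zero, zero_add, hDev]
          exact mul_ne_zero h (mul_ne_zero (pow_ne_zero _ hd1.1) (pow_ne_zero _ hd1.2))
    have c2 : IsCoprime ((X - C (dV β)) ^ b) (N.comp (C om * X)) := by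
      rcases hb with h | h
      · rw [h, pow_zero]; exact isCoprime_one_left
      · rcases Nat.eq_zero_or_pos b with h0 | h0
        · rw [h0, pow_zero]; exact isCoprime_one_left
        · apply IsCoprime.pow_left
          apply key
          rw [hev]
          have : D.eval (dV β) = 0 := by
            rw [hDev]; simp [h0.ne']
          rw [this, mul_zero, zero_add, hDev]
          exact mul_ne_zero h (mul_ne_zero (pow_ne_zero _ hd2.1) (pow_ne_zero _ hd2.2))
    rw [hD]; unfold den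
    exact IsCoprime.mul_left c1 c2
  have hdvd : D ∣ N := by
    apply hcop.dvd_of_dvd_mul_right
    rw [hrel, mul_assoc]
    exact dvd_mul_right _ _
  obtain ⟨R, hR⟩ := hdvd
  -- degree of N
  have hdegc : ∀ (p : ℂ[X]) (c : ℂ), p.natDegree ≤ a + b → (p.comp (C c * X)).natDegree ≤ a + b := by
    intro p c hp
    have h1 : (p.comp (C c * X)).natDegree ≤ p.natDegree * (C c * X : ℂ[X]).natDegree :=
      natDegree_comp_le
    have h2 : (C c * X : ℂ[X]).natDegree ≤ 1 := (natDegree_C_mul_le _ _).trans natDegree_X_le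
    calc _ ≤ _ := h1
      _ ≤ p.natDegree * 1 := Nat.mul_le_mul_left _ h2
      _ ≤ a + b := by rw [mul_one]; exact hp
  have hNdeg : N.natDegree ≤ (a + b) + (a + b) := by
    rw [hN]; unfold NN
    apply (natDegree_add_le _ _).trans
    apply max_le
    · exact natDegree_mul_le.trans (add_le_add (hdegc _ _ hQ.deg) (hdegc _ _ hDdeg.le))
    · exact natDegree_mul_le.trans (add_le_add (hdegc _ _ hQ.deg) (hdegc _ _ hDdeg.le))
  have hDlead : D.coeff (a + b) = 1 := by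
    have := hDmonic.coeff_natDegree
    rwa [hDdeg] at this
  have hNcoeff : N.coeff ((a + b) + (a + b)) = 2 := by
    rw [hN]; unfold NN
    rw [coeff_add, coeff_mul_add_eq_of_natDegree_le (hdegc _ _ hQ.deg) (hdegc _ _ hDdeg.le),
      coeff_mul_add_eq_of_natDegree_le (hdegc _ _ hQ.deg) (hdegc _ _ hDdeg.le), comp_C_mul_X_coeff,
      comp_C_mul_X_coeff, comp_C_mul_X_coeff, comp_C_mul_X_coeff, hQ.lead, hDlead, one_mul, one_mul,
      ← mul_pow, ← mul_pow]
    have : om * om ^ 2 = 1 := by rw [← om_cube]; ring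
    rw [this, mul_comm (om ^ 2) om, this, one_pow]
    norm_num
  have hN0 : N ≠ 0 := by
    intro h; rw [h, coeff_zero] at hNcoeff; norm_num at hNcoeff
  have hNdeg' : N.natDegree = (a + b) + (a + b) := by
    apply le_antisymm hNdeg
    apply le_natDegree_of_ne_zero
    rw [hNcoeff]; norm_num
  have hR0 : R ≠ 0 := by
    intro h; rw [h, mul_zero] at hR; exact hN0 hR
  have hRdeg : R.natDegree = a + b := by
    have h1 : N.natDegree = D.natDegree + R.natDegree := by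
      rw [hR, natDegree_mul hDmonic.ne_zero hR0]
    rw [hDdeg, hNdeg'] at h1
    omega
  have hRlead : R.coeff (a + b) = 2 := by
    have h1 : N.leadingCoeff = D.leadingCoeff * R.leadingCoeff := by rw [hR, leadingCoeff_mul]
    rw [hDmonic.leadingCoeff, one_mul, leadingCoeff, leadingCoeff, hNdeg', hRdeg, hNcoeff] at h1
    exact h1.symm
  -- the relation for R
  have hcomp0 : D.comp (C om * X) ≠ 0 := by
    intro h
    have h1 : (D.comp (C om * X)).coeff (a + b) = 0 := by rw [h, coeff_zero]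
    rw [comp_C_mul_X_coeff, hDlead, one_mul] at h1
    exact pow_ne_zero _ om_ne_zero h1
  have hRrel : R * R.comp (C om * X) = 3 * D.comp (C (om ^ 2) * X) ^ 2 + Q.comp (C (om ^ 2) * X) ^ 2 := by
    have h1 : (D * D.comp (C om * X)) * (R * R.comp (C om * X)) = (D * D.comp (C om * X)) *
      (3 * D.comp (C (om ^ 2) * X) ^ 2 + Q.comp (C (om ^ 2) * X) ^ 2) := by
      rw [← hrel, hR, mul_comp]; ring
    exact mul_left_cancel₀ (mul_ne_zero hDmonic.ne_zero hcomp0) h1
  refine ⟨R, hRdeg.le, hRlead, ?_, ?_⟩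
  · intro u
    rw [← NN_eval, ← hN, hR, eval_mul]
  · intro u
    have := congrArg (Polynomial.eval u) hRrel
    simpa [eval_comp] using this

/-! ### The poles -/

theorem exp_half_sq (θ : ℝ) : Complex.exp ((θ / 2 : ℝ) * I) ^ 2 = Complex.exp (θ * I) := by
  rw [← Complex.exp_nat_mul]; congr 1; push_cast; ring

theorem exp_half_cube (θ : ℝ) : Complex.exp ((θ / 2 : ℝ) * I) ^ 3 = Complex.exp (3 / 2 * θ * I) := by
  rw [← Complex.exp_nat_mul]; congr 1; push_cast; ring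

/-- the square root of a pole satisfies `|arg| ≤ pi / 6` after squaring -/
theorem near2_exp {θ : ℝ} (h : |θ| ≤ Real.pi / 6) :
    Real.sqrt 3 * |(Complex.exp (θ * I)).im| ≤ (Complex.exp (θ * I)).re ∧
      0 < (Complex.exp (θ * I)).re := by
  rw [Complex.exp_ofReal_mul_I_re, Complex.exp_ofReal_mul_I_im]
  have hpi := Real.pi_pos
  have hs3 : 0 < Real.sqrt 3 := Real.sqrt_pos.2 (by norm_num)
  obtain ⟨h2, h3⟩ := abs_le.mp h
  have hcos : Real.sqrt 3 / 2 ≤ Real.cos θ := by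
    rw [← Real.cos_abs, ← Real.cos_pi_div_six]
    exact Real.cos_le_cos_of_nonneg_of_le_pi (abs_nonneg _) (by linarith) h
  have hsin : |Real.sin θ| ≤ 1 / 2 := by
    rw [abs_le]
    have e := Real.sin_pi_div_six
    constructor
    · rw [← e, ← Real.sin_neg]
      exact Real.sin_le_sin_of_le_of_le_pi_div_two (by linarith) (by linarith) h2
    · rw [← e]
      exact Real.sin_le_sin_of_le_of_le_pi_div_two (by linarith) (by linarith) h3
  constructor <;> nlinarith

theorem re_om2_mul {y : ℂ} (hy : Real.sqrt 3 * |y.im| ≤ y.re) : (om ^ 2 * y).re ≤ 0 := by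
  have e : (om ^ 2 * y).re = -(1 / 2) * y.re + Real.sqrt 3 / 2 * y.im := by
    rw [om_sq]; simp only [Complex.mul_re]; ring
  rw [e]
  have k1 := mul_le_mul_of_nonneg_left (le_abs_self y.im) (Real.sqrt_nonneg 3)
  linarith

theorem re_le_of_SS {u : ℂ} (hu : u ∈ SS) : u.re ≤ 0 := by
  have h : |u.im| ≤ -(Real.sqrt 3 * u.re) := hu
  have hs3 : 0 < Real.sqrt 3 := Real.sqrt_pos.2 (by norm_num)
  by_contra hcon
  push Not at hcon
  have := mul_pos hs3 hcon
  have := abs_nonneg u.im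
  linarith

theorem two_sided {β : ℝ} (hβ0 : 0 < β) (hβ : β ≤ Real.pi / 6) {a b : ℕ} {Q : ℂ[X]}
    (hQ : Good β a b Q) (ha : a = 0 ∨ Q.eval (dH β) ≠ 0) (hb : b = 0 ∨ Q.eval (dV β) ≠ 0) :
    ∀ v ∈ KK,
      ‖v ^ 3 - sH β‖ ^ a * ‖v ^ 3 - sV β‖ ^ b *
          ‖(den β a b).eval (om * v ^ 2) * (den β a b).eval (om ^ 2 * v ^ 2)‖
        ≤ ‖Q.eval (om * v ^ 2) * (den β a b).eval (om ^ 2 * v ^ 2)
            + Q.eval (om ^ 2 * v ^ 2) * (den β a b).eval (om * v ^ 2)‖
          * (‖v ^ 3 + sH β‖ ^ a * ‖v ^ 3 + sV β‖ ^ b) ∧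
      ‖Q.eval (om * v ^ 2) * (den β a b).eval (om ^ 2 * v ^ 2)
            + Q.eval (om ^ 2 * v ^ 2) * (den β a b).eval (om * v ^ 2)‖
          * (‖v ^ 3 + sH β‖ ^ a * ‖v ^ 3 + sV β‖ ^ b)
        ≤ 2 * Real.sqrt 2 * (‖v ^ 3 - sH β‖ ^ a * ‖v ^ 3 - sV β‖ ^ b *
          ‖(den β a b).eval (om * v ^ 2) * (den β a b).eval (om ^ 2 * v ^ 2)‖) := by
  -- square roots of the poles
  obtain ⟨y₁, hy₁, hy₁2, hy₁3, hy₁n⟩ : ∃ y : ℂ, Near y ∧ y ^ 2 = dH β ∧ y ^ 3 = sH β ∧ ‖y‖ = 1 := by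
    refine ⟨Complex.exp ((-β / 2 : ℝ) * I), near_exp ?_, ?_, ?_, ?_⟩
    · rw [abs_div, abs_neg, abs_of_pos hβ0]; norm_num; linarith
    · rw [exp_half_sq]; unfold dH; congr 1; push_cast; ring
    · rw [exp_half_cube]; unfold sH; congr 1; push_cast; ring
    · rw [Complex.norm_exp_ofReal_mul_I]
  obtain ⟨y₂, hy₂, hy₂2, hy₂3, hy₂n⟩ : ∃ y : ℂ, Near y ∧ y ^ 2 = dV β ∧ y ^ 3 = sV β ∧ ‖y‖ = 1 := by
    refine ⟨Complex.exp ((β / 2 : ℝ) * I), near_exp ?_, ?_, ?_, ?_⟩
    · rw [abs_div, abs_of_pos hβ0]; norm_num; linarith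
    · rw [exp_half_sq]; rfl
    · rw [exp_half_cube]; rfl
    · rw [Complex.norm_exp_ofReal_mul_I]
  have hnH : Real.sqrt 3 * |(dH β).im| ≤ (dH β).re ∧ 0 < (dH β).re := by
    have := near2_exp (θ := -β) (by rw [abs_neg, abs_of_pos hβ0]; exact hβ)
    have e : Complex.exp (((-β : ℝ) : ℂ) * I) = dH β := by unfold dH; congr 1; push_cast; ring
    rwa [e] at this
  have hnV : Real.sqrt 3 * |(dV β).im| ≤ (dV β).re ∧ 0 < (dV β).re :=
    near2_exp (θ := β) (by rw [abs_of_pos hβ0]; exact hβ)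
  have hne : ∀ x y : ℂ, (Real.sqrt 3 * |x.im| ≤ x.re) → 0 < y.re → om ^ 2 * x - y ≠ 0 := by
    intro x y hx hy h
    have h1 := congrArg Complex.re h
    rw [Complex.sub_re, Complex.zero_re] at h1
    have := re_om2_mul hx
    linarith
  set D := den β a b with hD
  have hDev : ∀ u : ℂ, D.eval u = (u - y₁ ^ 2) ^ a * (u - y₂ ^ 2) ^ b := by
    intro u; rw [hD]; unfold den; rw [hy₁2, hy₂2]; simp
  obtain ⟨R, hRdeg, hRlead, hN, hRR⟩ := exists_R hQ ha hb
    (by constructor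
        · simpa using hne _ _ hnH.1 hnH.2
        · simpa using hne _ _ hnH.1 hnV.2)
    (by constructor
        · simpa using hne _ _ hnV.1 hnH.2
        · simpa using hne _ _ hnV.1 hnV.2)
  rw [← hD] at hN hRR
  have hDSS : ∀ u ∈ SS, D.eval u ≠ 0 := by
    intro u hu
    have h0 := re_le_of_SS hu
    rw [hDev, hy₁2, hy₂2]
    apply mul_ne_zero
    · apply pow_ne_zero
      intro h
      have := congrArg Complex.re h
      rw [Complex.sub_re, Complex.zero_re] at this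
      linarith [hnH.2]
    · apply pow_ne_zero
      intro h
      have := congrArg Complex.re h
      rw [Complex.sub_re, Complex.zero_re] at this
      linarith [hnV.2]
  -- size of 3 D^2 + Q^2
  have hsize : ∀ u ∈ SS, 2 * ‖D.eval u‖ ^ 2 ≤ ‖3 * D.eval u ^ 2 + Q.eval u ^ 2‖ ∧
      ‖3 * D.eval u ^ 2 + Q.eval u ^ 2‖ ≤ 4 * ‖D.eval u‖ ^ 2 := by
    intro u hu
    have h1 := hQ.bd u hu
    rw [← hD] at h1
    have h2 : ‖Q.eval u ^ 2‖ ≤ ‖D.eval u‖ ^ 2 := by
      rw [norm_pow]; exact pow_le_pow_left₀ (norm_nonneg _) h1 2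
    have h3 : ‖3 * D.eval u ^ 2‖ = 3 * ‖D.eval u‖ ^ 2 := by
      rw [norm_mul, norm_pow]; norm_num
    constructor
    · have h4 := norm_sub_norm_le (3 * D.eval u ^ 2) (-(Q.eval u ^ 2))
      rw [norm_neg, sub_neg_eq_add, h3] at h4
      linarith
    · have h4 := norm_add_le (3 * D.eval u ^ 2) (Q.eval u ^ 2)
      rw [h3] at h4
      linarith
  have hR0 : ∀ v ∈ KK, R.eval (v ^ 2) ≠ 0 := by
    intro v hv h0
    rcases le_total v.im 0 with him | him
    · have hu := KK_lower hv him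
      have h1 := hRR (v ^ 2)
      rw [h0, zero_mul] at h1
      have h2 := (hsize _ hu).1
      rw [← h1, norm_zero] at h2
      have h3 : 0 < ‖D.eval (om ^ 2 * v ^ 2)‖ := norm_pos_iff.2 (hDSS _ hu)
      have h4 := pow_pos h3 2
      linarith
    · have hu := KK_upper hv him
      have h1 := hRR (om ^ 2 * v ^ 2)
      have e1 : om * (om ^ 2 * v ^ 2) = v ^ 2 := by
        have := om_cube; linear_combination (v ^ 2) * this
      have e2 : om ^ 2 * (om ^ 2 * v ^ 2) = om * v ^ 2 := by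
        have := om_cube; linear_combination (om * v ^ 2) * this
      rw [e1, e2, h0, mul_zero] at h1
      have h2 := (hsize _ hu).1
      rw [← h1, norm_zero] at h2
      have h3 : 0 < ‖D.eval (om * v ^ 2)‖ := norm_pos_iff.2 (hDSS _ hu)
      have h4 := pow_pos h3 2
      linarith
  -- value at 0
  have hRzero : ‖R.eval 0‖ = 2 := by
    have h1 := hN 0
    have h2 := hQ.zero
    rw [← hD] at h2
    simp only [mul_zero] at h1
    rw [h2] at h1
    have hD0 : D.eval 0 ≠ 0 := hDSS 0 (by unfold SS; simp)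
    have h3 : R.eval 0 = 2 * D.eval 0 := by
      have h4 : D.eval 0 * R.eval 0 = D.eval 0 * (2 * D.eval 0) := by rw [← h1]; ring
      exact mul_left_cancel₀ hD0 h4
    rw [h3, norm_mul, hDev]
    simp [norm_pow, hy₁n, hy₂n]
  -- the function G
  let G : ℂ → ℂ := fun v => R.eval (v ^ 2) * ((v + y₁) / (v ^ 2 + v * y₁ + y₁ ^ 2)) ^ (2 * a) *
    ((v + y₂) / (v ^ 2 + v * y₂ + y₂ ^ 2)) ^ (2 * b)
  have hGd : ∀ v : ℂ, v ^ 2 + v * y₁ + y₁ ^ 2 ≠ 0 → v ^ 2 + v * y₂ + y₂ ^ 2 ≠ 0 →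
      DifferentiableAt ℂ G v := by
    intro v h1 h2
    have e1 : DifferentiableAt ℂ (fun v : ℂ => R.eval (v ^ 2)) v := by
      have : DifferentiableAt ℂ (fun v : ℂ => v ^ 2) v := by fun_prop
      exact DifferentiableAt.comp (f := fun v : ℂ => v ^ 2) (g := fun v => R.eval v) v
        R.differentiable.differentiableAt this
    have e2 : DifferentiableAt ℂ (fun v : ℂ => (v + y₁) / (v ^ 2 + v * y₁ + y₁ ^ 2)) v := by
      exact DifferentiableAt.div (c := fun v : ℂ => v + y₁)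
        (d := fun v : ℂ => v ^ 2 + v * y₁ + y₁ ^ 2) (by fun_prop) (by fun_prop) h1
    have e3 : DifferentiableAt ℂ (fun v : ℂ => (v + y₂) / (v ^ 2 + v * y₂ + y₂ ^ 2)) v := by
      exact DifferentiableAt.div (c := fun v : ℂ => v + y₂)
        (d := fun v : ℂ => v ^ 2 + v * y₂ + y₂ ^ 2) (by fun_prop) (by fun_prop) h2
    exact (e1.mul (e2.pow _)).mul (e3.pow _)
  have hGbound : ∀ v ∈ KK, v ≠ 0 → 1 ≤ ‖G v‖ ∧ ‖G v‖ ≤ 2 * Real.sqrt 2 := by
    apply PL_sector
    · intro v hv _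
      exact hGd v (hy₁.quad_ne hv) (hy₂.quad_ne hv)
    · intro v hv _
      exact mul_ne_zero (mul_ne_zero (hR0 v hv)
        (pow_ne_zero _ (div_ne_zero (hy₁.add_ne hv) (hy₁.quad_ne hv))))
        (pow_ne_zero _ (div_ne_zero (hy₂.add_ne hv) (hy₂.quad_ne hv)))
    · -- behaviour at 0 and infinity
      have h0 : ∀ᶠ v in 𝓝 (0 : ℂ), 1 ≤ ‖G v‖ ∧ ‖G v‖ ≤ 3 := by
        have hne1 : y₁ ≠ 0 := by intro h; rw [h, norm_zero] at hy₁n; norm_num at hy₁n
        have hne2 : y₂ ≠ 0 := by intro h; rw [h, norm_zero] at hy₂n; norm_num at hy₂n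
        have hc : ContinuousAt (fun v => ‖G v‖) 0 :=
          (hGd 0 (by simpa using hne1) (by simpa using hne2)).continuousAt.norm
        have hG0 : ‖G 0‖ = 2 := by
          simp only [G]
          simp [hRzero, hy₁n, hy₂n, norm_pow]
        have h1 : ∀ᶠ v in 𝓝 (0 : ℂ), ‖G v‖ ∈ Set.Icc (1 : ℝ) 3 := by
          apply hc
          change Set.Icc (1 : ℝ) 3 ∈ 𝓝 ‖G 0‖
          rw [hG0]
          exact Icc_mem_nhds (by norm_num) (by norm_num)
        exact h1
      have hinf : ∀ᶠ v in Bornology.cobounded ℂ, 1 ≤ ‖G v‖ ∧ ‖G v‖ ≤ 3 := by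
        have t1 : Tendsto (fun v : ℂ => R.eval (v ^ 2) / (v ^ 2) ^ (a + b)) (Bornology.cobounded ℂ)
            (𝓝 2) := by
          rw [← hRlead]
          exact (tendsto_eval_div hRdeg).comp tendsto_sq_cobounded
        have t2 := (((tendsto_lin y₁).div (tendsto_quad y₁) one_ne_zero).pow (2 * a))
        have t3 := (((tendsto_lin y₂).div (tendsto_quad y₂) one_ne_zero).pow (2 * b))
        have t4 := ((t1.mul t2).mul t3).norm
        have e : ‖(2 : ℂ) * (1 / 1) ^ (2 * a) * (1 / 1) ^ (2 * b)‖ = 2 := by simp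
        rw [e] at t4
        have t5 : ∀ᶠ v in Bornology.cobounded ℂ, ‖R.eval (v ^ 2) / (v ^ 2) ^ (a + b) *
            ((v + y₁) / v / ((v ^ 2 + v * y₁ + y₁ ^ 2) / v ^ 2)) ^ (2 * a) *
            ((v + y₂) / v / ((v ^ 2 + v * y₂ + y₂ ^ 2) / v ^ 2)) ^ (2 * b)‖ ∈ Set.Icc (1 : ℝ) 3 := by
          apply t4
          exact Icc_mem_nhds (by norm_num) (by norm_num)
        filter_upwards [t5, eventually_ne_zero_cobounded] with v hv hv0
        have e2 : ∀ y : ℂ, (v + y) / v / ((v ^ 2 + v * y + y ^ 2) / v ^ 2)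
            = v * ((v + y) / (v ^ 2 + v * y + y ^ 2)) := by
          intro y
          rw [div_div_div_eq, mul_div_assoc']
          rw [show (v + y) * v ^ 2 = v * (v * (v + y)) by ring, mul_div_mul_left _ _ hv0]
        have e3 : R.eval (v ^ 2) / (v ^ 2) ^ (a + b) *
            ((v + y₁) / v / ((v ^ 2 + v * y₁ + y₁ ^ 2) / v ^ 2)) ^ (2 * a) *
            ((v + y₂) / v / ((v ^ 2 + v * y₂ + y₂ ^ 2) / v ^ 2)) ^ (2 * b) = G v := by
          rw [e2, e2, mul_pow, mul_pow]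
          simp only [G]
          have hv' : (v ^ 2) ^ (a + b) = v ^ (2 * a) * v ^ (2 * b) := by
            rw [← pow_mul, ← pow_add]; congr 1; ring
          rw [hv']
          have hp1 : v ^ (2 * a) ≠ 0 := pow_ne_zero _ hv0
          have hp2 : v ^ (2 * b) ≠ 0 := pow_ne_zero _ hv0
          rw [div_mul_eq_mul_div, div_mul_eq_mul_div, div_eq_iff (mul_ne_zero hp1 hp2)]
          ring
        rw [e3] at hv
        exact hv
      obtain ⟨ε, hε, hball⟩ := Metric.eventually_nhds_iff_ball.mp h0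
      obtain ⟨R₀, _, hR₀⟩ := (hasBasis_cobounded_norm (E := ℂ)).eventually_iff.mp hinf
      refine ⟨ε / 2, R₀, 1, 3, by linarith, one_pos, ?_⟩
      intro v _ _ hcase
      rcases hcase with h | h
      · exact hball v (by rw [mem_ball_zero_iff]; linarith)
      · exact hR₀ h
    · -- product relation
      intro v hv hv0 him
      set v' := -(om ^ 2) * v with hv'
      have hv'K : v' ∈ KK := KK_turn hv him
      have hu := KK_lower hv him
      have hsq : v' ^ 2 = om * v ^ 2 := by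
        have := om_cube
        rw [hv']; linear_combination (om * v ^ 2) * this
      have hfac : ∀ y : ℂ, Near y → (v + y) / (v ^ 2 + v * y + y ^ 2) *
          ((v' + y) / (v' ^ 2 + v' * y + y ^ 2)) = -(om ^ 2 * v ^ 2 - y ^ 2)⁻¹ := by
        intro y hy
        have h1 := hy.quad_ne hv
        have h2 := hy.quad_ne hv'K
        have key : (v + y) * (v' + y) * (om ^ 2 * v ^ 2 - y ^ 2)
            = -((v ^ 2 + v * y + y ^ 2) * (v' ^ 2 + v' * y + y ^ 2)) := by
          have c1 := om_cube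
          have c2 := om_sum
          have c3 : om ^ 2 = -1 - om := by linear_combination c2
          have c4 : om ^ 3 = 1 := om_cube
          rw [hv', c3]
          have c5 : om * om = -1 - om := by linear_combination c2
          ring_nf
          simp only [c3]
          ring
        have h3 : om ^ 2 * v ^ 2 - y ^ 2 ≠ 0 := by
          intro h0
          rw [h0, mul_zero] at key
          exact mul_ne_zero h1 h2 (neg_eq_zero.mp key.symm)
        rw [div_mul_div_comm, div_eq_iff (mul_ne_zero h1 h2)]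
        rw [neg_mul, inv_mul_eq_div, ← neg_div, eq_div_iff h3]
        exact key
      have hprod : G v * G v' = (3 * D.eval (om ^ 2 * v ^ 2) ^ 2 + Q.eval (om ^ 2 * v ^ 2) ^ 2) /
          D.eval (om ^ 2 * v ^ 2) ^ 2 := by
        have e1 := hfac y₁ hy₁
        have e2 := hfac y₂ hy₂
        have e3 : G v * G v' = (R.eval (v ^ 2) * R.eval (v' ^ 2)) *
            ((v + y₁) / (v ^ 2 + v * y₁ + y₁ ^ 2) * ((v' + y₁) / (v' ^ 2 + v' * y₁ + y₁ ^ 2))) ^ (2 * a) *
            ((v + y₂) / (v ^ 2 + v * y₂ + y₂ ^ 2) * ((v' + y₂) / (v' ^ 2 + v' * y₂ + y₂ ^ 2))) ^ (2 * b) := by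
          simp only [G, mul_pow]; ring
        rw [e3, e1, e2, hsq, hRR, hDev]
        rw [div_eq_mul_inv, mul_assoc]
        congr 1
        rw [mul_pow, mul_inv, ← pow_mul, ← pow_mul]
        have f1 : ∀ (x : ℂ) (m : ℕ), (-(x)⁻¹) ^ (2 * m) = (x ^ (m * 2))⁻¹ := by
          intro x m
          rw [pow_mul, neg_sq, ← pow_mul, inv_pow, mul_comm 2 m]
        rw [f1, f1]
      have hpos : 0 < ‖D.eval (om ^ 2 * v ^ 2)‖ ^ 2 := pow_pos (norm_pos_iff.2 (hDSS _ hu)) 2
      rw [hprod, norm_div, norm_pow]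
      have h5 := hsize _ hu
      constructor
      · rw [le_div_iff₀ hpos]; exact h5.1
      · rw [div_le_iff₀ hpos]; exact h5.2
  -- conclusion
  intro v hv
  have hmain : ‖(v ^ 2 + v * y₁ + y₁ ^ 2)‖ ^ (2 * a) * ‖(v ^ 2 + v * y₂ + y₂ ^ 2)‖ ^ (2 * b) ≤
        ‖R.eval (v ^ 2)‖ * (‖v + y₁‖ ^ (2 * a) * ‖v + y₂‖ ^ (2 * b)) ∧
      ‖R.eval (v ^ 2)‖ * (‖v + y₁‖ ^ (2 * a) * ‖v + y₂‖ ^ (2 * b)) ≤ 2 * Real.sqrt 2 *
        (‖(v ^ 2 + v * y₁ + y₁ ^ 2)‖ ^ (2 * a) * ‖(v ^ 2 + v * y₂ + y₂ ^ 2)‖ ^ (2 * b)) := by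
    by_cases hv0 : v = 0
    · subst hv0
      have hs21 : 1 ≤ Real.sqrt 2 := by
        rw [Real.one_le_sqrt]; norm_num
      simp only [hRzero, hy₁n, hy₂n, zero_add, zero_mul, norm_pow, one_pow, mul_one, ne_eq,
        OfNat.ofNat_ne_zero, not_false_eq_true, zero_pow]
      constructor <;> linarith
    · have h1 := hGbound v hv hv0
      have hA : 0 < ‖(v ^ 2 + v * y₁ + y₁ ^ 2)‖ ^ (2 * a) :=
        pow_pos (norm_pos_iff.2 (hy₁.quad_ne hv)) _
      have hB : 0 < ‖(v ^ 2 + v * y₂ + y₂ ^ 2)‖ ^ (2 * b) :=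
        pow_pos (norm_pos_iff.2 (hy₂.quad_ne hv)) _
      have h2 : ‖R.eval (v ^ 2)‖ * (‖v + y₁‖ ^ (2 * a) * ‖v + y₂‖ ^ (2 * b)) = ‖G v‖ *
          (‖(v ^ 2 + v * y₁ + y₁ ^ 2)‖ ^ (2 * a) * ‖(v ^ 2 + v * y₂ + y₂ ^ 2)‖ ^ (2 * b)) := by
        have aux : ∀ r x y p q : ℝ, p ≠ 0 → q ≠ 0 →
            r * (x * y) = r * (x / p) * (y / q) * (p * q) := by
          intro r x y p q hp hq; field_simp
        simp only [G, norm_mul, norm_pow, norm_div, div_pow]
        exact aux _ _ _ _ _ hA.ne' hB.ne'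
      rw [h2]
      have hAB := mul_pos hA hB
      constructor
      · nlinarith [h1.1]
      · exact mul_le_mul_of_nonneg_right h1.2 hAB.le
  set c : ℝ := ‖(v - y₁) * (v ^ 2 - v * y₁ + y₁ ^ 2)‖ ^ a * ‖(v - y₂) * (v ^ 2 - v * y₂ + y₂ ^ 2)‖ ^ b
    with hc
  have hc0 : 0 ≤ c := by positivity
  have eD : D.eval (om * v ^ 2) * D.eval (om ^ 2 * v ^ 2) =
      ((v ^ 2 + v * y₁ + y₁ ^ 2) * (v ^ 2 - v * y₁ + y₁ ^ 2)) ^ a *
        ((v ^ 2 + v * y₂ + y₂ ^ 2) * (v ^ 2 - v * y₂ + y₂ ^ 2)) ^ b := by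
    have k : ∀ y : ℂ, (om * v ^ 2 - y ^ 2) * (om ^ 2 * v ^ 2 - y ^ 2)
        = (v ^ 2 + v * y + y ^ 2) * (v ^ 2 - v * y + y ^ 2) := by
      intro y
      have c1 := om_cube
      have c2 := om_sum
      linear_combination (v ^ 4) * c1 - (v ^ 2 * y ^ 2) * c2
    rw [hDev, hDev, ← k, ← k]
    simp only [mul_pow]; ring
  have e1 : ‖v ^ 3 - sH β‖ ^ a * ‖v ^ 3 - sV β‖ ^ b *
      ‖D.eval (om * v ^ 2) * D.eval (om ^ 2 * v ^ 2)‖ = c *
      (‖(v ^ 2 + v * y₁ + y₁ ^ 2)‖ ^ (2 * a) * ‖(v ^ 2 + v * y₂ + y₂ ^ 2)‖ ^ (2 * b)) := by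
    rw [eD, ← hy₁3, ← hy₂3, hc]
    have f : ∀ y : ℂ, v ^ 3 - y ^ 3 = (v - y) * (v ^ 2 + v * y + y ^ 2) := by intro y; ring
    rw [f, f]
    simp only [norm_mul, norm_pow, mul_pow, pow_mul]
    ring
  have e2 : ‖Q.eval (om * v ^ 2) * D.eval (om ^ 2 * v ^ 2)
      + Q.eval (om ^ 2 * v ^ 2) * D.eval (om * v ^ 2)‖ * (‖v ^ 3 + sH β‖ ^ a * ‖v ^ 3 + sV β‖ ^ b)
      = c * (‖R.eval (v ^ 2)‖ * (‖v + y₁‖ ^ (2 * a) * ‖v + y₂‖ ^ (2 * b))) := by
    rw [hN, hDev, ← hy₁3, ← hy₂3, hc]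
    have f : ∀ y : ℂ, v ^ 3 + y ^ 3 = (v + y) * (v ^ 2 - v * y + y ^ 2) := by intro y; ring
    have f2 : ∀ y : ℂ, v ^ 2 - y ^ 2 = (v - y) * (v + y) := by intro y; ring
    rw [f, f, f2, f2]
    simp only [norm_mul, norm_pow, mul_pow, pow_mul]
    ring
  rw [e1, e2]
  constructor
  · exact mul_le_mul_of_nonneg_left hmain.1 hc0
  · have := mul_le_mul_of_nonneg_left hmain.2 hc0
    calc _ ≤ _ := this
      _ = _ := by ring

end Pool.Agent.H21.Stair
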