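import Mathlib
import Pool.Agent.H21.Stair.Basic
import Pool.Agent.H21.Stair.TwoSided
import Pool.Agent.H21.Stair.HomotopyAux

/-!
# Exact pole orders by homotopy in the parameter
-/

namespace Pool.Agent.H21.Stair

open Polynomial

theorem homotopy {a b : ℕ} {Q : ℝ → ℂ[X]} {β₁ : ℝ} (hβ₁ : 0 < β₁) (hβ₁' : β₁ ≤ Real.pi / 6)
    (hcont : ∀ k, ContinuousOn (fun β => (Q β).coeff k) (Set.Icc 0 β₁))
    (hQ : ∀ β ∈ Set.Ioc 0 β₁, Good β a b (Q β)) (hdeg0 : (Q 0).natDegree ≤ a + b)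
    (h0 : (Q 0).eval 1 ≠ 0) :
    (a = 0 ∨ (Q β₁).eval (dH β₁) ≠ 0) ∧ (b = 0 ∨ (Q β₁).eval (dV β₁) ≠ 0) :=
  HomotopyAux.homotopy_of_lower
    (fun hβ0 hβ _ hG ha hb v hv => (two_sided hβ0 hβ hG ha hb v hv).1)
    hβ₁ hβ₁' hcont hQ hdeg0 h0

end Pool.Agent.H21.Stair
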