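import Mathlib
import Pool.Agent.H65.Perc.Cyl
import Pool.Agent.H21.Perc.IMarkov

/-!
# Critical percolation below a staircase

`t : ℤ → ℤ` is an antitone function with `t (x + a) = t x - b` (a staircase going down to the
right).  Below the staircase, in every unit square `[x, x+1] × [t x - r - 1, t x - r]` (`r ≥ 0`) one of
the two diagonals is chosen by a fair coin, independently except for the periodicity under the
translation by `(a, -b)`.
-/

namespace Pool.Agent.H21.Stair

open Pool.Agent.H65.Perc Pool.Agent.H65.Perc.St Pool.Agent.H21.Perc MeasureTheory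

/-- Configurations: `ω (r, x)` is the coin of the square number `r` (counted from the top) of the
column `[x, x+1]`, the columns taken modulo `a`. -/
abbrev SConf (a : ℕ) := ℕ × ZMod a → Bool

/-- The graph on `ℤ × ℤ` formed by the chosen diagonals.  In the square with upper left corner
`(x, t x - r)` the coin `true` chooses the diagonal going up to the right, the coin `false` the
diagonal going down to the right. -/
def stairGraph (a : ℕ) (t : ℤ → ℤ) (ω : SConf a) : SimpleGraph (ℤ × ℤ) :=
  SimpleGraph.fromRel (fun p q => ∃ (x : ℤ) (r : ℕ),
    (ω (r, (x : ZMod a)) = true ∧ p = (x, t x - r - 1) ∧ q = (x + 1, t x - r)) ∨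
    (ω (r, (x : ZMod a)) = false ∧ p = (x, t x - r) ∧ q = (x + 1, t x - r - 1)))

/-- the cluster of `p` winds around the cylinder: it contains a translate of `p` -/
def SWinds (a b : ℕ) (t : ℤ → ℤ) (ω : SConf a) (p : ℤ × ℤ) : Prop :=
  ∃ m : ℤ, m ≠ 0 ∧ (stairGraph a t ω).Reachable p (p.1 + m * a, p.2 - m * b)

/-- independent fair coins -/
noncomputable def stairMeasure (a : ℕ) : Measure (SConf a) :=
  Measure.infinitePi (fun _ => (PMF.uniformOfFintype Bool).toMeasure)

/-- `X k` is the abscissa of the boundary point of the staircase on the line `x - y = k` -/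
def IsPath (t X : ℤ → ℤ) : Prop := ∀ k, t (X k) ≤ X k - k ∧ X k - k ≤ t (X k - 1)

/-- the step of the staircase from the line `x - y = k` to the line `x - y = k + 1` is horizontal -/
def hor (t X : ℤ → ℤ) (k : ℤ) : Bool := decide (X k - k = t (X k))

/-- the rows of the loop model: the crossings of the strands belonging to vertical steps are all
of type `true` -/
def rowsS (a L : ℕ) (t X : ℤ → ℤ) (ω : SConf a) (r : ℕ) (i : Fin L) : Bool :=
  if hor t X i.val then ω (r, ((X i.val : ℤ) : ZMod a)) else true

/-- the weights of the crossings: fair for the horizontal steps, `true` for the vertical steps -/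
noncomputable def wP (h : ℤ → Bool) (k : ℤ) : ℝ := if h k then 1 / 2 else 1

end Pool.Agent.H21.Stair
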