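import Mathlib
import Pool.Agent.H21.Stair.Deriv
import Pool.Agent.H21.Stair.Model
import Pool.Agent.H21.Stair.Homotopy

/-!
# The stationary functional of the physical rows
-/

open Filter Topology Polynomial

namespace Pool.Agent.H21.Stair

open Pool.Agent.H65.Perc Pool.Agent.H65.Perc.St Pool.Agent.H21.Perc

theorem tb_pi6 : tb (Real.pi / 6) = 2 - Real.sqrt 3 := by
  have s3 := sqrt3_sq
  have h3 := sqrt3_bounds
  unfold tb
  rw [Real.sin_pi_div_six, Real.cos_pi_div_six, div_eq_iff (by linarith)]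
  nlinarith

theorem wP_per {L : ℕ} {h : ℤ → Bool} (hp : ∀ k, h (k + L) = h k) : Per L (wP h) := by
  intro k
  simp only [wP, hp]

/-- the physical rows commute with the rows at the base point -/
theorem comm_phys (h : ℤ → Bool) : CommCond (wB h (Real.pi / 6)) (wP h) := by
  have s3 := sqrt3_sq
  have h3 := sqrt3_bounds
  refine ⟨(Real.sqrt 3 - 1) / 2, by linarith, fun k => ?_⟩
  unfold wB wP tk
  rw [tb_pi6]
  split_ifs
  · nlinarith
  · nlinarith

section

variable (n : ℕ) [NeZero n] {h : ℤ → Bool} (hp : ∀ k, h (k + ((2 * n : ℕ) : ℤ)) = h k)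

include hp

/-- **the functional of the model** -/
theorem chain_main {a b : ℕ}
    (ha : ((Finset.range (2 * n)).filter (fun k : ℕ => h k = true)).card = a)
    (hab : a + b = 2 * n) :
    ∃ (Ψ : (PX (2 * n) → ℝ) →ₗ[ℝ] ℝ) (Q : ℂ[X]),
      Ψ (fun _ => 1) = 1 ∧ (∀ f, Ψ (iSX (wP h) f) = Ψ f) ∧
      Good (Real.pi / 6) a b Q ∧ (a = 0 ∨ Q.eval (dH (Real.pi / 6)) ≠ 0) ∧
      (b = 0 ∨ Q.eval (dV (Real.pi / 6)) ≠ 0) ∧
      deriv (fun u => Q.eval u / (den (Real.pi / 6) a b).eval u) 0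
        = ∑ k ∈ Finset.range (2 * n),
          ((Ψ (fun x => open Classical in if Exposed x.1 (k : ℤ) then (1 : ℝ) else 0) : ℝ) : ℂ)
            * cc h (Real.pi / 6) k := by
  classical
  obtain ⟨P, hP, hcont⟩ := exists_law_family n hp
  have hpi : (0 : ℝ) < Real.pi / 6 := by positivity
  have hmem : (Real.pi / 6) ∈ Set.Icc 0 (Real.pi / 6) := ⟨hpi.le, le_refl _⟩
  obtain ⟨h0, h1, h2, h3⟩ := hP _ hmem
  let Ψ : (PX (2 * n) → ℝ) →ₗ[ℝ] ℝ :=
    { toFun := fun f => ∑ y, P (Real.pi / 6) y * f y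
      map_add' := fun f g => by simp [mul_add, Finset.sum_add_distrib]
      map_smul' := fun r f => by
        simp only [Pi.smul_apply, smul_eq_mul, RingHom.id_apply, Finset.mul_sum]
        exact Finset.sum_congr rfl (fun y _ => by ring) }
  have hhom := homotopy (a := a) (b := b) (Q := fun β => QQ h β (P β)) hpi (le_refl _)
    (fun k => continuousOn_coeff_QQ h hcont k)
    (fun β hβ => by
      have hβ' : β ∈ Set.Icc 0 (Real.pi / 6) := ⟨hβ.1.le, hβ.2⟩
      obtain ⟨g0, g1, g2, g3⟩ := hP β hβ'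
      exact good_QQ hp hβ' g0 g1 g3 ha hab)
    (by rw [hab]; exact QQ_deg h 0 _)
    (by
      obtain ⟨g0, g1, g2, g3⟩ := hP 0 ⟨le_refl _, hpi.le⟩
      exact QQ_one_ne h g0 g2)
  refine ⟨Ψ, QQ h (Real.pi / 6) (P (Real.pi / 6)), ?_, ?_, good_QQ hp hmem h0 h1 h3 ha hab,
    hhom.1, hhom.2, ?_⟩
  · show ∑ y, P (Real.pi / 6) y * 1 = 1
    simpa using h1
  · intro f
    exact iinvariant (L := 2 * n) (wB_per hp (Real.pi / 6)) (doeblin_wB n hp hmem) Ψ
      (fun f x => h3 f x) (wP_per hp) (comm_phys h) f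
  · rw [← dd_eq_den (Real.pi / 6) ha hab]
    exact deriv_QQ hp (Real.pi / 6) h1

end

end Pool.Agent.H21.Stair
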