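import Pool.Agent.H21.Stair.Model
import Pool.Agent.H63.Perc.Winding

/-!
# The homogeneous case and the constant
-/

open Filter Topology MeasureTheory

namespace Pool.Agent.H21.Stair

open Pool.Agent.H65.Perc Pool.Agent.H65.Perc.St Pool.Agent.H21.Perc

theorem iSX_half {L : ℕ} [NeZero L] :
    (iSX (fun _ => 1 / 2) : (PX L → ℝ) →ₗ[ℝ] (PX L → ℝ)) = SX (1 / 2) := by
  apply LinearMap.ext
  intro f
  funext x
  rw [SX_half_apply]
  have h1 : iSX (fun _ => 1 / 2) f x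
      = iT 1 (lw (fun _ => (1 / 2 : ℝ))) (strands L) (lx 0) (ly 0) (extX f) x.1 := rfl
  rw [h1, iT_one_apply _ _ x.2.allIdle, Finset.mul_sum]
  refine Finset.sum_congr rfl (fun row _ => ?_)
  have h2 : ∀ b : Bool, pr (1 / 2) b = 1 / 2 := by
    intro b
    unfold pr
    split_ifs <;> norm_num
  rw [Finset.prod_congr rfl (fun i _ => h2 (row i)), Finset.prod_const, Finset.card_univ,
    Fintype.card_fin, extX_apply (planar_rowMap x.2 row)]

theorem homogeneous (n : ℕ) [NeZero n] (Ψ : (PX (2 * n) → ℝ) →ₗ[ℝ] ℝ)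
    (hlim : ∀ f x, Tendsto (fun M : ℕ => (iSX (fun _ => 1 / 2) ^ M) f x) atTop (𝓝 (Ψ f))) :
    Ψ (fun x => (numExp x.1 : ℝ)) = 2 * n * ∏ k ∈ Finset.range n, ((3 * (k : ℝ) + 1) / (3 * k + 2)) := by
  classical
  rw [iSX_half] at hlim
  have hone : Ψ (fun _ => 1) = 1 := by
    obtain ⟨Ψ', hlim', -, hone', -⟩ := exists_Psi n
    rw [tendsto_nhds_unique (hlim (fun _ => 1) (xpi n)) (hlim' (fun _ => 1) (xpi n)), hone']
  -- the stationary functional computes the integral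
  let g : ℕ → ℝ := fun k => (k : ℝ)
  have h1 := tendsto_cyl n g
  have h2 := tendsto_caps n hlim (resX (fun s => g (numEven s)))
  have h3 : (fun M : ℕ => (1 / 2 : ℝ) ^ (2 * n * M) *
      ∑ ω : Fin M → Fin (2 * n) → Bool, g (numEven (runRows (extRows ω) M (cap n M))))
      = fun M : ℕ => (SX (1 / 2) ^ M) (resX (fun s => g (numEven s)))
        ⟨cap n M, planar_cap n M⟩ := by
    funext M
    rw [avg_rows]
  rw [h3] at h1
  have h4 := tendsto_nhds_unique h1 h2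
  have h5 : Ψ (resX (fun s => g (numEven s))) + Ψ (RX n (resX (fun s => g (numEven s))))
      = Ψ (fun x => g (numExp x.1)) + g 0 := by
    rw [← map_add]
    have : resX (fun s => g (numEven s)) + RX n (resX (fun s => g (numEven s)))
        = (fun x : PX (2 * n) => g (numExp x.1)) + g 0 • (fun _ => (1 : ℝ)) := by
      funext x
      have := numEven_add n x.2 g
      simp only [Pi.add_apply, Pi.smul_apply, smul_eq_mul, mul_one]
      exact this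
    rw [this, map_add, map_smul, hone, smul_eq_mul, mul_one]
  rw [Psi_RX n hlim hone, ← h4] at h5
  have h6 : ∫ ω, g (windCount n ω) ∂(cylMeasure n) = n * ((cylMeasure n) {ω | Winds n ω 0}).toReal :=
    integral_windCount n
  rw [h6, Pool.Agent.H63.Perc.prob_winds n] at h5
  have h7 : g 0 = 0 := by simp [g]
  rw [h7, add_zero] at h5
  change Ψ (fun x => g (numExp x.1)) = _
  rw [← h5]
  ring

/-! ### the constant -/

/-- `∏_{j<n} (s+j)` -/
noncomputable def rp (s : ℝ) (n : ℕ) : ℝ := ∏ j ∈ Finset.range n, (s + j)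

theorem rp_pos {s : ℝ} (hs : 0 < s) (n : ℕ) : 0 < rp s n :=
  Finset.prod_pos fun j _ => by positivity

theorem prod_eq_rp (n : ℕ) :
    ∏ k ∈ Finset.range n, ((3 * (k : ℝ) + 1) / (3 * k + 2)) = rp (1 / 3) n / rp (2 / 3) n := by
  unfold rp
  rw [← Finset.prod_div_distrib]
  refine Finset.prod_congr rfl fun k _ => ?_
  have h1 : (3 * (k : ℝ) + 2) ≠ 0 := by positivity
  have h2 : (2 / 3 + (k : ℝ)) ≠ 0 := by positivity
  rw [div_eq_div_iff h1 h2]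
  ring

theorem rp_ratio {n : ℕ} (hn : 1 ≤ n) :
    (n : ℝ) ^ (1 / 3 : ℝ) * (rp (1 / 3) n / rp (2 / 3) n) =
      Real.GammaSeq (2 / 3) n / Real.GammaSeq (1 / 3) n * ((2 / 3 + n) / (1 / 3 + n)) := by
  have hn0 : (0 : ℝ) < n := by exact_mod_cast hn
  have hG : ∀ s : ℝ, Real.GammaSeq s n = (n : ℝ) ^ s * n.factorial / (rp s n * (s + n)) := by
    intro s
    have : rp s (n + 1) = rp s n * (s + n) := by unfold rp; rw [Finset.prod_range_succ]
    rw [← this]; rfl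
  rw [hG, hG]
  have h1 := (rp_pos (s := 1 / 3) (by norm_num) n).ne'
  have h2 := (rp_pos (s := 2 / 3) (by norm_num) n).ne'
  have h3 : (1 / 3 + (n : ℝ)) ≠ 0 := by positivity
  have h4 : (2 / 3 + (n : ℝ)) ≠ 0 := by positivity
  have hf : (n.factorial : ℝ) ≠ 0 := by positivity
  have hp : (n : ℝ) ^ (2 / 3 : ℝ) = (n : ℝ) ^ (1 / 3 : ℝ) * (n : ℝ) ^ (1 / 3 : ℝ) := by
    rw [← Real.rpow_add hn0]; norm_num
  have e1 : (n : ℝ) ^ (1 / 3 : ℝ) ≠ 0 := (Real.rpow_pos_of_pos hn0 _).ne'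
  rw [hp]
  generalize (n : ℝ) ^ (1 / 3 : ℝ) = x at *
  generalize rp (1 / 3) n = y at *
  generalize rp (2 / 3) n = z at *
  generalize (n.factorial : ℝ) = f at *
  generalize (1 / 3 + (n : ℝ)) = p at *
  generalize (2 / 3 + (n : ℝ)) = q at *
  field_simp

theorem homogeneous_limit : Tendsto (fun n : ℕ => (2 * (n : ℝ) *
      ∏ k ∈ Finset.range n, ((3 * (k : ℝ) + 1) / (3 * k + 2))) / (2 * n : ℝ) ^ (2 / 3 : ℝ)) atTop
    (𝓝 (Real.Gamma (5 / 6) / Real.sqrt Real.pi)) := by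
  have hG1 : 0 < Real.Gamma (1 / 3) := Real.Gamma_pos_of_pos (by norm_num)
  have hdup : (2 : ℝ) ^ (1 / 3 : ℝ) * (Real.Gamma (2 / 3) / Real.Gamma (1 / 3) * 1)
      = Real.Gamma (5 / 6) / Real.sqrt Real.pi := by
    have h := Real.Gamma_mul_Gamma_add_half (1 / 3)
    have e1 : (1 / 3 + 1 / 2 : ℝ) = 5 / 6 := by norm_num
    have e2 : (2 * (1 / 3) : ℝ) = 2 / 3 := by norm_num
    have e3 : (1 - 2 / 3 : ℝ) = 1 / 3 := by norm_num
    rw [e1, e2, e3] at h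
    have hpi : 0 < Real.sqrt Real.pi := Real.sqrt_pos.2 Real.pi_pos
    rw [mul_one, ← mul_div_assoc, div_eq_div_iff hG1.ne' hpi.ne']
    linarith
  rw [← hdup]
  have hr : Tendsto (fun n : ℕ => ((2 / 3 + n) / (1 / 3 + n) : ℝ)) atTop (𝓝 1) := by
    have hinv : Tendsto (fun n : ℕ => ((n : ℝ))⁻¹) atTop (𝓝 0) :=
      tendsto_inv_atTop_nhds_zero_nat
    have h : Tendsto (fun n : ℕ => (2 / 3 * ((n : ℝ))⁻¹ + 1) / (1 / 3 * ((n : ℝ))⁻¹ + 1)) atTop
        (𝓝 ((2 / 3 * 0 + 1) / (1 / 3 * 0 + 1))) := by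
      refine Tendsto.div ?_ ?_ (by norm_num)
      · exact (hinv.const_mul _).add tendsto_const_nhds
      · exact (hinv.const_mul _).add tendsto_const_nhds
    norm_num at h
    refine h.congr' ?_
    filter_upwards [eventually_ge_atTop 1] with n hn
    have hn0 : (0 : ℝ) < n := by exact_mod_cast hn
    field_simp
  have h := (((Real.GammaSeq_tendsto_Gamma (2 / 3)).div (Real.GammaSeq_tendsto_Gamma (1 / 3))
    hG1.ne').mul hr).const_mul ((2 : ℝ) ^ (1 / 3 : ℝ))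
  refine h.congr' ?_
  filter_upwards [eventually_ge_atTop 1] with n hn
  have hn0 : (0 : ℝ) < n := by exact_mod_cast hn
  have h1 := rp_ratio hn
  rw [prod_eq_rp]
  simp only [Pi.div_apply]
  rw [← h1]
  have h2 : (2 * n : ℝ) ^ (2 / 3 : ℝ) = (2 : ℝ) ^ (2 / 3 : ℝ) * (n : ℝ) ^ (2 / 3 : ℝ) :=
    Real.mul_rpow (by norm_num) hn0.le
  have h3 : (2 : ℝ) ^ (1 / 3 : ℝ) * (2 : ℝ) ^ (2 / 3 : ℝ) = 2 := by
    rw [← Real.rpow_add (by norm_num)]; norm_num
  have h4 : (n : ℝ) ^ (1 / 3 : ℝ) * (n : ℝ) ^ (2 / 3 : ℝ) = n := by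
    rw [← Real.rpow_add hn0]; norm_num
  have h5 : (0 : ℝ) < (2 : ℝ) ^ (2 / 3 : ℝ) := Real.rpow_pos_of_pos (by norm_num) _
  have h6 : (0 : ℝ) < (n : ℝ) ^ (2 / 3 : ℝ) := Real.rpow_pos_of_pos hn0 _
  rw [h2, eq_div_iff (mul_pos h5 h6).ne']
  calc (2 : ℝ) ^ (1 / 3 : ℝ) * ((n : ℝ) ^ (1 / 3 : ℝ) * (rp (1 / 3) n / rp (2 / 3) n)) *
        ((2 : ℝ) ^ (2 / 3 : ℝ) * (n : ℝ) ^ (2 / 3 : ℝ))
      = ((2 : ℝ) ^ (1 / 3 : ℝ) * (2 : ℝ) ^ (2 / 3 : ℝ)) *
        ((n : ℝ) ^ (1 / 3 : ℝ) * (n : ℝ) ^ (2 / 3 : ℝ)) * (rp (1 / 3) n / rp (2 / 3) n) := by ring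
    _ = 2 * (n : ℝ) * (rp (1 / 3) n / rp (2 / 3) n) := by rw [h3, h4]

end Pool.Agent.H21.Stair
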