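import Pool.Agent.H21.Stair.Model

/-!
# Memory loss of the row operators with deterministic vertical strands
-/

open Filter Topology

namespace Pool.Agent.H21.Stair

open Pool.Agent.H65.Perc Pool.Agent.H65.Perc.St Pool.Agent.H65.Perc.Exq Pool.Agent.H21.Perc

namespace Mem

variable {L : ℕ}

/-- the relabelling produced by the first `j` crossings of type `true` -/
def piT (L : ℕ) : ℕ → Equiv.Perm (Lab L)
  | 0 => 1
  | j + 1 => if h : j < L then piT L j * Equiv.swap (Sum.inl ⟨j, h⟩) (ly 0) else piT L j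

theorem piT_spec : ∀ j ≤ L,
    (∀ i : Fin L, j ≤ i.val → piT L j (Sum.inl i) = Sum.inl i) ∧
    (∀ i : Fin L, i.val < j → i.val = 0 → piT L j (Sum.inl i) = ly 0) ∧
    (∀ i i' : Fin L, i.val < j → i.val = i'.val + 1 → piT L j (Sum.inl i) = Sum.inl i') ∧
    (j = 0 → piT L j (ly 0) = ly 0) ∧
    (∀ i : Fin L, i.val + 1 = j → piT L j (ly 0) = Sum.inl i) ∧
    (∀ a : Fin 3 × Bool, a ≠ (0, true) → piT L j (Sum.inr a) = Sum.inr a)
  | 0, _ => by
    refine ⟨fun i _ => rfl, fun i h => absurd h (by omega), fun i i' h => absurd h (by omega),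
      fun _ => rfl, fun i h => absurd h (by omega), fun a _ => rfl⟩
  | j + 1, hj => by
    have hjL : j < L := by omega
    obtain ⟨h1, h2, h3, h4, h5, h6⟩ := piT_spec j (by omega)
    have hdef : piT L (j + 1) = piT L j * Equiv.swap (Sum.inl ⟨j, hjL⟩) (ly 0) := by
      simp [piT, hjL]
    have hne : ∀ i : Fin L, (Sum.inl i : Lab L) ≠ ly 0 := fun i => by simp [ly]
    have hy : piT L j (ly 0) = if hj0 : j = 0 then ly 0 else Sum.inl ⟨j - 1, by omega⟩ := by
      split_ifs with hj0
      · exact h4 hj0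
      · exact h5 ⟨j - 1, by omega⟩ (by simp only; omega)
    have hself : piT L (j + 1) (Sum.inl ⟨j, hjL⟩) = piT L j (ly 0) := by
      rw [hdef, Equiv.Perm.mul_apply, Equiv.swap_apply_left]
    have hyy : piT L (j + 1) (ly 0) = Sum.inl ⟨j, hjL⟩ := by
      rw [hdef, Equiv.Perm.mul_apply, Equiv.swap_apply_right, h1 _ le_rfl]
    have hoth : ∀ i : Fin L, i.val ≠ j → piT L (j + 1) (Sum.inl i) = piT L j (Sum.inl i) := by
      intro i hi
      rw [hdef, Equiv.Perm.mul_apply, Equiv.swap_apply_of_ne_of_ne]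
      · simp only [ne_eq, Sum.inl.injEq, Fin.ext_iff]; exact hi
      · exact hne i
    refine ⟨?_, ?_, ?_, ?_, ?_, ?_⟩
    · intro i hi
      rw [hoth i (by omega), h1 i (by omega)]
    · intro i hi h0
      by_cases hij : i.val = j
      · have : i = ⟨j, hjL⟩ := Fin.ext hij
        subst this
        rw [hself, hy, dif_pos h0]
      · rw [hoth i hij, h2 i (by omega) h0]
    · intro i i' hi h0
      by_cases hij : i.val = j
      · have : i = ⟨j, hjL⟩ := Fin.ext hij
        subst this
        simp only at h0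
        rw [hself, hy, dif_neg (by omega)]
        congr 1
        apply Fin.ext
        simp only
        omega
      · rw [hoth i hij, h3 i i' (by omega) h0]
    · intro h; omega
    · intro i hi
      rw [hyy]
      congr 1
      apply Fin.ext
      simp only
      omega
    · intro a ha
      rw [hdef, Equiv.Perm.mul_apply, Equiv.swap_apply_of_ne_of_ne, h6 a ha]
      · simp
      · intro h
        apply ha
        simpa [ly] using h

theorem sweep_true_take (s : St (Lab L)) : ∀ j ≤ L,
    ((List.finRange L).take j).foldl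
      (fun s i => crossing true (Sum.inl i) (ly 0) s) s = perm (piT L j) s
  | 0, _ => by
    rw [List.take_zero, List.foldl_nil]
    rfl
  | j + 1, hj => by
    have hjL : j < L := by omega
    have hlen : j < (List.finRange L).length := by simp; omega
    rw [List.take_succ_eq_append_getElem hlen, List.foldl_append, List.foldl_cons, List.foldl_nil,
      List.getElem_finRange, sweep_true_take s j (by omega)]
    simp only [crossing, if_true]
    rw [swap_eq_perm, perm_perm]
    congr 1
    simp [piT, hjL]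

theorem sweep_true (s : St (Lab L)) : sweep 0 (fun _ => true) s = perm (piT L L) s := by
  have h := sweep_true_take s L le_rfl
  rw [List.take_of_length_le (by simp)] at h
  exact h

/-- the all-`true` row is the inverse of the rotation -/
theorem rot_rowMap_true [NeZero L] (s : St (Lab L)) (hs : AllIdle s) :
    rot (rowMap 0 (fun _ => true) s) = s := by
  have hL : 0 < L := Nat.pos_of_ne_zero (NeZero.ne L)
  obtain ⟨-, hp0, hps, -, hpy, hpo⟩ := piT_spec (L := L) L le_rfl
  unfold rowMap closeLine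
  rw [sweep_true]
  set π := piT L L with hπ
  set la : Fin L := ⟨L - 1, by omega⟩ with hla
  have hπ0 : π (Sum.inl 0) = ly 0 := hp0 0 (by simpa using hL) (by simp)
  have hπy : π (ly 0) = Sum.inl la := hpy la (by simp only [hla]; omega)
  have hπx : π (lx 0) = lx 0 := hpo _ (by simp)
  have hρla : rho L (Sum.inl la) = Sum.inl 0 := by
    rw [rho_inl]
    congr 1
    have h := finRotate_val la
    split_ifs at h with h0
    · exact h0
    · exfalso
      have := (finRotate L la).isLt
      simp only [hla] at h this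
      omega
  have hρ : ∀ j : Fin L, j ≠ la → π (rho L (Sum.inl j)) = Sum.inl j ∧
      rho L (Sum.inl j) ≠ Sum.inl 0 := by
    intro j hj
    have hj' : j.val ≠ L - 1 := fun h => hj (Fin.ext h)
    have hjl := j.isLt
    have h := finRotate_val j
    rw [rho_inl]
    split_ifs at h with h0
    · exfalso
      rw [h0] at h
      simp only [Fin.val_zero, zero_add] at h
      omega
    · refine ⟨hps _ j (finRotate L j).isLt (by omega), ?_⟩
      simpa using h0
  have hsym : ∀ j : Fin L, j ≠ la → π.symm (Sum.inl j) = rho L (Sum.inl j) := by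
    intro j hj
    rw [Equiv.symm_apply_eq, (hρ j hj).1]
  have hsymla : π.symm (Sum.inl la) = ly 0 := by
    rw [Equiv.symm_apply_eq, hπy]
  have hsymy : π.symm (ly 0) = Sum.inl 0 := by
    rw [Equiv.symm_apply_eq, hπ0]
  have hxy : (lx 0 : Lab L) ≠ ly 0 := by simp [lx, ly]
  obtain ⟨la', hla'⟩ := partner_strand hs la
  have hlane : la' ≠ la := by
    intro h
    rw [h] at hla'
    exact s.ne _ hla'
  have hla2 : s.p (Sum.inl la') = Sum.inl la := by rw [← hla', s.inv]
  have hgla2 : s.g (Sum.inl la') = - s.g (Sum.inl la) := by rw [← hla', s.gs]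
  set t := twist (lx 0) 1 (perm π s) with ht
  have tpx : t.p (lx 0) = Sum.inl 0 := by
    rw [ht, twist_p, perm_p, hπx, (hs 0).1, hsymy]
  have tp0 : t.p (Sum.inl 0) = lx 0 := by rw [← tpx, t.inv]
  have tpy : t.p (ly 0) = rho L (Sum.inl la') := by
    rw [ht, twist_p, perm_p, hπy, hla', hsym la' hlane]
  have tgx : t.g (lx 0) = 1 := by
    rw [ht, twist_g, perm_g, hπx, (hs 0).2]
    simp
  have hy0 : (ly 0 : Lab L) ≠ Sum.inl 0 := by simp [ly]
  have tgy : t.g (ly 0) = s.g (Sum.inl la) := by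
    rw [ht, twist_g, perm_g, hπy, if_neg hxy.symm, if_neg]
    rw [perm_p, hπx, (hs 0).1, hsymy]
    exact hy0
  have hx0 : (lx 0 : Lab L) ≠ Sum.inl 0 := by simp [lx]
  have hρl : ∀ j : Fin L, rho L (Sum.inl j) ≠ lx 0 ∧ rho L (Sum.inl j) ≠ ly 0 := by
    intro j; rw [rho_inl]; simp [lx, ly]
  -- strands
  have cp : ∀ i i' : Fin L, s.p (Sum.inl i) = Sum.inl i' →
      (join (lx 0) (ly 0) t).p (rho L (Sum.inl i)) = rho L (Sum.inl i') := by
    intro i i' hii
    rw [join_p hxy, if_neg (hρl i).1, if_neg (hρl i).2, tpx, tpy]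
    by_cases hi : i = la
    · subst hi
      rw [hρla, if_pos rfl]
      rw [hla'] at hii
      rw [← hii]
    · rw [if_neg (hρ i hi).2]
      by_cases hi' : i' = la
      · subst hi'
        have : i = la' := by
          have h1 := s.inv (Sum.inl i)
          rw [hii, hla'] at h1
          simpa using h1.symm
        subst this
        rw [if_pos rfl, hρla]
      · have hne : rho L (Sum.inl i) ≠ rho L (Sum.inl la') := by
          intro h
          have := (rho L).injective h
          rw [this, hla2] at hii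
          exact hi' (Sum.inl.inj hii).symm
        rw [if_neg hne, ht, twist_p, perm_p, (hρ i hi).1, hii, hsym i' hi']
  have cg : ∀ i i' : Fin L, s.p (Sum.inl i) = Sum.inl i' →
      (join (lx 0) (ly 0) t).g (rho L (Sum.inl i))
        = s.g (Sum.inl i) - (if i = la then 1 else 0) + (if i' = la then 1 else 0) := by
    intro i i' hii
    rw [join_g hxy, if_neg (by simp [(hρl i).1, (hρl i).2]), tpx, tpy]
    by_cases hi : i = la
    · subst hi
      rw [hla'] at hii
      have : i' = la' := (Sum.inl.inj hii).symm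
      subst this
      rw [hρla, if_pos rfl, tgx, tgy, if_pos rfl, if_neg hlane]
      ring
    · rw [if_neg (hρ i hi).2]
      by_cases hi' : i' = la
      · subst hi'
        have : i = la' := by
          have h1 := s.inv (Sum.inl i)
          rw [hii, hla'] at h1
          simpa using h1.symm
        subst this
        rw [if_pos rfl, tgx, tgy, if_neg hi, if_pos rfl, hgla2]
        ring
      · have hne : rho L (Sum.inl i) ≠ rho L (Sum.inl la') := by
          intro h
          have := (rho L).injective h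
          rw [this, hla2] at hii
          exact hi' (Sum.inl.inj hii).symm
        rw [if_neg hne, ht, twist_g, if_neg (hρl i).1, if_neg, perm_g, (hρ i hi).1, if_neg hi,
          if_neg hi']
        · ring
        · rw [perm_p, hπx, (hs 0).1, hsymy]
          exact (hρ i hi).2
  have hρ0 : ∀ i : Fin L, (rho L (Sum.inl i) = Sum.inl 0) ↔ i = la := by
    intro i
    constructor
    · intro h
      by_contra hi
      exact (hρ i hi).2 h
    · rintro rfl; exact hρla
  -- the labels of the lines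
  have ca : ∀ k : Fin 3, (join (lx 0) (ly 0) t).p (lx k) = ly k ∧
      (join (lx 0) (ly 0) t).g (lx k) = 0 := by
    intro k
    by_cases hk : k = 0
    · subst hk
      rw [join_p hxy, join_g hxy]
      simp
    · have hxk : (lx k : Lab L) ≠ lx 0 := by
        simp only [lx, ne_eq, Sum.inr.injEq, Prod.mk.injEq, and_true]; exact hk
      have hyk : (ly k : Lab L) ≠ ly 0 := by
        simp only [ly, ne_eq, Sum.inr.injEq, Prod.mk.injEq, and_true]; exact hk
      have hxk2 : (lx k : Lab L) ≠ ly 0 := by simp [lx, ly]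
      have hπk : π (lx k) = lx k := hpo _ (by simp)
      have hπk2 : π (ly k) = ly k := hpo _ (by simp [hk])
      have hsk : π.symm (ly k) = ly k := by rw [Equiv.symm_apply_eq, hπk2]
      have e1 : (lx k : Lab L) ≠ Sum.inl 0 := by simp [lx]
      have e2 : (lx k : Lab L) ≠ rho L (Sum.inl la') := by rw [rho_inl]; simp [lx]
      rw [join_p hxy, join_g hxy, if_neg hxk, if_neg hxk2, tpx, tpy, if_neg e1, if_neg e2,
        if_neg (by simp [hxk, hxk2]), if_neg e1, if_neg e2, ht, twist_p, twist_g, perm_p, perm_g,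
        hπk, (hs k).1, (hs k).2, hsk, if_neg hxk, if_neg]
      · exact ⟨rfl, rfl⟩
      · rw [perm_p, hπx, (hs 0).1, hsymy]
        exact e1
  have cay : ∀ k : Fin 3, (join (lx 0) (ly 0) t).p (ly k) = lx k ∧
      (join (lx 0) (ly 0) t).g (ly k) = 0 := by
    intro k
    obtain ⟨e1, e2⟩ := ca k
    refine ⟨by rw [← e1, St.inv], by rw [← e1, St.gs, e2, neg_zero]⟩
  ext w
  · rw [rot_p]
    rcases w with i | ⟨k, b⟩
    · obtain ⟨i', hi'⟩ := partner_strand hs i
      rw [cp i i' hi', Equiv.symm_apply_apply, hi']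
    · cases b
      · change (rho L).symm ((join (lx 0) (ly 0) t).p (lx k)) = s.p (lx k)
        rw [(ca k).1, (hs k).1]; rfl
      · change (rho L).symm ((join (lx 0) (ly 0) t).p (ly k)) = s.p (ly k)
        have : s.p (ly k) = lx k := by rw [← (hs k).1, s.inv]
        rw [(cay k).1, this]; rfl
  · rw [rot_g]
    rcases w with i | ⟨k, b⟩
    · obtain ⟨i', hi'⟩ := partner_strand hs i
      rw [cp i i' hi', cg i i' hi', if_congr (hρ0 i) rfl rfl, if_congr (hρ0 i') rfl rfl]
      ring
    · cases b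
      · change (join (lx 0) (ly 0) t).g (lx k) + (if (lx k : Lab L) = Sum.inl 0 then 1 else 0)
          - (if (join (lx 0) (ly 0) t).p (lx k) = Sum.inl 0 then 1 else 0) = s.g (lx k)
        rw [(ca k).1, (ca k).2, (hs k).2, if_neg (by simp [lx]), if_neg (by simp [ly])]
        ring
      · change (join (lx 0) (ly 0) t).g (ly k) + (if (ly k : Lab L) = Sum.inl 0 then 1 else 0)
          - (if (join (lx 0) (ly 0) t).p (ly k) = Sum.inl 0 then 1 else 0) = s.g (ly k)
        have : s.g (ly k) = 0 := by rw [← (hs k).1, s.gs, (hs k).2, neg_zero]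
        rw [(cay k).1, (cay k).2, this, if_neg (by simp [ly]), if_neg (by simp [lx])]
        ring

/-- a crossing of type `false` at the strand `1` joins the strands `0` and `1` first -/
theorem rowMap_false_one (row : Fin (L + 2) → Bool) (hrow : ∀ i, row i = decide (i ≠ 1))
    (s : St (Lab (L + 2))) :
    rowMap 0 row s = rowMap 0 (fun _ => true) (join (Sum.inl 0) (Sum.inl 1) s) := by
  unfold rowMap
  congr 1
  unfold sweep
  rw [List.finRange_succ, List.finRange_succ]
  simp only [List.map_cons, List.map_map, List.foldl_cons, List.foldl_map, Function.comp_apply,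
    Fin.succ_zero_eq_one]
  have h0 : row 0 = true := by rw [hrow]; simp
  have h1 : row 1 = false := by rw [hrow]; simp
  have h2 : ∀ x : Fin L, row x.succ.succ = true := by
    intro x
    rw [hrow]
    simp only [decide_eq_true_eq, ne_eq, Fin.ext_iff, Fin.val_succ]
    simp
  rw [h0, h1]
  simp only [h2]
  congr 1
  simp only [crossing, if_true, Bool.false_eq_true, if_false]
  have h01 : (Sum.inl 0 : Lab (L + 2)) ≠ Sum.inl 1 := by simp
  have hy : (ly 0 : Lab (L + 2)) ≠ Sum.inl 1 := by simp [ly]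
  rw [swap_eq_perm (Sum.inl 0) (ly 0) (join _ _ _), perm_join _ h01, Equiv.symm_swap,
    Equiv.swap_apply_left, Equiv.swap_apply_of_ne_of_ne h01.symm hy.symm, ← swap_eq_perm,
    swap_comm (Sum.inl 1) (ly 0), swap_join hy, join_comm]

/-- rotation covariance of the rows -/
theorem rowMap_rot_iterate [NeZero L] {b : ℤ → Bool} (hb : ∀ k, b (k + L) = b k) (m : ℕ)
    {s : St (Lab L)} (hs : AllIdle s) :
    rowMap 0 (fun i : Fin L => b ((i.val : ℤ) + m)) (rot^[m] s)
      = rot^[m] (rowMap 0 (fun i : Fin L => b (i.val : ℤ)) s) := by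
  classical
  set w : ℤ → ℝ := fun k => if b k then 1 else 0 with hw
  have hper : Per L w := by intro k; simp only [hw, hb]
  have hpr : ∀ (k : ℤ) (c : Bool), pr (w k) c = if c = b k then 1 else 0 := by
    intro k c
    simp only [pr, hw]
    cases c <;> cases b k <;> simp
  have hsum : ∀ (v : ℤ → ℝ) (b' : ℤ → Bool), (∀ k c, pr (v k) c = if c = b' k then 1 else 0) →
      ∀ F : (Fin L → Bool) → ℝ, ∑ row : Fin L → Bool, (∏ i : Fin L, pr (v i.val) (row i)) * F row
        = F (fun i => b' (i.val : ℤ)) := by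
    intro v b' hv F
    rw [Finset.sum_eq_single (fun i : Fin L => b' (i.val : ℤ))]
    · rw [Finset.prod_eq_one, one_mul]
      intro i _
      rw [hv, if_pos rfl]
    · intro row _ hne
      obtain ⟨i, hi⟩ : ∃ i, row i ≠ b' (i.val : ℤ) := by
        by_contra hcon
        push Not at hcon
        exact hne (funext hcon)
      rw [Finset.prod_eq_zero (Finset.mem_univ i), zero_mul]
      rw [hv, if_neg hi]
    · intro h
      exact absurd (Finset.mem_univ _) h
  set f : St (Lab L) → ℝ := fun s' =>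
    if s' = rot^[m] (rowMap 0 (fun i : Fin L => b (i.val : ℤ)) s) then 1 else 0 with hf
  have h := iT_rot_iterate (L := L) 1 hper 0 m f s
  rw [iT_one_apply _ _ ((allIdle_iterate s m).2 hs), iT_one_apply _ _ hs] at h
  rw [hsum (sh m w) (fun k => b (k + m)) (fun k c => by rw [sh_apply, hpr]),
    hsum w b hpr] at h
  simp only [hf, if_true] at h
  by_contra hcon
  rw [if_neg hcon] at h
  norm_num at h

/-- the word of rows -/
def word (R T : Fin L → Bool) : ℕ → List (Fin L → Bool)
  | 0 => [R]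
  | k + 1 => R :: T :: word R T k

theorem mem_word {R T row : Fin L → Bool} {k : ℕ} (h : row ∈ word R T k) : row = R ∨ row = T := by
  induction k with
  | zero => left; simpa [word] using h
  | succ k ih =>
    simp only [word, List.mem_cons] at h
    rcases h with h | h | h
    · exact Or.inl h
    · exact Or.inr h
    · exact ih h

/-- apply the rows one after the other -/
def runL (rows : List (Fin L → Bool)) (s : St (Lab L)) : St (Lab L) :=
  rows.foldl (fun s row => rowMap 0 row s) s

theorem runL_cons (row : Fin L → Bool) (rows : List (Fin L → Bool)) (s : St (Lab L)) :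
    runL (row :: rows) s = runL rows (rowMap 0 row s) := rfl

theorem runL_rot [NeZero L] {R T R' T' : Fin L → Bool} (m : ℕ)
    (hR : ∀ s : St (Lab L), AllIdle s → rowMap 0 R' (rot^[m] s) = rot^[m] (rowMap 0 R s))
    (hT : ∀ s : St (Lab L), AllIdle s → rowMap 0 T' (rot^[m] s) = rot^[m] (rowMap 0 T s))
    (k : ℕ) {s : St (Lab L)} (hs : AllIdle s) :
    runL (word R' T' k) (rot^[m] s) = rot^[m] (runL (word R T k) s) := by
  induction k generalizing s with
  | zero => exact hR s hs
  | succ k ih =>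
    have h1 := allIdle_rowMap 0 R s hs
    have h2 := allIdle_rowMap 0 T _ h1
    simp only [word, runL_cons]
    rw [hR s hs, hT _ h1, ih h2]

/-- small arcs at the positions `2 j` for `1 ≤ j ≤ k` -/
def Arcs (n k : ℕ) (s : St (Lab (2 * n))) : Prop :=
  ∀ i i' : Fin (2 * n), 2 ≤ i.val → i.val ≤ 2 * k → i.val % 2 = 0 → i'.val = i.val + 1 →
    s.p (Sum.inl i) = Sum.inl i' ∧ s.g (Sum.inl i) = 0

theorem rho_val [NeZero L] {i i' : Fin L} (h : i'.val = i.val + 1) :
    rho L (Sum.inl i) = Sum.inl i' := by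
  rw [rho_inl]
  congr 1
  have h1 := finRotate_val i
  apply Fin.ext
  split_ifs at h1 with h0
  · exfalso
    rw [h0] at h1
    simp only [Fin.val_zero, zero_add] at h1
    have := i'.isLt
    omega
  · omega

variable {n : ℕ}

/-- the state after the row `R`, rotated back -/
theorem rot_rowR [NeZero n] {s : St (Lab (2 * n))} (hs : AllIdle s) {i0 i1 : Fin (2 * n)}
    (h0 : i0.val = 0) (h1 : i1.val = 1) :
    rot (rowMap 0 (fun i : Fin (2 * n) => decide (i.val ≠ 1)) s)
      = join (Sum.inl i0) (Sum.inl i1) s ∧ AllIdle (join (Sum.inl i0) (Sum.inl i1) s) := by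
  have hn := Nat.pos_of_ne_zero (NeZero.ne n)
  have key : ∀ (M : ℕ) [NeZero M] (j0 j1 : Fin M) (u : St (Lab M)), AllIdle u → j0.val = 0 →
      j1.val = 1 → rot (rowMap 0 (fun i : Fin M => decide (i.val ≠ 1)) u)
        = join (Sum.inl j0) (Sum.inl j1) u ∧ AllIdle (join (Sum.inl j0) (Sum.inl j1) u) := by
    intro M _ j0 j1 u hu hj0 hj1
    obtain ⟨M', rfl⟩ : ∃ M', M = M' + 2 := ⟨M - 2, by have := j1.isLt; omega⟩
    have e0 : j0 = 0 := Fin.ext (by simpa using hj0)
    have e1 : j1 = 1 := Fin.ext (by simpa using hj1)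
    subst e0 e1
    have hidle : AllIdle (join (Sum.inl 0) (Sum.inl 1) u) := by
      intro k
      have h01 : (Sum.inl 0 : Lab (M' + 2)) ≠ Sum.inl 1 := by simp
      obtain ⟨k0, hk0⟩ := partner_strand hu 0
      obtain ⟨k1, hk1⟩ := partner_strand hu 1
      rw [join_p h01, join_g h01, hk0, hk1]
      simp only [lx, reduceCtorEq, if_false, or_self]
      have := hu k
      simpa [lx] using this
    refine ⟨?_, hidle⟩
    rw [rowMap_false_one _ (fun i => ?_), rot_rowMap_true _ hidle]
    simp [Fin.ext_iff]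
  exact key (2 * n) i0 i1 s hs h0 h1

/-- one more small arc -/
theorem arcs_step [NeZero n] {k : ℕ} (hk : k + 1 < n) {s : St (Lab (2 * n))} (hs : AllIdle s)
    (hA : Arcs n k s) : Arcs n (k + 1)
      (rowMap 0 (fun _ => true) (rowMap 0 (fun i : Fin (2 * n) => decide (i.val ≠ 1)) s)) := by
  set s1 := rowMap 0 (fun i : Fin (2 * n) => decide (i.val ≠ 1)) s with hs1
  set s2 := rowMap 0 (fun _ => true) s1 with hs2
  have hid1 : AllIdle s1 := allIdle_rowMap 0 _ s hs
  obtain ⟨hr1, hidj⟩ := rot_rowR hs (i0 := ⟨0, by omega⟩) (i1 := ⟨1, by omega⟩) rfl rfl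
  rw [← hs1] at hr1
  set u := join (Sum.inl (⟨0, by omega⟩ : Fin (2 * n))) (Sum.inl ⟨1, by omega⟩) s with hu
  have hr2 : rot s2 = s1 := rot_rowMap_true s1 hid1
  have h01 : (Sum.inl (⟨0, by omega⟩ : Fin (2 * n)) : Lab (2 * n)) ≠ Sum.inl ⟨1, by omega⟩ := by
    simp
  -- arcs of `u`
  have hu2 : ∀ i i' : Fin (2 * n), i.val ≤ 2 * k → i.val % 2 = 0 → i'.val = i.val + 1 →
      u.p (Sum.inl i) = Sum.inl i' ∧ u.g (Sum.inl i) = 0 := by
    intro i i' hik hev hii
    by_cases hi0 : i.val = 0
    · have e0 : i = ⟨0, by omega⟩ := Fin.ext hi0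
      have e1 : i' = ⟨1, by omega⟩ := Fin.ext (by simp only; omega)
      rw [e0, e1, hu, join_p h01, join_g h01]
      simp
    · obtain ⟨a1, a2⟩ := hA i i' (by omega) hik hev hii
      have a3 : s.p (Sum.inl i') = Sum.inl i := by rw [← a1, s.inv]
      have n0 : (Sum.inl i : Lab (2 * n)) ≠ Sum.inl ⟨0, by omega⟩ := by
        simp only [ne_eq, Sum.inl.injEq, Fin.ext_iff]; omega
      have n1 : (Sum.inl i : Lab (2 * n)) ≠ Sum.inl ⟨1, by omega⟩ := by
        simp only [ne_eq, Sum.inl.injEq, Fin.ext_iff]; omega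
      have m0 : (Sum.inl i' : Lab (2 * n)) ≠ Sum.inl ⟨0, by omega⟩ := by
        simp only [ne_eq, Sum.inl.injEq, Fin.ext_iff]; omega
      have m1 : (Sum.inl i' : Lab (2 * n)) ≠ Sum.inl ⟨1, by omega⟩ := by
        simp only [ne_eq, Sum.inl.injEq, Fin.ext_iff]; omega
      have n2 : (Sum.inl i : Lab (2 * n)) ≠ s.p (Sum.inl ⟨0, by omega⟩) := by
        intro h; apply m0; rw [← a1, h, s.inv]
      have n3 : (Sum.inl i : Lab (2 * n)) ≠ s.p (Sum.inl ⟨1, by omega⟩) := by
        intro h; apply m1; rw [← a1, h, s.inv]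
      rw [hu, join_p h01, join_g h01, if_neg n0, if_neg n1, if_neg n2, if_neg n3,
        if_neg (by simp only [n0, n1, or_self, not_false_eq_true]), if_neg n2, if_neg n3]
      exact ⟨a1, a2⟩
  intro i i' hi2 hik hev hii
  have hil := i.isLt
  have hil' := i'.isLt
  -- the strands two steps before
  set a : Fin (2 * n) := ⟨i.val - 2, by omega⟩ with ha
  set a' : Fin (2 * n) := ⟨i.val - 1, by omega⟩ with ha'
  obtain ⟨b1, b2⟩ := hu2 a a' (by simp only [ha]; omega) (by simp only [ha]; omega)
    (by simp only [ha, ha']; omega)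
  have r1 : rho (2 * n) (Sum.inl a) = Sum.inl a' := rho_val (by simp only [ha, ha']; omega)
  have r2 : rho (2 * n) (Sum.inl a') = Sum.inl i := rho_val (by simp only [ha']; omega)
  have r3 : rho (2 * n) (Sum.inl i) = Sum.inl i' := rho_val hii
  have z0 : ∀ j : Fin (2 * n), 0 < j.val → (Sum.inl j : Lab (2 * n)) ≠ Sum.inl 0 := by
    intro j hj h
    have h1 : j = 0 := Sum.inl.inj h
    rw [h1] at hj
    simp at hj
  -- first rotation
  have c1 : s1.p (Sum.inl a') = Sum.inl i := by
    have h := congrArg (fun v : St (Lab (2 * n)) => v.p (Sum.inl a)) hr1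
    simp only [rot_p] at h
    rw [b1, Equiv.symm_apply_eq, r1, r2] at h
    exact h
  have c2 : s1.g (Sum.inl a') = 0 := by
    have h := congrArg (fun v : St (Lab (2 * n)) => v.g (Sum.inl a)) hr1
    simp only [rot_g] at h
    rw [r1, c1, b2, if_neg (z0 a' (by simp only [ha']; omega)), if_neg (z0 i (by omega))] at h
    linarith
  -- second rotation
  have d1 : s2.p (Sum.inl i) = Sum.inl i' := by
    have h := congrArg (fun v : St (Lab (2 * n)) => v.p (Sum.inl a')) hr2
    simp only [rot_p] at h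
    rw [c1, Equiv.symm_apply_eq, r2, r3] at h
    exact h
  have d2 : s2.g (Sum.inl i) = 0 := by
    have h := congrArg (fun v : St (Lab (2 * n)) => v.g (Sum.inl a')) hr2
    simp only [rot_g] at h
    rw [r2, d1, c2, if_neg (z0 i (by omega)), if_neg (z0 i' (by omega))] at h
    linarith
  exact ⟨d1, d2⟩

/-- all the small arcs are there -/
theorem join_eq_pi0 {s : St (Lab (2 * n))} {i0 i1 : Fin (2 * n)} (h0 : i0.val = 0)
    (h1 : i1.val = 1) (hid : AllIdle (join (Sum.inl i0) (Sum.inl i1) s)) (hA : Arcs n (n - 1) s) :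
    join (Sum.inl i0) (Sum.inl i1) s = pi0 n := by
  set u := join (Sum.inl i0) (Sum.inl i1) s with hu
  have h01 : (Sum.inl i0 : Lab (2 * n)) ≠ Sum.inl i1 := by
    simp only [ne_eq, Sum.inl.injEq, Fin.ext_iff]; omega
  have hu2 : ∀ i i' : Fin (2 * n), i.val % 2 = 0 → i'.val = i.val + 1 →
      u.p (Sum.inl i) = Sum.inl i' ∧ u.g (Sum.inl i) = 0 := by
    intro i i' hev hii
    by_cases hi0 : i.val = 0
    · have e0 : i = i0 := Fin.ext (by omega)
      have e1 : i' = i1 := Fin.ext (by omega)
      subst e0 e1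
      rw [hu, join_p h01, join_g h01]
      simp
    · have hil := i.isLt
      obtain ⟨a1, a2⟩ := hA i i' (by omega) (by omega) hev hii
      have n0 : (Sum.inl i : Lab (2 * n)) ≠ Sum.inl i0 := by
        simp only [ne_eq, Sum.inl.injEq, Fin.ext_iff]; omega
      have n1 : (Sum.inl i : Lab (2 * n)) ≠ Sum.inl i1 := by
        simp only [ne_eq, Sum.inl.injEq, Fin.ext_iff]; omega
      have m0 : (Sum.inl i' : Lab (2 * n)) ≠ Sum.inl i0 := by
        simp only [ne_eq, Sum.inl.injEq, Fin.ext_iff]; omega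
      have m1 : (Sum.inl i' : Lab (2 * n)) ≠ Sum.inl i1 := by
        simp only [ne_eq, Sum.inl.injEq, Fin.ext_iff]; omega
      have n2 : (Sum.inl i : Lab (2 * n)) ≠ s.p (Sum.inl i0) := by
        intro h; apply m0; rw [← a1, h, s.inv]
      have n3 : (Sum.inl i : Lab (2 * n)) ≠ s.p (Sum.inl i1) := by
        intro h; apply m1; rw [← a1, h, s.inv]
      rw [hu, join_p h01, join_g h01, if_neg n0, if_neg n1, if_neg n2, if_neg n3,
        if_neg (by simp only [n0, n1, or_self, not_false_eq_true]), if_neg n2, if_neg n3]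
      exact ⟨a1, a2⟩
  have main : ∀ w : Lab (2 * n), u.p w = (pi0 n).p w ∧ u.g w = 0 := by
    intro w
    rcases w with i | ⟨k, b⟩
    · have hil := i.isLt
      rcases Nat.mod_two_eq_zero_or_one i.val with he | he
      · obtain ⟨a1, a2⟩ := hu2 i ⟨i.val + 1, by omega⟩ he rfl
        refine ⟨?_, a2⟩
        rw [a1]
        simp only [pi0, he, if_true]
      · obtain ⟨a1, a2⟩ := hu2 ⟨i.val - 1, by omega⟩ i (by simp only; omega) (by simp only; omega)
        refine ⟨?_, ?_⟩
        · have h5 : u.p (Sum.inl i) = Sum.inl ⟨i.val - 1, by omega⟩ := by rw [← a1, u.inv]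
          rw [h5]
          simp only [pi0, Sum.inl.injEq, Fin.mk.injEq]
          rw [if_neg (by omega)]
        · rw [← a1, u.gs, a2, neg_zero]
    · cases b
      · exact ⟨(hid k).1, (hid k).2⟩
      · constructor
        · change u.p (ly k) = lx k
          rw [← (hid k).1, u.inv]
        · change u.g (ly k) = 0
          rw [← (hid k).1, u.gs, (hid k).2, neg_zero]
  ext w
  · exact (main w).1
  · rw [(main w).2]; rfl

theorem runL_word [NeZero n] : ∀ (k j : ℕ), k + j + 1 = n → ∀ s : St (Lab (2 * n)), AllIdle s →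
    Arcs n j s →
    rot (runL (word (fun i : Fin (2 * n) => decide (i.val ≠ 1)) (fun _ => true) k) s) = pi0 n
  | 0, j, hkj, s, hs, hA => by
    have hn := Nat.pos_of_ne_zero (NeZero.ne n)
    obtain ⟨hr1, hidj⟩ := rot_rowR hs (i0 := ⟨0, by omega⟩) (i1 := ⟨1, by omega⟩) rfl rfl
    have hj : j = n - 1 := by omega
    subst hj
    change rot (rowMap 0 (fun i : Fin (2 * n) => decide (i.val ≠ 1)) s) = pi0 n
    rw [hr1]
    exact join_eq_pi0 rfl rfl hidj hA
  | k + 1, j, hkj, s, hs, hA => by
    simp only [word, runL_cons]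
    have h1 := allIdle_rowMap 0 (fun i : Fin (2 * n) => decide (i.val ≠ 1)) s hs
    have h2 := allIdle_rowMap 0 (fun _ => true) _ h1
    exact runL_word k (j + 1) (by omega) _ h2 (arcs_step (by omega) hs hA)

end Mem

open Mem

theorem exists_reset_rows (n : ℕ) [NeZero n] {h : ℤ → Bool}
    (hp : ∀ k, h (k + ((2 * n : ℕ) : ℤ)) = h k)
    (hex : ∃ k, h k = true) :
    ∃ (rows : List (Fin (2 * n) → Bool)) (s0 : St (Lab (2 * n))), Planar s0 ∧
      (∀ row ∈ rows, ∀ i : Fin (2 * n), h i.val = false → row i = true) ∧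
      ∀ s, AllIdle s → rows.foldl (fun s row => rowMap 0 row s) s = s0 := by
  classical
  have hn := Nat.pos_of_ne_zero (NeZero.ne n)
  have hL : (0 : ℤ) < ((2 * n : ℕ) : ℤ) := by exact_mod_cast (by omega : 0 < 2 * n)
  obtain ⟨k, hk⟩ := hex
  set i0 : ℤ := k % ((2 * n : ℕ) : ℤ) with hi0
  have hi0n : 0 ≤ i0 := Int.emod_nonneg _ hL.ne'
  have hi0l : i0 < ((2 * n : ℕ) : ℤ) := Int.emod_lt_of_pos _ hL
  have hper : ∀ (m j : ℤ), h (j + m * ((2 * n : ℕ) : ℤ)) = h j := by
    intro m
    induction m using Int.induction_on with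
    | zero => intro j; simp
    | succ i ih => intro j; rw [show j + ((i : ℤ) + 1) * ((2 * n : ℕ) : ℤ)
        = (j + i * ((2 * n : ℕ) : ℤ)) + ((2 * n : ℕ) : ℤ) by ring, hp, ih]
    | pred i ih =>
      intro j
      rw [← ih j, ← hp (j + (-(i : ℤ) - 1) * ((2 * n : ℕ) : ℤ))]
      congr 1; ring
  have hhi0 : h i0 = true := by
    have h1 := hper (k / ((2 * n : ℕ) : ℤ)) i0
    have h2 : i0 + k / ((2 * n : ℕ) : ℤ) * ((2 * n : ℕ) : ℤ) = k := by
      rw [hi0, mul_comm (k / ((2 * n : ℕ) : ℤ))]
      exact Int.emod_add_mul_ediv _ _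
    rw [h2, hk] at h1
    exact h1.symm
  -- the row with one `false`
  set b0 : ℤ → Bool := fun j => !decide (j % ((2 * n : ℕ) : ℤ) = i0) with hb0
  set m : ℕ := (i0 + ((2 * n : ℕ) : ℤ) - 1).toNat with hm
  have hm' : (m : ℤ) = i0 + ((2 * n : ℕ) : ℤ) - 1 := by
    rw [hm, Int.toNat_of_nonneg (by omega)]
  have hb0p : ∀ j, b0 (j + ((2 * n : ℕ) : ℤ)) = b0 j := by
    intro j; simp only [hb0, Int.add_emod_right]
  have hb1 : (fun i : Fin (2 * n) => b0 ((i.val : ℤ) + m))
      = fun i : Fin (2 * n) => decide (i.val ≠ 1) := by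
    funext i
    have hil : ((i.val : ℕ) : ℤ) < ((2 * n : ℕ) : ℤ) := by exact_mod_cast i.isLt
    have hin : (0 : ℤ) ≤ ((i.val : ℕ) : ℤ) := by positivity
    have h2n : (2 : ℤ) ≤ ((2 * n : ℕ) : ℤ) := by exact_mod_cast (by omega : 2 ≤ 2 * n)
    simp only [hb0]
    rw [hm', ← decide_not, decide_eq_decide]
    rw [not_iff_not]
    constructor
    · intro hmod
      have h3 : (((i.val : ℤ) + (i0 + ((2 * n : ℕ) : ℤ) - 1)) - i0) % ((2 * n : ℕ) : ℤ) = 0 := by
        rw [Int.sub_emod, hmod, Int.emod_eq_of_lt hi0n hi0l]; simp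
      have h4 : (i.val : ℤ) + (i0 + ((2 * n : ℕ) : ℤ) - 1) - i0
          = ((i.val : ℤ) - 1) + ((2 * n : ℕ) : ℤ) := by ring
      rw [h4, Int.add_emod_right] at h3
      have h5 := Int.dvd_of_emod_eq_zero h3
      obtain ⟨q, hq⟩ := h5
      have hq0 : q = 0 := by
        by_contra hne
        rcases lt_or_gt_of_ne hne with hlt | hgt
        · have : ((2 * n : ℕ) : ℤ) * q ≤ ((2 * n : ℕ) : ℤ) * (-1) :=
            mul_le_mul_of_nonneg_left (by omega) hL.le
          linarith
        · have : ((2 * n : ℕ) : ℤ) * 1 ≤ ((2 * n : ℕ) : ℤ) * q :=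
            mul_le_mul_of_nonneg_left (by omega) hL.le
          linarith
      rw [hq0, mul_zero] at hq
      omega
    · intro hi1
      rw [hi1]
      have h4 : ((1 : ℕ) : ℤ) + (i0 + ((2 * n : ℕ) : ℤ) - 1) = i0 + ((2 * n : ℕ) : ℤ) := by
        push_cast; ring
      rw [h4, Int.add_emod_right, Int.emod_eq_of_lt hi0n hi0l]
  set R : Fin (2 * n) → Bool := fun i => b0 (i.val : ℤ) with hR
  have hcR : ∀ s : St (Lab (2 * n)), AllIdle s →
      rowMap 0 (fun i : Fin (2 * n) => decide (i.val ≠ 1)) (rot^[m] s)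
        = rot^[m] (rowMap 0 R s) := by
    intro s hs
    rw [← hb1]
    exact rowMap_rot_iterate hb0p m hs
  have hcT : ∀ s : St (Lab (2 * n)), AllIdle s →
      rowMap 0 (fun _ => true) (rot^[m] s) = rot^[m] (rowMap 0 (fun _ => true) s) := by
    intro s hs
    exact rowMap_rot_iterate (b := fun _ => true) (fun _ => rfl) m hs
  set rows := word R (fun _ => true) (n - 1) with hrows
  have hrun : ∀ s : St (Lab (2 * n)), AllIdle s → rot^[m + 1] (runL rows s) = pi0 n := by
    intro s hs
    rw [Function.iterate_succ_apply', ← runL_rot m hcR hcT (n - 1) hs]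
    refine runL_word (n - 1) 0 (by omega) _ ((allIdle_iterate s m).2 hs) ?_
    intro i i' h2 h3
    omega
  have hconst : ∀ s : St (Lab (2 * n)), AllIdle s → runL rows s = runL rows (pi0 n) := by
    intro s hs
    apply rot_inj.iterate (m + 1)
    rw [hrun s hs, hrun _ (planar_pi0 n).allIdle]
  refine ⟨rows, runL rows (pi0 n), ?_, ?_, fun s hs => hconst s hs⟩
  · have : ∀ (rs : List (Fin (2 * n) → Bool)) (s : St (Lab (2 * n))), Planar s →
        Planar (runL rs s) := by
      intro rs
      induction rs with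
      | nil => intro s hs; exact hs
      | cons r rs ih => intro s hs; exact ih _ (planar_rowMap hs r)
    exact this rows _ (planar_pi0 n)
  · intro row hrow i hi
    rcases mem_word hrow with rfl | rfl
    · simp only [hR, hb0, Bool.not_eq_true', decide_eq_false_iff_not]
      have hil : ((i.val : ℕ) : ℤ) < ((2 * n : ℕ) : ℤ) := by exact_mod_cast i.isLt
      rw [Int.emod_eq_of_lt (by positivity) hil]
      intro he
      rw [he, hhi0] at hi
      exact absurd hi (by decide)
    · rfl

namespace Mem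

theorem pr_wP_nonneg (h : ℤ → Bool) (k : ℤ) (b : Bool) : 0 ≤ pr (wP h k) b := by
  unfold pr wP
  cases h k <;> cases b <;> norm_num

theorem half_le_pr_wP {h : ℤ → Bool} {k : ℤ} {b : Bool} (hb : h k = false → b = true) :
    1 / 2 ≤ pr (wP h k) b := by
  unfold pr wP
  cases hk : h k
  · rw [hb hk]; norm_num
  · cases b <;> norm_num

variable {n : ℕ} [NeZero n]

theorem iSX_nonneg (h : ℤ → Bool) {f : PX (2 * n) → ℝ} (hf : ∀ x, 0 ≤ f x) (x : PX (2 * n)) :
    0 ≤ iSX (wP h) f x := by
  rw [iSX_apply]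
  exact Finset.sum_nonneg fun row _ =>
    mul_nonneg (Finset.prod_nonneg fun i _ => pr_wP_nonneg h _ _) (hf _)

theorem iSX_row {h : ℤ → Bool} {row : Fin (2 * n) → Bool}
    (hrow : ∀ i : Fin (2 * n), h i.val = false → row i = true) {f : PX (2 * n) → ℝ}
    (hf : ∀ x, 0 ≤ f x) (x : PX (2 * n)) :
    (1 / 2) ^ (2 * n) * f ⟨rowMap 0 row x.1, planar_rowMap x.2 row⟩ ≤ iSX (wP h) f x := by
  rw [iSX_apply]
  refine le_trans ?_ (Finset.single_le_sum (f := fun row => (∏ i : Fin (2 * n),
    pr (wP h i.val) (row i)) * f ⟨rowMap 0 row x.1, planar_rowMap x.2 row⟩)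
      (fun row _ => mul_nonneg (Finset.prod_nonneg fun i _ => pr_wP_nonneg h _ _) (hf _))
      (Finset.mem_univ row))
  refine mul_le_mul_of_nonneg_right ?_ (hf _)
  have := Finset.prod_le_prod (s := Finset.univ) (f := fun _ : Fin (2 * n) => (1 / 2 : ℝ))
    (g := fun i => pr (wP h i.val) (row i)) (fun _ _ => by norm_num)
    (fun i _ => half_le_pr_wP (hrow i))
  simpa using this

theorem planar_runL (rs : List (Fin (2 * n) → Bool)) {s : St (Lab (2 * n))} (hs : Planar s) :
    Planar (runL rs s) := by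
  induction rs generalizing s with
  | nil => exact hs
  | cons r rs ih => exact ih (planar_rowMap hs r)

theorem iSX_pow_succ (w : ℤ → ℝ) (k : ℕ) (f : PX (2 * n) → ℝ) :
    (iSX w ^ (k + 1)) f = iSX w ((iSX w ^ k) f) := by
  rw [pow_succ']; rfl

theorem iSX_pow_nonneg (h : ℤ → Bool) {f : PX (2 * n) → ℝ} (hf : ∀ x, 0 ≤ f x) (k : ℕ) :
    ∀ x, 0 ≤ (iSX (wP h) ^ k) f x := by
  induction k with
  | zero => exact hf
  | succ k ih => intro x; rw [iSX_pow_succ]; exact iSX_nonneg h ih x

theorem iSX_rows {h : ℤ → Bool} (rows : List (Fin (2 * n) → Bool))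
    (hrow : ∀ row ∈ rows, ∀ i : Fin (2 * n), h i.val = false → row i = true)
    {f : PX (2 * n) → ℝ} (hf : ∀ x, 0 ≤ f x) (x : PX (2 * n)) :
    ((1 / 2) ^ (2 * n)) ^ rows.length * f ⟨runL rows x.1, planar_runL rows x.2⟩
      ≤ (iSX (wP h) ^ rows.length) f x := by
  induction rows generalizing x with
  | nil => simp [runL]
  | cons r rs ih =>
    have h1 := iSX_row (hrow r List.mem_cons_self)
      (iSX_pow_nonneg h hf rs.length) x
    have h2 := ih (fun row hr => hrow row (List.mem_cons_of_mem _ hr))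
      ⟨rowMap 0 r x.1, planar_rowMap x.2 r⟩
    rw [List.length_cons, iSX_pow_succ]
    refine le_trans ?_ h1
    rw [pow_succ', mul_assoc]
    exact mul_le_mul_of_nonneg_left h2 (by positivity)

end Mem

theorem memory_loss (n : ℕ) [NeZero n] {h : ℤ → Bool} (hp : ∀ k, h (k + ((2 * n : ℕ) : ℤ)) = h k)
    (hex : ∃ k, h k = true) (Ψ : (PX (2 * n) → ℝ) →ₗ[ℝ] ℝ) (hone : Ψ (fun _ => 1) = 1)
    (hinv : ∀ f, Ψ (iSX (wP h) f) = Ψ f) (f : PX (2 * n) → ℝ) (x : PX (2 * n)) :
    Tendsto (fun M : ℕ => (iSX (wP h) ^ M) f x) atTop (𝓝 (Ψ f)) := by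
  classical
  obtain ⟨rows, s0, hs0, hrows, hrun⟩ := exists_reset_rows n hp hex
  set S : (PX (2 * n) → ℝ) →ₗ[ℝ] (PX (2 * n) → ℝ) := iSX (wP h) with hS
  set m := rows.length with hm
  have hper : Per (2 * n) (wP h) := by
    intro k
    unfold wP
    rw [hp]
  have hS1 : S (fun _ => 1) = fun _ => 1 := iSX_one hper
  have hSm1 : ∀ k : ℕ, (S ^ k) (fun _ => 1) = fun _ => 1 := by
    intro k
    induction k with
    | zero => rfl
    | succ k ih => rw [hS, Mem.iSX_pow_succ, ← hS, ih, hS1]
  have hD : Doeblin (S ^ m) ⟨s0, hs0⟩ (((1 / 2) ^ (2 * n)) ^ m) := by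
    refine ⟨hSm1 m, fun g hg y => Mem.iSX_pow_nonneg h hg m y, by positivity, ?_⟩
    intro g hg y
    have h1 := Mem.iSX_rows rows hrows hg y
    have h2 : (⟨Mem.runL rows y.1, Mem.planar_runL rows y.2⟩ : PX (2 * n)) = ⟨s0, hs0⟩ :=
      Subtype.ext (hrun y.1 y.2.allIdle)
    rw [h2] at h1
    exact h1
  obtain ⟨Ψ', hlim, -, -, -, -⟩ := exists_stationary hD
  have hinvk : ∀ (k : ℕ) (g : PX (2 * n) → ℝ), Ψ ((S ^ k) g) = Ψ g := by
    intro k g
    induction k with
    | zero => rfl
    | succ k ih => rw [hS, Mem.iSX_pow_succ, ← hS, hinv, ih]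
  have heq : ∀ g, Ψ g = Ψ' g := by
    intro g
    have h1 := invariant_eq Ψ' hlim Ψ (fun g => hinvk m g) g
    rw [h1, hone, one_mul]
  have hmpos : 0 < m := by
    rw [hm]
    rcases rows with _ | ⟨r, rs⟩
    · exfalso
      -- an empty word cannot reset: two different idle states
      have h1 := hrun (pi0 n) (planar_pi0 n).allIdle
      have h2 := hrun (rot (pi0 n)) ((allIdle_rot _).2 (planar_pi0 n).allIdle)
      simp only [List.foldl_nil] at h1 h2
      have h4 : rot (pi0 n) = pi0 n := h2.trans h1.symm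
      have hn := Nat.pos_of_ne_zero (NeZero.ne n)
      have e1 : Exposed (pi0 n) ((0 : ℕ) : ℤ) := by
        rw [exposed_iff (fun _ => rfl) (by omega)]
        intro i i' _
        simp
      have e2 : Exposed (pi0 n) ((0 : ℕ) : ℤ) ↔ Exposed (pi0 n) (((0 : ℕ) : ℤ) + 1) := by
        conv_lhs => rw [← h4]
        exact exposed_rot _ (planar_pi0 n).allIdle _
      have e3 := e2.1 e1
      have e4 := exposed_parity n (planar_pi0 n) e3 e1
      simp at e4
    · simp
  have hpowm : ∀ (q r : ℕ) (g : PX (2 * n) → ℝ), (S ^ (m * q + r)) g = ((S ^ m) ^ q) ((S ^ r) g) := by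
    intro q r g
    rw [pow_add, pow_mul]; rfl
  rw [Metric.tendsto_atTop]
  intro ε hε
  have hr : ∀ r ∈ Finset.range m, ∀ᶠ q : ℕ in atTop,
      dist (((S ^ m) ^ q) ((S ^ r) f) x) (Ψ f) < ε := by
    intro r _
    have h1 := hlim ((S ^ r) f) x
    rw [← heq, hinvk] at h1
    exact (Metric.tendsto_nhds.1 h1) ε hε
  rw [← Filter.eventually_all_finset] at hr
  obtain ⟨Q, hQ⟩ := eventually_atTop.1 hr
  refine ⟨m * Q, fun M hM => ?_⟩
  have h1 : Q ≤ M / m := (Nat.le_div_iff_mul_le hmpos).2 (by rw [mul_comm]; exact hM)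
  have h2 := hQ (M / m) h1 (M % m) (Finset.mem_range.2 (Nat.mod_lt _ hmpos))
  rw [← hpowm, Nat.div_add_mod] at h2
  exact h2

end Pool.Agent.H21.Stair
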