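import Mathlib
import Pool.Agent.H21.Stair.Model

/-!
# Clusters below the staircase and faces of the loop model (job FE-E2b)

The face `(r, k)` of the loop model is mapped to the lattice point `(X k, X k - k - r)` below the
staircase.  The crossings of the strands belonging to the horizontal steps are the squares below the
staircase, the (always `true`) crossings of the other strands join faces with the same image.
-/

namespace Pool.Agent.H21.Stair

open Pool.Agent.H65.Perc Pool.Agent.H65.Perc.St Pool.Agent.H21.Perc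

/-! ### elementary facts on the path -/

private theorem path_unique {t : ℤ → ℤ} (ht : Antitone t) {k z z' : ℤ}
    (h1 : t z ≤ z - k) (h2 : z - k ≤ t (z - 1)) (h1' : t z' ≤ z' - k) (h2' : z' - k ≤ t (z' - 1)) :
    z = z' := by
  rcases lt_trichotomy z z' with h | h | h
  · have := ht (show z ≤ z' - 1 by omega)
    omega
  · exact h
  · have := ht (show z' ≤ z - 1 by omega)
    omega

private theorem path_step_hor {t X : ℤ → ℤ} (ht : Antitone t) (hX : IsPath t X) {k : ℤ}
    (h : hor t X k = true) : X (k + 1) = X k + 1 := by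
  have hk : X k - k = t (X k) := by simpa [hor] using h
  have h1 := hX (k + 1)
  have h2 := ht (show X k ≤ X k + 1 by omega)
  refine path_unique ht h1.1 h1.2 (by omega) ?_
  rw [add_sub_cancel_right]
  omega

private theorem path_step_not {t X : ℤ → ℤ} (ht : Antitone t) (hX : IsPath t X) {k : ℤ}
    (h : hor t X k = false) : X (k + 1) = X k := by
  have hk : X k - k ≠ t (X k) := by simpa [hor] using h
  have h1 := hX (k + 1)
  have h0 := hX k
  exact path_unique ht h1.1 h1.2 (by omega) (by omega)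

private theorem path_period {a b : ℕ} {t X : ℤ → ℤ} (ht : Antitone t)
    (hper : ∀ x, t (x + a) = t x - b) (hX : IsPath t X) (k : ℤ) :
    X (k + ((a + b : ℕ) : ℤ)) = X k + a := by
  have h0 := hX k
  have h1 := hX (k + ((a + b : ℕ) : ℤ))
  have e1 := hper (X k)
  have e2 := hper (X k - 1)
  refine path_unique ht h1.1 h1.2 ?_ ?_
  · rw [e1]; push_cast; omega
  · have : X k + (a : ℤ) - 1 = X k - 1 + a := by ring
    rw [this, e2]; push_cast; omega

private theorem path_period_mul {a b : ℕ} {t X : ℤ → ℤ} (ht : Antitone t)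
    (hper : ∀ x, t (x + a) = t x - b) (hX : IsPath t X) (k q : ℤ) :
    X (k + q * ((a + b : ℕ) : ℤ)) = X k + q * a := by
  induction q using Int.induction_on with
  | zero => simp
  | succ i ih =>
    have e : k + ((i : ℤ) + 1) * ((a + b : ℕ) : ℤ)
        = (k + (i : ℤ) * ((a + b : ℕ) : ℤ)) + ((a + b : ℕ) : ℤ) := by ring
    rw [e, path_period ht hper hX, ih]; ring
  | pred i ih =>
    have e : (k + (-(i : ℤ) - 1) * ((a + b : ℕ) : ℤ)) + ((a + b : ℕ) : ℤ)
        = k + -(i : ℤ) * ((a + b : ℕ) : ℤ) := by ring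
    have h := path_period ht hper hX (k + (-(i : ℤ) - 1) * ((a + b : ℕ) : ℤ))
    rw [e, ih] at h
    linear_combination -h

private theorem path_hor_period_mul {a b : ℕ} {t X : ℤ → ℤ} (ht : Antitone t)
    (hper : ∀ x, t (x + a) = t x - b) (hX : IsPath t X) (k q : ℤ) :
    hor t X (k + q * ((a + b : ℕ) : ℤ)) = hor t X k := by
  have e0 := path_period_mul ht hper hX k q
  have e1 := path_period_mul ht hper hX (k + 1) q
  have e2 : k + 1 + q * ((a + b : ℕ) : ℤ) = k + q * ((a + b : ℕ) : ℤ) + 1 := by ring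
  rw [e2] at e1
  cases h1 : hor t X (k + q * ((a + b : ℕ) : ℤ)) <;> cases h2 : hor t X k
  · rfl
  · have := path_step_not ht hX h1
    have := path_step_hor ht hX h2
    omega
  · have := path_step_hor ht hX h1
    have := path_step_not ht hX h2
    omega
  · rfl

/-- the entries of the rows -/
theorem rowsS_modFin {a b n : ℕ} [NeZero n] (hab : a + b = 2 * n) {t X : ℤ → ℤ}
    (ht : Antitone t) (hper : ∀ x, t (x + a) = t x - b) (hX : IsPath t X) (ω : SConf a)
    (r : ℕ) (k : ℤ) :
    rowsS a (2 * n) t X ω r (modFin k) = if hor t X k then ω (r, ((X k : ℤ) : ZMod a)) else true := by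
  obtain ⟨q, hq⟩ := modFin_spec n k
  have e : ((modFin (L := 2 * n) k).val : ℤ) = k + (-q) * ((a + b : ℕ) : ℤ) := by
    rw [hq, hab]; push_cast; ring
  unfold rowsS
  rw [e, path_hor_period_mul ht hper hX, path_period_mul ht hper hX]
  have e2 : (((X k + -q * (a : ℤ) : ℤ)) : ZMod a) = ((X k : ℤ) : ZMod a) := by
    push_cast
    rw [ZMod.natCast_self, mul_zero, add_zero]
  rw [e2]

/-- the lattice point corresponding to a face -/
def facePt (X : ℤ → ℤ) (u : ℕ × ℤ) : ℤ × ℤ := (X u.2, X u.2 - u.2 - u.1)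

theorem reachable_of_fstepS {a b n : ℕ} [NeZero n] (hab : a + b = 2 * n) {t X : ℤ → ℤ}
    (ht : Antitone t) (hper : ∀ x, t (x + a) = t x - b) (hX : IsPath t X) (ω : SConf a)
    {M : ℕ} {u v : ℕ × ℤ} (h : FStep M (rowsS a (2 * n) t X ω) u v) :
    (stairGraph a t ω).Reachable (facePt X u) (facePt X v) := by
  obtain ⟨r, -, k, ⟨h, rfl, rfl⟩ | ⟨h, rfl, rfl⟩⟩ := h
  · rw [rowsS_modFin hab ht hper hX] at h
    cases hk : hor t X k
    · have e : facePt X (r + 1, k) = facePt X (r, k + 1) := by
        simp only [facePt, path_step_not ht hX hk, Prod.mk.injEq, true_and]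
        push_cast; ring
      rw [e]
    · rw [hk, if_pos rfl] at h
      have hk' : X k - k = t (X k) := by simpa [hor] using hk
      refine SimpleGraph.Adj.reachable ?_
      simp only [stairGraph, SimpleGraph.fromRel_adj]
      have e1 : facePt X (r + 1, k) = (X k, t (X k) - r - 1) := by
        simp only [facePt, Prod.mk.injEq, true_and]
        push_cast; omega
      have e2 : facePt X (r, k + 1) = (X k + 1, t (X k) - r) := by
        simp only [facePt, path_step_hor ht hX hk, Prod.mk.injEq, true_and]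
        omega
      rw [e1, e2]
      refine ⟨?_, Or.inl ⟨X k, r, Or.inl ⟨h, rfl, rfl⟩⟩⟩
      simp
  · rw [rowsS_modFin hab ht hper hX] at h
    cases hk : hor t X k
    · rw [hk] at h
      simp at h
    · rw [hk, if_pos rfl] at h
      have hk' : X k - k = t (X k) := by simpa [hor] using hk
      refine SimpleGraph.Adj.reachable ?_
      simp only [stairGraph, SimpleGraph.fromRel_adj]
      have e1 : facePt X (r, k) = (X k, t (X k) - r) := by
        simp only [facePt, Prod.mk.injEq, true_and]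
        omega
      have e2 : facePt X (r + 1, k + 1) = (X k + 1, t (X k) - r - 1) := by
        simp only [facePt, path_step_hor ht hX hk, Prod.mk.injEq, true_and]
        push_cast; omega
      rw [e1, e2]
      refine ⟨?_, Or.inl ⟨X k, r, Or.inr ⟨h, rfl, rfl⟩⟩⟩
      simp

theorem reachable_of_fconnS {a b n : ℕ} [NeZero n] (hab : a + b = 2 * n) {t X : ℤ → ℤ}
    (ht : Antitone t) (hper : ∀ x, t (x + a) = t x - b) (hX : IsPath t X) (ω : SConf a)
    {M : ℕ} {u v : ℕ × ℤ} (h : FConn M (rowsS a (2 * n) t X ω) u v) :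
    (stairGraph a t ω).Reachable (facePt X u) (facePt X v) := by
  induction h with
  | rel a b h => exact reachable_of_fstepS hab ht hper hX ω h
  | refl a => exact SimpleGraph.Reachable.refl _
  | symm a b _ ih => exact ih.symm
  | trans a b c _ _ ih1 ih2 => exact ih1.trans ih2

/-- connected through some finite number of rows -/
def FConnE {L : ℕ} [NeZero L] (ω : ℕ → Fin L → Bool) (u v : ℕ × ℤ) : Prop := ∃ M, FConn M ω u v

theorem FConnE.trans {L : ℕ} [NeZero L] {ω : ℕ → Fin L → Bool} {u v w : ℕ × ℤ}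
    (h1 : FConnE ω u v) (h2 : FConnE ω v w) : FConnE ω u w := by
  obtain ⟨M, hM⟩ := h1
  obtain ⟨M', hM'⟩ := h2
  exact ⟨max M M', (hM.mono (le_max_left _ _)).trans _ _ _ (hM'.mono (le_max_right _ _))⟩

theorem FConnE.symm {L : ℕ} [NeZero L] {ω : ℕ → Fin L → Bool} {u v : ℕ × ℤ}
    (h1 : FConnE ω u v) : FConnE ω v u := by
  obtain ⟨M, hM⟩ := h1
  exact ⟨M, hM.symm⟩

theorem FConnE.refl {L : ℕ} [NeZero L] (ω : ℕ → Fin L → Bool) (u : ℕ × ℤ) : FConnE ω u u :=
  ⟨0, Relation.EqvGen.refl _⟩

theorem path_monotone {t X : ℤ → ℤ} (ht : Antitone t) (hX : IsPath t X) : Monotone X := by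
  refine monotone_int_of_le_succ fun k => ?_
  cases h : hor t X k
  · rw [path_step_not ht hX h]
  · rw [path_step_hor ht hX h]; omega

/-- faces on a vertical line with the same image are connected -/
theorem fconnE_vert {a b n : ℕ} [NeZero n] (hab : a + b = 2 * n) {t X : ℤ → ℤ}
    (ht : Antitone t) (hper : ∀ x, t (x + a) = t x - b) (hX : IsPath t X) (ω : SConf a)
    (k : ℤ) (d : ℕ) (h : X k = X (k + d)) (r : ℕ) :
    FConnE (rowsS a (2 * n) t X ω) (r + d, k) (r, k + d) := by
  induction d generalizing r with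
  | zero => simpa using FConnE.refl _ _
  | succ d ih =>
    have hm := path_monotone ht hX
    have h1 : X k ≤ X (k + d) := hm (by omega)
    have h2 : X (k + d) ≤ X (k + ((d + 1 : ℕ) : ℤ)) := hm (by push_cast; omega)
    have h3 : X (k + d) = X (k + d + 1) := by
      have : k + ((d + 1 : ℕ) : ℤ) = k + d + 1 := by push_cast; ring
      rw [this] at h h2
      omega
    have hk : hor t X (k + d) = false := by
      cases hk : hor t X (k + d)
      · rfl
      · have := path_step_hor ht hX hk
        omega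
    have h4 := ih (by omega) (r + 1)
    have e1 : r + 1 + d = r + (d + 1) := by ring
    rw [e1] at h4
    refine h4.trans ⟨r + 1, Relation.EqvGen.rel _ _ ⟨r, by omega, k + d, Or.inl ⟨?_, rfl, ?_⟩⟩⟩
    · rw [rowsS_modFin hab ht hper hX, hk]; simp
    · simp only [Prod.mk.injEq, true_and]; push_cast; ring

theorem fconnE_of_facePt_eq {a b n : ℕ} [NeZero n] (hab : a + b = 2 * n) {t X : ℤ → ℤ}
    (ht : Antitone t) (hper : ∀ x, t (x + a) = t x - b) (hX : IsPath t X) (ω : SConf a)
    {u v : ℕ × ℤ} (h : facePt X u = facePt X v) : FConnE (rowsS a (2 * n) t X ω) u v := by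
  obtain ⟨r, k⟩ := u
  obtain ⟨r', k'⟩ := v
  simp only [facePt, Prod.mk.injEq] at h
  obtain ⟨hXk, h⟩ := h
  rcases le_total k k' with hk | hk
  · obtain ⟨d, rfl⟩ := Int.le.dest hk
    have : r = r' + d := by omega
    subst this
    exact fconnE_vert hab ht hper hX ω k d hXk r'
  · obtain ⟨d, rfl⟩ := Int.le.dest hk
    have : r' = r + d := by omega
    subst this
    exact (fconnE_vert hab ht hper hX ω k' d hXk.symm r).symm

theorem exists_face_of_rel {a b n : ℕ} [NeZero n] (hab : a + b = 2 * n) {t X : ℤ → ℤ}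
    (ht : Antitone t) (hper : ∀ x, t (x + a) = t x - b) (hX : IsPath t X) (ω : SConf a)
    {p q : ℤ × ℤ} (h : ∃ (x : ℤ) (r : ℕ),
    (ω (r, (x : ZMod a)) = true ∧ p = (x, t x - r - 1) ∧ q = (x + 1, t x - r)) ∨
    (ω (r, (x : ZMod a)) = false ∧ p = (x, t x - r) ∧ q = (x + 1, t x - r - 1))) :
    ∃ u v, facePt X u = p ∧ facePt X v = q ∧ FConnE (rowsS a (2 * n) t X ω) u v := by
  obtain ⟨x, r, h⟩ := h
  set k : ℤ := x - t x with hk
  have hXk : X k = x := by
    have h1 := hX k
    have h2 := ht (show x - 1 ≤ x by omega)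
    exact path_unique ht h1.1 h1.2 (by omega) (by omega)
  have hh : hor t X k = true := by
    simp only [hor, decide_eq_true_eq, hXk]; omega
  have hs : X (k + 1) = x + 1 := by rw [path_step_hor ht hX hh, hXk]
  have hr := rowsS_modFin hab ht hper hX ω r k
  rw [hh, if_pos rfl, hXk] at hr
  rcases h with ⟨h, rfl, rfl⟩ | ⟨h, rfl, rfl⟩
  · refine ⟨(r + 1, k), (r, k + 1), ?_, ?_, r + 1,
      Relation.EqvGen.rel _ _ ⟨r, by omega, k, Or.inl ⟨?_, rfl, rfl⟩⟩⟩
    · simp only [facePt, hXk, Prod.mk.injEq, true_and]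
      push_cast; omega
    · simp only [facePt, hs, Prod.mk.injEq, true_and]
      omega
    · rw [hr, h]
  · refine ⟨(r, k), (r + 1, k + 1), ?_, ?_, r + 1,
      Relation.EqvGen.rel _ _ ⟨r, by omega, k, Or.inr ⟨?_, rfl, rfl⟩⟩⟩
    · simp only [facePt, hXk, Prod.mk.injEq, true_and]
      omega
    · simp only [facePt, hs, Prod.mk.injEq, true_and]
      push_cast; omega
    · rw [hr, h]

theorem fconnE_of_reachableS {a b n : ℕ} [NeZero n] (hab : a + b = 2 * n) {t X : ℤ → ℤ}
    (ht : Antitone t) (hper : ∀ x, t (x + a) = t x - b) (hX : IsPath t X) (ω : SConf a)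
    {p q : ℤ × ℤ} (h : (stairGraph a t ω).Reachable p q) (u : ℕ × ℤ) (hu : facePt X u = p) :
    ∀ v, facePt X v = q → FConnE (rowsS a (2 * n) t X ω) u v := by
  rw [SimpleGraph.reachable_iff_reflTransGen] at h
  induction h with
  | refl =>
    intro v hv
    exact fconnE_of_facePt_eq hab ht hper hX ω (hu.trans hv.symm)
  | tail _ hbc ih =>
    intro v hv
    simp only [stairGraph, SimpleGraph.fromRel_adj] at hbc
    obtain ⟨-, h | h⟩ := hbc
    · obtain ⟨u1, v1, hu1, hv1, h1⟩ := exists_face_of_rel hab ht hper hX ω h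
      exact ((ih u1 hu1).trans h1).trans
        (fconnE_of_facePt_eq hab ht hper hX ω (hv1.trans hv.symm))
    · obtain ⟨u1, v1, hu1, hv1, h1⟩ := exists_face_of_rel hab ht hper hX ω h
      exact ((ih v1 hv1).trans h1.symm).trans
        (fconnE_of_facePt_eq hab ht hper hX ω (hu1.trans hv.symm))

theorem swinds_iff {a b n : ℕ} [NeZero n] (ha : 1 ≤ a) (hab : a + b = 2 * n) {t X : ℤ → ℤ}
    (ht : Antitone t) (hper : ∀ x, t (x + a) = t x - b) (hX : IsPath t X) (ω : SConf a) (k : ℤ) :
    SWinds a b t ω (X k, X k - k) ↔ ∃ (M : ℕ) (m : ℤ), m ≠ 0 ∧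
      FConn M (rowsS a (2 * n) t X ω) (0, k) (0, k + m * ((2 * n : ℕ) : ℤ)) := by
  have e0 : facePt X (0, k) = (X k, X k - k) := by simp [facePt]
  have e1 : ∀ m : ℤ, facePt X (0, k + m * ((2 * n : ℕ) : ℤ)) = (X k + m * a, X k - k - m * b) := by
    intro m
    simp only [facePt]
    rw [← hab, path_period_mul ht hper hX]
    simp only [Prod.mk.injEq, true_and]
    push_cast; ring
  constructor
  · rintro ⟨m, hm, h⟩
    obtain ⟨M, hM⟩ := fconnE_of_reachableS hab ht hper hX ω h (0, k) e0 _ (e1 m)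
    exact ⟨M, m, hm, hM⟩
  · rintro ⟨M, m, hm, h⟩
    refine ⟨m, hm, ?_⟩
    have := reachable_of_fconnS hab ht hper hX ω h
    rwa [e0, e1 m] at this

end Pool.Agent.H21.Stair
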