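import Mathlib
import Pool.Agent.H65.Perc.Link
import Pool.Agent.H65.Perc.Reset
import Pool.Agent.H21.Perc.IMarkov

/-!
# The percolation-loop link for odd intervals
-/

namespace Pool.Agent.H21.Stair

open Pool.Agent.H65.Perc Pool.Agent.H65.Perc.St Pool.Agent.H21.Perc

namespace LO

section shift

variable {L : ℕ} [NeZero L]

theorem modFin_val_int (k : ℤ) : ((modFin k : Fin L) : ℤ) = k % L := by
  have hL : (L : ℤ) ≠ 0 := by exact_mod_cast NeZero.ne L
  have h1 := Int.emod_nonneg k hL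
  simp only [modFin]
  exact Int.toNat_of_nonneg h1

/-- the next position -/
def nxt (i : Fin L) : Fin L := modFin ((i : ℤ) + 1)

theorem nxt_modFin (k : ℤ) : nxt (modFin k : Fin L) = modFin (k + 1) := by
  apply Fin.ext
  have h : ((nxt (modFin k : Fin L) : Fin L) : ℤ) = ((modFin (k + 1) : Fin L) : ℤ) := by
    unfold nxt
    rw [modFin_val_int, modFin_val_int, modFin_val_int, Int.emod_add_emod]
  exact_mod_cast h

/-- a deterministic row as a 0-1 weight -/
noncomputable def wR (row : Fin L → Bool) (k : ℤ) : ℝ := if row (modFin k) then 1 else 0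

theorem wR_per (row : Fin L → Bool) : Per L (wR row) := by
  intro k
  unfold wR
  have : (modFin (k + L) : Fin L) = modFin k := by
    apply Fin.ext
    have h : ((modFin (k + L) : Fin L) : ℤ) = ((modFin k : Fin L) : ℤ) := by
      rw [modFin_val_int, modFin_val_int, Int.add_emod_right]
    exact_mod_cast h
  rw [this]

theorem modFin_coe (i : Fin L) : modFin ((i : ℕ) : ℤ) = i := by
  have := Lk.modFin_add i 0
  simpa using this

theorem wR_sh (row : Fin L → Bool) : sh 1 (wR row) = wR (fun i => row (nxt i)) := by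
  funext k
  simp only [sh_apply, wR, nxt_modFin]

theorem iT_wR (row : Fin L → Bool) (s : St (Lab L)) (hs : AllIdle s) (f : St (Lab L) → ℝ) :
    (iT 1 (lw (wR row)) (strands L) (lx 0) (ly 0) f) s = f (rowMap 0 row s) := by
  rw [iT_one_apply _ s hs, Finset.sum_eq_single row]
  · have : (∏ i : Fin L, pr (wR row ((i : ℕ) : ℤ)) (row i)) = 1 := by
      refine Finset.prod_eq_one (fun i _ => ?_)
      unfold wR
      rw [modFin_coe]
      cases row i <;> simp [pr]
    rw [this, one_mul]
  · intro row' _ hne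
    obtain ⟨i, hi⟩ : ∃ i, row' i ≠ row i := Function.ne_iff.1 hne
    have : (∏ i : Fin L, pr (wR row ((i : ℕ) : ℤ)) (row' i)) = 0 := by
      refine Finset.prod_eq_zero (Finset.mem_univ i) ?_
      unfold wR
      rw [modFin_coe]
      revert hi
      cases row i <;> cases row' i <;> simp [pr]
    rw [this, zero_mul]
  · intro h
    exact absurd (Finset.mem_univ _) h

theorem rot_rowMap (row : Fin L → Bool) {s : St (Lab L)} (hs : AllIdle s) :
    rot (rowMap 0 row s) = rowMap 0 (fun i => row (nxt i)) (rot s) := by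
  classical
  have h := iT_rot (L := L) 1 (wR_per row) 0
  have h2 := congrFun (congrArg (fun Z : Op (Lab L) =>
    Z (fun s' => if s' = rot (rowMap 0 row s) then (1 : ℝ) else 0)) h) s
  simp only [Module.End.mul_apply, opRot_apply] at h2
  rw [iT_wR row s hs, wR_sh, iT_wR _ _ ((allIdle_rot s).2 hs)] at h2
  simp only [opRot_apply, if_true] at h2
  by_contra hne
  rw [if_neg (fun e => hne e.symm)] at h2
  exact one_ne_zero h2

theorem runRows_rot (ω : ℕ → Fin L → Bool) (M : ℕ) :
    ∀ s : St (Lab L), AllIdle s →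
      AllIdle (runRows ω M s) ∧ rot (runRows ω M s) = runRows (fun r i => ω r (nxt i)) M (rot s) := by
  induction M with
  | zero => intro s hs; exact ⟨hs, rfl⟩
  | succ M ih =>
    intro s hs
    have h1 := ih (rowMap 0 (ω M) s) (allIdle_rowMap 0 (ω M) s hs)
    refine ⟨h1.1, ?_⟩
    simp only [runRows]
    rw [h1.2, rot_rowMap (ω M) hs]

theorem fConn_shift {M : ℕ} {ω : ℕ → Fin L → Bool} {a b : ℕ × ℤ}
    (h : FConn M (fun r i => ω r (nxt i)) a b) :
    FConn M ω (a.1, a.2 + 1) (b.1, b.2 + 1) := by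
  induction h with
  | rel a b h =>
    refine Relation.EqvGen.rel _ _ ?_
    obtain ⟨r, hr, k, ⟨h1, rfl, rfl⟩ | ⟨h1, rfl, rfl⟩⟩ := h
    · refine ⟨r, hr, k + 1, Or.inl ⟨?_, rfl, rfl⟩⟩
      rwa [← nxt_modFin]
    · refine ⟨r, hr, k + 1, Or.inr ⟨?_, rfl, rfl⟩⟩
      rwa [← nxt_modFin]
  | refl a => exact Relation.EqvGen.refl _
  | symm a b _ ih => exact ih.symm _ _
  | trans a b c _ _ ih1 ih2 => exact ih1.trans _ _ _ ih2

theorem fConn_shift' {M : ℕ} {ω : ℕ → Fin L → Bool} {a b : ℕ × ℤ} (h : FConn M ω a b) :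
    FConn M (fun r i => ω r (nxt i)) (a.1, a.2 - 1) (b.1, b.2 - 1) := by
  induction h with
  | rel a b h =>
    refine Relation.EqvGen.rel _ _ ?_
    obtain ⟨r, hr, k, ⟨h1, rfl, rfl⟩ | ⟨h1, rfl, rfl⟩⟩ := h
    · refine ⟨r, hr, k - 1, Or.inl ⟨?_, rfl, by simp⟩⟩
      simp only [nxt_modFin, sub_add_cancel]
      exact h1
    · refine ⟨r, hr, k - 1, Or.inr ⟨?_, rfl, by simp⟩⟩
      simp only [nxt_modFin, sub_add_cancel]
      exact h1
  | refl a => exact Relation.EqvGen.refl _
  | symm a b _ ih => exact ih.symm _ _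
  | trans a b c _ _ ih1 ih2 => exact ih1.trans _ _ _ ih2

theorem fConn_shift_iff {M : ℕ} {ω : ℕ → Fin L → Bool} (c c' : ℤ) :
    FConn M (fun r i => ω r (nxt i)) (0, c - 1) (0, c' - 1) ↔ FConn M ω (0, c) (0, c') := by
  constructor
  · intro h
    have := fConn_shift h
    simpa using this
  · intro h
    exact fConn_shift' h

end shift

theorem planar_cap (n M : ℕ) [NeZero (2 * n)] : Planar (cap n M) := by
  unfold cap
  split_ifs
  · exact planar_pi0 n
  · exact (planar_rot _ (planar_pi0 n).allIdle).2 (planar_pi0 n)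

end LO

open LO

theorem link_odd (n M : ℕ) [NeZero n] : ∃ s : St (Lab (2 * n)), Planar s ∧
    ∀ (ω : ℕ → Fin (2 * n) → Bool) (c : ℤ), Odd c →
      ((∃ m : ℤ, m ≠ 0 ∧ FConn M ω (0, c) (0, c + m * ((2 * n : ℕ) : ℤ))) ↔
        Exposed (runRows ω M s) c) := by
  have hid : AllIdle (cap n M) := Lk.cap_allIdle n M
  have hpos : 0 < 2 * n := Nat.pos_of_ne_zero (NeZero.ne _)
  refine ⟨rot^[2 * n - 1] (cap n M), planar_iterate (planar_cap n M) _, ?_⟩
  have hpl := planar_iterate (planar_cap n M) (2 * n - 1)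
  set s := rot^[2 * n - 1] (cap n M) with hs
  have hrs : rot s = cap n M := by
    have h := Function.iterate_succ_apply' (rot (L := 2 * n)) (2 * n - 1) (cap n M)
    rw [Nat.succ_eq_add_one, Nat.sub_add_cancel hpos, rot_iterate_self _ hid] at h
    exact h.symm
  intro ω c hc
  have hce : Even (c - 1) := by
    obtain ⟨d, rfl⟩ := hc
    exact ⟨d, by ring⟩
  have h1 := link n M (fun r i => ω r (nxt i)) (c - 1) hce
  obtain ⟨h2, h3⟩ := runRows_rot ω M s hpl.allIdle
  rw [← hrs, ← h3, exposed_rot _ h2, sub_add_cancel] at h1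
  rw [← h1]
  refine exists_congr (fun m => and_congr_right (fun _ => ?_))
  rw [← fConn_shift_iff, show c + m * ((2 * n : ℕ) : ℤ) - 1 = c - 1 + m * ((2 * n : ℕ) : ℤ) by ring]

end Pool.Agent.H21.Stair
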