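import Pool.Agent.H21.Stair.Model

/-!
# Combinatorics of the staircase path
-/

namespace Pool.Agent.H21.Stair

open Finset

/-- `x - t x` -/
theorem ff_strict {t : ℤ → ℤ} (ht : Antitone t) {x y : ℤ} (h : x ≤ y) :
    x - t x + (y - x) ≤ y - t y := by
  have := ht h
  omega

theorem IsPath.le {t X : ℤ → ℤ} (hX : IsPath t X) (k : ℤ) : k ≤ X k - t (X k) := by
  have := (hX k).1; omega

theorem IsPath.lt {t X : ℤ → ℤ} (hX : IsPath t X) (k : ℤ) : X k - 1 - t (X k - 1) < k := by
  have := (hX k).2; omega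

/-- the characterisation of the point on the line `x - y = k` -/
theorem eq_of_path {t X : ℤ → ℤ} (ht : Antitone t) (hX : IsPath t X) {k x : ℤ}
    (h1 : k ≤ x - t x) (h2 : x - 1 - t (x - 1) < k) : X k = x := by
  have h3 := hX.le k
  have h4 := hX.lt k
  apply le_antisymm
  · by_contra hcon
    have h5 : x ≤ X k - 1 := by omega
    have := ff_strict ht h5
    omega
  · by_contra hcon
    have h5 : X k ≤ x - 1 := by omega
    have := ff_strict ht h5
    omega

theorem exists_path {a b : ℕ} {t : ℤ → ℤ} (ha : 1 ≤ a) (ht : Antitone t)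
    (hper : ∀ x, t (x + a) = t x - b) : ∃ X, IsPath t X := by
  have key : ∀ k : ℤ, ∃ x : ℤ, t x ≤ x - k ∧ x - k ≤ t (x - 1) := by
    intro k
    have hbdd : ∃ c : ℤ, ∀ z : ℤ, k ≤ z - t z → c ≤ z := by
      refine ⟨min 0 (k + t 0), fun z hz => ?_⟩
      rcases le_total 0 z with h | h
      · exact (min_le_left _ _).trans h
      · have := ff_strict ht h
        exact (min_le_right _ _).trans (by omega)
    have hinh : ∃ z : ℤ, k ≤ z - t z := by
      refine ⟨max 0 (k + t 0), ?_⟩
      have h0 : (0 : ℤ) ≤ max 0 (k + t 0) := le_max_left _ _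
      have h1 : k + t 0 ≤ max 0 (k + t 0) := le_max_right _ _
      have := ff_strict ht h0
      omega
    obtain ⟨x, hx1, hx2⟩ := Int.exists_least_of_bdd hbdd hinh
    refine ⟨x, by omega, ?_⟩
    by_contra hcon
    have := hx2 (x - 1) (by omega)
    omega
  choose X hX using key
  exact ⟨X, hX⟩

theorem IsPath.unique {t X X' : ℤ → ℤ} (ht : Antitone t) (hX : IsPath t X) (hX' : IsPath t X') :
    X = X' := by
  funext k
  exact eq_of_path ht hX (hX'.le k) (hX'.lt k)

theorem IsPath.period {a b : ℕ} {t X : ℤ → ℤ} (ht : Antitone t)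
    (hper : ∀ x, t (x + a) = t x - b) (hX : IsPath t X) (k : ℤ) :
    X (k + ((a + b : ℕ) : ℤ)) = X k + a := by
  have h1 := hX.le k
  have h2 := hX.lt k
  apply eq_of_path ht hX
  · rw [hper]; push_cast; omega
  · have e : X k + (a : ℤ) - 1 = (X k - 1) + a := by ring
    rw [e, hper]; push_cast; omega

theorem hor_iff {t X : ℤ → ℤ} {k : ℤ} : hor t X k = true ↔ X k - k = t (X k) := by
  simp [hor]

theorem IsPath.step {t X : ℤ → ℤ} (ht : Antitone t) (hX : IsPath t X) (k : ℤ) :
    X (k + 1) = X k + (if hor t X k then 1 else 0) := by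
  have h1 := hX.le k
  have h2 := hX.lt k
  by_cases h : hor t X k = true
  · rw [if_pos h]
    rw [hor_iff] at h
    apply eq_of_path ht hX
    · have := ff_strict ht (show X k ≤ X k + 1 by omega)
      omega
    · rw [add_sub_cancel_right]; omega
  · rw [if_neg h, add_zero]
    rw [hor_iff] at h
    apply eq_of_path ht hX
    · omega
    · omega

theorem IsPath.hor_prev {t X : ℤ → ℤ} (ht : Antitone t) (hX : IsPath t X) (k : ℤ) :
    hor t X (k - 1) = true ↔ X k - k = t (X k - 1) := by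
  constructor
  · intro h
    have h1 := hX.step ht (k - 1)
    rw [if_pos h, sub_add_cancel] at h1
    rw [hor_iff] at h
    rw [h1, add_sub_cancel_right]
    omega
  · intro h
    have h1 : X (k - 1) = X k - 1 := by
      apply eq_of_path ht hX
      · omega
      · have := ff_strict ht (show X k - 1 - 1 ≤ X k - 1 by omega)
        omega
    rw [hor_iff, h1]
    omega

theorem IsPath.hor_period {a b : ℕ} {t X : ℤ → ℤ} (ht : Antitone t)
    (hper : ∀ x, t (x + a) = t x - b) (hX : IsPath t X) (k : ℤ) :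
    hor t X (k + ((a + b : ℕ) : ℤ)) = hor t X k := by
  unfold hor
  rw [hX.period ht hper, hper]
  congr 1
  apply propext
  push_cast
  constructor <;> intro h <;> omega

theorem IsPath.card_hor {a b : ℕ} {t X : ℤ → ℤ} (ht : Antitone t)
    (hper : ∀ x, t (x + a) = t x - b) (hX : IsPath t X) :
    ((Finset.range (a + b)).filter (fun k : ℕ => hor t X k = true)).card = a := by
  have h1 : ∑ k ∈ range (a + b), (X ((k + 1 : ℕ) : ℤ) - X ((k : ℕ) : ℤ)) = (a : ℤ) := by
    rw [Finset.sum_range_sub (fun k : ℕ => X (k : ℤ))]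
    have := hX.period ht hper 0
    rw [zero_add] at this
    rw [this]; simp
  have h2 : ∀ k ∈ range (a + b), X ((k + 1 : ℕ) : ℤ) - X ((k : ℕ) : ℤ)
      = if hor t X ((k : ℕ) : ℤ) = true then 1 else 0 := by
    intro k _
    have := hX.step ht (k : ℤ)
    push_cast
    rw [this]; ring
  rw [Finset.sum_congr rfl h2, Finset.sum_boole] at h1
  exact_mod_cast h1

theorem sum_Ioc_consec (G : ℤ → ℂ) {p q r : ℤ} (h1 : p ≤ q) (h2 : q ≤ r) :
    ∑ k ∈ Ioc p q, G k + ∑ k ∈ Ioc q r, G k = ∑ k ∈ Ioc p r, G k := by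
  rw [← Finset.sum_union, Finset.Ioc_union_Ioc_eq_Ioc h1 h2]
  rw [Finset.disjoint_left]
  intro x hx hx'
  rw [Finset.mem_Ioc] at hx hx'
  omega

theorem sum_Ioc_range (G : ℤ → ℂ) (c : ℤ) (L : ℕ) :
    ∑ k ∈ Ioc c (c + L), G k = ∑ j ∈ range L, G (c + 1 + j) := by
  symm
  refine Finset.sum_nbij' (fun j : ℕ => c + 1 + (j : ℤ)) (fun k : ℤ => (k - c - 1).toNat)
    ?_ ?_ ?_ ?_ ?_
  · intro j hj
    rw [Finset.mem_range] at hj
    rw [Finset.mem_Ioc]
    omega
  · intro k hk
    rw [Finset.mem_Ioc] at hk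
    rw [Finset.mem_range]
    omega
  · intro j hj
    omega
  · intro k hk
    rw [Finset.mem_Ioc] at hk
    omega
  · intro j hj
    rfl

theorem sum_shift {G : ℤ → ℂ} {L : ℕ} (hG : ∀ k, G (k + L) = G k) (c : ℤ) :
    ∑ j ∈ range L, G (c + j) = ∑ j ∈ range L, G j := by
  have hstep : ∀ c : ℤ, ∑ j ∈ range L, G (c + 1 + j) = ∑ j ∈ range L, G (c + j) := by
    intro c
    have h1 := Finset.sum_range_succ (fun j : ℕ => G (c + j)) L
    have h2 := Finset.sum_range_succ' (fun j : ℕ => G (c + j)) L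
    rw [h1] at h2
    have h3 : ∑ j ∈ range L, G (c + ((j + 1 : ℕ) : ℤ)) = ∑ j ∈ range L, G (c + 1 + j) := by
      apply Finset.sum_congr rfl
      intro j _
      congr 1
      push_cast; ring
    rw [h3, hG] at h2
    simp only [Nat.cast_zero, add_zero] at h2
    exact (add_right_cancel h2).symm
  induction c using Int.induction_on with
  | zero => simp
  | succ i ih => rw [hstep, ih]
  | pred i ih =>
    have := hstep (-(i : ℤ) - 1)
    rw [sub_add_cancel, ih] at this
    exact this.symm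

theorem IsPath.sum {a b : ℕ} {t X : ℤ → ℤ} (ha : 1 ≤ a) (ht : Antitone t)
    (hper : ∀ x, t (x + a) = t x - b) (hX : IsPath t X) (g : ℤ × ℤ → ℂ)
    (hg : ∀ p : ℤ × ℤ, g (p.1 + a, p.2 - b) = g p) :
    ∑ x ∈ Finset.range a, ∑ y ∈ Finset.Icc (t x) (t (x - 1)), g (x, y)
      = ∑ k ∈ Finset.range (a + b), g (X k, X k - k) := by
  set G : ℤ → ℂ := fun k => g (X k, X k - k) with hGdef
  have hG : ∀ k, G (k + ((a + b : ℕ) : ℤ)) = G k := by
    intro k
    simp only [hGdef]
    rw [hX.period ht hper]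
    rw [← hg (X k, X k - k)]
    congr 2
    push_cast; ring
  have hinner : ∀ x : ℤ, ∑ y ∈ Icc (t x) (t (x - 1)), g (x, y)
      = ∑ k ∈ Ioc (x - 1 - t (x - 1)) (x - t x), G k := by
    intro x
    refine Finset.sum_nbij' (fun y : ℤ => x - y) (fun k : ℤ => x - k) ?_ ?_ ?_ ?_ ?_
    · intro y hy
      rw [Finset.mem_Icc] at hy
      rw [Finset.mem_Ioc]
      omega
    · intro k hk
      rw [Finset.mem_Ioc] at hk
      rw [Finset.mem_Icc]
      omega
    · intro y _; ring
    · intro k _; ring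
    · intro y hy
      rw [Finset.mem_Icc] at hy
      have hx : X (x - y) = x := by
        apply eq_of_path ht hX <;> omega
      simp only [hGdef, hx]
      congr 2
      ring
  have htel : ∀ m : ℕ, ∑ x ∈ range m, ∑ y ∈ Icc (t (x : ℤ)) (t ((x : ℤ) - 1)), g ((x : ℤ), y)
      = ∑ k ∈ Ioc ((0 : ℤ) - 1 - t (0 - 1)) ((m : ℤ) - 1 - t ((m : ℤ) - 1)), G k := by
    intro m
    induction m with
    | zero => simp
    | succ m ih =>
      rw [Finset.sum_range_succ, ih, hinner, sum_Ioc_consec]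
      · congr 2
        push_cast
        congr 1
        · ring
        · congr 1; ring
      · have := ff_strict ht (show (0 : ℤ) - 1 ≤ (m : ℤ) - 1 by omega)
        omega
      · have := ff_strict ht (show (m : ℤ) - 1 ≤ (m : ℤ) by omega)
        omega
  rw [htel a]
  have e : (a : ℤ) - 1 - t ((a : ℤ) - 1) = ((0 : ℤ) - 1 - t (0 - 1)) + ((a + b : ℕ) : ℤ) := by
    have := hper (0 - 1)
    rw [show (0 : ℤ) - 1 + a = a - 1 by ring] at this
    rw [this]; push_cast; ring
  rw [e, sum_Ioc_range]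
  exact sum_shift hG _

end Pool.Agent.H21.Stair
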