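import Mathlib
import Pool.Agent.H21.Stair.Model
import Pool.Agent.H65.Perc.Assembly
import Pool.Agent.H21.Stair.Path
import Pool.Agent.H21.Stair.Connect
import Pool.Agent.H21.Stair.LinkOdd

/-!
# The probability of winding is the stationary functional of the exposure
-/

open Filter Topology MeasureTheory

namespace Pool.Agent.H21.Stair

open Pool.Agent.H65.Perc Pool.Agent.H65.Perc.St Pool.Agent.H21.Perc

/-- the average over the rows, for a chain with one weight for every strand -/
theorem iavg_rows {L : ℕ} [NeZero L] (w : ℤ → ℝ) (F : St (Lab L) → ℝ) (M : ℕ) (x : PX L) :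
    (iSX w ^ M) (resX F) x
      = ∑ ω : Fin M → Fin L → Bool, (∏ r, ∏ i, pr (w i.val) (ω r i)) *
        F (runRows (extRows ω) M x.1) := by
  induction M generalizing x with
  | zero =>
    simp [runRows, resX]
  | succ M ih =>
    rw [pow_succ', Module.End.mul_apply, iSX_apply]
    simp only [ih]
    simp only [Finset.mul_sum]
    rw [← Finset.sum_product', Finset.univ_product_univ]
    refine Fintype.sum_equiv (Fin.snocEquiv (fun _ : Fin (M + 1) => Fin L → Bool)) _ _ ?_
    rintro ⟨row, ω⟩
    have h0 : (Fin.snocEquiv (fun _ : Fin (M + 1) => Fin L → Bool)) (row, ω)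
        = (Fin.snoc ω row : Fin (M + 1) → Fin L → Bool) := rfl
    rw [h0, Fin.prod_univ_castSucc]
    simp only [Fin.snoc_castSucc, Fin.snoc_last]
    have h1 : extRows (Fin.snoc ω row : Fin (M + 1) → Fin L → Bool) M = row := by
      funext i
      simp only [extRows, Nat.lt_succ_self, dif_pos]
      have : (⟨M, Nat.lt_succ_self M⟩ : Fin (M + 1)) = Fin.last M := rfl
      rw [this, Fin.snoc_last]
    have h2 : runRows (extRows ω) M (rowMap 0 row x.1)
      = runRows (extRows (Fin.snoc ω row : Fin (M + 1) → Fin L → Bool)) (M + 1) x.1 := by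
      change _ = runRows (extRows (Fin.snoc ω row : Fin (M + 1) → Fin L → Bool)) M
        (rowMap 0 (extRows (Fin.snoc ω row : Fin (M + 1) → Fin L → Bool) M) x.1)
      rw [h1]
      apply runRows_congr
      intro r hr
      funext i
      simp only [extRows, hr, Nat.lt_succ_of_lt hr, dif_pos]
      have : (⟨r, Nat.lt_succ_of_lt hr⟩ : Fin (M + 1)) = Fin.castSucc ⟨r, hr⟩ := rfl
      rw [this, Fin.snoc_castSucc]
    rw [h2]
    ring

/-- limit along arbitrary sequences of states -/
theorem tendsto_states {L : ℕ} [NeZero L] {w : ℤ → ℝ} {Ψ : (PX L → ℝ) →ₗ[ℝ] ℝ}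
    (hlim : ∀ f : PX L → ℝ, ∀ x, Tendsto (fun M : ℕ => (iSX w ^ M) f x) atTop
      (𝓝 (Ψ f))) (f : PX L → ℝ) (y : ℕ → PX L) :
    Tendsto (fun M : ℕ => (iSX w ^ M) f (y M)) atTop (𝓝 (Ψ f)) := by
  rw [Metric.tendsto_atTop]
  intro ε hε
  have hx : ∀ x, ∃ N, ∀ M ≥ N, dist ((iSX w ^ M) f x) (Ψ f) < ε :=
    fun x => Metric.tendsto_atTop.1 (hlim f x) ε hε
  choose N hN using hx
  refine ⟨∑ x, N x, fun M hM => ?_⟩
  refine hN _ M (le_trans ?_ hM)
  exact Finset.single_le_sum (f := N) (fun _ _ => Nat.zero_le _) (Finset.mem_univ _)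

/-- restriction to the rows `< M` -/
def restrS (a L M : ℕ) (t X : ℤ → ℤ) (ω : SConf a) : Fin M → Fin L → Bool :=
  fun r i => rowsS a L t X ω r i

theorem extRows_restrS (a L M : ℕ) (t X : ℤ → ℤ) (ω : SConf a) (r : ℕ) (hr : r < M) :
    extRows (restrS a L M t X ω) r = rowsS a L t X ω r := by
  funext i
  simp [extRows, restrS, hr]

theorem measurable_restrS (a L M : ℕ) (t X : ℤ → ℤ) : Measurable (restrS a L M t X) := by
  refine measurable_pi_lambda _ fun r => measurable_pi_lambda _ fun i => ?_
  unfold restrS rowsS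
  split_ifs
  · exact measurable_pi_apply _
  · exact measurable_const

instance (a : ℕ) : IsProbabilityMeasure (stairMeasure a) := by
  unfold stairMeasure; infer_instance

/-- the monotonicity of the abscissas -/
theorem IsPath.monotone {t X : ℤ → ℤ} (ht : Antitone t) (hX : IsPath t X) : Monotone X := by
  refine monotone_int_of_le_succ fun k => ?_
  rw [hX.step ht]
  split_ifs <;> omega

/-- different horizontal strands read different coins -/
theorem horizontal_injOn {a b n : ℕ} (hab : a + b = 2 * n) {t X : ℤ → ℤ}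
    (ht : Antitone t) (hper : ∀ x, t (x + a) = t x - b) (hX : IsPath t X)
    {i j : Fin (2 * n)} (hi : hor t X i.val = true) (hj : hor t X j.val = true)
    (h : ((X i.val : ℤ) : ZMod a) = ((X j.val : ℤ) : ZMod a)) : i = j := by
  have hmono := hX.monotone ht
  have key : ∀ i j : Fin (2 * n), i < j → hor t X i.val = true → hor t X j.val = true →
      ((X i.val : ℤ) : ZMod a) = ((X j.val : ℤ) : ZMod a) → False := by
    intro i j hlt hi hj h
    have h1 := hX.step ht (i.val : ℤ)
    rw [if_pos hi] at h1
    have h2 := hX.step ht (j.val : ℤ)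
    rw [if_pos hj] at h2
    have h3 : X ((i.val : ℤ) + 1) ≤ X (j.val : ℤ) := hmono (by
      have : i.val < j.val := hlt
      omega)
    have h4 : X ((j.val : ℤ) + 1) ≤ X ((i.val : ℤ) + ((a + b : ℕ) : ℤ)) := hmono (by
      rw [hab]
      have := j.isLt
      omega)
    rw [hX.period ht hper] at h4
    rw [ZMod.intCast_eq_intCast_iff_dvd_sub] at h
    have h5 := Int.le_of_dvd (by omega) h
    omega
  rcases lt_trichotomy i j with hlt | heq | hlt
  · exact (key i j hlt hi hj h).elim
  · exact heq
  · exact (key j i hlt hj hi h.symm).elim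

/-- the law of the rows -/
theorem stairMeasure_restrS {a b n : ℕ} (M : ℕ) (hab : a + b = 2 * n) {t X : ℤ → ℤ}
    (ht : Antitone t) (hper : ∀ x, t (x + a) = t x - b) (hX : IsPath t X)
    (η : Fin M → Fin (2 * n) → Bool) :
    (stairMeasure a).real (restrS a (2 * n) M t X ⁻¹' {η})
      = ∏ r, ∏ i, pr (wP (hor t X) i.val) (η r i) := by
  classical
  by_cases hv : ∃ (r : Fin M) (i : Fin (2 * n)), hor t X i.val = false ∧ η r i = false
  · obtain ⟨r, i, h1, h2⟩ := hv
    have e1 : restrS a (2 * n) M t X ⁻¹' {η} = ∅ := by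
      ext ω
      simp only [Set.mem_preimage, Set.mem_singleton_iff, Set.mem_empty_iff_false, iff_false]
      intro h
      have h3 := congrFun (congrFun h r) i
      simp only [restrS, rowsS, h1, h2] at h3
      simp at h3
    rw [e1, measureReal_empty]
    symm
    refine Finset.prod_eq_zero (Finset.mem_univ r) (Finset.prod_eq_zero (Finset.mem_univ i) ?_)
    rw [h2]
    simp [pr, wP, h1]
  · push Not at hv
    have hv' : ∀ (r : Fin M) (i : Fin (2 * n)), hor t X i.val = false → η r i = true := by
      intro r i h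
      have := hv r i h
      simpa using this
    set I : Finset (Fin M × Fin (2 * n)) := Finset.univ.filter
      (fun p => hor t X p.2.val = true) with hI
    set e : Fin M × Fin (2 * n) → ℕ × ZMod a :=
      fun p => (p.1.val, ((X p.2.val : ℤ) : ZMod a)) with he
    set T : ℕ × ZMod a → Set Bool := fun q => {c | ∀ p ∈ I, e p = q → c = η p.1 p.2} with hT
    have hinj : Set.InjOn e I := by
      rintro ⟨r, i⟩ hp ⟨r', j⟩ hq h
      simp only [hI, Finset.coe_filter, Finset.mem_univ, true_and, Set.mem_ofPred_eq] at hp hq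
      simp only [he, Prod.mk.injEq] at h
      have h1 := horizontal_injOn hab ht hper hX hp hq h.2
      have h2 : r = r' := Fin.ext h.1
      rw [h1, h2]
    have hset : restrS a (2 * n) M t X ⁻¹' {η} = Set.pi (↑(I.image e)) T := by
      ext ω
      simp only [Set.mem_preimage, Set.mem_singleton_iff, Set.mem_pi, Finset.coe_image,
        Set.mem_image, Finset.mem_coe, forall_exists_index, and_imp]
      constructor
      · rintro h q p hp rfl p' hp' hpp
        have h1 : p' = p := hinj hp' hp hpp
        subst h1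
        rw [← h]
        have h2 : hor t X p'.2.val = true := by
          simpa [hI] using hp'
        simp only [restrS, rowsS, h2, he]
        simp
      · intro h
        funext r i
        by_cases hi : hor t X i.val = true
        · have h1 : (r, i) ∈ I := by simp [hI, hi]
          have h2 := h (e (r, i)) (r, i) h1 rfl (r, i) h1 rfl
          simp only [he] at h2
          simp only [restrS, rowsS, hi]
          simpa using h2
        · have h0 : hor t X i.val = false := by simpa using hi
          rw [hv' r i h0]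
          simp only [restrS, rowsS, h0]
          simp
    have hTe : ∀ p ∈ I, T (e p) = {η p.1 p.2} := by
      intro p hp
      ext c
      simp only [hT, Set.mem_ofPred_eq, Set.mem_singleton_iff]
      constructor
      · intro h
        exact h p hp rfl
      · intro h p' hp' hpp
        have h1 : p' = p := hinj hp' hp hpp
        rw [h1, h]
    have h1 : ∀ c : Bool, ((PMF.uniformOfFintype Bool).toMeasure) {c} = 1 / 2 := by
      intro c
      rw [PMF.toMeasure_apply_singleton _ _ (MeasurableSet.singleton _)]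
      simp
    have hmeas : (stairMeasure a) (restrS a (2 * n) M t X ⁻¹' {η}) = (1 / 2) ^ I.card := by
      rw [hset, stairMeasure, Measure.infinitePi_pi _ (fun i _ => (Set.toFinite _).measurableSet),
        Finset.prod_image hinj, Finset.prod_congr rfl (fun p hp => by rw [hTe p hp, h1]),
        Finset.prod_const]
    rw [Measure.real, hmeas]
    have h2 : ∏ r, ∏ i, pr (wP (hor t X) i.val) (η r i)
        = ∏ p : Fin M × Fin (2 * n), (if hor t X p.2.val = true then (1 / 2 : ℝ) else 1) := by
      rw [Fintype.prod_prod_type]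
      refine Finset.prod_congr rfl fun r _ => Finset.prod_congr rfl fun i _ => ?_
      by_cases hi : hor t X i.val = true
      · simp only [wP, hi, if_true, pr]
        split_ifs <;> norm_num
      · have h0 : hor t X i.val = false := by simpa using hi
        simp [wP, h0, pr, hv' r i h0]
    rw [h2, Finset.prod_ite, Finset.prod_const, Finset.prod_const_one, mul_one]
    simp [hI]

/-- the cluster winds through the rows `< M` -/
def SWindsM (a L M : ℕ) [NeZero L] (t X : ℤ → ℤ) (ω : SConf a) (k : ℤ) : Prop :=
  ∃ m : ℤ, m ≠ 0 ∧ FConn M (rowsS a L t X ω) (0, k) (0, k + m * (L : ℤ))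

theorem SWindsM.mono {a L M M' : ℕ} [NeZero L] (h : M ≤ M') {t X : ℤ → ℤ} {ω : SConf a} {k : ℤ}
    (hw : SWindsM a L M t X ω k) : SWindsM a L M' t X ω k := by
  obtain ⟨m, hm, h'⟩ := hw
  exact ⟨m, hm, h'.mono h⟩

/-- the state at the top -/
theorem exists_top (n M : ℕ) [NeZero n] (k : ℤ) : ∃ s : St (Lab (2 * n)), Planar s ∧
    ∀ ω : ℕ → Fin (2 * n) → Bool,
      ((∃ m : ℤ, m ≠ 0 ∧ FConn M ω (0, k) (0, k + m * ((2 * n : ℕ) : ℤ))) ↔
        Exposed (runRows ω M s) k) := by
  rcases Int.even_or_odd k with he | ho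
  · exact ⟨cap n M, planar_cap n M, fun ω => link n M ω k he⟩
  · obtain ⟨s, hs, h⟩ := link_odd n M
    exact ⟨s, hs, fun ω => h ω k ho⟩

theorem prob_swinds {a b n : ℕ} [NeZero n] (ha : 1 ≤ a) (hab : a + b = 2 * n) {t X : ℤ → ℤ}
    (ht : Antitone t) (hper : ∀ x, t (x + a) = t x - b) (hX : IsPath t X)
    (Ψ : (PX (2 * n) → ℝ) →ₗ[ℝ] ℝ)
    (hlim : ∀ f x, Tendsto (fun M : ℕ => (iSX (wP (hor t X)) ^ M) f x) atTop (𝓝 (Ψ f))) (k : ℤ) :
    (stairMeasure a).real {ω | SWinds a b t ω (X k, X k - k)}
      = Ψ (fun x => open Classical in if Exposed x.1 k then 1 else 0) := by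
  classical
  choose s hs hlink using fun M => exists_top n M k
  set F : St (Lab (2 * n)) → ℝ := fun x => if Exposed x k then 1 else 0 with hF
  have hmono : Monotone fun M => {ω : SConf a | SWindsM a (2 * n) M t X ω k} :=
    fun M M' h ω hω => SWindsM.mono h hω
  have hU : {ω | SWinds a b t ω (X k, X k - k)}
      = ⋃ M, {ω : SConf a | SWindsM a (2 * n) M t X ω k} := by
    ext ω
    rw [Set.mem_iUnion]
    exact swinds_iff ha hab ht hper hX ω k
  have hex : ∀ M, {ω : SConf a | SWindsM a (2 * n) M t X ω k} = restrS a (2 * n) M t X ⁻¹'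
      {η | Exposed (runRows (extRows η) M (s M)) k} := by
    intro M
    ext ω
    simp only [Set.mem_ofPred_eq, Set.mem_preimage]
    rw [← hlink M (extRows (restrS a (2 * n) M t X ω))]
    constructor
    · rintro ⟨m, hm, h⟩
      exact ⟨m, hm, fconn_congr (fun r hr => (extRows_restrS a (2 * n) M t X ω r hr).symm) _ _ h⟩
    · rintro ⟨m, hm, h⟩
      exact ⟨m, hm, fconn_congr (fun r hr => (extRows_restrS a (2 * n) M t X ω r hr)) _ _ h⟩
  have hfin : ∀ M, (stairMeasure a).real {ω : SConf a | SWindsM a (2 * n) M t X ω k}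
      = (iSX (wP (hor t X)) ^ M) (resX F) ⟨s M, hs M⟩ := by
    intro M
    rw [iavg_rows, hex M]
    have h1 : (restrS a (2 * n) M t X ⁻¹' {η | Exposed (runRows (extRows η) M (s M)) k})
        = ⋃ η ∈ (Finset.univ.filter fun η : Fin M → Fin (2 * n) → Bool =>
            Exposed (runRows (extRows η) M (s M)) k), restrS a (2 * n) M t X ⁻¹' {η} := by
      ext ω
      simp
    rw [h1, measureReal_biUnion_finset]
    · rw [Finset.sum_filter]
      refine Finset.sum_congr rfl fun η _ => ?_
      rw [stairMeasure_restrS M hab ht hper hX]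
      simp only [hF]
      split_ifs <;> simp
    · intro η _ η' _ hne
      refine Disjoint.preimage _ ?_
      simpa using hne
    · intro η _
      exact measurable_restrS a (2 * n) M t X (MeasurableSet.singleton _)
  have hlim1 : Tendsto (fun M => (stairMeasure a).real
      {ω : SConf a | SWindsM a (2 * n) M t X ω k}) atTop
      (𝓝 ((stairMeasure a).real {ω | SWinds a b t ω (X k, X k - k)})) := by
    rw [hU]
    have := tendsto_measure_iUnion_atTop (μ := stairMeasure a) hmono
    exact (ENNReal.tendsto_toReal (measure_ne_top _ _)).comp this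
  have hlim2 := tendsto_states hlim (resX F) (fun M => ⟨s M, hs M⟩)
  simp only [hfin] at hlim1
  exact tendsto_nhds_unique hlim1 hlim2

end Pool.Agent.H21.Stair
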