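import Mathlib
import Pool.Agent.H21.Stair.Chain
import Pool.Agent.H21.Stair.Memory
import Pool.Agent.H21.Stair.Prob
import Pool.Agent.H21.Stair.Homog
import Pool.Agent.H21.Stair.Analysis

/-!
# The limit theorem for staircases
-/

open Filter Topology Polynomial MeasureTheory

namespace Pool.Agent.H21.Stair

open Pool.Agent.H65.Perc Pool.Agent.H65.Perc.St Pool.Agent.H21.Perc

/-- the phase of a boundary vertex: `p` = the preceding step of the staircase is horizontal, `q` =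
the following step is horizontal -/
noncomputable def phase (p q : Bool) : ℂ :=
  if p then (if q then 1 else 2 / Real.sqrt 3 * Complex.exp (-(Real.pi / 6 * Complex.I)))
  else (if q then 1 / Real.sqrt 3 * Complex.exp (-(Real.pi / 6 * Complex.I))
    else Complex.exp (-(Real.pi / 3 * Complex.I)))

theorem exp_pi6 : Complex.exp (Real.pi / 6 * Complex.I) = (Real.sqrt 3 + Complex.I) / 2 := by
  rw [show ((Real.pi : ℂ) / 6) = ((Real.pi / 6 : ℝ) : ℂ) by push_cast; ring, Complex.exp_mul_I,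
    ← Complex.ofReal_cos, ← Complex.ofReal_sin, Real.cos_pi_div_six, Real.sin_pi_div_six]
  push_cast; ring

theorem exp_neg_pi6 : Complex.exp (-(Real.pi / 6 * Complex.I)) = (Real.sqrt 3 - Complex.I) / 2 := by
  rw [show -((Real.pi : ℂ) / 6 * Complex.I) = ((-(Real.pi / 6) : ℝ) : ℂ) * Complex.I by
      push_cast; ring, Complex.exp_mul_I,
    ← Complex.ofReal_cos, ← Complex.ofReal_sin, Real.cos_neg, Real.sin_neg,
    Real.cos_pi_div_six, Real.sin_pi_div_six]
  push_cast; ring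

theorem exp_neg_pi3 : Complex.exp (-(Real.pi / 3 * Complex.I)) = (1 - Real.sqrt 3 * Complex.I) / 2 := by
  rw [show -((Real.pi : ℂ) / 3 * Complex.I) = ((-(Real.pi / 3) : ℝ) : ℂ) * Complex.I by
      push_cast; ring, Complex.exp_mul_I,
    ← Complex.ofReal_cos, ← Complex.ofReal_sin, Real.cos_neg, Real.sin_neg,
    Real.cos_pi_div_three, Real.sin_pi_div_three]
  push_cast; ring

theorem sqrt3_ne : (Real.sqrt 3 : ℂ) ≠ 0 := by
  have := sqrt3_bounds
  have h : Real.sqrt 3 ≠ 0 := by linarith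
  exact_mod_cast h

theorem cc_phase (h : ℤ → Bool) (k : ℤ) :
    cc h (Real.pi / 6) k = 3 * Complex.exp (Real.pi / 6 * Complex.I) * phase (h (k - 1)) (h k) := by
  have eH : (dH (Real.pi / 6))⁻¹ = (Real.sqrt 3 + Complex.I) / 2 := by
    rw [← exp_pi6]
    unfold dH
    rw [← Complex.exp_neg]
    congr 1; push_cast; ring
  have eV : (dV (Real.pi / 6))⁻¹ = (Real.sqrt 3 - Complex.I) / 2 := by
    rw [← exp_neg_pi6]
    unfold dV
    rw [← Complex.exp_neg]
    congr 1; push_cast; ring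
  have hom : om = (-1 + Real.sqrt 3 * Complex.I) / 2 := by
    apply Complex.ext
    · simp [om]
    · simp [om]
  have h3 : (Real.sqrt 3 : ℂ) ^ 2 = 3 := by
    rw [← Complex.ofReal_pow, sq, sqrt3_sq]; norm_num
  have hI : Complex.I ^ 2 = -1 := Complex.I_sq
  have hom2 : om ^ 2 = (-1 - Real.sqrt 3 * Complex.I) / 2 := by
    rw [hom]
    linear_combination (1 / 4 * Complex.I ^ 2) * h3 + 3 / 4 * hI
  have hs := sqrt3_ne
  have hs1 : 1 / (Real.sqrt 3 : ℂ) = Real.sqrt 3 / 3 := by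
    rw [div_eq_div_iff hs (by norm_num)]; linear_combination (-1 : ℂ) * h3
  have hs2 : 2 / (Real.sqrt 3 : ℂ) = 2 * Real.sqrt 3 / 3 := by
    rw [div_eq_div_iff hs (by norm_num)]; linear_combination (-2 : ℂ) * h3
  unfold cc phase dk
  rw [hom2, exp_pi6, exp_neg_pi6, exp_neg_pi3, hom, hs1, hs2]
  cases h (k - 1) <;> cases h k <;> simp only [Bool.false_eq_true, if_false, if_true, eH, eV]
  · linear_combination (3 / 4 * (Real.sqrt 3 : ℂ)) * hI + (3 / 4 * Complex.I) * h3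
  · linear_combination (3 / 4 * (Real.sqrt 3 : ℂ)) * hI - (1 / 4 * (Real.sqrt 3 : ℂ)) * h3
  · linear_combination (-(1 / 2 * (Real.sqrt 3 : ℂ))) * h3
  · ring

/-- translation invariance of the graph -/
theorem stair_adj_shift {a : ℕ} {t : ℤ → ℤ} {A B : ℤ} (hA : ((A : ℤ) : ZMod a) = 0)
    (hper : ∀ x, t (x + A) = t x - B) (ω : SConf a)
    {p q : ℤ × ℤ} (h : (stairGraph a t ω).Adj p q) :
    (stairGraph a t ω).Adj (p.1 + A, p.2 - B) (q.1 + A, q.2 - B) := by
  unfold stairGraph at h ⊢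
  rw [SimpleGraph.fromRel_adj] at h ⊢
  obtain ⟨hne, h⟩ := h
  refine ⟨?_, ?_⟩
  · intro he
    apply hne
    have h1 := congrArg Prod.fst he
    have h2 := congrArg Prod.snd he
    simp only at h1 h2
    exact Prod.ext (by linarith) (by linarith)
  · have key : ∀ p q : ℤ × ℤ, (∃ (x : ℤ) (r : ℕ),
        (ω (r, (x : ZMod a)) = true ∧ p = (x, t x - r - 1) ∧ q = (x + 1, t x - r)) ∨
        (ω (r, (x : ZMod a)) = false ∧ p = (x, t x - r) ∧ q = (x + 1, t x - r - 1))) →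
        (∃ (x : ℤ) (r : ℕ),
        (ω (r, (x : ZMod a)) = true ∧ (p.1 + A, p.2 - B) = (x, t x - r - 1) ∧
          (q.1 + A, q.2 - B) = (x + 1, t x - r)) ∨
        (ω (r, (x : ZMod a)) = false ∧ (p.1 + A, p.2 - B) = (x, t x - r) ∧
          (q.1 + A, q.2 - B) = (x + 1, t x - r - 1))) := by
      rintro p q ⟨x, r, h | h⟩
      · obtain ⟨h1, rfl, rfl⟩ := h
        refine ⟨x + A, r, Or.inl ⟨?_, ?_, ?_⟩⟩
        · rw [← h1]; congr 2; push_cast; rw [hA, add_zero]
        · exact Prod.ext rfl (by simp only [hper]; ring)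
        · exact Prod.ext (by simp only; ring) (by simp only [hper]; ring)
      · obtain ⟨h1, rfl, rfl⟩ := h
        refine ⟨x + A, r, Or.inr ⟨?_, ?_, ?_⟩⟩
        · rw [← h1]; congr 2; push_cast; rw [hA, add_zero]
        · exact Prod.ext rfl (by simp only [hper]; ring)
        · exact Prod.ext (by simp only; ring) (by simp only [hper]; ring)
    rcases h with h | h
    · exact Or.inl (key p q h)
    · exact Or.inr (key q p h)

theorem stair_reach_shift {a : ℕ} {t : ℤ → ℤ} {A B : ℤ} (hA : ((A : ℤ) : ZMod a) = 0)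
    (hper : ∀ x, t (x + A) = t x - B) (ω : SConf a)
    {p q : ℤ × ℤ} (h : (stairGraph a t ω).Reachable p q) :
    (stairGraph a t ω).Reachable (p.1 + A, p.2 - B) (q.1 + A, q.2 - B) := by
  obtain ⟨w⟩ := h
  induction w with
  | nil => exact SimpleGraph.Reachable.refl _
  | cons hadj _ ih => exact (stair_adj_shift hA hper ω hadj).reachable.trans ih

theorem swinds_shift {a b : ℕ} {t : ℤ → ℤ} (hper : ∀ x, t (x + a) = t x - b) (ω : SConf a)
    (p : ℤ × ℤ) : SWinds a b t ω (p.1 + a, p.2 - b) ↔ SWinds a b t ω p := by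
  have hA : (((a : ℕ) : ℤ) : ZMod a) = 0 := by simp
  have hA' : ((-((a : ℕ) : ℤ) : ℤ) : ZMod a) = 0 := by simp
  have hper' : ∀ x, t (x + -((a : ℕ) : ℤ)) = t x - -((b : ℕ) : ℤ) := by
    intro x
    have := hper (x + -((a : ℕ) : ℤ))
    rw [neg_add_cancel_right] at this
    linarith
  constructor
  · rintro ⟨m, hm, h⟩
    refine ⟨m, hm, ?_⟩
    have := stair_reach_shift hA' hper' ω h
    simp only at this
    have e1 : ((p.1 + (a : ℤ) + -(a : ℤ)), (p.2 - (b : ℤ) - -(b : ℤ))) = p :=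
      Prod.ext (by simp) (by simp)
    have e2 : ((p.1 + (a : ℤ) + m * (a : ℤ) + -(a : ℤ)), (p.2 - (b : ℤ) - m * (b : ℤ) - -(b : ℤ)))
        = (p.1 + m * a, p.2 - m * b) := Prod.ext (by simp only; ring) (by simp only; ring)
    rw [e1, e2] at this
    exact this
  · rintro ⟨m, hm, h⟩
    refine ⟨m, hm, ?_⟩
    have := stair_reach_shift hA hper ω h
    simp only at this
    have e2 : ((p.1 + m * (a : ℤ) + (a : ℤ)), (p.2 - m * (b : ℤ) - (b : ℤ)))
        = (p.1 + a + m * a, p.2 - b - m * b) := Prod.ext (by simp only; ring) (by simp only; ring)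
    rw [e2] at this
    exact this

/-- the exact derivative and the boundary sum -/
theorem sum_eq_deriv {a b : ℕ} {t : ℤ → ℤ} (ha : 1 ≤ a) (hev : Even (a + b)) (ht : Antitone t)
    (hper : ∀ x, t (x + a) = t x - b) :
    ∃ Q : ℂ[X], Good (Real.pi / 6) a b Q ∧ (a = 0 ∨ Q.eval (dH (Real.pi / 6)) ≠ 0) ∧
      (b = 0 ∨ Q.eval (dV (Real.pi / 6)) ≠ 0) ∧
      deriv (fun u => Q.eval u / (den (Real.pi / 6) a b).eval u) 0
        = 3 * Complex.exp (Real.pi / 6 * Complex.I) *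
          ∑ x ∈ Finset.range a, ∑ y ∈ Finset.Icc (t x) (t (x - 1)),
            phase (decide (y = t (x - 1))) (decide (y = t x)) *
              (((stairMeasure a).real {ω | SWinds a b t ω (x, y)} : ℝ) : ℂ) := by
  classical
  obtain ⟨n, hn⟩ := hev
  have hab : a + b = 2 * n := by omega
  haveI : NeZero n := ⟨by omega⟩
  obtain ⟨X, hX⟩ := exists_path ha ht hper
  have hp : ∀ k, hor t X (k + ((2 * n : ℕ) : ℤ)) = hor t X k := by
    intro k
    rw [← hab]; exact hX.hor_period ht hper k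
  have hcard := hX.card_hor ht hper
  rw [hab] at hcard
  obtain ⟨Ψ, Q, hone, hinv, hG, hH, hV, hder⟩ := chain_main n hp hcard hab
  have hex : ∃ k, hor t X k = true := by
    by_contra hcon
    push Not at hcon
    have : ((Finset.range (2 * n)).filter (fun k : ℕ => hor t X k = true)).card = 0 := by
      rw [Finset.card_eq_zero, Finset.filter_eq_empty_iff]
      intro k _
      exact hcon k
    omega
  have hlim := memory_loss n hp hex Ψ hone hinv
  refine ⟨Q, hG, hH, hV, ?_⟩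
  rw [hder]
  have hs := hX.sum ha ht hper (fun p => phase (decide (p.2 = t (p.1 - 1))) (decide (p.2 = t p.1)) *
              (((stairMeasure a).real {ω | SWinds a b t ω p} : ℝ) : ℂ)) (by
    intro p
    simp only
    have e1 : (p.2 - (b : ℤ) = t (p.1 + a - 1)) = (p.2 = t (p.1 - 1)) := by
      have := hper (p.1 - 1)
      rw [show p.1 - 1 + (a : ℤ) = p.1 + a - 1 by ring] at this
      rw [this]
      exact propext ⟨fun h => by linarith, fun h => by linarith⟩
    have e2 : (p.2 - (b : ℤ) = t (p.1 + a)) = (p.2 = t p.1) := by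
      rw [hper]
      exact propext ⟨fun h => by linarith, fun h => by linarith⟩
    have e3 : {ω | SWinds a b t ω (p.1 + a, p.2 - b)} = {ω | SWinds a b t ω p} := by
      ext ω
      exact swinds_shift hper ω p
    rw [e3]
    congr 2
    · simp only [e1]
    · simp only [e2])
  simp only at hs
  rw [hs, hab, Finset.mul_sum]
  refine Finset.sum_congr rfl (fun k _ => ?_)
  rw [cc_phase, ← prob_swinds ha hab ht hper hX Ψ hlim k]
  have e1 : hor t X ((k : ℤ) - 1) = decide (X k - (k : ℤ) = t (X k - 1)) := by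
    have := hX.hor_prev ht (k : ℤ)
    rw [Bool.eq_iff_iff, this, decide_eq_true_iff]
  have e2 : hor t X (k : ℤ) = decide (X k - (k : ℤ) = t (X k)) := rfl
  rw [e1, e2]
  ring

/-- the homogeneous case determines the constant -/
theorem const_eq {c1 : ℂ} (h : ∀ ε : ℝ, 0 < ε → ∃ N0 : ℕ, ∀ (a b : ℕ) (Q : ℂ[X]), N0 ≤ a + b →
    Good (Real.pi / 6) a b Q → (a = 0 ∨ Q.eval (dH (Real.pi / 6)) ≠ 0) →
    (b = 0 ∨ Q.eval (dV (Real.pi / 6)) ≠ 0) →
    ‖deriv (fun u => Q.eval u / (den (Real.pi / 6) a b).eval u) 0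
      - c1 * (Complex.exp (Real.pi / 6 * Complex.I) * ((a : ℂ) - b * Complex.I) ^ (2 / 3 : ℂ))‖
      ≤ ε * ((a : ℝ) + b) ^ (2 / 3 : ℝ)) :
    c1 = 3 * ((Real.Gamma (5 / 6) / Real.sqrt Real.pi : ℝ) : ℂ) := by
  classical
  set r : ℕ → ℝ := fun n => (2 * (n : ℝ) *
      ∏ k ∈ Finset.range n, ((3 * (k : ℝ) + 1) / (3 * k + 2))) / (2 * n : ℝ) ^ (2 / 3 : ℝ) with hr
  have hlim1 : Tendsto (fun n => 3 * ((r n : ℝ) : ℂ)) atTop
      (𝓝 (3 * ((Real.Gamma (5 / 6) / Real.sqrt Real.pi : ℝ) : ℂ))) :=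
    ((Complex.continuous_ofReal.tendsto _).comp homogeneous_limit).const_mul 3
  have hlim2 : Tendsto (fun n => 3 * ((r n : ℝ) : ℂ)) atTop (𝓝 c1) := by
    rw [Metric.tendsto_atTop]
    intro ε hε
    obtain ⟨N0, hN0⟩ := h (ε / 2) (by positivity)
    refine ⟨N0 + 1, fun n hn => ?_⟩
    haveI : NeZero n := ⟨by omega⟩
    have hp : ∀ k : ℤ, (fun _ : ℤ => true) (k + ((2 * n : ℕ) : ℤ)) = (fun _ : ℤ => true) k :=
      fun _ => rfl
    obtain ⟨Ψ, Q, hone, hinv, hG, hH, hV, hder⟩ := chain_main n (h := fun _ : ℤ => true) hp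
      (a := 2 * n) (b := 0) (by simp) (by simp)
    have hlim := memory_loss n hp ⟨0, rfl⟩ Ψ hone hinv
    have e0 : (wP fun _ : ℤ => true) = (fun _ => 1 / 2) := by funext k; simp [wP]
    rw [e0] at hlim
    have hhom := homogeneous n Ψ hlim
    have h1 := hN0 (2 * n) 0 Q (by omega) hG hH hV
    rw [hder] at h1
    have e1 : ∑ k ∈ Finset.range (2 * n),
          ((Ψ (fun x => if Exposed x.1 (k : ℤ) then (1 : ℝ) else 0) : ℝ) : ℂ)
            * cc (fun _ => true) (Real.pi / 6) k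
        = 3 * Complex.exp (Real.pi / 6 * Complex.I) *
          ((2 * n * ∏ k ∈ Finset.range n, ((3 * (k : ℝ) + 1) / (3 * k + 2)) : ℝ) : ℂ) := by
      rw [← hhom]
      have e2 : (fun x : PX (2 * n) => (numExp x.1 : ℝ))
          = ∑ k ∈ Finset.range (2 * n), (fun x : PX (2 * n) =>
            if Exposed x.1 (k : ℤ) then (1 : ℝ) else 0) := by
        funext x
        rw [Finset.sum_apply]
        unfold numExp
        rw [Finset.card_filter]
        push_cast
        rfl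
      rw [e2, map_sum]
      push_cast
      rw [Finset.mul_sum]
      refine Finset.sum_congr rfl (fun k _ => ?_)
      rw [cc_phase]
      simp only [phase, if_true]
      ring
    rw [e1] at h1
    have hpos : (0 : ℝ) < (2 * n : ℝ) := by
      have : 0 < n := by omega
      positivity
    have hrpos : (0 : ℝ) < (2 * n : ℝ) ^ (2 / 3 : ℝ) := Real.rpow_pos_of_pos hpos _
    have e3 : (((2 * n : ℕ) : ℂ) - ((0 : ℕ) : ℂ) * Complex.I) ^ (2 / 3 : ℂ)
        = (((2 * n : ℝ) ^ (2 / 3 : ℝ) : ℝ) : ℂ) := by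
      rw [Complex.ofReal_cpow hpos.le]
      push_cast
      simp
    rw [e3] at h1
    have e4 : 3 * Complex.exp (Real.pi / 6 * Complex.I) *
          ((2 * n * ∏ k ∈ Finset.range n, ((3 * (k : ℝ) + 1) / (3 * k + 2)) : ℝ) : ℂ)
          - c1 * (Complex.exp (Real.pi / 6 * Complex.I) * (((2 * n : ℝ) ^ (2 / 3 : ℝ) : ℝ) : ℂ))
        = Complex.exp (Real.pi / 6 * Complex.I) * (((2 * n : ℝ) ^ (2 / 3 : ℝ) : ℝ) : ℂ) *
          (3 * ((r n : ℝ) : ℂ) - c1) := by
      have e5 : ((2 * n * ∏ k ∈ Finset.range n, ((3 * (k : ℝ) + 1) / (3 * k + 2)) : ℝ) : ℂ)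
          = (((2 * n : ℝ) ^ (2 / 3 : ℝ) : ℝ) : ℂ) * ((r n : ℝ) : ℂ) := by
        rw [← Complex.ofReal_mul]
        congr 1
        simp only [hr]
        exact (mul_div_cancel₀ _ hrpos.ne').symm
      rw [e5]
      ring
    rw [e4, norm_mul, norm_mul, Complex.norm_real, Real.norm_eq_abs, abs_of_pos hrpos] at h1
    have e6 : ‖Complex.exp (Real.pi / 6 * Complex.I)‖ = 1 := by
      rw [show ((Real.pi : ℂ) / 6) = ((Real.pi / 6 : ℝ) : ℂ) by push_cast; ring,
        Complex.norm_exp_ofReal_mul_I]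
    rw [e6, one_mul] at h1
    push_cast at h1
    rw [add_zero] at h1
    rw [dist_eq_norm]
    have h2 : (2 * n : ℝ) ^ (2 / 3 : ℝ) * ‖3 * ((r n : ℝ) : ℂ) - c1‖
        ≤ (2 * n : ℝ) ^ (2 / 3 : ℝ) * (ε / 2) := by linarith
    have h3 := le_of_mul_le_mul_left h2 hrpos
    linarith
  exact tendsto_nhds_unique hlim2 hlim1

/-- **the limit theorem** -/
theorem main : ∀ ε : ℝ, 0 < ε → ∃ N : ℕ, ∀ (a b : ℕ) (t : ℤ → ℤ), 1 ≤ a → N ≤ a + b →
    Even (a + b) → Antitone t → (∀ x, t (x + a) = t x - b) →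
    ‖∑ x ∈ Finset.range a, ∑ y ∈ Finset.Icc (t x) (t (x - 1)),
        phase (decide (y = t (x - 1))) (decide (y = t x)) *
          (((stairMeasure a).real {ω | SWinds a b t ω (x, y)} : ℝ) : ℂ)
      - Real.Gamma (5 / 6) / Real.sqrt Real.pi * ((a : ℂ) - b * Complex.I) ^ (2 / 3 : ℂ)‖
      ≤ ε * ‖(a : ℂ) - b * Complex.I‖ ^ (2 / 3 : ℝ) := by
  obtain ⟨c1, hc1⟩ := analysis_main
  have hc := const_eq hc1
  intro ε hε
  obtain ⟨N, hN⟩ := hc1 ε hε
  refine ⟨N, fun a b t ha hab hev ht hper => ?_⟩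
  obtain ⟨Q, hG, hH, hV, hder⟩ := sum_eq_deriv ha hev ht hper
  have h1 := hN a b Q hab hG hH hV
  rw [hder, hc] at h1
  set S := ∑ x ∈ Finset.range a, ∑ y ∈ Finset.Icc (t x) (t (x - 1)),
        phase (decide (y = t (x - 1))) (decide (y = t x)) *
          (((stairMeasure a).real {ω | SWinds a b t ω (x, y)} : ℝ) : ℂ)
  set z : ℂ := (a : ℂ) - b * Complex.I with hz
  have e4 : 3 * Complex.exp (Real.pi / 6 * Complex.I) * S
      - 3 * ((Real.Gamma (5 / 6) / Real.sqrt Real.pi : ℝ) : ℂ) *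
        (Complex.exp (Real.pi / 6 * Complex.I) * z ^ (2 / 3 : ℂ))
      = 3 * Complex.exp (Real.pi / 6 * Complex.I) *
        (S - Real.Gamma (5 / 6) / Real.sqrt Real.pi * z ^ (2 / 3 : ℂ)) := by
    push_cast; ring
  have e6 : ‖Complex.exp (Real.pi / 6 * Complex.I)‖ = 1 := by
    rw [show ((Real.pi : ℂ) / 6) = ((Real.pi / 6 : ℝ) : ℂ) by push_cast; ring,
      Complex.norm_exp_ofReal_mul_I]
  rw [e4, norm_mul, norm_mul, e6, mul_one] at h1
  have e7 : ‖(3 : ℂ)‖ = 3 := by norm_num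
  rw [e7] at h1
  have hzn : (a : ℝ) + b ≤ 2 * ‖z‖ := by
    have h2 : |z.re| ≤ ‖z‖ := Complex.abs_re_le_norm z
    have h3 : |z.im| ≤ ‖z‖ := Complex.abs_im_le_norm z
    have e1 : z.re = a := by simp [hz]
    have e2 : z.im = -(b : ℝ) := by simp [hz]
    rw [e1, abs_of_nonneg (Nat.cast_nonneg a)] at h2
    rw [e2, abs_neg, abs_of_nonneg (Nat.cast_nonneg b)] at h3
    linarith
  have h5 : ((a : ℝ) + b) ^ (2 / 3 : ℝ) ≤ 2 * ‖z‖ ^ (2 / 3 : ℝ) := by
    calc ((a : ℝ) + b) ^ (2 / 3 : ℝ) ≤ (2 * ‖z‖) ^ (2 / 3 : ℝ) :=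
          Real.rpow_le_rpow (by positivity) hzn (by norm_num)
      _ = 2 ^ (2 / 3 : ℝ) * ‖z‖ ^ (2 / 3 : ℝ) := Real.mul_rpow (by norm_num) (norm_nonneg _)
      _ ≤ 2 * ‖z‖ ^ (2 / 3 : ℝ) := by
          refine mul_le_mul_of_nonneg_right ?_ (Real.rpow_nonneg (norm_nonneg _) _)
          calc (2 : ℝ) ^ (2 / 3 : ℝ) ≤ 2 ^ (1 : ℝ) :=
                Real.rpow_le_rpow_of_exponent_le (by norm_num) (by norm_num)
            _ = 2 := Real.rpow_one 2
  have h6 : ε * ((a : ℝ) + b) ^ (2 / 3 : ℝ) ≤ ε * (2 * ‖z‖ ^ (2 / 3 : ℝ)) :=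
    mul_le_mul_of_nonneg_left h5 hε.le
  have h7 : 0 ≤ ‖z‖ ^ (2 / 3 : ℝ) := Real.rpow_nonneg (norm_nonneg _) _
  nlinarith [mul_nonneg hε.le h7]

end Pool.Agent.H21.Stair
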