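import Pool.Agent.H21.Stair.Basic

open Filter Topology Complex

namespace Pool.Agent.H21.Stair

/-- bounded version of the Phragmen-Lindelof principle in a closed strip -/
theorem strip_bound {f : ℂ → ℂ} {a b C : ℝ} (hab : a < b)
    (hfd : ∀ z : ℂ, a ≤ z.im → z.im ≤ b → DifferentiableAt ℂ f z)
    (hbd : ∃ L M : ℝ, ∀ z : ℂ, a ≤ z.im → z.im ≤ b → L ≤ |z.re| → ‖f z‖ ≤ M)
    (hle_a : ∀ z : ℂ, z.im = a → ‖f z‖ ≤ C) (hle_b : ∀ z : ℂ, z.im = b → ‖f z‖ ≤ C) (z : ℂ)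
    (hza : a ≤ z.im) (hzb : z.im ≤ b) : ‖f z‖ ≤ C := by
  obtain ⟨L, M, hM⟩ := hbd
  refine PhragmenLindelof.horizontal_strip (f := f) (a := a) (b := b) ?_ ?_ hle_a hle_b hza hzb
  · have hcl : closure (Complex.im ⁻¹' Set.Ioo a b) ⊆ Complex.im ⁻¹' Set.Icc a b := by
      apply closure_minimal
      · intro z hz
        exact ⟨hz.1.le, hz.2.le⟩
      · exact isClosed_Icc.preimage Complex.continuous_im
    constructor
    · intro z hz
      exact (hfd z hz.1.le hz.2.le).differentiableWithinAt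
    · intro z hz
      exact (hfd z (hcl hz).1 (hcl hz).2).continuousAt.continuousWithinAt
  · refine ⟨0, by have := Real.pi_pos; have : 0 < b - a := by linarith
                  positivity, 0, ?_⟩
    simp only [zero_mul, Real.exp_zero]
    apply Asymptotics.IsBigO.of_bound M
    rw [eventually_inf_principal]
    have h1 : ∀ᶠ z : ℂ in comap (_root_.abs ∘ Complex.re) atTop, L ≤ |z.re| :=
      (eventually_ge_atTop L).comap _
    filter_upwards [h1] with z hz hz2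
    rw [norm_one, mul_one]
    exact hM z hz2.1.le hz2.2.le hz

/-- the first step: the middle line of a strip of width `pi` -/
theorem mid_bound {g : ℂ → ℂ} (hgd : ∀ z : ℂ, 0 ≤ z.im → z.im ≤ Real.pi → DifferentiableAt ℂ g z)
    (hg0 : ∀ z : ℂ, 0 ≤ z.im → z.im ≤ Real.pi → g z ≠ 0)
    (hbd : ∃ L m M : ℝ, 0 < m ∧ ∀ z : ℂ, 0 ≤ z.im → z.im ≤ Real.pi → L ≤ |z.re| →
      m ≤ ‖g z‖ ∧ ‖g z‖ ≤ M)
    (hprod : ∀ z : ℂ, z.im = 0 → 2 ≤ ‖g z * g (z + Real.pi * I)‖ ∧
      ‖g z * g (z + Real.pi * I)‖ ≤ 4) (z : ℂ) (hz : z.im = Real.pi / 2) :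
    Real.sqrt 2 ≤ ‖g z‖ ∧ ‖g z‖ ≤ 2 := by
  have hpi := Real.pi_pos
  obtain ⟨L, m, M, hm, hLM⟩ := hbd
  set cj := starRingEnd ℂ with hcj
  -- the reflected function
  let k : ℂ → ℂ := fun ζ => cj (g (cj ζ + Real.pi * I))
  have him : ∀ ζ : ℂ, (cj ζ + Real.pi * I).im = Real.pi - ζ.im := by
    intro ζ; simp [hcj]; ring
  have hre : ∀ ζ : ℂ, (cj ζ + Real.pi * I).re = ζ.re := by
    intro ζ; simp [hcj]
  have hkd : ∀ z : ℂ, 0 ≤ z.im → z.im ≤ Real.pi → DifferentiableAt ℂ k z := by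
    intro z h0 h1
    have h2 : DifferentiableAt ℂ g (cj z + Real.pi * I) :=
      hgd _ (by rw [him]; linarith) (by rw [him]; linarith)
    have h3 : DifferentiableAt ℂ (fun w => g (w + Real.pi * I)) (cj z) := by
      have h4 : DifferentiableAt ℂ (fun w : ℂ => w + Real.pi * I) (cj z) := by fun_prop
      exact DifferentiableAt.comp (f := fun w : ℂ => w + Real.pi * I) (g := g) (cj z) h2 h4
    have h5 := differentiableAt_star_conj_iff (𝕜 := ℂ) (f := fun w => g (w + Real.pi * I)) (x := z)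
    exact h5.2 h3
  have hk0 : ∀ z : ℂ, 0 ≤ z.im → z.im ≤ Real.pi → k z ≠ 0 := by
    intro z h0 h1
    have h2 := hg0 (cj z + Real.pi * I) (by rw [him]; linarith) (by rw [him]; linarith)
    simpa [k, hcj] using h2
  have hknorm : ∀ z : ℂ, ‖k z‖ = ‖g (cj z + Real.pi * I)‖ := by
    intro z; simp [k, hcj]
  have hkbd : ∀ z : ℂ, 0 ≤ z.im → z.im ≤ Real.pi → L ≤ |z.re| → m ≤ ‖k z‖ ∧ ‖k z‖ ≤ M := by
    intro z h0 h1 h2
    rw [hknorm]
    exact hLM _ (by rw [him]; linarith) (by rw [him]; linarith) (by rw [hre]; exact h2)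
  have hM0 : ∀ z : ℂ, 0 ≤ z.im → z.im ≤ Real.pi → L ≤ |z.re| → 0 < M := by
    intro z h0 h1 h2
    have := hLM z h0 h1 h2
    linarith
  -- boundary values
  have hb0 : ∀ z : ℂ, z.im = 0 → 2 ≤ ‖g z * k z‖ ∧ ‖g z * k z‖ ≤ 4 := by
    intro z hz
    have e : cj z = z := by
      rw [hcj, Complex.conj_eq_iff_im]; exact hz
    have h := hprod z hz
    rw [norm_mul, hknorm, e, ← norm_mul]
    exact h
  have hb1 : ∀ z : ℂ, z.im = Real.pi → 2 ≤ ‖g z * k z‖ ∧ ‖g z * k z‖ ≤ 4 := by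
    intro z hz
    have e : cj z + Real.pi * I = (z.re : ℂ) := by
      apply Complex.ext
      · rw [hre]; simp
      · rw [him, hz]; simp
    have e2 : z = (z.re : ℂ) + Real.pi * I := by
      apply Complex.ext <;> simp [hz]
    have h := hprod (z.re : ℂ) (by simp)
    rw [norm_mul, hknorm, e]
    rw [norm_mul, ← e2] at h
    rw [mul_comm]
    exact h
  have hmid : cj z + Real.pi * I = z := by
    apply Complex.ext
    · rw [hre]
    · rw [him, hz]; ring
  have hnn : ‖g z * k z‖ = ‖g z‖ ^ 2 := by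
    rw [norm_mul, hknorm, hmid, sq]
  have hup : ‖g z * k z‖ ≤ 4 := by
    refine strip_bound (f := fun z => g z * k z) (a := 0) (b := Real.pi) (C := 4) hpi ?_ ?_ ?_ ?_ z
      (by rw [hz]; positivity) (by rw [hz]; linarith)
    · intro w h0 h1
      exact (hgd w h0 h1).mul (hkd w h0 h1)
    · refine ⟨L, M * M, fun w h0 h1 h2 => ?_⟩
      rw [norm_mul]
      exact mul_le_mul (hLM w h0 h1 h2).2 (hkbd w h0 h1 h2).2 (norm_nonneg _) (hM0 w h0 h1 h2).le
    · intro w hw; exact (hb0 w hw).2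
    · intro w hw; exact (hb1 w hw).2
  have hlo : ‖(g z * k z)⁻¹‖ ≤ 1 / 2 := by
    refine strip_bound (f := fun z => (g z * k z)⁻¹) (a := 0) (b := Real.pi) (C := 1 / 2) hpi ?_ ?_ ?_ ?_ z
      (by rw [hz]; positivity) (by rw [hz]; linarith)
    · intro w h0 h1
      exact ((hgd w h0 h1).mul (hkd w h0 h1)).inv (mul_ne_zero (hg0 w h0 h1) (hk0 w h0 h1))
    · refine ⟨L, (m * m)⁻¹, fun w h0 h1 h2 => ?_⟩
      rw [norm_inv, norm_mul]
      apply inv_anti₀ (mul_pos hm hm)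
      exact mul_le_mul (hLM w h0 h1 h2).1 (hkbd w h0 h1 h2).1 hm.le (norm_nonneg _)
    · intro w hw
      rw [norm_inv, one_div]
      exact inv_anti₀ (by norm_num) (hb0 w hw).1
    · intro w hw
      rw [norm_inv, one_div]
      exact inv_anti₀ (by norm_num) (hb1 w hw).1
  have hgz : g z ≠ 0 := hg0 z (by rw [hz]; positivity) (by rw [hz]; linarith)
  have hpos : 0 < ‖g z‖ := norm_pos_iff.2 hgz
  rw [norm_inv, hnn] at hlo
  rw [hnn] at hup
  have h2 : 2 ≤ ‖g z‖ ^ 2 := by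
    have h3 : 0 < ‖g z‖ ^ 2 := by positivity
    rw [inv_le_comm₀ h3 (by norm_num)] at hlo
    norm_num at hlo
    exact hlo
  constructor
  · rw [Real.sqrt_le_left hpos.le]
    exact h2
  · nlinarith

theorem mem_KK_exp {ζ : ℂ} (h : |ζ.im| ≤ Real.pi) : Complex.exp (ζ / 3) ∈ KK := by
  have hpi := Real.pi_pos
  have him : (ζ / 3).im = ζ.im / 3 := by
    have : ζ / 3 = ζ / ((3 : ℝ) : ℂ) := by norm_num
    rw [this, Complex.div_ofReal_im]
  unfold KK
  rw [Set.mem_ofPred_eq, Complex.exp_im, Complex.exp_re, him]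
  have h1 : |ζ.im / 3| ≤ Real.pi / 3 := by rw [abs_div]; norm_num; linarith
  obtain ⟨h2, h3⟩ := abs_le.mp h1
  have hcos : 1 / 2 ≤ Real.cos (ζ.im / 3) := by
    rw [← Real.cos_abs, ← Real.cos_pi_div_three]
    exact Real.cos_le_cos_of_nonneg_of_le_pi (abs_nonneg _) (by linarith) h1
  have hsin : |Real.sin (ζ.im / 3)| ≤ Real.sqrt 3 / 2 := by
    rw [abs_le]
    have e := Real.sin_pi_div_three
    constructor
    · rw [← e, ← Real.sin_neg]
      exact Real.sin_le_sin_of_le_of_le_pi_div_two (by linarith) (by linarith) h2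
    · rw [← e]
      exact Real.sin_le_sin_of_le_of_le_pi_div_two (by linarith) (by linarith) h3
  have hE := Real.exp_pos (ζ / 3).re
  have hs3 : 0 ≤ Real.sqrt 3 := Real.sqrt_nonneg 3
  rw [abs_mul, abs_of_pos hE]
  have : |Real.sin (ζ.im / 3)| ≤ Real.sqrt 3 * Real.cos (ζ.im / 3) := by nlinarith
  nlinarith [mul_le_mul_of_nonneg_left this hE.le]

theorem arg_le_of_mem_KK {v : ℂ} (hv : v ∈ KK) (hv0 : v ≠ 0) : |v.arg| ≤ Real.pi / 3 := by
  have hpi := Real.pi_pos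
  have hn : 0 < ‖v‖ := norm_pos_iff.2 hv0
  have h1 : ‖v‖ * Real.cos v.arg = v.re := Complex.norm_mul_cos_arg v
  have h2 : ‖v‖ * Real.sin v.arg = v.im := Complex.norm_mul_sin_arg v
  have hk : |v.im| ≤ Real.sqrt 3 * v.re := hv
  rw [← h1, ← h2, abs_mul, abs_of_pos hn] at hk
  have h3 : |Real.sin v.arg| ≤ Real.sqrt 3 * Real.cos v.arg := by
    have : ‖v‖ * |Real.sin v.arg| ≤ ‖v‖ * (Real.sqrt 3 * Real.cos v.arg) := by linarith
    exact le_of_mul_le_mul_left this hn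
  have hs3 : 0 < Real.sqrt 3 := Real.sqrt_pos.2 (by norm_num)
  have hcos0 : 0 ≤ Real.cos v.arg := by
    have := (abs_nonneg (Real.sin v.arg)).trans h3
    exact nonneg_of_mul_nonneg_right this hs3
  have harg : |v.arg| ≤ Real.pi := Complex.abs_arg_le_pi v
  by_contra hcon
  push Not at hcon
  have hc2 : Real.cos v.arg < 1 / 2 := by
    rw [← Real.cos_abs, ← Real.cos_pi_div_three]
    exact Real.cos_lt_cos_of_nonneg_of_le_pi (by positivity) harg hcon
  have hsq := Real.sin_sq_add_cos_sq v.arg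
  have h5 : |Real.sin v.arg| ^ 2 ≤ 3 * Real.cos v.arg ^ 2 := by
    have h6 := mul_self_le_mul_self (abs_nonneg _) h3
    nlinarith [sqrt3_sq]
  rw [sq_abs] at h5
  nlinarith

theorem exists_log {v : ℂ} (hv : v ∈ KK) (hv0 : v ≠ 0) :
    ∃ ζ : ℂ, |ζ.im| ≤ Real.pi ∧ Complex.exp (ζ / 3) = v := by
  refine ⟨3 * Complex.log v, ?_, ?_⟩
  · have : (3 * Complex.log v).im = 3 * v.arg := by
      have : (3 : ℂ) = ((3 : ℝ) : ℂ) := by norm_num
      rw [this, Complex.im_ofReal_mul, Complex.log_im]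
    rw [this, abs_mul]
    have := arg_le_of_mem_KK hv hv0
    norm_num
    linarith
  · rw [mul_div_cancel_left₀ _ (by norm_num), Complex.exp_log hv0]

theorem PL_sector {G : ℂ → ℂ} (hG : ∀ v ∈ KK, v ≠ 0 → DifferentiableAt ℂ G v)
    (hG0 : ∀ v ∈ KK, v ≠ 0 → G v ≠ 0)
    (hend : ∃ r R m C : ℝ, 0 < r ∧ 0 < m ∧ ∀ v ∈ KK, v ≠ 0 → (‖v‖ ≤ r ∨ R ≤ ‖v‖) →
      m ≤ ‖G v‖ ∧ ‖G v‖ ≤ C)
    (hprod : ∀ v ∈ KK, v ≠ 0 → v.im ≤ 0 →
      2 ≤ ‖G v * G (-(om ^ 2) * v)‖ ∧ ‖G v * G (-(om ^ 2) * v)‖ ≤ 4) :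
    ∀ v ∈ KK, v ≠ 0 → 1 ≤ ‖G v‖ ∧ ‖G v‖ ≤ 2 * Real.sqrt 2 := by
  have hpi := Real.pi_pos
  obtain ⟨r, R, m, C, hr, hm, hend⟩ := hend
  let g : ℂ → ℂ := fun ζ => G (Complex.exp (ζ / 3))
  have hgd : ∀ z : ℂ, |z.im| ≤ Real.pi → DifferentiableAt ℂ g z := by
    intro z hz
    have h1 : DifferentiableAt ℂ (fun w : ℂ => Complex.exp (w / 3)) z := by fun_prop
    exact DifferentiableAt.comp (f := fun w : ℂ => Complex.exp (w / 3)) (g := G) z
      (hG _ (mem_KK_exp hz) (Complex.exp_ne_zero _)) h1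
  have hg0 : ∀ z : ℂ, |z.im| ≤ Real.pi → g z ≠ 0 := fun z hz =>
    hG0 _ (mem_KK_exp hz) (Complex.exp_ne_zero _)
  -- large real part
  obtain ⟨L, hL⟩ : ∃ L : ℝ, ∀ z : ℂ, |z.im| ≤ Real.pi → L ≤ |z.re| → m ≤ ‖g z‖ ∧ ‖g z‖ ≤ C := by
    refine ⟨max 1 (max (3 * |Real.log r|) (3 * R)), fun z hz hL => ?_⟩
    apply hend _ (mem_KK_exp hz) (Complex.exp_ne_zero _)
    rw [Complex.norm_exp]
    have hre : (z / 3).re = z.re / 3 := by
      have : z / 3 = z / ((3 : ℝ) : ℂ) := by norm_num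
      rw [this, Complex.div_ofReal_re]
    rw [hre]
    have h1 := (le_max_right _ _).trans hL
    have h2 := (le_max_left _ _).trans h1
    have h3 := (le_max_right _ _).trans h1
    rcases le_or_gt 0 z.re with h | h
    · right
      rw [abs_of_nonneg h] at h3
      have := Real.add_one_le_exp (z.re / 3)
      linarith
    · left
      rw [abs_of_neg h] at h2
      have h4 : z.re / 3 ≤ Real.log r := by
        have := neg_abs_le (Real.log r)
        linarith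
      calc Real.exp (z.re / 3) ≤ Real.exp (Real.log r) := Real.exp_le_exp.2 h4
        _ = r := Real.exp_log hr
  -- the product relation
  have hexp : ∀ z : ℂ, Complex.exp ((z + Real.pi * I) / 3) = -(om ^ 2) * Complex.exp (z / 3) := by
    intro z
    have : (z + Real.pi * I) / 3 = z / 3 + ((Real.pi / 3 : ℝ) : ℂ) * I := by push_cast; ring
    rw [this, Complex.exp_add, mul_comm]
    congr 1
    rw [Complex.exp_mul_I, ← Complex.ofReal_cos, ← Complex.ofReal_sin, Real.cos_pi_div_three,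
      Real.sin_pi_div_three, om_sq]
    apply Complex.ext
    · simp; norm_num
    · simp
  have hp : ∀ z : ℂ, -Real.pi ≤ z.im → z.im ≤ 0 →
      2 ≤ ‖g z * g (z + Real.pi * I)‖ ∧ ‖g z * g (z + Real.pi * I)‖ ≤ 4 := by
    intro z h0 h1
    have hz : |z.im| ≤ Real.pi := abs_le.2 ⟨h0, by linarith⟩
    have him : (Complex.exp (z / 3)).im ≤ 0 := by
      have him2 : (z / 3).im = z.im / 3 := by
        have : z / 3 = z / ((3 : ℝ) : ℂ) := by norm_num
        rw [this, Complex.div_ofReal_im]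
      rw [Complex.exp_im, him2]
      have : Real.sin (z.im / 3) ≤ 0 := by
        apply Real.sin_nonpos_of_nonpos_of_neg_pi_le <;> linarith
      exact mul_nonpos_of_nonneg_of_nonpos (Real.exp_pos _).le this
    have := hprod _ (mem_KK_exp hz) (Complex.exp_ne_zero _) him
    simp only [g]
    rw [hexp]
    exact this
  -- middle lines
  have hm1 : ∀ z : ℂ, z.im = Real.pi / 2 → Real.sqrt 2 ≤ ‖g z‖ ∧ ‖g z‖ ≤ 2 := by
    intro z hz
    refine mid_bound (g := g) ?_ ?_ ⟨L, m, C, hm, ?_⟩ ?_ z hz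
    · intro w h0 h1; exact hgd w (abs_le.2 ⟨by linarith, h1⟩)
    · intro w h0 h1; exact hg0 w (abs_le.2 ⟨by linarith, h1⟩)
    · intro w h0 h1 h2; exact hL w (abs_le.2 ⟨by linarith, h1⟩) h2
    · intro w hw; exact hp w (by linarith) (by linarith)
  have hm2 : ∀ z : ℂ, z.im = -(Real.pi / 2) → Real.sqrt 2 ≤ ‖g z‖ ∧ ‖g z‖ ≤ 2 := by
    intro z hz
    have him : ∀ w : ℂ, (w - Real.pi * I).im = w.im - Real.pi := by intro w; simp
    have hre : ∀ w : ℂ, (w - Real.pi * I).re = w.re := by intro w; simp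
    have key := mid_bound (g := fun w => g (w - Real.pi * I)) ?_ ?_ ⟨L, m, C, hm, ?_⟩ ?_
      (z + Real.pi * I) (by simp [hz]; ring)
    · simpa using key
    · intro w h0 h1
      have h4 : DifferentiableAt ℂ (fun w : ℂ => w - Real.pi * I) w := by fun_prop
      exact DifferentiableAt.comp (f := fun w : ℂ => w - Real.pi * I) (g := g) w
        (hgd _ (by rw [him]; exact abs_le.2 ⟨by linarith, by linarith⟩)) h4
    · intro w h0 h1; exact hg0 _ (by rw [him]; exact abs_le.2 ⟨by linarith, by linarith⟩)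
    · intro w h0 h1 h2
      exact hL _ (by rw [him]; exact abs_le.2 ⟨by linarith, by linarith⟩) (by rw [hre]; exact h2)
    · intro w hw
      have := hp (w - Real.pi * I) (by rw [him]; linarith) (by rw [him]; linarith)
      simpa using this
  -- the middle strip
  have hmid : ∀ z : ℂ, |z.im| ≤ Real.pi / 2 → Real.sqrt 2 ≤ ‖g z‖ ∧ ‖g z‖ ≤ 2 := by
    intro z hz
    obtain ⟨hz1, hz2⟩ := abs_le.mp hz
    have hs2 : 0 < Real.sqrt 2 := Real.sqrt_pos.2 (by norm_num)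
    have hup : ‖g z‖ ≤ 2 := by
      refine strip_bound (f := g) (a := -(Real.pi / 2)) (b := Real.pi / 2) (C := 2) (by linarith)
        ?_ ⟨L, C, ?_⟩ ?_ ?_ z hz1 hz2
      · intro w h0 h1; exact hgd w (abs_le.2 ⟨by linarith, by linarith⟩)
      · intro w h0 h1 h2; exact (hL w (abs_le.2 ⟨by linarith, by linarith⟩) h2).2
      · intro w hw; exact (hm2 w hw).2
      · intro w hw; exact (hm1 w hw).2
    have hlo : ‖(g z)⁻¹‖ ≤ (Real.sqrt 2)⁻¹ := by
      refine strip_bound (f := fun w => (g w)⁻¹) (a := -(Real.pi / 2)) (b := Real.pi / 2)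
        (C := (Real.sqrt 2)⁻¹) (by linarith) ?_ ⟨L, m⁻¹, ?_⟩ ?_ ?_ z hz1 hz2
      · intro w h0 h1
        exact (hgd w (abs_le.2 ⟨by linarith, by linarith⟩)).inv
          (hg0 w (abs_le.2 ⟨by linarith, by linarith⟩))
      · intro w h0 h1 h2
        rw [norm_inv]
        exact inv_anti₀ hm (hL w (abs_le.2 ⟨by linarith, by linarith⟩) h2).1
      · intro w hw
        rw [norm_inv]
        exact inv_anti₀ hs2 (hm2 w hw).1
      · intro w hw
        rw [norm_inv]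
        exact inv_anti₀ hs2 (hm1 w hw).1
    refine ⟨?_, hup⟩
    have hpos : 0 < ‖g z‖ := norm_pos_iff.2 (hg0 z (abs_le.2 ⟨by linarith, by linarith⟩))
    rw [norm_inv] at hlo
    exact (inv_le_inv₀ hpos hs2).1 hlo
  -- the whole strip
  have hs2 : 0 < Real.sqrt 2 := Real.sqrt_pos.2 (by norm_num)
  have hs22 : Real.sqrt 2 * Real.sqrt 2 = 2 := Real.mul_self_sqrt (by norm_num)
  have hs21 : 1 ≤ Real.sqrt 2 := by nlinarith
  have hs23 : Real.sqrt 2 ≤ 3 / 2 := by nlinarith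
  have aux : ∀ x y : ℝ, Real.sqrt 2 ≤ x → x ≤ 2 → 0 ≤ y → 2 ≤ x * y → x * y ≤ 4 →
      1 ≤ y ∧ y ≤ 2 * Real.sqrt 2 := by
    intro x y h1 h2 h3 h4 h5
    constructor
    · nlinarith
    · have : Real.sqrt 2 * y ≤ 4 := by nlinarith
      nlinarith
  intro v hv hv0
  obtain ⟨ζ, hζ, rfl⟩ := exists_log hv hv0
  change 1 ≤ ‖g ζ‖ ∧ ‖g ζ‖ ≤ 2 * Real.sqrt 2
  obtain ⟨hζ1, hζ2⟩ := abs_le.mp hζ
  rcases le_or_gt (Real.pi / 2) ζ.im with h | h
  · have him : (ζ - Real.pi * I).im = ζ.im - Real.pi := by simp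
    have h1 := hmid (ζ - Real.pi * I) (by rw [him]; exact abs_le.2 ⟨by linarith, by linarith⟩)
    have h2 := hp (ζ - Real.pi * I) (by rw [him]; linarith) (by rw [him]; linarith)
    rw [sub_add_cancel, norm_mul] at h2
    exact aux _ _ h1.1 h1.2 (norm_nonneg _) h2.1 h2.2
  · rcases le_or_gt ζ.im (-(Real.pi / 2)) with h' | h'
    · have him : (ζ + Real.pi * I).im = ζ.im + Real.pi := by simp
      have h1 := hmid (ζ + Real.pi * I) (by rw [him]; exact abs_le.2 ⟨by linarith, by linarith⟩)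
      have h2 := hp ζ hζ1 (by linarith)
      rw [norm_mul, mul_comm] at h2
      exact aux _ _ h1.1 h1.2 (norm_nonneg _) h2.1 h2.2
    · have h1 := hmid ζ (abs_le.2 ⟨h'.le, h.le⟩)
      constructor
      · linarith [h1.1]
      · nlinarith [h1.2]

end Pool.Agent.H21.Stair
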